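import Pool.Agent.H961R2.Lev.Stubs

open Finset

namespace H961Lev

/-- swapping the two finite sums -/
theorem C5_swap (N : ℕ) (p : ℤ → ℤ) (g : ℤ → ℝ) (K K' : ℤ) (hp : ∀ t, K < |t| → p t = 0)
    (hK : 0 ≤ K) (hKK : K + N ≤ K') :
    ∑ t ∈ Icc (-K') K', (∑ k ∈ range N, (p (t - k) : ℝ)) * g t =
      ∑ t ∈ Icc (-K') K', (p t : ℝ) * ∑ k ∈ range N, g (t + k) := by
  have h1 : ∑ t ∈ Icc (-K') K', (∑ k ∈ range N, (p (t - k) : ℝ)) * g t =
      ∑ k ∈ range N, ∑ t ∈ Icc (-K') K', (p (t - k) : ℝ) * g t := by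
    rw [sum_comm]
    exact sum_congr rfl fun t _ => sum_mul _ _ _
  have h2 : ∑ t ∈ Icc (-K') K', (p t : ℝ) * ∑ k ∈ range N, g (t + k) =
      ∑ k ∈ range N, ∑ t ∈ Icc (-K') K', (p t : ℝ) * g (t + k) := by
    rw [sum_comm]
    exact sum_congr rfl fun t _ => mul_sum _ _ _
  rw [h1, h2]
  refine sum_congr rfl fun k hk => ?_
  have hkN : (k : ℤ) < N := by exact_mod_cast mem_range.mp hk
  have hk0 : (0 : ℤ) ≤ k := Int.natCast_nonneg k
  have e1 : ∑ t ∈ Icc (-K') K', (p (t - k) : ℝ) * g t =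
      ∑ s ∈ Icc (-K' - k) (K' - k), (p s : ℝ) * g (s + k) := by
    refine sum_nbij' (fun t => t - k) (fun s => s + k) ?_ ?_ ?_ ?_ ?_
    · intro t ht; rw [mem_Icc] at ht ⊢; constructor <;> linarith [ht.1, ht.2]
    · intro t ht; rw [mem_Icc] at ht ⊢; constructor <;> linarith [ht.1, ht.2]
    · intro t _; ring
    · intro t _; ring
    · intro t _; rw [sub_add_cancel]
  have e2 : ∑ s ∈ Icc (-K' - k) (K' - k), (p s : ℝ) * g (s + k) =
      ∑ s ∈ Icc (-K) K, (p s : ℝ) * g (s + k) := by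
    symm
    apply sum_subset
    · intro s hs; rw [mem_Icc] at hs ⊢; constructor <;> linarith [hs.1, hs.2]
    · intro s _ hs
      have : K < |s| := by
        by_contra hh
        push Not at hh
        exact hs (mem_Icc.mpr (abs_le.mp hh))
      rw [hp s this]; simp
  have e3 : ∑ s ∈ Icc (-K') K', (p s : ℝ) * g (s + k) =
      ∑ s ∈ Icc (-K) K, (p s : ℝ) * g (s + k) := by
    symm
    apply sum_subset
    · intro s hs; rw [mem_Icc] at hs ⊢; constructor <;> linarith [hs.1, hs.2]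
    · intro s _ hs
      have : K < |s| := by
        by_contra hh
        push Not at hh
        exact hs (mem_Icc.mpr (abs_le.mp hh))
      rw [hp s this]; simp
  rw [e1, e2, e3]

theorem C5_id1 (D g : ℝ) :
    max (-D) 0 * min 1 g - max D 0 * max (g - 1) 0 = (|D| * (1 - |g - 1|) - D * g) / 2 := by
  rcases le_total 0 D with hD | hD <;> rcases le_total 0 (g - 1) with hg | hg
  · rw [max_eq_right (by linarith), max_eq_left hD, min_eq_left (by linarith), max_eq_left hg,
      abs_of_nonneg hD, abs_of_nonneg hg]; ring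
  · rw [max_eq_right (by linarith), max_eq_left hD, min_eq_right (by linarith), max_eq_right hg,
      abs_of_nonneg hD, abs_of_nonpos hg]; ring
  · rw [max_eq_left (by linarith), max_eq_right hD, min_eq_left (by linarith), max_eq_left hg,
      abs_of_nonpos hD, abs_of_nonneg hg]; ring
  · rw [max_eq_left (by linarith), max_eq_right hD, min_eq_right (by linarith), max_eq_right hg,
      abs_of_nonpos hD, abs_of_nonpos hg]; ring

theorem C5_id2 (p m F : ℝ) :
    max p 0 * (m - 1) - max (-p) 0 * (F - m - 1) = (|p| * (2 * m - F) + p * (F - 2)) / 2 := by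
  rcases le_total 0 p with hp | hp
  · rw [max_eq_left hp, max_eq_right (by linarith), abs_of_nonneg hp]; ring
  · rw [max_eq_right hp, max_eq_left (by linarith), abs_of_nonpos hp]; ring

/-- the case `c = 1` -/
theorem C5_one (h3 : S_C3) (h4 : S_C4) (N m : ℕ) (ψ : ℤ → ℝ) (hm : 1 ≤ m) (hmN : m + 1 ≤ N)
    (h : C9 N m 1 ψ) :
    ∃ a b : ℤ → ℝ, C9 N (m + 1) 1 a ∧ C9 N (m - 1) 1 b ∧ ∀ t, ψ t + ψ (t - 1) = a t + b t := by
  obtain ⟨h01, hw⟩ := h
  simp only [mul_one] at hw
  set g : ℤ → ℝ := fun t => ψ t + ψ (t - 1) with hg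
  have hPhi : ∀ t : ℤ, ∑ k ∈ range N, g (t + k) =
      ∑ k ∈ range N, ψ (t + k) + ∑ k ∈ range N, ψ (t - 1 + k) := by
    intro t
    rw [← sum_add_distrib]
    refine sum_congr rfl fun k _ => ?_
    simp only [hg]
    rw [show t + (k : ℤ) - 1 = t - 1 + k by ring]
  have hg0 : ∀ t, 0 ≤ g t := fun t => add_nonneg (h01 t).1 (h01 (t - 1)).1
  have hg2 : ∀ t, g t ≤ 2 := fun t => by
    have := (h01 t).2; have := (h01 (t - 1)).2; simp only [hg]; linarith
  have hPhi2 : ∀ t : ℤ, ∑ k ∈ range N, g (t + k) ≤ 2 * m := by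
    intro t; rw [hPhi]; linarith [hw t, hw (t - 1)]
  obtain ⟨b, hb⟩ := h4 N (fun t => max (g t - 1) 0) (fun t => min 1 (g t))
    (fun t => ∑ k ∈ range N, g (t + k) - m - 1) (fun _ => (m : ℝ) - 1) (by
      intro t
      refine ⟨le_max_right _ _, ?_, min_le_left _ _, ?_⟩
      · refine max_le (le_min ?_ ?_) (le_min zero_le_one (hg0 t))
        · linarith [hg2 t]
        · linarith
      · show ∑ k ∈ range N, g (t + k) - m - 1 ≤ (m : ℝ) - 1
        linarith [hPhi2 t]) (by
      intro p K K' hK hp hKK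
      have key := h3 N m K K' ψ p (by exact_mod_cast hm) (by exact_mod_cast hmN) h01
        (by intro t; exact_mod_cast hw t) hp hK hKK
      have hs := C5_swap N p g K K' hp hK hKK
      have e : ∀ t ∈ Icc (-K') K',
          (max (-(∑ k ∈ Finset.range N, (p (t - k) : ℝ))) 0 * min 1 (g t)
            - max (∑ k ∈ Finset.range N, (p (t - k) : ℝ)) 0 * max (g t - 1) 0
            + max (p t : ℝ) 0 * ((m : ℝ) - 1)
            - max (-(p t : ℝ)) 0 * (∑ k ∈ range N, g (t + k) - m - 1)) =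
          (|∑ k ∈ Finset.range N, (p (t - k) : ℝ)| * (1 - |ψ t + ψ (t - 1) - 1|) +
            |(p t : ℝ)| * (2 * ((m : ℤ) : ℝ) - ∑ k ∈ Finset.range N, ψ (t + k)
              - ∑ k ∈ Finset.range N, ψ (t - 1 + k))) / 2
          - (∑ k ∈ range N, (p (t - k) : ℝ)) * g t / 2
          + (p t : ℝ) * (∑ k ∈ range N, g (t + k)) / 2 - (p t : ℝ) := by
        intro t _
        have i1 := C5_id1 (∑ k ∈ Finset.range N, (p (t - k) : ℝ)) (g t)
        have i2 := C5_id2 (p t) m (∑ k ∈ range N, g (t + k))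
        have i3 := hPhi t
        have i4 : g t = ψ t + ψ (t - 1) := rfl
        rw [show ψ t + ψ (t - 1) - 1 = g t - 1 from rfl]
        have i5 : (2 * ((m : ℤ) : ℝ) - ∑ k ∈ Finset.range N, ψ (t + k)
              - ∑ k ∈ Finset.range N, ψ (t - 1 + k)) = 2 * m - ∑ k ∈ range N, g (t + k) := by
          rw [i3]; push_cast; ring
        rw [i5]
        linear_combination i1 + i2
      have e' : ∑ t ∈ Icc (-K') K',
          (max (-(∑ k ∈ Finset.range N, (p (t - k) : ℝ))) 0 * min 1 (g t)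
            - max (∑ k ∈ Finset.range N, (p (t - k) : ℝ)) 0 * max (g t - 1) 0
            + max (p t : ℝ) 0 * ((m : ℝ) - 1)
            - max (-(p t : ℝ)) 0 * (∑ k ∈ range N, g (t + k) - m - 1)) =
          (∑ t ∈ Icc (-K') K', (|∑ k ∈ Finset.range N, (p (t - k) : ℝ)| * (1 - |ψ t + ψ (t - 1) - 1|) +
            |(p t : ℝ)| * (2 * ((m : ℤ) : ℝ) - ∑ k ∈ Finset.range N, ψ (t + k)
              - ∑ k ∈ Finset.range N, ψ (t - 1 + k)))) / 2
          - (∑ t ∈ Icc (-K') K', (∑ k ∈ range N, (p (t - k) : ℝ)) * g t) / 2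
          + (∑ t ∈ Icc (-K') K', (p t : ℝ) * (∑ k ∈ range N, g (t + k))) / 2
          - ∑ t ∈ Icc (-K') K', (p t : ℝ) := by
        rw [sum_congr rfl e, sum_sub_distrib, sum_add_distrib, sum_sub_distrib, sum_div, sum_div,
          sum_div]
      rw [e', hs]
      linarith)
  refine ⟨fun t => g t - b t, b, ⟨?_, ?_⟩, ⟨?_, ?_⟩, ?_⟩
  · intro t
    obtain ⟨h1, h2, -, -⟩ := hb t
    have := min_le_right 1 (g t)
    have := le_max_left (g t - 1) 0
    constructor <;> linarith
  · intro t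
    obtain ⟨-, -, h3, -⟩ := hb t
    rw [sum_sub_distrib]
    linarith
  · intro t
    obtain ⟨h1, h2, -, -⟩ := hb t
    have := min_le_left 1 (g t)
    have := le_max_right (g t - 1) 0
    constructor <;> linarith
  · intro t
    obtain ⟨-, -, -, h3⟩ := hb t
    linarith
  · intro t
    simp only [hg]
    ring

theorem T_C5 : S_C3 → S_C4 → S_C5 := by
  intro h3 h4 N m c ψ hm hmN h
  have hc0 : 0 ≤ c := le_trans (h.1 0).1 (h.1 0).2
  rcases hc0.eq_or_lt with hc | hc
  · subst hc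
    have hψ : ∀ t, ψ t = 0 := fun t => le_antisymm (h.1 t).2 (h.1 t).1
    refine ⟨fun _ => 0, fun _ => 0, ⟨by simp, by simp⟩, ⟨by simp, by simp⟩, ?_⟩
    intro t; rw [hψ, hψ]
  · have h1 : C9 N m 1 (fun t => ψ t / c) := by
      refine ⟨fun i => ⟨div_nonneg (h.1 i).1 hc.le, ?_⟩, fun i => ?_⟩
      · rw [div_le_one hc]; exact (h.1 i).2
      · rw [← sum_div, mul_one, div_le_iff₀ hc]; exact h.2 i
    obtain ⟨a, b, ha, hb, hab⟩ := C5_one h3 h4 N m _ hm hmN h1
    refine ⟨fun t => c * a t, fun t => c * b t, ⟨fun i => ⟨mul_nonneg hc.le (ha.1 i).1, ?_⟩, fun i => ?_⟩,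
      ⟨fun i => ⟨mul_nonneg hc.le (hb.1 i).1, ?_⟩, fun i => ?_⟩, ?_⟩
    · have := mul_le_mul_of_nonneg_left (ha.1 i).2 hc.le
      simpa using this
    · rw [← mul_sum]
      have := mul_le_mul_of_nonneg_left (ha.2 i) hc.le
      linarith
    · have := mul_le_mul_of_nonneg_left (hb.1 i).2 hc.le
      simpa using this
    · rw [← mul_sum]
      have := mul_le_mul_of_nonneg_left (hb.2 i) hc.le
      linarith
    · intro t
      have := hab t
      rw [← mul_add, ← this]
      field_simp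

end H961Lev
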