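import Pool.Agent.H961R2.Lev.Stubs

open Finset

namespace H961Lev

theorem C6_ind (N s : ℕ) (k j : ℤ) (h : |j| + s < N) :
    ind N s (k * N + j) = if |j| ≤ s then 1 else 0 := by
  unfold ind
  by_cases hj : |j| ≤ (s : ℤ)
  · rw [if_pos hj, if_pos]
    refine ⟨k, ?_⟩
    rwa [show k * (N : ℤ) + j - k * N = j by ring]
  · rw [if_neg hj, if_neg]
    rintro ⟨k', hk'⟩
    by_cases hkk : k' = k
    · subst hkk
      apply hj
      rwa [show k' * (N : ℤ) + j - k' * N = j by ring] at hk'
    · have h1 : (N : ℤ) ≤ |(k - k') * N| := by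
        rw [abs_mul, abs_of_nonneg (Int.natCast_nonneg N)]
        have : 1 ≤ |k - k'| := Int.one_le_abs (sub_ne_zero.mpr (Ne.symm hkk))
        have hN := Int.natCast_nonneg N
        nlinarith
      have h2 : |(k - k') * (N : ℤ)| ≤ |k * (N : ℤ) + j - k' * N| + |j| := by
        have := abs_sub (k * (N : ℤ) + j - k' * N) j
        rwa [show k * (N : ℤ) + j - k' * N - j = (k - k') * N by ring] at this
      linarith

/-- representative in `[-R, R]` -/
theorem C6_rep (N R : ℕ) (hN : N = 2 * R + 1) (i : ℤ) : ∃ k j : ℤ, i = k * N + j ∧ |j| ≤ R := by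
  refine ⟨(i + R) / N, (i + R) % N - R, ?_, ?_⟩
  · have := Int.mul_ediv_add_emod (i + R) N
    linarith
  · have h1 := Int.emod_nonneg (i + R) (b := (N : ℤ)) (by omega)
    have h2 := Int.emod_lt_of_pos (i + R) (b := (N : ℤ)) (by omega)
    rw [abs_le]
    constructor <;> omega

theorem C6_indR (N R : ℕ) (hN : N = 2 * R + 1) (i : ℤ) : ind N R i = 1 := by
  obtain ⟨k, j, rfl, hj⟩ := C6_rep N R hN i
  unfold ind
  rw [if_pos]
  refine ⟨k, ?_⟩
  rwa [show k * (N : ℤ) + j - k * N = j by ring]

theorem C6_shift {N : ℕ} {m c : ℝ} {ψ : ℤ → ℝ} (h : C9 N m c ψ) (s : ℤ) :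
    C9 N m c (fun t => ψ (t + s)) := by
  refine ⟨fun i => h.1 _, fun i => ?_⟩
  have := h.2 (i + s)
  refine le_of_eq_of_le (sum_congr rfl fun k _ => ?_) this
  show ψ (i + (k : ℤ) + s) = ψ (i + s + k)
  rw [show i + (k : ℤ) + s = i + s + k by ring]

theorem C6_scale {N : ℕ} {m c : ℝ} {ψ : ℤ → ℝ} (h : C9 N m c ψ) {l : ℝ} (hl : 0 ≤ l) :
    C9 N m (l * c) (fun t => l * ψ t) := by
  refine ⟨fun i => ⟨mul_nonneg hl (h.1 i).1, mul_le_mul_of_nonneg_left (h.1 i).2 hl⟩, fun i => ?_⟩
  rw [← mul_sum]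
  have := mul_le_mul_of_nonneg_left (h.2 i) hl
  linarith

theorem C6_add {N : ℕ} {m c c' : ℝ} {ψ ψ' : ℤ → ℝ} (h : C9 N m c ψ) (h' : C9 N m c' ψ') :
    C9 N m (c + c') (fun t => ψ t + ψ' t) := by
  refine ⟨fun i => ⟨add_nonneg (h.1 i).1 (h'.1 i).1, add_le_add (h.1 i).2 (h'.1 i).2⟩, fun i => ?_⟩
  rw [sum_add_distrib]
  have := add_le_add (h.2 i) (h'.2 i)
  linarith

theorem C6_zero (N : ℕ) (m : ℝ) : C9 N m 0 (fun _ => 0) := ⟨by simp, by simp⟩

theorem C6_zero_of {N : ℕ} (hN : 0 < N) {c : ℝ} {ψ : ℤ → ℝ} (h : C9 N 0 c ψ) (t : ℤ) : ψ t = 0 := by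
  refine le_antisymm ?_ (h.1 t).1
  have h1 := h.2 t
  rw [zero_mul] at h1
  have h2 : ψ (t + ((0 : ℕ) : ℤ)) ≤ ∑ k ∈ range N, ψ (t + k) :=
    single_le_sum (f := fun k : ℕ => ψ (t + k)) (fun k _ => (h.1 _).1) (mem_range.mpr hN)
  simp only [Nat.cast_zero, add_zero] at h2
  linarith

theorem C6_A2 (a b ψ : ℤ → ℝ) (h : ∀ t, ψ t + ψ (t - 1) = a t + b t) (i : ℤ) :
    A2 ψ i = ((a (i + 1) + a i) + (b (i + 1) + b i)) / 4 := by
  unfold A2
  have h1 := h i
  have h2 := h (i + 1)
  rw [add_sub_cancel_right] at h2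
  linarith

/-- the top case `r = R` -/
theorem C6_top (N R : ℕ) (c : ℝ) (ψ : ℤ → ℝ) (hN : N = 2 * R + 1) (h : C9 N (2 * R + 1) c ψ) :
    ∃ (c' : ℕ → ℝ) (ψ' : ℕ → ℤ → ℝ), (∀ r' ≤ R, C9 N (2 * r' + 1) (c' r') (ψ' r')) ∧
    (∀ i, A2 ψ i = ∑ r' ∈ Finset.range (R + 1), ψ' r' i) ∧
    (∀ i, A2 (fun i => c * ind N R i) i = ∑ r' ∈ Finset.range (R + 1), c' r' * ind N r' i) := by
  have hb : ∀ i, 0 ≤ A2 ψ i ∧ A2 ψ i ≤ c := by
    intro i
    have h1 := h.1 (i - 1)
    have h2 := h.1 i
    have h3 := h.1 (i + 1)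
    unfold A2
    constructor <;> linarith [h1.1, h1.2, h2.1, h2.2, h3.1, h3.2]
  refine ⟨fun r' => if r' = R then c else 0, fun r' => if r' = R then A2 ψ else fun _ => 0,
    ?_, ?_, ?_⟩
  · intro r' _
    by_cases hr : r' = R
    · subst hr
      simp only [if_true]
      refine ⟨hb, fun i => ?_⟩
      calc ∑ k ∈ range N, A2 ψ (i + k) ≤ ∑ k ∈ range N, c := sum_le_sum fun k _ => (hb _).2
        _ = (2 * (r' : ℝ) + 1) * c := by
          rw [sum_const, card_range, nsmul_eq_mul, hN]; push_cast; ring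
    · simp only [hr, if_false]
      exact C6_zero _ _
  · intro i
    rw [sum_eq_single R]
    · simp
    · intro b _ hb'; simp [hb']
    · intro h'; exact absurd (mem_range.mpr (Nat.lt_succ_self R)) h'
  · intro i
    rw [sum_eq_single R]
    · simp only [if_true, A2, C6_indR N R hN]; ring
    · intro b _ hb'; simp [hb']
    · intro h'; exact absurd (mem_range.mpr (Nat.lt_succ_self R)) h'

theorem C6_model0 (N R : ℕ) (hN : N = 2 * R + 1) (hR : 1 ≤ R) (c : ℝ) (i : ℤ) :
    A2 (fun i => c * ind N 0 i) i = c / 4 * ind N 0 i + c / 4 * ind N 1 i := by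
  obtain ⟨k, j, rfl, hj⟩ := C6_rep N R hN i
  rw [abs_le] at hj
  have e1 := C6_ind N 0 k (j - 1) (by rcases abs_cases (j - 1) with h | h <;> omega)
  have e2 := C6_ind N 0 k j (by rcases abs_cases j with h | h <;> omega)
  have e3 := C6_ind N 0 k (j + 1) (by rcases abs_cases (j + 1) with h | h <;> omega)
  have e4 := C6_ind N 1 k j (by rcases abs_cases j with h | h <;> omega)
  unfold A2
  rw [show k * (N : ℤ) + j - 1 = k * N + (j - 1) by ring,
    show k * (N : ℤ) + j + 1 = k * N + (j + 1) by ring]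
  simp only [e1, e2, e3, e4, abs_le]
  split_ifs <;> first
    | (exfalso; push_cast at *; omega)
    | ring

theorem C6_model1 (N R r : ℕ) (hN : N = 2 * R + 1) (hR : r + 1 < R) (c : ℝ) (i : ℤ) :
    A2 (fun i => c * ind N (r + 1) i) i =
      c / 4 * ind N r i + c / 2 * ind N (r + 1) i + c / 4 * ind N (r + 2) i := by
  obtain ⟨k, j, rfl, hj⟩ := C6_rep N R hN i
  rw [abs_le] at hj
  have e1 := C6_ind N (r + 1) k (j - 1) (by
    rcases abs_cases (j - 1) with h | h <;> push_cast <;> omega)
  have e2 := C6_ind N (r + 1) k j (by rcases abs_cases j with h | h <;> push_cast <;> omega)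
  have e3 := C6_ind N (r + 1) k (j + 1) (by
    rcases abs_cases (j + 1) with h | h <;> push_cast <;> omega)
  have e4 := C6_ind N r k j (by rcases abs_cases j with h | h <;> omega)
  have e5 := C6_ind N (r + 2) k j (by
    rcases abs_cases j with h | h <;> push_cast <;> omega)
  unfold A2
  rw [show k * (N : ℤ) + j - 1 = k * N + (j - 1) by ring,
    show k * (N : ℤ) + j + 1 = k * N + (j + 1) by ring]
  simp only [e1, e2, e3, e4, e5, abs_le]
  split_ifs <;> first
    | (exfalso; push_cast at *; omega)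
    | ring

theorem T_C6 : S_C5 → S_C6 := by
  intro h5 N R r c ψ hN hr h
  rcases hr.eq_or_lt with rfl | hr
  · exact C6_top N r c ψ hN h
  obtain _ | r := r
  · -- r = 0
    have h' : C9 N ((1 : ℕ) : ℝ) c ψ := by simpa using h
    obtain ⟨a, b, ha, hb, hab⟩ := h5 N 1 c ψ le_rfl (by omega) h'
    have hb0 : ∀ t, b t = 0 := by
      apply C6_zero_of (N := N) (c := c) (by omega)
      simpa using hb
    have ha' : C9 N ((2 : ℕ) : ℝ) c a := by
      have : ((1 : ℕ) : ℝ) + 1 = ((2 : ℕ) : ℝ) := by norm_num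
      rwa [this] at ha
    obtain ⟨a1, b1, ha1, hb1, hab1⟩ := h5 N 2 c a (by omega) (by omega) ha'
    refine ⟨fun r' => if r' = 0 then c / 4 else if r' = 1 then c / 4 else 0,
      fun r' => if r' = 0 then (fun t => (1 / 4) * b1 (t + 1)) else
        if r' = 1 then (fun t => (1 / 4) * a1 (t + 1)) else fun _ => 0, ?_, ?_, ?_⟩
    · intro r' _
      by_cases h0 : r' = 0
      · subst h0
        simp only [if_true]
        have := C6_scale (C6_shift hb1 1) (l := 1 / 4) (by norm_num)
        have e : (2 : ℝ) * ((0 : ℕ) : ℝ) + 1 = ((2 : ℕ) : ℝ) - 1 := by norm_num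
        rw [e, show c / 4 = 1 / 4 * c by ring]
        exact this
      · by_cases h1 : r' = 1
        · subst h1
          simp only [one_ne_zero, if_false, if_true]
          have := C6_scale (C6_shift ha1 1) (l := 1 / 4) (by norm_num)
          have e : (2 : ℝ) * ((1 : ℕ) : ℝ) + 1 = ((2 : ℕ) : ℝ) + 1 := by norm_num
          rw [e, show c / 4 = 1 / 4 * c by ring]
          exact this
        · simp only [h0, h1, if_false]
          exact C6_zero _ _
    · intro i
      have e1 : ∑ r' ∈ Finset.range (R + 1), (fun r' => if r' = 0 then (fun t => (1 / 4) * b1 (t + 1)) else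
        if r' = 1 then (fun t : ℤ => (1 / 4) * a1 (t + 1)) else fun _ => (0 : ℝ)) r' i =
          ∑ r' ∈ ({0, 1} : Finset ℕ), (fun r' => if r' = 0 then (fun t => (1 / 4) * b1 (t + 1)) else
        if r' = 1 then (fun t : ℤ => (1 / 4) * a1 (t + 1)) else fun _ => (0 : ℝ)) r' i := by
        symm
        apply sum_subset
        · intro x hx; simp only [mem_insert, mem_singleton] at hx; rw [mem_range]; omega
        · intro x _ hx
          simp only [mem_insert, mem_singleton, not_or] at hx
          simp [hx.1, hx.2]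
      rw [e1, sum_pair (by norm_num), C6_A2 a b ψ hab i]
      have := hab1 (i + 1)
      rw [add_sub_cancel_right] at this
      rw [hb0, hb0, this]
      simp
      ring
    · intro i
      have e1 : ∑ r' ∈ Finset.range (R + 1), (fun r' => if r' = 0 then c / 4 else if r' = 1 then c / 4 else 0) r'
          * ind N r' i =
          ∑ r' ∈ ({0, 1} : Finset ℕ), (fun r' => if r' = 0 then c / 4 else if r' = 1 then c / 4 else 0) r'
          * ind N r' i := by
        symm
        apply sum_subset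
        · intro x hx; simp only [mem_insert, mem_singleton] at hx; rw [mem_range]; omega
        · intro x _ hx
          simp only [mem_insert, mem_singleton, not_or] at hx
          simp [hx.1, hx.2]
      rw [e1, sum_pair (by norm_num), C6_model0 N R hN (by omega)]
      simp
  · -- 1 ≤ r
    have h' : C9 N ((2 * r + 3 : ℕ) : ℝ) c ψ := by
      have : (2 * ((r + 1 : ℕ) : ℝ) + 1) = ((2 * r + 3 : ℕ) : ℝ) := by push_cast; ring
      rwa [this] at h
    obtain ⟨a, b, ha, hb, hab⟩ := h5 N (2 * r + 3) c ψ (by omega) (by omega) h'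
    have ha' : C9 N ((2 * r + 4 : ℕ) : ℝ) c a := by
      have : ((2 * r + 3 : ℕ) : ℝ) + 1 = ((2 * r + 4 : ℕ) : ℝ) := by push_cast; ring
      rwa [this] at ha
    have hb' : C9 N ((2 * r + 2 : ℕ) : ℝ) c b := by
      have : ((2 * r + 3 : ℕ) : ℝ) - 1 = ((2 * r + 2 : ℕ) : ℝ) := by push_cast; ring
      rwa [this] at hb
    obtain ⟨a1, b1, ha1, hb1, hab1⟩ := h5 N (2 * r + 4) c a (by omega) (by omega) ha'
    obtain ⟨a2, b2, ha2, hb2, hab2⟩ := h5 N (2 * r + 2) c b (by omega) (by omega) hb'
    refine ⟨fun r' => if r' = r then c / 4 else if r' = r + 1 then c / 2 else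
        if r' = r + 2 then c / 4 else 0,
      fun r' => if r' = r then (fun t => (1 / 4) * b2 (t + 1)) else
        if r' = r + 1 then (fun t => (1 / 4) * b1 (t + 1) + (1 / 4) * a2 (t + 1)) else
        if r' = r + 2 then (fun t => (1 / 4) * a1 (t + 1)) else fun _ => 0, ?_, ?_, ?_⟩
    · intro r' _
      by_cases h0 : r' = r
      · subst h0
        simp only [if_true]
        have := C6_scale (C6_shift hb2 1) (l := 1 / 4) (by norm_num)
        have e : (2 : ℝ) * (r' : ℝ) + 1 = ((2 * r' + 2 : ℕ) : ℝ) - 1 := by push_cast; ring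
        rw [e, show c / 4 = 1 / 4 * c by ring]
        exact this
      · by_cases h1 : r' = r + 1
        · subst h1
          simp only [h0, if_false, if_true]
          have t1 := C6_scale (C6_shift hb1 1) (l := 1 / 4) (by norm_num)
          have t2 := C6_scale (C6_shift ha2 1) (l := 1 / 4) (by norm_num)
          have e : (2 : ℝ) * ((r + 1 : ℕ) : ℝ) + 1 = ((2 * r + 4 : ℕ) : ℝ) - 1 := by push_cast; ring
          have e' : ((2 * r + 2 : ℕ) : ℝ) + 1 = ((2 * r + 4 : ℕ) : ℝ) - 1 := by push_cast; ring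
          rw [e'] at t2
          rw [e, show c / 2 = 1 / 4 * c + 1 / 4 * c by ring]
          exact C6_add t1 t2
        · by_cases h2 : r' = r + 2
          · subst h2
            simp only [h0, h1, if_false, if_true]
            have := C6_scale (C6_shift ha1 1) (l := 1 / 4) (by norm_num)
            have e : (2 : ℝ) * ((r + 2 : ℕ) : ℝ) + 1 = ((2 * r + 4 : ℕ) : ℝ) + 1 := by push_cast; ring
            rw [e, show c / 4 = 1 / 4 * c by ring]
            exact this
          · simp only [h0, h1, h2, if_false]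
            exact C6_zero _ _
    · intro i
      rw [C6_A2 a b ψ hab i]
      have t1 := hab1 (i + 1)
      have t2 := hab2 (i + 1)
      rw [add_sub_cancel_right] at t1 t2
      rw [t1, t2]
      have e1 : ∀ F : ℕ → ℝ, (∀ r', r' ≠ r → r' ≠ r + 1 → r' ≠ r + 2 → F r' = 0) →
          ∑ r' ∈ Finset.range (R + 1), F r' = F r + F (r + 1) + F (r + 2) := by
        intro F hF
        have : ∑ r' ∈ Finset.range (R + 1), F r' = ∑ r' ∈ ({r, r + 1, r + 2} : Finset ℕ), F r' := by
          symm
          apply sum_subset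
          · intro x hx; simp only [mem_insert, mem_singleton] at hx; rw [mem_range]; omega
          · intro x _ hx
            simp only [mem_insert, mem_singleton, not_or] at hx
            exact hF x hx.1 hx.2.1 hx.2.2
        rw [this, sum_insert (by simp), sum_pair (by simp)]
        ring
      rw [e1]
      · simp
        ring
      · intro r' q1 q2 q3
        simp [q1, q2, q3]
    · intro i
      have e1 : ∀ F : ℕ → ℝ, (∀ r', r' ≠ r → r' ≠ r + 1 → r' ≠ r + 2 → F r' = 0) →
          ∑ r' ∈ Finset.range (R + 1), F r' = F r + F (r + 1) + F (r + 2) := by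
        intro F hF
        have : ∑ r' ∈ Finset.range (R + 1), F r' = ∑ r' ∈ ({r, r + 1, r + 2} : Finset ℕ), F r' := by
          symm
          apply sum_subset
          · intro x hx; simp only [mem_insert, mem_singleton] at hx; rw [mem_range]; omega
          · intro x _ hx
            simp only [mem_insert, mem_singleton, not_or] at hx
            exact hF x hx.1 hx.2.1 hx.2.2
        rw [this, sum_insert (by simp), sum_pair (by simp)]
        ring
      rw [e1, C6_model1 N R r hN hr]
      · simp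
      · intro r' q1 q2 q3
        simp [q1, q2, q3]

end H961Lev
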