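import Pool.Agent.H642R2.MOSound

/-!
If the formula is satisfiable then the last man is matched in some weakly stable matching; and the
matching in which all other men get their first choices is weakly stable.
-/

namespace Pool.Agent.NPC.MO

variable {N C : ℕ} {φ : List Cl}

/-! ### the instance is valid -/

theorem ui_zero_one {x i : ℕ} (hN : 0 < N) : ui N C x 0 i ≠ ui N C x 1 i := by
  unfold ui
  have : (2 * x + 1) * N = (2 * x + 0) * N + N := by ring
  omega

theorem sw_le (h : Ok N C φ) (t : ℕ) : sw N C t ≤ k2 N C := by
  have h3 := k0_le_k1 N C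
  have h4 := k1_add N C
  unfold sw
  split <;> omega

theorem br_ok (h : Ok N C φ) {t : ℕ} (ht : t < k0 N C) : (br N C t).Nodup ∧ br N C t ≠ [] ∧
    ∀ w ∈ br N C t, k0 N C ≤ w ∧ w < k2 N C := by
  have h3 := k0_le_k1 N C
  have h4 := k1_add N C
  have h5 := k0_def N C
  have h6 := h.N_pos
  have h7 := h.eq
  unfold br
  split
  · rename_i h1
    have e := ui_zero_one (C := C) (x := t) (i := 0) h6
    have a1 := ui_ge (N := N) (C := C) (x := t) (b := 0) (i := 0)
    have a2 := ui_ge (N := N) (C := C) (x := t) (b := 1) (i := 0)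
    have b1 := ui_lt (C := C) h1 (show 0 < 2 by omega) h6
    have b2 := ui_lt (C := C) h1 (show 1 < 2 by omega) h6
    refine ⟨by simpa using e, by simp, ?_⟩
    intro w hw
    simp only [List.mem_cons, List.not_mem_nil, or_false] at hw
    omega
  · refine ⟨by simp, by simp, ?_⟩
    intro w hw
    simp only [List.mem_cons, List.not_mem_nil, or_false] at hw
    omega

theorem entr_ok (h : Ok N C φ) {t : ℕ} (h0 : 0 < t) (ht : t ≤ k0 N C) :
    (entr N C t).Nodup ∧ entr N C t ≠ [] ∧ ∀ w ∈ entr N C t, k0 N C ≤ w ∧ w < k2 N C := by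
  have h3 := k0_le_k1 N C
  have h4 := k1_add N C
  have h5 := k0_def N C
  have h6 := h.N_pos
  have h7 := h.eq
  unfold entr
  split
  · rename_i h1
    have e := ui_zero_one (C := C) (x := t - 1) (i := N - 1) h6
    have a1 := ui_ge (N := N) (C := C) (x := t - 1) (b := 0) (i := N - 1)
    have a2 := ui_ge (N := N) (C := C) (x := t - 1) (b := 1) (i := N - 1)
    have b1 := ui_lt (C := C) (show t - 1 < N by omega) (show 0 < 2 by omega)
      (show N - 1 < N by omega)
    have b2 := ui_lt (C := C) (show t - 1 < N by omega) (show 1 < 2 by omega)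
      (show N - 1 < N by omega)
    refine ⟨by simpa using e, by simp, ?_⟩
    intro w hw
    simp only [List.mem_cons, List.not_mem_nil, or_false] at hw
    omega
  · refine ⟨by simp, by simp, ?_⟩
    intro w hw
    simp only [List.mem_cons, List.not_mem_nil, or_false] at hw
    omega

theorem nxt_ok (h : Ok N C φ) {μ : ℕ} (h0 : k0 N C ≤ μ) (h1 : μ < k1 N C) :
    nxt N C μ ≠ μ ∧ nxt N C μ ≠ 0 ∧ nxt N C μ ≤ k2 N C := by
  obtain ⟨x, b, i, hx, hb, hi, rfl⟩ := exists_ui h0 h1
  have h3 := k0_le_k1 N C
  have h4 := k1_add N C
  have h5 := k0_def N C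
  have h6 := h.N_pos
  have h7 := h.N_lt
  rw [nxt_ui hi hb]
  split
  · rename_i hlt
    have b2 := ui_lt (C := C) hx hb hlt
    rw [ui_succ] at *
    omega
  · rw [sw_of_lt (by omega)]
    omega

theorem pred_ok (h : Ok N C φ) {w : ℕ} (h0 : k0 N C ≤ w) (h1 : w < k1 N C) :
    pred N C w < w := by
  obtain ⟨x, b, i, hx, hb, hi, rfl⟩ := exists_ui h0 h1
  have h7 := h.N_lt
  rw [pred_ui hi hb]
  split
  · omega
  · have : ui N C x b i = ui N C x b (i - 1) + 1 := by
      rw [← ui_succ, Nat.sub_add_cancel (by omega)]
    omega

theorem uo_ok (h : Ok N C φ) {i : ℕ} (hi : i < N) : k0 N C ≤ uo N C φ i ∧ uo N C φ i < k1 N C :=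
  ⟨ui_ge, ui_lt (h.bdd i hi) (bn_lt _) hi⟩

theorem sw_occ (h : Ok N C φ) {i : ℕ} (hi : i < N) : 0 < sw N C (N + i / 3 + 1) ∧
    (sw N C (N + i / 3 + 1) < k0 N C ∨ sw N C (N + i / 3 + 1) = k2 N C) := by
  have h4 := k1_add N C
  have h6 := h.N_pos
  unfold sw
  split <;> omega

theorem mlist_ok (h : Ok N C φ) {μ : ℕ} (hμ : μ ≤ k2 N C) :
    (mlist N C φ μ).flatten.Nodup ∧ (∀ t ∈ mlist N C φ μ, t ≠ []) ∧
      ∀ w ∈ (mlist N C φ μ).flatten, w < k2 N C + 1 := by
  have h3 := k0_le_k1 N C
  have h4 := k1_add N C
  have h5 := h.k0_pos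
  by_cases c0 : μ = 0
  · subst c0
    obtain ⟨b1, b2, b3⟩ := br_ok h (t := 0) h5
    rw [mlist_zero]
    refine ⟨?_, ?_, ?_⟩
    · simp only [List.flatten_cons, List.flatten_nil, List.append_nil, List.cons_append,
        List.nil_append, List.nodup_cons]
      exact ⟨fun hh => by have := b3 _ hh; omega, b1⟩
    · simp [b2]
    · intro w hw
      simp only [List.flatten_cons, List.flatten_nil, List.append_nil, List.cons_append,
        List.nil_append, List.mem_cons] at hw
      rcases hw with rfl | hw
      · omega
      · have := b3 _ hw; omega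
  · by_cases c1 : μ < k0 N C
    · obtain ⟨b1, b2, b3⟩ := br_ok h c1
      rw [mlist_station (by omega) c1]
      refine ⟨?_, ?_, ?_⟩
      · simp only [List.flatten_cons, List.flatten_nil, List.append_nil, List.cons_append,
          List.nil_append, List.nodup_cons]
        refine ⟨?_, ?_⟩
        · intro hh
          rcases List.mem_append.1 hh with hh | hh
          · have := b3 _ hh; omega
          · simp at hh; omega
        · refine List.Nodup.append b1 (by simp) ?_
          intro a ha ha'
          have := b3 _ ha
          simp at ha'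
          omega
      · simp [b2]
      · intro w hw
        simp only [List.flatten_cons, List.flatten_nil, List.append_nil, List.cons_append,
          List.nil_append, List.mem_cons, List.mem_append, List.not_mem_nil, or_false] at hw
        rcases hw with rfl | hw | rfl
        · omega
        · have := b3 _ hw; omega
        · omega
    · by_cases c2 : μ < k1 N C
      · obtain ⟨n1, n2, n3⟩ := nxt_ok h (by omega) c2
        rw [mlist_branch h5 (by omega) c2]
        refine ⟨?_, by simp, ?_⟩
        · simp only [List.flatten_cons, List.flatten_nil, List.append_nil, List.cons_append,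
            List.nil_append, List.nodup_cons, List.mem_cons, List.not_mem_nil, or_false,
            not_false_eq_true, List.nodup_nil, and_true]
          omega
        · intro w hw
          simp only [List.flatten_cons, List.flatten_nil, List.append_nil, List.cons_append,
            List.nil_append, List.mem_cons, List.not_mem_nil, or_false] at hw
          omega
      · by_cases c3 : μ < k2 N C
        · obtain ⟨i, rfl⟩ : ∃ i, μ = k1 N C + i := ⟨μ - k1 N C, by omega⟩
          have hi : i < N := by omega
          obtain ⟨u1, u2⟩ := uo_ok h hi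
          have s := sw_occ h hi
          rw [mlist_occ h5 hi]
          refine ⟨?_, by simp, ?_⟩
          · simp only [List.flatten_cons, List.flatten_nil, List.append_nil, List.cons_append,
              List.nil_append, List.nodup_cons, List.mem_cons, List.not_mem_nil, or_false,
              not_false_eq_true, List.nodup_nil, and_true]
            omega
          · intro w hw
            simp only [List.flatten_cons, List.flatten_nil, List.append_nil, List.cons_append,
              List.nil_append, List.mem_cons, List.not_mem_nil, or_false] at hw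
            omega
        · have : μ = k2 N C := by omega
          subst this
          rw [mlist_last h5]
          simp

theorem wlist_ok (h : Ok N C φ) {w : ℕ} (hw : w ≤ k2 N C) :
    (wlist N C φ w).flatten.Nodup ∧ (∀ t ∈ wlist N C φ w, t ≠ []) ∧
      ∀ m ∈ (wlist N C φ w).flatten, m < k2 N C + 1 := by
  have h3 := k0_le_k1 N C
  have h4 := k1_add N C
  have h5 := h.k0_pos
  have h6 := h.N_pos
  have h7 := h.eq
  by_cases c0 : w = 0
  · subst c0
    rw [wlist_zero]
    have hne : (List.range (k2 N C - 1)).map (fun a => a + 1) ≠ [] := by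
      intro hh
      have := congrArg List.length hh
      simp at this
      omega
    refine ⟨?_, ?_, ?_⟩
    · simp only [List.flatten_cons, List.flatten_nil, List.append_nil]
      refine List.Nodup.append ?_ ?_ ?_
      · exact List.Nodup.map (fun a b hab => by simpa using hab) List.nodup_range
      · simp; omega
      · intro a ha ha'
        simp only [List.mem_map, List.mem_range] at ha
        obtain ⟨c, hc, rfl⟩ := ha
        simp only [List.mem_cons, List.not_mem_nil, or_false] at ha'
        omega
    · intro t ht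
      simp only [List.mem_cons, List.not_mem_nil, or_false] at ht
      rcases ht with rfl | rfl
      · exact hne
      · simp
    · intro m hm
      simp only [List.flatten_cons, List.flatten_nil, List.append_nil, List.mem_append,
        List.mem_map, List.mem_range, List.mem_cons, List.not_mem_nil, or_false] at hm
      rcases hm with ⟨c, hc, rfl⟩ | hm <;> omega
  · by_cases c1 : w < k0 N C
    · obtain ⟨b1, b2, b3⟩ := entr_ok h (t := w) (by omega) (by omega)
      rw [wlist_station (by omega) c1]
      refine ⟨?_, ?_, ?_⟩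
      · simp only [List.flatten_cons, List.flatten_nil, List.append_nil]
        refine List.Nodup.append b1 (by simp) ?_
        intro a ha ha'
        have := b3 _ ha
        simp at ha'
        omega
      · simp [b2]
      · intro m hm
        simp only [List.flatten_cons, List.flatten_nil, List.append_nil, List.mem_append,
          List.mem_cons, List.not_mem_nil, or_false] at hm
        rcases hm with hm | rfl
        · have := b3 _ hm; omega
        · omega
    · by_cases c2 : w < k1 N C
      · have n1 := pred_ok h (w := w) (by omega) c2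
        have n2 : (w - k0 N C) % N < N := Nat.mod_lt _ h6
        rw [wlist_branch h5 (by omega) c2]
        split
        · refine ⟨?_, by simp, ?_⟩
          · simp only [List.flatten_cons, List.flatten_nil, List.append_nil, List.cons_append,
              List.nil_append, List.nodup_cons, List.mem_cons, List.not_mem_nil, or_false,
              not_false_eq_true, List.nodup_nil, and_true]
            omega
          · intro w hw
            simp only [List.flatten_cons, List.flatten_nil, List.append_nil, List.cons_append,
              List.nil_append, List.mem_cons, List.not_mem_nil, or_false] at hw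
            omega
        · refine ⟨?_, by simp, ?_⟩
          · simp only [List.flatten_cons, List.flatten_nil, List.append_nil, List.cons_append,
              List.nil_append, List.nodup_cons, List.mem_cons, List.not_mem_nil, or_false,
              not_false_eq_true, List.nodup_nil, and_true]
            omega
          · intro w hw
            simp only [List.flatten_cons, List.flatten_nil, List.append_nil, List.cons_append,
              List.nil_append, List.mem_cons, List.not_mem_nil, or_false] at hw
            omega
      · by_cases c3 : w < k2 N C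
        · obtain ⟨i, rfl⟩ : ∃ i, w = k1 N C + i := ⟨w - k1 N C, by omega⟩
          have hi : i < N := by omega
          have := k0_def N C
          rw [wlist_occ h5 hi]
          refine ⟨?_, by simp, ?_⟩
          · simp only [List.flatten_cons, List.flatten_nil, List.append_nil, List.cons_append,
              List.nil_append, List.nodup_cons, List.mem_cons, List.not_mem_nil, or_false,
              not_false_eq_true, List.nodup_nil, and_true]
            omega
          · intro w hw
            simp only [List.flatten_cons, List.flatten_nil, List.append_nil, List.cons_append,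
              List.nil_append, List.mem_cons, List.not_mem_nil, or_false] at hw
            omega
        · have : w = k2 N C := by omega
          subst this
          obtain ⟨b1, b2, b3⟩ := entr_ok h (t := N + C) (by omega) (by rw [k0_def])
          rw [wlist_last h5]
          refine ⟨?_, ?_, ?_⟩
          · simpa using b1
          · simpa using b2
          · intro m hm
            have := b3 m (by simpa using hm)
            omega

theorem inst_ok (h : Ok N C φ) : IsSMTI (inst N C φ) := by
  refine ⟨?_, ?_⟩
  · intro l hl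
    simp only [inst, List.mem_map, List.mem_range] at hl
    obtain ⟨μ, hμ, rfl⟩ := hl
    rw [size_women]
    exact mlist_ok h (by omega)
  · intro l hl
    simp only [inst, List.mem_map, List.mem_range] at hl
    obtain ⟨μ, hμ, rfl⟩ := hl
    rw [size_men]
    exact wlist_ok h (by omega)

/-! ### first choices -/

theorem rank_self (h : Ok N C φ) {μ : ℕ} (hμ : μ < k2 N C) : rank (mlist N C φ μ) μ = 0 ∧
    μ ∈ (mlist N C φ μ).flatten ∧ μ ∈ (wlist N C φ μ).flatten := by
  have h3 := k0_le_k1 N C
  have h4 := k1_add N C
  have h5 := h.k0_pos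
  by_cases c0 : μ = 0
  · subst c0
    rw [mlist_zero, wlist_zero]
    simp [rank_cons]
  · by_cases c1 : μ < k0 N C
    · rw [mlist_station (by omega) c1, wlist_station (by omega) c1]
      simp [rank_cons]
    · by_cases c2 : μ < k1 N C
      · rw [mlist_branch h5 (by omega) c2, wlist_branch h5 (by omega) c2]
        split <;> simp [rank_cons]
      · obtain ⟨i, rfl⟩ : ∃ i, μ = k1 N C + i := ⟨μ - k1 N C, by omega⟩
        rw [mlist_occ h5 (by omega), wlist_occ h5 (by omega)]
        simp [rank_cons]

/-- the matching with all first choices -/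
def M0 (N C : ℕ) : List (ℕ × ℕ) := (List.range (k2 N C)).map (fun μ => (μ, μ))

theorem mem_M0 {m w : ℕ} : (m, w) ∈ M0 N C ↔ m < k2 N C ∧ w = m := by
  unfold M0
  simp only [List.mem_map, List.mem_range, Prod.mk.injEq]
  constructor
  · rintro ⟨a, h1, rfl, rfl⟩; exact ⟨h1, rfl⟩
  · rintro ⟨h1, rfl⟩; exact ⟨w, h1, rfl, rfl⟩

theorem acceptable_last (h : Ok N C φ) {w : ℕ} (hw : Acceptable (inst N C φ) (k2 N C) w) :
    w = 0 := by
  have := hw.1
  rw [men_inst le_rfl, mlist_last h.k0_pos] at this
  simpa using this

theorem acceptable_le {m w : ℕ} (hw : Acceptable (inst N C φ) m w) :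
    m ≤ k2 N C ∧ w ≤ k2 N C := by
  constructor
  · by_contra hcon
    have := hw.1
    rw [men_ge (by omega)] at this
    simp at this
  · by_contra hcon
    have := hw.2
    rw [women_ge (by omega)] at this
    simp at this

theorem M0_stable (h : Ok N C φ) : WeaklyStable (inst N C φ) (M0 N C) := by
  have h3 := k0_le_k1 N C
  have h4 := k1_add N C
  have h5 := h.k0_pos
  have h6 := h.N_pos
  refine ⟨⟨?_, ?_, ?_⟩, ?_⟩
  · rintro ⟨m, w⟩ hp
    obtain ⟨h1, rfl⟩ := mem_M0.1 hp
    have := rank_self h h1
    refine ⟨?_, ?_⟩
    · rw [men_inst (by omega)]; exact this.2.1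
    · rw [women_inst (by omega)]; exact this.2.2
  · unfold M0
    rw [List.map_map]
    exact List.Nodup.map (fun a b hab => by simpa using hab) List.nodup_range
  · unfold M0
    rw [List.map_map]
    exact List.Nodup.map (fun a b hab => by simpa using hab) List.nodup_range
  · rintro m w ⟨hacc, hb1, hb2⟩
    obtain ⟨hm, hw⟩ := acceptable_le hacc
    by_cases hlt : m < k2 N C
    · have h7 := hb1 m (mem_M0.2 ⟨hlt, rfl⟩)
      rw [men_inst hm, (rank_self h hlt).1] at h7
      omega
    · have : m = k2 N C := by omega
      subst this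
      have := acceptable_last h hacc
      subst this
      have h7 := hb2 0 (mem_M0.2 ⟨by omega, rfl⟩)
      have h8 := rank_zero_women h (μ := k0 N C) (by omega) (by omega)
      rw [women_inst (by omega), h8.2.1, h8.2.2] at h7
      omega

/-! ### the matching of a satisfying assignment -/

section

variable (N C : ℕ) (bb kk : ℕ → ℕ)

/-- the wife of man `μ` -/
def gw (μ : ℕ) : ℕ :=
  if μ < k0 N C then
    (if μ < N then ui N C μ (bb μ) 0 else k1 N C + (3 * (μ - N) + kk (μ - N)))
  else if μ < k1 N C then
    (if (μ - k0 N C) / N % 2 = bb ((μ - k0 N C) / N / 2) then nxt N C μ else μ)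
  else if μ < k2 N C then
    (if kk ((μ - k1 N C) / 3) = (μ - k1 N C) % 3 then sw N C (N + (μ - k1 N C) / 3 + 1) else μ)
  else 0

/-- the husband of woman `w` -/
def gi (w : ℕ) : ℕ :=
  if w = 0 then k2 N C
  else if w < k0 N C then
    (if w ≤ N then ui N C (w - 1) (bb (w - 1)) (N - 1)
    else k1 N C + (3 * (w - N - 1) + kk (w - N - 1)))
  else if w < k1 N C then
    (if (w - k0 N C) / N % 2 = bb ((w - k0 N C) / N / 2) then pred N C w else w)
  else if w < k2 N C then
    (if kk ((w - k1 N C) / 3) = (w - k1 N C) % 3 then N + (w - k1 N C) / 3 else w)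
  else k1 N C + (3 * (C - 1) + kk (C - 1))

/-- the matching -/
def M1 : List (ℕ × ℕ) := (List.range (k2 N C + 1)).map (fun μ => (μ, gw N C bb kk μ))

end

variable {bb kk : ℕ → ℕ}

theorem gw_var {x : ℕ} (hx : x < N) : gw N C bb kk x = ui N C x (bb x) 0 := by
  unfold gw
  rw [if_pos (by unfold k0; omega), if_pos hx]

theorem gw_clause {j : ℕ} (hj : j < C) : gw N C bb kk (N + j) = k1 N C + (3 * j + kk j) := by
  unfold gw
  rw [if_pos (by unfold k0; omega), if_neg (by omega), Nat.add_sub_cancel_left]

theorem gw_branch {x b i : ℕ} (hx : x < N) (hb : b < 2) (hi : i < N) :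
    gw N C bb kk (ui N C x b i) = if b = bb x then nxt N C (ui N C x b i) else ui N C x b i := by
  have a1 := ui_ge (N := N) (C := C) (x := x) (b := b) (i := i)
  have a2 := ui_lt (C := C) hx hb hi
  unfold gw
  rw [if_neg (by omega), if_pos a2, ui_div hi, show (2 * x + b) % 2 = b by omega,
    show (2 * x + b) / 2 = x by omega]

theorem gw_occ {i : ℕ} (hi : i < N) : gw N C bb kk (k1 N C + i) =
    if kk (i / 3) = i % 3 then sw N C (N + i / 3 + 1) else k1 N C + i := by
  have h3 := k0_le_k1 N C
  have h4 := k1_add N C
  unfold gw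
  rw [if_neg (by omega), if_neg (by omega), if_pos (by omega), Nat.add_sub_cancel_left]

theorem gw_last : gw N C bb kk (k2 N C) = 0 := by
  have h3 := k0_le_k1 N C
  have h4 := k1_add N C
  unfold gw
  rw [if_neg (by omega), if_neg (by omega), if_neg (by omega)]

theorem gi_zero : gi N C bb kk 0 = k2 N C := rfl

theorem gi_var (h : Ok N C φ) {x : ℕ} (hx : x < N) :
    gi N C bb kk (x + 1) = ui N C x (bb x) (N - 1) := by
  have := h.N_lt
  unfold gi
  rw [if_neg (by omega), if_pos (by omega), if_pos (by omega), Nat.add_sub_cancel]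

theorem gi_clause {j : ℕ} (hj : j + 1 < C) :
    gi N C bb kk (N + j + 1) = k1 N C + (3 * j + kk j) := by
  unfold gi
  rw [if_neg (by omega), if_pos (by unfold k0; omega), if_neg (by omega),
    show N + j + 1 - N - 1 = j by omega]

theorem gi_branch (h : Ok N C φ) {x b i : ℕ} (hx : x < N) (hb : b < 2) (hi : i < N) :
    gi N C bb kk (ui N C x b i) = if b = bb x then pred N C (ui N C x b i) else ui N C x b i := by
  have a1 := ui_ge (N := N) (C := C) (x := x) (b := b) (i := i)
  have a2 := ui_lt (C := C) hx hb hi
  have := h.k0_pos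
  unfold gi
  rw [if_neg (by omega), if_neg (by omega), if_pos a2, ui_div hi,
    show (2 * x + b) % 2 = b by omega, show (2 * x + b) / 2 = x by omega]

theorem gi_occ (h : Ok N C φ) {i : ℕ} (hi : i < N) : gi N C bb kk (k1 N C + i) =
    if kk (i / 3) = i % 3 then N + i / 3 else k1 N C + i := by
  have h3 := k0_le_k1 N C
  have h4 := k1_add N C
  have := h.k0_pos
  unfold gi
  rw [if_neg (by omega), if_neg (by omega), if_neg (by omega), if_pos (by omega),
    Nat.add_sub_cancel_left]

theorem gi_last (h : Ok N C φ) : gi N C bb kk (k2 N C) = k1 N C + (3 * (C - 1) + kk (C - 1)) := by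
  have h3 := k0_le_k1 N C
  have h4 := k1_add N C
  have := h.k0_pos
  unfold gi
  rw [if_neg (by omega), if_neg (by omega), if_neg (by omega), if_neg (by omega)]

/-- every man is of one of five kinds -/
theorem kinds (h : Ok N C φ) {μ : ℕ} (hμ : μ ≤ k2 N C) :
    μ < N ∨ (∃ j < C, μ = N + j) ∨ (∃ x b i, x < N ∧ b < 2 ∧ i < N ∧ μ = ui N C x b i) ∨
      (∃ i < N, μ = k1 N C + i) ∨ μ = k2 N C := by
  have h3 := k0_le_k1 N C
  have h4 := k1_add N C
  have h5 := k0_def N C
  by_cases c0 : μ < N
  · exact Or.inl c0
  · by_cases c1 : μ < k0 N C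
    · exact Or.inr (Or.inl ⟨μ - N, by omega, by omega⟩)
    · by_cases c2 : μ < k1 N C
      · exact Or.inr (Or.inr (Or.inl (exists_ui (by omega) c2)))
      · by_cases c3 : μ < k2 N C
        · exact Or.inr (Or.inr (Or.inr (Or.inl ⟨μ - k1 N C, by omega, by omega⟩)))
        · exact Or.inr (Or.inr (Or.inr (Or.inr (by omega))))

theorem gw_le (h : Ok N C φ) (hbb : ∀ x, bb x < 2) (hkk : ∀ j, kk j < 3) {μ : ℕ}
    (hμ : μ ≤ k2 N C) : gw N C bb kk μ ≤ k2 N C := by
  have h3 := k0_le_k1 N C
  have h4 := k1_add N C
  have h5 := k0_def N C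
  have h6 := h.N_pos
  have h7 := h.eq
  rcases kinds h hμ with hx | ⟨j, hj, rfl⟩ | ⟨x, b, i, hx, hb, hi, rfl⟩ | ⟨i, hi, rfl⟩ | rfl
  · rw [gw_var hx]
    have := ui_lt (C := C) hx (hbb μ) h6
    omega
  · rw [gw_clause hj]
    have := hkk j
    omega
  · rw [gw_branch hx hb hi]
    have a1 := ui_ge (N := N) (C := C) (x := x) (b := b) (i := i)
    have a2 := ui_lt (C := C) hx hb hi
    split
    · exact (nxt_ok h a1 a2).2.2
    · omega
  · rw [gw_occ hi]
    split
    · exact sw_le h _
    · omega
  · rw [gw_last]; omega

theorem gi_gw (h : Ok N C φ) (hbb : ∀ x, bb x < 2) (hkk : ∀ j, kk j < 3) {μ : ℕ}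
    (hμ : μ ≤ k2 N C) : gi N C bb kk (gw N C bb kk μ) = μ := by
  have h3 := k0_le_k1 N C
  have h4 := k1_add N C
  have h5 := k0_def N C
  have h6 := h.N_pos
  have h7 := h.eq
  have h8 := h.pos
  rcases kinds h hμ with hx | ⟨j, hj, rfl⟩ | ⟨x, b, i, hx, hb, hi, rfl⟩ | ⟨i, hi, rfl⟩ | rfl
  · rw [gw_var hx, gi_branch h hx (hbb μ) h6, if_pos rfl, pred_ui h6 (hbb μ), if_pos rfl]
  · have := hkk j
    rw [gw_clause hj, gi_occ h (by omega), show (3 * j + kk j) / 3 = j by omega,
      show (3 * j + kk j) % 3 = kk j by omega, if_pos rfl]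
  · rw [gw_branch hx hb hi]
    by_cases hbx : b = bb x
    · rw [if_pos hbx, nxt_ui hi hb]
      by_cases hlt : i + 1 < N
      · rw [if_pos hlt, gi_branch h hx hb hlt, if_pos hbx, pred_ui hlt hb, if_neg (by omega),
          Nat.add_sub_cancel]
      · rw [if_neg hlt, sw_of_lt (by omega), gi_var h hx, ← hbx, show i = N - 1 by omega]
    · rw [if_neg hbx, gi_branch h hx hb hi, if_neg hbx]
  · rw [gw_occ hi]
    by_cases hc : kk (i / 3) = i % 3
    · rw [if_pos hc]
      by_cases hlt : i / 3 + 1 < C
      · rw [sw_of_lt (by omega), gi_clause hlt, hc]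
        omega
      · have : sw N C (N + i / 3 + 1) = k2 N C := by
          unfold sw
          rw [if_neg (by omega)]
        rw [this, gi_last h, show C - 1 = i / 3 by omega, hc]
        omega
    · rw [if_neg hc, gi_occ h hi, if_neg hc]
  · rw [gw_last, gi_zero]

theorem mem_M1 {m w : ℕ} : (m, w) ∈ M1 N C bb kk ↔ m ≤ k2 N C ∧ w = gw N C bb kk m := by
  unfold M1
  simp only [List.mem_map, List.mem_range, Prod.mk.injEq]
  constructor
  · rintro ⟨a, h1, rfl, rfl⟩; exact ⟨by omega, rfl⟩
  · rintro ⟨h1, rfl⟩; exact ⟨m, by omega, rfl, rfl⟩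

/-- every woman is matched -/
theorem mem_M1' (h : Ok N C φ) (hbb : ∀ x, bb x < 2) (hkk : ∀ j, kk j < 3) {w : ℕ}
    (hw : w ≤ k2 N C) : (gi N C bb kk w, w) ∈ M1 N C bb kk := by
  let f : Fin (k2 N C + 1) → Fin (k2 N C + 1) := fun μ =>
    ⟨gw N C bb kk μ.1, by have := gw_le h hbb hkk (μ := μ.1) (by omega); omega⟩
  have hinj : Function.Injective f := by
    intro a b hab
    have h1 : gw N C bb kk a.1 = gw N C bb kk b.1 := congrArg Fin.val hab
    have h2 := gi_gw h hbb hkk (μ := a.1) (by omega)
    rw [h1, gi_gw h hbb hkk (μ := b.1) (by omega)] at h2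
    exact Fin.ext h2.symm
  have hsurj := Finite.injective_iff_surjective.1 hinj
  obtain ⟨μ, hμ⟩ := hsurj ⟨w, by omega⟩
  have h1 : gw N C bb kk μ.1 = w := congrArg Fin.val hμ
  have h2 := gi_gw h hbb hkk (μ := μ.1) (by omega)
  rw [h1] at h2
  rw [mem_M1, h2]
  exact ⟨by omega, h1.symm⟩

end Pool.Agent.NPC.MO
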