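import Pool.Agent.NPC.Classes

/-!
Man-optimal weakly stable matchings with ties and incomplete lists: definitions.
-/

namespace Pool.Agent.NPC.MO

/-- Preference lists of the men (first component) and of the women (second component); men and
women are numbered from `0`, and entry `i` of a component is the preference list of agent `i`.
A preference list is a list of ties, most preferred first; a tie is a list of agents of the
opposite sex between which the agent is indifferent. Agents that are not listed are
unacceptable. -/
abbrev Inst : Type := List (List (List ℕ)) × List (List (List ℕ))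

/-- `I` is an instance of the stable marriage problem with ties and incomplete lists: no agent
occurs twice on a list, ties are not empty, and only agents of the instance occur. -/
def IsSMTI (I : Inst) : Prop :=
  (∀ l ∈ I.1, l.flatten.Nodup ∧ (∀ t ∈ l, t ≠ []) ∧ ∀ w ∈ l.flatten, w < I.2.length) ∧
  (∀ l ∈ I.2, l.flatten.Nodup ∧ (∀ t ∈ l, t ≠ []) ∧ ∀ m ∈ l.flatten, m < I.1.length)

/-- the preference list of man `m` -/
def men (I : Inst) (m : ℕ) : List (List ℕ) := I.1.getD m []

/-- the preference list of woman `w` -/
def women (I : Inst) (w : ℕ) : List (List ℕ) := I.2.getD w []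

/-- the position of the tie containing `a` on the list `l`; smaller positions are preferred -/
def rank (l : List (List ℕ)) (a : ℕ) : ℕ := l.findIdx (fun t => decide (a ∈ t))

/-- man `m` and woman `w` find each other acceptable -/
def Acceptable (I : Inst) (m w : ℕ) : Prop := w ∈ (men I m).flatten ∧ m ∈ (women I w).flatten

/-- a matching: a list of acceptable pairs (man, woman) in which no man and no woman occurs
twice -/
def IsMatching (I : Inst) (M : List (ℕ × ℕ)) : Prop :=
  (∀ p ∈ M, Acceptable I p.1 p.2) ∧ (M.map Prod.fst).Nodup ∧ (M.map Prod.snd).Nodup

/-- The acceptable pair of `m` and `w` blocks `M`: `m` is unmatched or strictly prefers `w` to his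
partner, and `w` is unmatched or strictly prefers `m` to her partner. -/
def Blocks (I : Inst) (M : List (ℕ × ℕ)) (m w : ℕ) : Prop :=
  Acceptable I m w ∧ (∀ w', (m, w') ∈ M → rank (men I m) w < rank (men I m) w') ∧
    ∀ m', (m', w) ∈ M → rank (women I w) m < rank (women I w) m'

/-- weak stability -/
def WeaklyStable (I : Inst) (M : List (ℕ × ℕ)) : Prop :=
  IsMatching I M ∧ ∀ m w, ¬ Blocks I M m w

/-- `M` is a man-optimal weakly stable matching: whenever a man `m` is matched to `w'` in some
weakly stable matching, he is matched in `M` to a woman whom he likes at least as much as `w'`. -/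
def ManOptimal (I : Inst) (M : List (ℕ × ℕ)) : Prop :=
  WeaklyStable I M ∧ ∀ M', WeaklyStable I M' → ∀ m w', (m, w') ∈ M' →
    ∃ w, (m, w) ∈ M ∧ rank (men I m) w ≤ rank (men I m) w'

end Pool.Agent.NPC.MO
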