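import Pool.Agent.H642R2.MODefs
import Pool.Agent.NPC.Sat2
import Pool.Agent.NPC.Dec

/-!
The instance constructed from a formula.
-/

namespace Pool.Agent.NPC.MO

/-! ### The instance -/

/-- a clause with three literals; the literal `(b, x)` is true if variable `x` has value `b` -/
abbrev Cl : Type := (Bool × ℕ) × (Bool × ℕ) × (Bool × ℕ)

/-- literal number `k` of a clause -/
def lit (c : Cl) (k : ℕ) : Bool × ℕ := if k = 0 then c.1 else if k = 1 then c.2.1 else c.2.2

/-- clause number `j` -/
def cl (φ : List Cl) (j : ℕ) : Cl := φ.getD j ((true, 0), (true, 0), (true, 0))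

/-- the literal of occurrence `i` -/
def occ (φ : List Cl) (i : ℕ) : Bool × ℕ := lit (cl φ (i / 3)) (i % 3)

/-- booleans as numbers -/
def bn (b : Bool) : ℕ := if b then 1 else 0

/-- start of the branch agents -/
def k0 (N C : ℕ) : ℕ := N + C

/-- start of the occurrence agents -/
def k1 (N C : ℕ) : ℕ := N + C + 2 * N * N

/-- the last agents -/
def k2 (N C : ℕ) : ℕ := N + C + 2 * N * N + N

/-- branch agent number `i` of variable `x` and value `b` -/
def ui (N C x b i : ℕ) : ℕ := N + C + ((2 * x + b) * N + i)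

/-- station woman `t` -/
def sw (N C t : ℕ) : ℕ := if t < k0 N C then t else k2 N C

/-- the women offered by station `t` -/
def br (N C t : ℕ) : List ℕ :=
  if t < N then [ui N C t 0 0, ui N C t 1 0]
  else [k1 N C + 3 * (t - N), k1 N C + 3 * (t - N) + 1, k1 N C + 3 * (t - N) + 2]

/-- the men entering station `t ≥ 1` -/
def entr (N C t : ℕ) : List ℕ :=
  if t ≤ N then [ui N C (t - 1) 0 (N - 1), ui N C (t - 1) 1 (N - 1)]
  else [k1 N C + 3 * (t - N - 1), k1 N C + 3 * (t - N - 1) + 1, k1 N C + 3 * (t - N - 1) + 2]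

/-- the woman after the branch woman `μ` -/
def nxt (N C μ : ℕ) : ℕ :=
  if (μ - k0 N C) % N + 1 < N then μ + 1 else sw N C ((μ - k0 N C) / N / 2 + 1)

/-- the branch woman liked by occurrence man `i` -/
def uo (N C : ℕ) (φ : List Cl) (i : ℕ) : ℕ := ui N C (occ φ i).2 (bn (occ φ i).1) i

/-- the list of man `μ` -/
def mlist (N C : ℕ) (φ : List Cl) (μ : ℕ) : List (List ℕ) :=
  if μ = 0 then [[0], br N C 0]
  else if μ < k0 N C then [[μ], br N C μ, [0]]
  else if μ < k1 N C then [[μ], [nxt N C μ], [0]]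
  else if μ < k2 N C then
    [[μ], [uo N C φ (μ - k1 N C)], [sw N C (N + (μ - k1 N C) / 3 + 1)], [0]]
  else [[0]]

/-- the best man of branch woman `w` -/
def pred (N C w : ℕ) : ℕ :=
  if (w - k0 N C) % N = 0 then (w - k0 N C) / N / 2 else w - 1

/-- the list of woman `w` -/
def wlist (N C : ℕ) (φ : List Cl) (w : ℕ) : List (List ℕ) :=
  if w = 0 then [(List.range (k2 N C - 1)).map (fun a => a + 1), [0, k2 N C]]
  else if w < k0 N C then [entr N C w, [w]]
  else if w < k1 N C then
    (if uo N C φ ((w - k0 N C) % N) = w then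
      [[pred N C w], [k1 N C + (w - k0 N C) % N], [w]] else [[pred N C w], [w]])
  else if w < k2 N C then [[N + (w - k1 N C) / 3], [w]]
  else [entr N C (N + C)]

/-- the instance -/
def inst (N C : ℕ) (φ : List Cl) : Inst :=
  ((List.range (k2 N C + 1)).map (mlist N C φ), (List.range (k2 N C + 1)).map (wlist N C φ))

end Pool.Agent.NPC.MO
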