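import Pool.Agent.H642R2.MOInst

/-!
Basic facts on the instance.
-/

namespace Pool.Agent.NPC.MO

theorem bn_lt (b : Bool) : bn b < 2 := by cases b <;> simp [bn]

theorem ui_ge {N C x b i : ℕ} : k0 N C ≤ ui N C x b i := by unfold k0 ui; omega

theorem ui_lt {N C x b i : ℕ} (hx : x < N) (hb : b < 2) (hi : i < N) : ui N C x b i < k1 N C := by
  unfold k1 ui
  have h1 : 2 * x + b + 1 ≤ 2 * N := by omega
  have h2 : (2 * x + b + 1) * N ≤ 2 * N * N := Nat.mul_le_mul_right N h1
  have h3 : (2 * x + b + 1) * N = (2 * x + b) * N + N := by ring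
  omega

theorem ui_succ {N C x b i : ℕ} : ui N C x b (i + 1) = ui N C x b i + 1 := by unfold ui; omega

theorem ui_mod {N C x b i : ℕ} (hi : i < N) : (ui N C x b i - k0 N C) % N = i := by
  unfold ui k0
  rw [show N + C + ((2 * x + b) * N + i) - (N + C) = i + (2 * x + b) * N by omega,
    Nat.add_mul_mod_self_right, Nat.mod_eq_of_lt hi]

theorem ui_div {N C x b i : ℕ} (hi : i < N) : (ui N C x b i - k0 N C) / N = 2 * x + b := by
  unfold ui k0
  rw [show N + C + ((2 * x + b) * N + i) - (N + C) = i + (2 * x + b) * N by omega,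
    Nat.add_mul_div_right _ _ (by omega), Nat.div_eq_of_lt hi, Nat.zero_add]

theorem ui_inj {N C x b i x' b' i' : ℕ} (hb : b < 2) (hi : i < N) (hb' : b' < 2) (hi' : i' < N)
    (h : ui N C x b i = ui N C x' b' i') : x = x' ∧ b = b' ∧ i = i' := by
  have h1 := ui_div (C := C) (x := x) (b := b) hi
  have h2 := ui_mod (C := C) (x := x) (b := b) hi
  rw [h, ui_div hi'] at h1
  rw [h, ui_mod hi'] at h2
  omega

theorem exists_ui {N C μ : ℕ} (h0 : k0 N C ≤ μ) (h1 : μ < k1 N C) :
    ∃ x b i, x < N ∧ b < 2 ∧ i < N ∧ μ = ui N C x b i := by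
  have hN : 0 < N := by
    rcases Nat.eq_zero_or_pos N with h | h
    · subst h; unfold k0 at h0; unfold k1 at h1; omega
    · exact h
  have hlt : (μ - k0 N C) / N < 2 * N := by
    rw [Nat.div_lt_iff_lt_mul hN]
    unfold k0 at *
    unfold k1 at h1
    omega
  refine ⟨(μ - k0 N C) / N / 2, (μ - k0 N C) / N % 2, (μ - k0 N C) % N, by omega, by omega,
    Nat.mod_lt _ hN, ?_⟩
  unfold ui
  have h2 := Nat.div_add_mod (μ - k0 N C) N
  have h3 : 2 * ((μ - k0 N C) / N / 2) + (μ - k0 N C) / N % 2 = (μ - k0 N C) / N := by omega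
  rw [h3, Nat.mul_comm ((μ - k0 N C) / N) N]
  unfold k0 at *
  omega

theorem k0_le_k1 (N C : ℕ) : k0 N C ≤ k1 N C := by unfold k0 k1; omega

theorem k1_add (N C : ℕ) : k2 N C = k1 N C + N := rfl

theorem k0_def (N C : ℕ) : k0 N C = N + C := rfl

variable {N C : ℕ} {φ : List Cl}

theorem size_men : (inst N C φ).1.length = k2 N C + 1 := by simp [inst]

theorem size_women : (inst N C φ).2.length = k2 N C + 1 := by simp [inst]

theorem men_inst {μ : ℕ} (h : μ ≤ k2 N C) : men (inst N C φ) μ = mlist N C φ μ := by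
  unfold men
  rw [List.getD_eq_getElem _ _ (by rw [size_men]; omega)]
  simp [inst]

theorem women_inst {w : ℕ} (h : w ≤ k2 N C) : women (inst N C φ) w = wlist N C φ w := by
  unfold women
  rw [List.getD_eq_getElem _ _ (by rw [size_women]; omega)]
  simp [inst]

theorem men_ge {μ : ℕ} (h : k2 N C < μ) : men (inst N C φ) μ = [] := by
  unfold men
  rw [List.getD_eq_default _ _ (by rw [size_men]; omega)]

theorem women_ge {w : ℕ} (h : k2 N C < w) : women (inst N C φ) w = [] := by
  unfold women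
  rw [List.getD_eq_default _ _ (by rw [size_women]; omega)]

/-! ### lists of the men -/

/-- the woman after a branch woman, by coordinates -/
theorem nxt_ui {x b i : ℕ} (hi : i < N) (hb : b < 2) :
    nxt N C (ui N C x b i) = if i + 1 < N then ui N C x b (i + 1) else sw N C (x + 1) := by
  unfold nxt
  rw [ui_mod hi, ui_div hi, ui_succ, show (2 * x + b) / 2 = x by omega]

theorem pred_ui {x b i : ℕ} (hi : i < N) (hb : b < 2) :
    pred N C (ui N C x b i) = if i = 0 then x else ui N C x b (i - 1) := by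
  unfold pred
  rw [ui_mod hi, ui_div hi, show (2 * x + b) / 2 = x by omega]
  split
  · rfl
  · rw [show ui N C x b i = ui N C x b (i - 1 + 1) by rw [Nat.sub_add_cancel (by omega)], ui_succ]
    rfl

theorem mlist_zero : mlist N C φ 0 = [[0], br N C 0] := rfl

theorem mlist_station {t : ℕ} (h0 : 0 < t) (h : t < k0 N C) :
    mlist N C φ t = [[t], br N C t, [0]] := by
  unfold mlist
  rw [if_neg (by omega), if_pos h]

theorem mlist_branch {μ : ℕ} (hC : 0 < k0 N C) (h0 : k0 N C ≤ μ) (h : μ < k1 N C) :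
    mlist N C φ μ = [[μ], [nxt N C μ], [0]] := by
  unfold mlist
  rw [if_neg (by omega), if_neg (by omega), if_pos h]

theorem mlist_occ {i : ℕ} (hC : 0 < k0 N C) (h : i < N) :
    mlist N C φ (k1 N C + i) = [[k1 N C + i], [uo N C φ i], [sw N C (N + i / 3 + 1)], [0]] := by
  unfold mlist
  have := k0_le_k1 N C
  rw [if_neg (by omega), if_neg (by omega), if_neg (by omega), if_pos (by rw [k1_add]; omega),
    Nat.add_sub_cancel_left]

theorem mlist_last (hC : 0 < k0 N C) : mlist N C φ (k2 N C) = [[0]] := by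
  unfold mlist
  have := k0_le_k1 N C
  have := k1_add N C
  rw [if_neg (by omega), if_neg (by omega), if_neg (by omega), if_neg (by omega)]

/-! ### lists of the women -/

theorem wlist_zero : wlist N C φ 0 = [(List.range (k2 N C - 1)).map (fun a => a + 1), [0, k2 N C]] :=
  rfl

theorem wlist_station {t : ℕ} (h0 : 0 < t) (h : t < k0 N C) :
    wlist N C φ t = [entr N C t, [t]] := by
  unfold wlist
  rw [if_neg (by omega), if_pos h]

theorem wlist_branch {w : ℕ} (hC : 0 < k0 N C) (h0 : k0 N C ≤ w) (h : w < k1 N C) :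
    wlist N C φ w = if uo N C φ ((w - k0 N C) % N) = w then
      [[pred N C w], [k1 N C + (w - k0 N C) % N], [w]] else [[pred N C w], [w]] := by
  unfold wlist
  rw [if_neg (by omega), if_neg (by omega), if_pos h]

theorem wlist_occ {i : ℕ} (hC : 0 < k0 N C) (h : i < N) :
    wlist N C φ (k1 N C + i) = [[N + i / 3], [k1 N C + i]] := by
  unfold wlist
  have := k0_le_k1 N C
  rw [if_neg (by omega), if_neg (by omega), if_neg (by omega), if_pos (by rw [k1_add]; omega),
    Nat.add_sub_cancel_left]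

theorem wlist_last (hC : 0 < k0 N C) : wlist N C φ (k2 N C) = [entr N C (N + C)] := by
  unfold wlist
  have := k0_le_k1 N C
  have := k1_add N C
  rw [if_neg (by omega), if_neg (by omega), if_neg (by omega), if_neg (by omega)]

/-! ### ranks -/

theorem rank_nil (a : ℕ) : rank [] a = 0 := rfl

theorem rank_cons (t : List ℕ) (l : List (List ℕ)) (a : ℕ) :
    rank (t :: l) a = if a ∈ t then 0 else rank l a + 1 := by
  unfold rank
  rw [List.findIdx_cons]
  by_cases h : a ∈ t <;> simp [h]

/-! ### matchings -/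

theorem IsMatching.fst {I : Inst} {M : List (ℕ × ℕ)} (h : IsMatching I M) {m w w' : ℕ}
    (h1 : (m, w) ∈ M) (h2 : (m, w') ∈ M) : w = w' := by
  have := List.inj_on_of_nodup_map h.2.1 h1 h2 rfl
  exact congrArg Prod.snd this

theorem IsMatching.snd {I : Inst} {M : List (ℕ × ℕ)} (h : IsMatching I M) {m m' w : ℕ}
    (h1 : (m, w) ∈ M) (h2 : (m', w) ∈ M) : m = m' := by
  have := List.inj_on_of_nodup_map h.2.2 h1 h2 rfl
  exact congrArg Prod.fst this

end Pool.Agent.NPC.MO
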