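import Pool.Agent.H642R2.MOCompl

/-!
Correctness of the reduction.
-/

namespace Pool.Agent.NPC.MO

variable {N C : ℕ} {φ : List Cl} {bb kk : ℕ → ℕ}

theorem ui_mem_br {x b : ℕ} (hx : x < N) (hb : b < 2) : ui N C x b 0 ∈ br N C x := by
  unfold br
  rw [if_pos hx]
  interval_cases b <;> simp

theorem occ_mem_br {j r : ℕ} (hr : r < 3) : k1 N C + (3 * j + r) ∈ br N C (N + j) := by
  unfold br
  rw [if_neg (by omega), Nat.add_sub_cancel_left]
  simp only [List.mem_cons, List.not_mem_nil, or_false]
  omega

theorem ui_mem_entr {x b : ℕ} (hx : x < N) (hb : b < 2) : ui N C x b (N - 1) ∈ entr N C (x + 1) := by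
  unfold entr
  rw [if_pos (by omega), Nat.add_sub_cancel]
  interval_cases b <;> simp

theorem occ_mem_entr {j r : ℕ} (hr : r < 3) : k1 N C + (3 * j + r) ∈ entr N C (N + j + 1) := by
  unfold entr
  rw [if_neg (by omega), show N + j + 1 - N - 1 = j by omega]
  simp only [List.mem_cons, List.not_mem_nil, or_false]
  omega

/-- the first two ranks on a man's list -/
theorem rank_head {a b : ℕ} {l : List (List ℕ)} : rank ([a] :: l) b = if b = a then 0 else
    rank l b + 1 := by
  rw [rank_cons]
  simp

theorem rank_mem {a : ℕ} {t : List ℕ} {l : List (List ℕ)} (h : a ∈ t) : rank (t :: l) a = 0 := by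
  rw [rank_cons, if_pos h]

theorem rank_self' {a : ℕ} {l : List (List ℕ)} : rank ([a] :: l) a = 0 := rank_mem (by simp)

theorem rank_ne {a b : ℕ} {l : List (List ℕ)} (h : b ≠ a) : rank ([a] :: l) b = rank l b + 1 := by
  rw [rank_head, if_neg h]

theorem mlist_cases (h : Ok N C φ) {t : ℕ} (ht : t < k0 N C) :
    ∃ l, mlist N C φ t = [t] :: br N C t :: l := by
  rcases Nat.eq_zero_or_pos t with rfl | h0
  · exact ⟨[], mlist_zero⟩
  · exact ⟨[[0]], mlist_station h0 ht⟩

theorem rank_pred (h : Ok N C φ) {w : ℕ} (h0 : k0 N C ≤ w) (h1 : w < k1 N C) :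
    rank (wlist N C φ w) (pred N C w) = 0 ∧ pred N C w ∈ (wlist N C φ w).flatten := by
  rw [wlist_branch h.k0_pos h0 h1]
  split <;> simp [rank_head]

theorem acceptable_gw (h : Ok N C φ) (hbb : ∀ x, bb x < 2) (hkk : ∀ j, kk j < 3) {μ : ℕ}
    (hμ : μ ≤ k2 N C) : Acceptable (inst N C φ) μ (gw N C bb kk μ) := by
  have h3 := k0_le_k1 N C
  have h4 := k1_add N C
  have h5 := k0_def N C
  have h6 := h.N_pos
  have h7 := h.eq
  have h8 := h.k0_pos
  have hle := gw_le h hbb hkk hμ
  unfold Acceptable
  rw [men_inst hμ, women_inst hle]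
  rcases kinds h hμ with hx | ⟨j, hj, rfl⟩ | ⟨x, b, i, hx, hb, hi, rfl⟩ | ⟨i, hi, rfl⟩ | rfl
  · rw [gw_var hx]
    have h9 := rank_pred h (ui_ge (N := N) (C := C) (x := μ) (b := bb μ) (i := 0))
      (ui_lt (C := C) hx (hbb μ) h6)
    rw [pred_ui h6 (hbb μ), if_pos rfl] at h9
    obtain ⟨l, hl⟩ := mlist_cases h (t := μ) (by omega)
    refine ⟨?_, h9.2⟩
    rw [hl]
    have := ui_mem_br (C := C) hx (hbb μ)
    simp [this]
  · rw [gw_clause hj]
    obtain ⟨l, hl⟩ := mlist_cases h (t := N + j) (by omega)
    have h9 := hkk j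
    refine ⟨?_, ?_⟩
    · rw [hl]
      have := occ_mem_br (N := N) (C := C) (j := j) h9
      simp [this]
    · rw [wlist_occ h8 (by omega), show (3 * j + kk j) / 3 = j by omega]
      simp
  · rw [gw_branch hx hb hi] at hle ⊢
    have a1 := ui_ge (N := N) (C := C) (x := x) (b := b) (i := i)
    have a2 := ui_lt (C := C) hx hb hi
    by_cases hbx : b = bb x
    · rw [if_pos hbx]
      refine ⟨?_, ?_⟩
      · rw [mlist_branch h8 a1 a2]; simp
      · rw [nxt_ui hi hb]
        by_cases hlt : i + 1 < N
        · rw [if_pos hlt]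
          have h9 := rank_pred h (ui_ge (N := N) (C := C) (x := x) (b := b) (i := i + 1))
            (ui_lt (C := C) hx hb hlt)
          rw [pred_ui hlt hb, if_neg (by omega), Nat.add_sub_cancel] at h9
          exact h9.2
        · rw [if_neg hlt, sw_of_lt (by have := h.N_lt; omega),
            wlist_station (by omega) (by have := h.N_lt; omega), show i = N - 1 by omega]
          have := ui_mem_entr (C := C) hx hb
          simp [this]
    · rw [if_neg hbx]
      exact (rank_self h (by omega)).2
  · rw [gw_occ hi] at hle ⊢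
    by_cases hc : kk (i / 3) = i % 3
    · rw [if_pos hc]
      refine ⟨?_, ?_⟩
      · rw [mlist_occ h8 hi]; simp
      · have h10 := occ_mem_entr (N := N) (C := C) (j := i / 3) (r := i % 3) (by omega)
        rw [show 3 * (i / 3) + i % 3 = i by omega] at h10
        by_cases hlt : N + i / 3 + 1 < k0 N C
        · rw [sw_of_lt hlt, wlist_station (by omega) hlt]
          simp [h10]
        · have : sw N C (N + i / 3 + 1) = k2 N C := by
            unfold sw
            rw [if_neg hlt]
          rw [this, wlist_last h8]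
          rw [show N + i / 3 + 1 = N + C by omega] at h10
          simpa using h10
    · rw [if_neg hc]
      exact (rank_self h (by omega)).2
  · rw [gw_last, mlist_last h8, wlist_zero]
    simp

theorem M1_stable (h : Ok N C φ) (hbb : ∀ x, bb x < 2) (hkk : ∀ j, kk j < 3)
    (hsat : ∀ j < C, bn (occ φ (3 * j + kk j)).1 = bb (occ φ (3 * j + kk j)).2) :
    WeaklyStable (inst N C φ) (M1 N C bb kk) := by
  have h3 := k0_le_k1 N C
  have h4 := k1_add N C
  have h5 := k0_def N C
  have h6 := h.N_pos
  have h7 := h.eq
  have h8 := h.k0_pos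
  have h9 := h.N_lt
  refine ⟨⟨?_, ?_, ?_⟩, ?_⟩
  · rintro ⟨m, w⟩ hp
    obtain ⟨h1, rfl⟩ := mem_M1.1 hp
    exact acceptable_gw h hbb hkk h1
  · unfold M1
    rw [List.map_map]
    exact List.Nodup.map (fun a b hab => by simpa using hab) List.nodup_range
  · unfold M1
    rw [List.map_map]
    refine List.Nodup.map_on ?_ List.nodup_range
    intro a ha b hb hab
    rw [List.mem_range] at ha hb
    simp only [Function.comp] at hab
    have e1 := gi_gw h hbb hkk (μ := a) (by omega)
    rw [hab, gi_gw h hbb hkk (μ := b) (by omega)] at e1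
    exact e1.symm
  · rintro m w ⟨hacc, hb1, hb2⟩
    obtain ⟨hm, hw⟩ := acceptable_le hacc
    have b1 := hb1 _ (mem_M1.2 ⟨hm, rfl⟩)
    have b2 := hb2 _ (mem_M1' h hbb hkk hw)
    rw [men_inst hm] at b1
    rw [women_inst hw] at b2
    rcases kinds h hm with hx | ⟨j, hj, rfl⟩ | ⟨x, b, i, hx, hb, hi, rfl⟩ | ⟨i, hi, rfl⟩ | rfl
    · obtain ⟨l, hl⟩ := mlist_cases h (t := m) (by omega)
      rw [gw_var hx, hl, rank_head, rank_head, rank_cons, rank_cons,
        if_pos (ui_mem_br (C := C) hx (hbb m))] at b1
      have hwm : w = m := by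
        by_contra hne
        rw [if_neg hne] at b1
        split_ifs at b1 <;> omega
      subst hwm
      rcases Nat.eq_zero_or_pos w with rfl | h0
      · have h10 := rank_zero_women h (μ := k0 N C) (by omega) (by omega)
        rw [gi_zero, h10.2.1, h10.2.2] at b2
        omega
      · obtain ⟨x, rfl⟩ : ∃ x, w = x + 1 := ⟨w - 1, by omega⟩
        rw [gi_var h (by omega), wlist_station h0 (by omega),
          rank_mem (ui_mem_entr (C := C) (show x < N by omega) (hbb x))] at b2
        omega
    · obtain ⟨l, hl⟩ := mlist_cases h (t := N + j) (by omega)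
      rw [gw_clause hj, hl, rank_head, rank_head, rank_cons, rank_cons,
        if_pos (occ_mem_br (N := N) (C := C) (hkk j))] at b1
      have hwm : w = N + j := by
        by_contra hne
        rw [if_neg hne] at b1
        split_ifs at b1 <;> omega
      subst hwm
      rcases Nat.eq_zero_or_pos j with rfl | h0
      · obtain ⟨x, hx⟩ : ∃ x, N = x + 1 := ⟨N - 1, by omega⟩
        have e : gi N C bb kk (N + 0) = ui N C x (bb x) (N - 1) := by
          have := gi_var (bb := bb) (kk := kk) h (x := x) (by omega)
          rw [← hx] at this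
          exact this
        have e2 := ui_mem_entr (C := C) (show x < N by omega) (hbb x)
        rw [← hx] at e2
        rw [e, Nat.add_zero, wlist_station (by omega) (by omega), rank_mem e2] at b2
        omega
      · obtain ⟨j', rfl⟩ : ∃ j', j = j' + 1 := ⟨j - 1, by omega⟩
        have e : gi N C bb kk (N + (j' + 1)) = k1 N C + (3 * j' + kk j') :=
          gi_clause (by omega)
        have e2 : k1 N C + (3 * j' + kk j') ∈ entr N C (N + (j' + 1)) :=
          occ_mem_entr (hkk j')
        rw [e, wlist_station (by omega) (by omega), rank_mem e2] at b2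
        omega
    · have a1 := ui_ge (N := N) (C := C) (x := x) (b := b) (i := i)
      have a2 := ui_lt (C := C) hx hb hi
      rw [gw_branch hx hb hi] at b1
      by_cases hbx : b = bb x
      · rw [if_pos hbx, mlist_branch h8 a1 a2, rank_ne (nxt_ok h a1 a2).1, rank_self'] at b1
        have hwm : w = ui N C x b i := by
          by_contra hne
          rw [rank_ne hne] at b1
          omega
        subst hwm
        rw [gi_branch h hx hb hi, if_pos hbx, (rank_pred h a1 a2).1] at b2
        omega
      · rw [if_neg hbx, (rank_self h (by omega)).1] at b1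
        omega
    · rw [gw_occ hi] at b1
      by_cases hc : kk (i / 3) = i % 3
      · have hu := uo_ok h hi
        have hs := sw_occ h hi
        rw [if_pos hc, mlist_occ h8 hi] at b1
        have hwm : w = k1 N C + i ∨ w = uo N C φ i := by
          by_contra hne
          push Not at hne
          rw [rank_ne hne.1, rank_ne hne.2] at b1
          rw [rank_ne (show sw N C (N + i / 3 + 1) ≠ k1 N C + i by omega),
            rank_ne (show sw N C (N + i / 3 + 1) ≠ uo N C φ i by omega), rank_self'] at b1
          omega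
        rcases hwm with rfl | rfl
        · rw [gi_occ h hi, if_pos hc, wlist_occ h8 hi, rank_self'] at b2
          omega
        · have e := hsat (i / 3) (by omega)
          rw [hc, show 3 * (i / 3) + i % 3 = i by omega] at e
          have e1 : gi N C bb kk (uo N C φ i) = pred N C (uo N C φ i) := by
            unfold uo
            rw [gi_branch h (h.bdd i hi) (bn_lt _) hi, if_pos e]
          rw [e1, (rank_pred h hu.1 hu.2).1] at b2
          omega
      · rw [if_neg hc, (rank_self h (by omega)).1] at b1
        omega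
    · rw [gw_last, mlist_last h8, rank_head, rank_head, if_pos rfl] at b1
      omega

/-- satisfying assignments give weakly stable matchings in which the last man is matched -/
theorem matched_of_sat (h : Ok N C φ) (hs : SAT3 φ) :
    ∃ M, WeaklyStable (inst N C φ) M ∧ (k2 N C, 0) ∈ M := by
  obtain ⟨v, hv⟩ := hs
  have hk : ∀ j, ∃ k < 3, j < C → bn (occ φ (3 * j + k)).1 = bn (v (occ φ (3 * j + k)).2) := by
    intro j
    by_cases hj : j < C
    · have h1 : cl φ j ∈ φ := by
        unfold cl
        rw [List.getD_eq_getElem _ _ (by rw [h.len]; exact hj)]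
        exact List.getElem_mem _
      have e : ∀ k < 3, occ φ (3 * j + k) = lit (cl φ j) k := by
        intro k hk
        unfold occ
        rw [show (3 * j + k) / 3 = j by omega, show (3 * j + k) % 3 = k by omega]
      rcases hv _ h1 with h2 | h2 | h2
      · refine ⟨0, by omega, fun _ => ?_⟩
        rw [e 0 (by omega)]
        simp [lit, h2]
      · refine ⟨1, by omega, fun _ => ?_⟩
        rw [e 1 (by omega)]
        simp [lit, h2]
      · refine ⟨2, by omega, fun _ => ?_⟩
        rw [e 2 (by omega)]
        simp [lit, h2]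
    · exact ⟨0, by omega, fun h => absurd h hj⟩
  choose kk hk1 hk2 using hk
  exact ⟨_, M1_stable h (bb := fun x => bn (v x)) (fun x => bn_lt _) hk1
    (fun j hj => hk2 j hj), mem_M1.2 ⟨le_rfl, gw_last.symm⟩⟩

/-- the instance has a man-optimal weakly stable matching if and only if the formula is
unsatisfiable -/
theorem correct (h : Ok N C φ) : SAT3 φ ↔ ¬ ∃ M, ManOptimal (inst N C φ) M := by
  have h3 := k0_le_k1 N C
  have h4 := k1_add N C
  have h8 := h.k0_pos
  constructor
  · rintro hs ⟨M, hM, hopt⟩
    obtain ⟨M', hM', hl⟩ := matched_of_sat h hs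
    obtain ⟨w, hw, hr⟩ := hopt _ (M0_stable h) 0 0 (mem_M0.2 ⟨by omega, rfl⟩)
    obtain ⟨w', hw', -⟩ := hopt _ hM' _ _ hl
    have e1 := acceptable_last h (hM.1.1 _ hw')
    subst e1
    rw [men_inst (by omega), mlist_zero, rank_head, rank_head, if_pos rfl] at hr
    have e2 : w = 0 := by
      by_contra hne
      rw [if_neg hne] at hr
      omega
    subst e2
    have := hM.1.snd hw hw'
    omega
  · intro hno
    by_contra hs
    refine hno ⟨M0 N C, M0_stable h, ?_⟩
    intro M' hM' m w' hmw
    have hacc := hM'.1.1 _ hmw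
    obtain ⟨hm, _⟩ := acceptable_le hacc
    by_cases hlt : m < k2 N C
    · refine ⟨m, mem_M0.2 ⟨hlt, rfl⟩, ?_⟩
      rw [men_inst hm, (rank_self h hlt).1]
      omega
    · have : m = k2 N C := by omega
      subst this
      have := acceptable_last h hacc
      simp only at this
      subst this
      exact absurd (sat_of_matched h hM' hmw) hs

end Pool.Agent.NPC.MO
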