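import Pool.Agent.H642R2.MOMain

/-!
The reduction is computable in polynomial time; hardness.
-/

namespace Pool.Agent.NPC.MO

section

variable {α : Type} [TEnc α]

theorem poly_mulc {m : α → ℕ} (hm : Poly m) (c : ℕ) : Poly (fun a => c * m a) :=
  Poly.mul (Poly.const c) hm

theorem poly_addc {m : α → ℕ} (hm : Poly m) (c : ℕ) : Poly (fun a => m a + c) :=
  Poly.add hm (Poly.const c)

theorem poly_subc {m : α → ℕ} (hm : Poly m) (c : ℕ) : Poly (fun a => m a - c) :=
  Poly.sub hm (Poly.const c)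

theorem poly_cl {φ : α → List Cl} {j : α → ℕ} (hφ : Poly φ) (hj : Poly j) :
    Poly (fun a => cl (φ a) (j a)) :=
  Poly.getD hφ hj (Poly.const _)

theorem poly_lit {c : α → Cl} {k : α → ℕ} (hc : Poly c) (hk : Poly k) :
    Poly (fun a => lit (c a) (k a)) :=
  Poly.ite (Poly.decide_eq hk (Poly.const _)) (Poly.fst hc)
    (Poly.ite (Poly.decide_eq hk (Poly.const _)) (Poly.fst (Poly.snd hc)) (Poly.snd (Poly.snd hc)))

theorem poly_occ {φ : α → List Cl} {i : α → ℕ} (hφ : Poly φ) (hi : Poly i) :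
    Poly (fun a => occ (φ a) (i a)) :=
  poly_lit (poly_cl hφ (Poly.div hi (Poly.const 3))) (Poly.mod hi (Poly.const 3))

theorem poly_bn {b : α → Bool} (hb : Poly b) : Poly (fun a => bn (b a)) :=
  Poly.ite (Poly.decide_bool hb) (Poly.const 1) (Poly.const 0)

variable {n c : α → ℕ}

theorem poly_k0 (hn : Poly n) (hc : Poly c) : Poly (fun a => k0 (n a) (c a)) := Poly.add hn hc

theorem poly_k1 (hn : Poly n) (hc : Poly c) : Poly (fun a => k1 (n a) (c a)) :=
  Poly.add (Poly.add hn hc) (Poly.mul (poly_mulc hn 2) hn)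

theorem poly_k2 (hn : Poly n) (hc : Poly c) : Poly (fun a => k2 (n a) (c a)) :=
  Poly.add (poly_k1 hn hc) hn

theorem poly_ui {x b i : α → ℕ} (hn : Poly n) (hc : Poly c) (hx : Poly x) (hb : Poly b)
    (hi : Poly i) : Poly (fun a => ui (n a) (c a) (x a) (b a) (i a)) :=
  Poly.add (Poly.add hn hc) (Poly.add (Poly.mul (Poly.add (poly_mulc hx 2) hb) hn) hi)

theorem poly_sw {t : α → ℕ} (hn : Poly n) (hc : Poly c) (ht : Poly t) :
    Poly (fun a => sw (n a) (c a) (t a)) :=
  Poly.ite (Poly.decide_lt ht (poly_k0 hn hc)) ht (poly_k2 hn hc)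

theorem poly_list2 {a b : α → ℕ} (ha : Poly a) (hb : Poly b) : Poly (fun x => [a x, b x]) :=
  Poly.cons ha (Poly.cons hb (Poly.const _))

theorem poly_list3 {a b c : α → ℕ} (ha : Poly a) (hb : Poly b) (hc : Poly c) :
    Poly (fun x => [a x, b x, c x]) :=
  Poly.cons ha (poly_list2 hb hc)

theorem poly_br {t : α → ℕ} (hn : Poly n) (hc : Poly c) (ht : Poly t) :
    Poly (fun a => br (n a) (c a) (t a)) := by
  have h := Poly.add (poly_k1 hn hc) (poly_mulc (Poly.sub ht hn) 3)
  exact Poly.ite (Poly.decide_lt ht hn)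
    (poly_list2 (poly_ui hn hc ht (Poly.const 0) (Poly.const 0))
      (poly_ui hn hc ht (Poly.const 1) (Poly.const 0)))
    (poly_list3 h (poly_addc h 1) (poly_addc h 2))

theorem poly_entr {t : α → ℕ} (hn : Poly n) (hc : Poly c) (ht : Poly t) :
    Poly (fun a => entr (n a) (c a) (t a)) := by
  have h := Poly.add (poly_k1 hn hc) (poly_mulc (poly_subc (Poly.sub ht hn) 1) 3)
  exact Poly.ite (Poly.decide_le ht hn)
    (poly_list2 (poly_ui hn hc (poly_subc ht 1) (Poly.const 0) (poly_subc hn 1))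
      (poly_ui hn hc (poly_subc ht 1) (Poly.const 1) (poly_subc hn 1)))
    (poly_list3 h (poly_addc h 1) (poly_addc h 2))

theorem poly_nxt {μ : α → ℕ} (hn : Poly n) (hc : Poly c) (hμ : Poly μ) :
    Poly (fun a => nxt (n a) (c a) (μ a)) := by
  have h := Poly.sub hμ (poly_k0 hn hc)
  exact Poly.ite (Poly.decide_lt (poly_addc (Poly.mod h hn) 1) hn) (poly_addc hμ 1)
    (poly_sw hn hc (poly_addc (Poly.div (Poly.div h hn) (Poly.const 2)) 1))

theorem poly_pred {μ : α → ℕ} (hn : Poly n) (hc : Poly c) (hμ : Poly μ) :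
    Poly (fun a => pred (n a) (c a) (μ a)) := by
  have h := Poly.sub hμ (poly_k0 hn hc)
  exact Poly.ite (Poly.decide_eq (Poly.mod h hn) (Poly.const 0))
    (Poly.div (Poly.div h hn) (Poly.const 2)) (poly_subc hμ 1)

theorem poly_uo {i : α → ℕ} {φ : α → List Cl} (hn : Poly n) (hc : Poly c) (hφ : Poly φ)
    (hi : Poly i) : Poly (fun a => uo (n a) (c a) (φ a) (i a)) := by
  have h := poly_occ hφ hi
  exact poly_ui hn hc (Poly.snd h) (poly_bn (Poly.fst h)) hi

theorem poly_single {β : Type} [TEnc β] {a : α → β} (ha : Poly a) : Poly (fun x => [a x]) :=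
  Poly.cons ha (Poly.const _)

theorem poly_mlist {μ : α → ℕ} {φ : α → List Cl} (hn : Poly n) (hc : Poly c) (hφ : Poly φ)
    (hμ : Poly μ) : Poly (fun a => mlist (n a) (c a) (φ a) (μ a)) := by
  have hi := Poly.sub hμ (poly_k1 hn hc)
  refine Poly.ite (Poly.decide_eq hμ (Poly.const 0)) ?_
    (Poly.ite (Poly.decide_lt hμ (poly_k0 hn hc)) ?_
      (Poly.ite (Poly.decide_lt hμ (poly_k1 hn hc)) ?_
        (Poly.ite (Poly.decide_lt hμ (poly_k2 hn hc)) ?_ (Poly.const _))))
  · exact Poly.cons (Poly.const _) (poly_single (poly_br hn hc (Poly.const 0)))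
  · exact Poly.cons (poly_single hμ) (Poly.cons (poly_br hn hc hμ) (Poly.const _))
  · exact Poly.cons (poly_single hμ) (Poly.cons (poly_single (poly_nxt hn hc hμ)) (Poly.const _))
  · exact Poly.cons (poly_single hμ) (Poly.cons (poly_single (poly_uo hn hc hφ hi))
      (Poly.cons (poly_single (poly_sw hn hc (poly_addc (Poly.add hn
        (Poly.div hi (Poly.const 3))) 1))) (Poly.const _)))

theorem poly_wlist {μ : α → ℕ} {φ : α → List Cl} (hn : Poly n) (hc : Poly c)
    (hk2 : UPoly (fun a => k2 (n a) (c a))) (hφ : Poly φ)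
    (hμ : Poly μ) : Poly (fun a => wlist (n a) (c a) (φ a) (μ a)) := by
  have hi := Poly.sub hμ (poly_k1 hn hc)
  have hj := Poly.mod (Poly.sub hμ (poly_k0 hn hc)) hn
  have hk2' : UPoly (fun a => k2 (n a) (c a) - 1) :=
    UPoly.of_le (poly_subc (poly_k2 hn hc) 1) hk2 (fun a => by omega)
  refine Poly.ite (Poly.decide_eq hμ (Poly.const 0)) ?_
    (Poly.ite (Poly.decide_lt hμ (poly_k0 hn hc)) ?_
      (Poly.ite (Poly.decide_lt hμ (poly_k1 hn hc)) ?_
        (Poly.ite (Poly.decide_lt hμ (poly_k2 hn hc)) ?_ ?_)))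
  · exact Poly.cons (Poly.map (F := fun _ a => a + 1) hk2'.range (poly_addc (Poly.snd Poly.id) 1))
      (poly_single (poly_list2 (Poly.const 0) (poly_k2 hn hc)))
  · exact Poly.cons (poly_entr hn hc hμ) (poly_single (poly_single hμ))
  · exact Poly.ite (Poly.decide_eq (poly_uo hn hc hφ hj) hμ)
      (Poly.cons (poly_single (poly_pred hn hc hμ))
        (Poly.cons (poly_single (Poly.add (poly_k1 hn hc) hj)) (poly_single (poly_single hμ))))
      (Poly.cons (poly_single (poly_pred hn hc hμ)) (poly_single (poly_single hμ)))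
  · exact Poly.cons (poly_single (Poly.add hn (Poly.div hi (Poly.const 3))))
      (poly_single (poly_single hμ))
  · exact poly_single (poly_entr hn hc (Poly.add hn hc))

end

/-- the reduction -/
def red (φ : List Cl) : Inst := inst (3 * φ.length) φ.length φ

theorem upoly_k2 : UPoly (fun φ : List Cl => k2 (3 * φ.length) φ.length) := by
  have hc : UPoly (fun φ : List Cl => φ.length) := UPoly.length Poly.id
  have hn : UPoly (fun φ : List Cl => 3 * φ.length) := UPoly.mul (UPoly.const 3) hc
  have e1 : UPoly (fun φ : List Cl => 3 * φ.length + φ.length) := UPoly.add hn hc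
  have e2 : UPoly (fun φ : List Cl => 2 * (3 * φ.length)) := UPoly.mul (UPoly.const 2) hn
  have e3 : UPoly (fun φ : List Cl => 2 * (3 * φ.length) * (3 * φ.length)) := UPoly.mul e2 hn
  have e4 : UPoly (fun φ : List Cl => 3 * φ.length + φ.length +
    2 * (3 * φ.length) * (3 * φ.length)) := UPoly.add e1 e3
  unfold k2
  exact UPoly.add e4 hn

theorem poly_range : Poly (fun φ : List Cl =>
    List.range (k2 (3 * φ.length) φ.length + 1)) := by
  have e5 : UPoly (fun φ : List Cl => k2 (3 * φ.length) φ.length + 1) :=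
    UPoly.add upoly_k2 (UPoly.const 1)
  exact e5.range

theorem poly_len : Poly (fun φ : List Cl => φ.length) := Poly.length Poly.id

theorem poly_len3 : Poly (fun φ : List Cl => 3 * φ.length) := poly_mulc poly_len 3

theorem poly_m : Poly (fun p : List Cl × ℕ => mlist (3 * p.1.length) p.1.length p.1 p.2) :=
  poly_mlist (n := fun p : List Cl × ℕ => 3 * p.1.length)
    (c := fun p : List Cl × ℕ => p.1.length) (poly_len3.comp (Poly.fst Poly.id))
    (poly_len.comp (Poly.fst Poly.id)) (Poly.fst Poly.id) (Poly.snd Poly.id)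

theorem poly_w : Poly (fun p : List Cl × ℕ => wlist (3 * p.1.length) p.1.length p.1 p.2) :=
  poly_wlist (n := fun p : List Cl × ℕ => 3 * p.1.length)
    (c := fun p : List Cl × ℕ => p.1.length) (poly_len3.comp (Poly.fst Poly.id))
    (poly_len.comp (Poly.fst Poly.id)) (upoly_k2.comp (Poly.fst Poly.id)) (Poly.fst Poly.id)
    (Poly.snd Poly.id)

theorem poly_mapr {l : List Cl → List ℕ} (hl : Poly l) {F : List Cl → ℕ → List (List ℕ)}
    (hF : Poly (fun p : List Cl × ℕ => F p.1 p.2)) : Poly (fun φ => (l φ).map (F φ)) :=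
  Poly.map hl hF

theorem poly_ms : Poly (fun φ : List Cl => (List.range (k2 (3 * φ.length) φ.length + 1)).map
      (fun μ => mlist (3 * φ.length) φ.length φ μ)) := by
  apply poly_mapr (l := fun φ : List Cl => List.range (k2 (3 * φ.length) φ.length + 1))
    (F := fun φ μ => mlist (3 * φ.length) φ.length φ μ)
  · exact poly_range
  · exact poly_m

theorem poly_ws : Poly (fun φ : List Cl => (List.range (k2 (3 * φ.length) φ.length + 1)).map
      (fun μ => wlist (3 * φ.length) φ.length φ μ)) := by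
  apply poly_mapr (l := fun φ : List Cl => List.range (k2 (3 * φ.length) φ.length + 1))
    (F := fun φ μ => wlist (3 * φ.length) φ.length φ μ)
  · exact poly_range
  · exact poly_w

theorem poly_red : Poly red := Poly.pair poly_ms poly_ws

theorem ok_of (φ : List Cl) (hb : Bounded3 φ) (hne : φ ≠ []) : Ok (3 * φ.length) φ.length φ := by
  have hpos : 0 < φ.length := List.length_pos_iff.2 hne
  refine ⟨hpos, rfl, rfl, ?_⟩
  intro i hi
  have h1 : cl φ (i / 3) ∈ φ := by
    unfold cl
    rw [List.getD_eq_getElem _ _ (by omega)]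
    exact List.getElem_mem _
  have h2 := hb _ h1
  unfold occ lit
  split
  · exact h2.1
  · split
    · exact h2.2.1
    · exact h2.2.2

/-- Existence of a man-optimal weakly stable matching is hard: every language in NP reduces to the
non-existence on valid instances. -/
theorem hard : HardPr IsSMTI (fun I => ¬ ∃ M, ManOptimal I M) := by
  refine hardPr_SAT3b.trans poly_red ?_ ?_
  · rintro φ ⟨_, hb, hne⟩
    exact inst_ok (ok_of φ hb hne)
  · rintro φ ⟨_, hb, hne⟩
    exact correct (ok_of φ hb hne)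

end Pool.Agent.NPC.MO
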