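import Pool.Agent.H642R2.MOLemmas

/-!
If the last man is matched in some weakly stable matching then the formula is satisfiable.
-/

namespace Pool.Agent.NPC.MO

variable {N C : ℕ} {φ : List Cl}

/-- the standing assumptions -/
structure Ok (N C : ℕ) (φ : List Cl) : Prop where
  pos : 0 < C
  eq : N = 3 * C
  len : φ.length = C
  bdd : ∀ i < N, (occ φ i).2 < N

theorem Ok.k0_pos (h : Ok N C φ) : 0 < k0 N C := by
  have := h.pos
  unfold k0; omega

theorem Ok.N_pos (h : Ok N C φ) : 0 < N := by
  have := h.pos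
  have := h.eq
  omega

theorem Ok.N_lt (h : Ok N C φ) : N < k0 N C := by
  have := h.pos
  unfold k0; omega

theorem acceptable_zero (h : Ok N C φ) {μ : ℕ} (h0 : 0 < μ) (h1 : μ < k2 N C) :
    Acceptable (inst N C φ) μ 0 := by
  unfold Acceptable
  rw [men_inst (by omega), women_inst (by omega)]
  refine ⟨?_, ?_⟩
  · by_cases ha : μ < k0 N C
    · rw [mlist_station h0 ha]; simp
    · by_cases hb : μ < k1 N C
      · rw [mlist_branch h.k0_pos (by omega) hb]; simp
      · obtain ⟨i, rfl⟩ : ∃ i, μ = k1 N C + i := ⟨μ - k1 N C, by omega⟩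
        rw [mlist_occ h.k0_pos (by rw [k1_add] at h1; omega)]; simp
  · rw [wlist_zero]
    simp only [List.flatten_cons, List.mem_append, List.mem_map, List.mem_range]
    exact Or.inl ⟨μ - 1, by omega, by omega⟩

theorem rank_zero_women (h : Ok N C φ) {μ : ℕ} (h0 : 0 < μ) (h1 : μ < k2 N C) :
    rank (wlist N C φ 0) μ = 0 ∧ rank (wlist N C φ 0) (k2 N C) = 1 ∧
      rank (wlist N C φ 0) 0 = 1 := by
  have e1 : μ ∈ (List.range (k2 N C - 1)).map (fun a => a + 1) := by
    simp only [List.mem_map, List.mem_range]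
    exact ⟨μ - 1, by omega, by omega⟩
  have e2 : k2 N C ∉ (List.range (k2 N C - 1)).map (fun a => a + 1) := by
    simp only [List.mem_map, List.mem_range, not_exists, not_and]
    intro a ha; omega
  have e3 : 0 ∉ (List.range (k2 N C - 1)).map (fun a => a + 1) := by
    simp
  rw [wlist_zero]
  simp [rank_cons, e1, e2, -List.mem_map]
  exact e3

section

variable {M : List (ℕ × ℕ)}

theorem matched (h : Ok N C φ) (hM : WeaklyStable (inst N C φ) M) (hl : (k2 N C, 0) ∈ M) {μ : ℕ}
    (h0 : 0 < μ) (h1 : μ < k2 N C) : ∃ w, (μ, w) ∈ M ∧ w ≠ 0 ∧ w ∈ (mlist N C φ μ).flatten := by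
  by_contra hcon
  push Not at hcon
  have hun : ∀ w, (μ, w) ∉ M := by
    intro w hw
    have hacc := (hM.1.1 _ hw).1
    rw [men_inst (by omega)] at hacc
    refine hcon w hw ?_ hacc
    rintro rfl
    have := hM.1.snd hw hl
    omega
  refine hM.2 μ 0 ⟨acceptable_zero h h0 h1, fun w' hw' => absurd hw' (hun w'), ?_⟩
  intro m' hm'
  have := hM.1.snd hm' hl
  subst this
  have hr := rank_zero_women h h0 h1
  rw [women_inst (by omega), hr.1, hr.2.1]
  omega

theorem partner_branch (h : Ok N C φ) (hM : WeaklyStable (inst N C φ) M)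
    (hl : (k2 N C, 0) ∈ M) {x b i : ℕ} (hx : x < N) (hb : b < 2) (hi : i < N) :
    (ui N C x b i, ui N C x b i) ∈ M ∨ (ui N C x b i, nxt N C (ui N C x b i)) ∈ M := by
  have h1 := ui_ge (N := N) (C := C) (x := x) (b := b) (i := i)
  have h2 := ui_lt (C := C) hx hb hi
  have h3 := h.k0_pos
  have h4 := k1_add N C
  obtain ⟨w, hw, hw0, hwm⟩ := matched h hM hl (μ := ui N C x b i) (by omega) (by omega)
  rw [mlist_branch h3 h1 h2] at hwm
  simp only [List.flatten_cons, List.flatten_nil, List.append_nil, List.cons_append,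
    List.nil_append, List.mem_cons, List.not_mem_nil, or_false] at hwm
  rcases hwm with rfl | rfl | rfl
  · exact Or.inl hw
  · exact Or.inr hw
  · exact absurd rfl hw0

theorem partner_station (h : Ok N C φ) (hM : WeaklyStable (inst N C φ) M)
    (hl : (k2 N C, 0) ∈ M) {t : ℕ} (ht : t < k0 N C) (ha : (t, t) ∉ M) :
    ∃ w ∈ br N C t, (t, w) ∈ M := by
  have h3 := k0_le_k1 N C
  have h4 := k1_add N C
  rcases Nat.eq_zero_or_pos t with rfl | h0
  · by_contra hcon
    push Not at hcon
    have hN := h.N_pos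
    have hun : ∀ w, (0, w) ∉ M := by
      intro w hw
      have hacc := (hM.1.1 _ hw).1
      rw [men_inst (by omega), mlist_zero] at hacc
      simp only [List.flatten_cons, List.flatten_nil, List.append_nil, List.cons_append,
        List.nil_append, List.mem_cons] at hacc
      rcases hacc with rfl | hacc
      · exact ha hw
      · exact hcon w hacc hw
    have g1 := ui_ge (N := N) (C := C) (x := 0) (b := 0) (i := 0)
    have g2 := ui_lt (C := C) hN (show 0 < 2 by omega) hN
    have hwl : wlist N C φ (ui N C 0 0 0) = if uo N C φ 0 = ui N C 0 0 0 then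
        [[0], [k1 N C + 0], [ui N C 0 0 0]] else [[0], [ui N C 0 0 0]] := by
      rw [wlist_branch h.k0_pos g1 g2, ui_mod hN, pred_ui hN (by omega)]
      simp
    have hrank : ∀ m', m' ≠ 0 → rank (wlist N C φ (ui N C 0 0 0)) 0 <
        rank (wlist N C φ (ui N C 0 0 0)) m' := by
      intro m' hm'
      rw [hwl]
      split <;> simp [rank_cons, hm']
    refine hM.2 0 (ui N C 0 0 0) ⟨⟨?_, ?_⟩, fun w' hw' => absurd hw' (hun w'), ?_⟩
    · rw [men_inst (by omega), mlist_zero]
      simp [br, hN]
    · rw [women_inst (by omega), hwl]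
      split <;> simp
    · intro m' hm'
      rw [women_inst (by omega)]
      refine hrank m' ?_
      rintro rfl
      exact hun _ hm'
  · obtain ⟨w, hw, hw0, hwm⟩ := matched h hM hl (μ := t) h0 (by omega)
    rw [mlist_station h0 ht] at hwm
    simp only [List.flatten_cons, List.flatten_nil, List.append_nil, List.mem_append,
      List.mem_cons, List.not_mem_nil, or_false] at hwm
    rcases hwm with rfl | hwm | rfl
    · exact absurd hw ha
    · exact ⟨w, hwm, hw⟩
    · exact absurd rfl hw0

theorem partner_occ (h : Ok N C φ) (hM : WeaklyStable (inst N C φ) M)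
    (hl : (k2 N C, 0) ∈ M) {i : ℕ} (hi : i < N) :
    (k1 N C + i, k1 N C + i) ∈ M ∨ (k1 N C + i, uo N C φ i) ∈ M ∨
      (k1 N C + i, sw N C (N + i / 3 + 1)) ∈ M := by
  have h3 := k0_le_k1 N C
  have h4 := k1_add N C
  have h5 := h.k0_pos
  obtain ⟨w, hw, hw0, hwm⟩ := matched h hM hl (μ := k1 N C + i) (by omega) (by omega)
  rw [mlist_occ h5 hi] at hwm
  simp only [List.flatten_cons, List.flatten_nil, List.append_nil, List.cons_append,
    List.nil_append, List.mem_cons, List.not_mem_nil, or_false] at hwm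
  rcases hwm with rfl | rfl | rfl | rfl
  · exact Or.inl hw
  · exact Or.inr (Or.inl hw)
  · exact Or.inr (Or.inr hw)
  · exact absurd rfl hw0

/-- the displacement of a branch man goes on to the end of the branch -/
theorem chain (h : Ok N C φ) (hM : WeaklyStable (inst N C φ) M)
    (hl : (k2 N C, 0) ∈ M) {x b : ℕ} (hx : x < N) (hb : b < 2) (d : ℕ) : ∀ i, i + d + 1 = N →
    (ui N C x b i, ui N C x b i) ∉ M → (ui N C x b (N - 1), sw N C (x + 1)) ∈ M := by
  induction d with
  | zero =>
    intro i hi ha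
    have h1 := (partner_branch h hM hl hx hb (show i < N by omega)).resolve_left ha
    rw [nxt_ui (by omega) hb, if_neg (by omega)] at h1
    rw [show N - 1 = i by omega]
    exact h1
  | succ d ih =>
    intro i hi ha
    have h1 := (partner_branch h hM hl hx hb (show i < N by omega)).resolve_left ha
    rw [nxt_ui (by omega) hb, if_pos (by omega)] at h1
    refine ih (i + 1) (by omega) ?_
    intro h2
    have h3 := hM.1.snd h1 h2
    rw [ui_succ] at h3
    omega

theorem chain' (h : Ok N C φ) (hM : WeaklyStable (inst N C φ) M)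
    (hl : (k2 N C, 0) ∈ M) {x b i : ℕ} (hx : x < N) (hb : b < 2) (hi : i < N)
    (ha : (ui N C x b i, ui N C x b i) ∉ M) : (ui N C x b (N - 1), sw N C (x + 1)) ∈ M :=
  chain h hM hl hx hb (N - 1 - i) i (by omega) ha

/-- a passed branch occupies all its women -/
theorem occupied (h : Ok N C φ) (hM : WeaklyStable (inst N C φ) M)
    (hl : (k2 N C, 0) ∈ M) {x b : ℕ} (hx : x < N) (hb : b < 2) (hp : (x, ui N C x b 0) ∈ M) :
    ∀ i < N, (pred N C (ui N C x b i), ui N C x b i) ∈ M ∧ pred N C (ui N C x b i) < k1 N C ∧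
      (ui N C x b i, ui N C x b i) ∉ M := by
  have h3 := k0_le_k1 N C
  have h5 := k0_def N C
  intro i
  induction i with
  | zero =>
    intro hi
    have h1 := ui_ge (N := N) (C := C) (x := x) (b := b) (i := 0)
    rw [pred_ui hi hb, if_pos rfl]
    refine ⟨hp, by omega, fun h2 => ?_⟩
    have := hM.1.snd hp h2
    omega
  | succ i ih =>
    intro hi
    obtain ⟨_, _, h1⟩ := ih (by omega)
    have h2 := (partner_branch h hM hl hx hb (show i < N by omega)).resolve_left h1
    rw [nxt_ui (by omega) hb, if_pos hi] at h2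
    have h4 := ui_lt (C := C) hx hb (show i < N by omega)
    rw [pred_ui hi hb, if_neg (by omega), Nat.add_sub_cancel]
    refine ⟨h2, h4, fun h6 => ?_⟩
    have := hM.1.snd h2 h6
    rw [ui_succ] at this
    omega

theorem sw_of_lt {t : ℕ} (h : t < k0 N C) : sw N C t = t := by
  unfold sw
  rw [if_pos h]

/-- the variable stations are passed -/
theorem passed_var (h : Ok N C φ) (hM : WeaklyStable (inst N C φ) M)
    (hl : (k2 N C, 0) ∈ M) : ∀ t ≤ N, (t, t) ∉ M := by
  have h3 := k0_le_k1 N C
  have h4 := k1_add N C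
  have h5 := k0_def N C
  have h6 := h.N_pos
  have h7 := h.pos
  intro t
  induction t with
  | zero =>
    intro _ h1
    have := hM.1.snd h1 hl
    omega
  | succ t ih =>
    intro ht h1
    obtain ⟨w, hw, hw'⟩ := partner_station h hM hl (t := t) (by omega) (ih (by omega))
    have : ∃ b < 2, (t, ui N C t b 0) ∈ M := by
      unfold br at hw
      rw [if_pos (by omega)] at hw
      simp only [List.mem_cons, List.not_mem_nil, or_false] at hw
      rcases hw with rfl | rfl
      · exact ⟨0, by omega, hw'⟩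
      · exact ⟨1, by omega, hw'⟩
    obtain ⟨b, hb, hp⟩ := this
    have h8 := (occupied h hM hl (show t < N by omega) hb hp 0 h6).2.2
    have h9 := chain' h hM hl (show t < N by omega) hb h6 h8
    rw [sw_of_lt (by omega)] at h9
    have h10 := hM.1.snd h9 h1
    have h11 := ui_ge (N := N) (C := C) (x := t) (b := b) (i := N - 1)
    omega

theorem exists_branch (h : Ok N C φ) (hM : WeaklyStable (inst N C φ) M)
    (hl : (k2 N C, 0) ∈ M) : ∀ x, ∃ b < 2, x < N → (x, ui N C x b 0) ∈ M := by
  intro x
  by_cases hx : x < N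
  · have h5 := h.N_lt
    obtain ⟨w, hw, hw'⟩ := partner_station h hM hl (t := x) (by omega)
      (passed_var h hM hl x (by omega))
    unfold br at hw
    rw [if_pos (by omega)] at hw
    simp only [List.mem_cons, List.not_mem_nil, or_false] at hw
    rcases hw with rfl | rfl
    · exact ⟨0, by omega, fun _ => hw'⟩
    · exact ⟨1, by omega, fun _ => hw'⟩
  · exact ⟨0, by omega, fun h => absurd h hx⟩

theorem unique_branch (h : Ok N C φ) (hM : WeaklyStable (inst N C φ) M)
    (hl : (k2 N C, 0) ∈ M) {x b b' i : ℕ} (hx : x < N) (hb : b < 2) (hb' : b' < 2) (hi : i < N)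
    (hp : (x, ui N C x b 0) ∈ M) (ha : (ui N C x b' i, ui N C x b' i) ∉ M) : b' = b := by
  have h6 := h.N_pos
  have h8 := (occupied h hM hl hx hb hp 0 h6).2.2
  have h9 := chain' h hM hl hx hb h6 h8
  have h10 := chain' h hM hl hx hb' hi ha
  have h11 := hM.1.snd h10 h9
  exact (ui_inj hb' (by omega) hb (by omega) h11).2.1

/-- an occurrence man who is displaced moves on to the next station, and his literal is true -/
theorem occ_passed (h : Ok N C φ) (hM : WeaklyStable (inst N C φ) M)
    (hl : (k2 N C, 0) ∈ M) {bb : ℕ → ℕ} (hbb : ∀ x, bb x < 2)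
    (hp : ∀ x < N, (x, ui N C x (bb x) 0) ∈ M) {i : ℕ} (hi : i < N)
    (ha : (k1 N C + i, k1 N C + i) ∉ M) :
    (k1 N C + i, sw N C (N + i / 3 + 1)) ∈ M ∧ bn (occ φ i).1 = bb (occ φ i).2 := by
  have h3 := k0_le_k1 N C
  have h4 := k1_add N C
  have h5 := h.k0_pos
  have hx := h.bdd i hi
  have hb := bn_lt (occ φ i).1
  have hu1 := ui_ge (N := N) (C := C) (x := (occ φ i).2) (b := bn (occ φ i).1) (i := i)
  have hu2 := ui_lt (C := C) hx hb hi
  have hne : (k1 N C + i, uo N C φ i) ∉ M := by
    intro h6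
    have h7 : (ui N C (occ φ i).2 (bn (occ φ i).1) i, ui N C (occ φ i).2 (bn (occ φ i).1) i) ∉ M := by
      intro h7
      have := hM.1.snd h6 h7
      omega
    have h8 := unique_branch h hM hl hx (hbb _) hb hi (hp _ hx) h7
    have h9 := occupied h hM hl hx (hbb _) (hp _ hx) i hi
    rw [← h8] at h9
    have := hM.1.snd h6 h9.1
    omega
  have h6 := ((partner_occ h hM hl hi).resolve_left ha).resolve_left hne
  refine ⟨h6, ?_⟩
  by_contra hcon
  -- the branch woman is at home, so there is a blocking pair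
  have h7 : (ui N C (occ φ i).2 (bn (occ φ i).1) i, ui N C (occ φ i).2 (bn (occ φ i).1) i) ∈ M := by
    by_contra h7
    exact hcon (unique_branch h hM hl hx (hbb _) hb hi (hp _ hx) h7)
  have hsw : sw N C (N + i / 3 + 1) ≠ uo N C φ i := by
    intro h8
    rw [h8] at h6
    exact hne h6
  have hwl : wlist N C φ (uo N C φ i) =
      [[pred N C (uo N C φ i)], [k1 N C + i], [uo N C φ i]] := by
    rw [wlist_branch h5 (show k0 N C ≤ uo N C φ i from hu1) (show uo N C φ i < k1 N C from hu2)]
    have : (uo N C φ i - k0 N C) % N = i := ui_mod hi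
    rw [this, if_pos rfl]
  have hpred : pred N C (uo N C φ i) < uo N C φ i := by
    unfold uo
    rw [pred_ui hi hb]
    split
    · have := k0_def N C; omega
    · rename_i h0
      have : ui N C (occ φ i).2 (bn (occ φ i).1) i =
        ui N C (occ φ i).2 (bn (occ φ i).1) (i - 1) + 1 := by
        rw [← ui_succ, Nat.sub_add_cancel (by omega)]
      omega
  have hsw2 : sw N C (N + i / 3 + 1) ≠ k1 N C + i := by
    intro h8
    unfold sw at h8
    split at h8 <;> omega
  refine hM.2 (k1 N C + i) (uo N C φ i) ⟨⟨?_, ?_⟩, ?_, ?_⟩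
  · rw [men_inst (by omega), mlist_occ h5 hi]
    simp
  · rw [women_inst (by unfold uo; omega), hwl]
    simp
  · intro w' hw'
    have := hM.1.fst hw' h6
    subst this
    rw [men_inst (by omega), mlist_occ h5 hi]
    have e1 : uo N C φ i ≠ k1 N C + i := by unfold uo; omega
    simp only [rank_cons, List.mem_singleton, e1, if_false, if_true, hsw2, hsw]
    omega
  · intro m' hm'
    have := hM.1.snd hm' h7
    subst this
    rw [women_inst (by unfold uo; omega), hwl]
    have e1 : k1 N C + i ≠ pred N C (uo N C φ i) := by unfold uo at *; omega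
    have e2 : ui N C (occ φ i).2 (bn (occ φ i).1) i ≠ pred N C (uo N C φ i) := by
      unfold uo at *; omega
    have e3 : ui N C (occ φ i).2 (bn (occ φ i).1) i ≠ k1 N C + i := by omega
    simp only [rank_cons, List.mem_singleton, e1, e2, e3, if_false, if_true]
    split_ifs <;> omega

/-- the clause stations are passed -/
theorem passed_clause (h : Ok N C φ) (hM : WeaklyStable (inst N C φ) M)
    (hl : (k2 N C, 0) ∈ M) {bb : ℕ → ℕ} (hbb : ∀ x, bb x < 2)
    (hp : ∀ x < N, (x, ui N C x (bb x) 0) ∈ M) : ∀ j < C, (N + j, N + j) ∉ M ∧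
      ∃ r < 3, bn (occ φ (3 * j + r)).1 = bb (occ φ (3 * j + r)).2 := by
  have h3 := k0_le_k1 N C
  have h4 := k1_add N C
  have h5 := k0_def N C
  have heq := h.eq
  have key : ∀ j < C, (N + j, N + j) ∉ M → ∃ r < 3,
      bn (occ φ (3 * j + r)).1 = bb (occ φ (3 * j + r)).2 ∧
      (k1 N C + (3 * j + r), sw N C (N + j + 1)) ∈ M := by
    intro j hj ha
    obtain ⟨w, hw, hw'⟩ := partner_station h hM hl (t := N + j) (by omega) ha
    have : ∃ r < 3, (N + j, k1 N C + (3 * j + r)) ∈ M := by
      unfold br at hw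
      rw [if_neg (by omega), Nat.add_sub_cancel_left] at hw
      simp only [List.mem_cons, List.not_mem_nil, or_false] at hw
      rcases hw with rfl | rfl | rfl
      · exact ⟨0, by omega, hw'⟩
      · exact ⟨1, by omega, hw'⟩
      · exact ⟨2, by omega, hw'⟩
    obtain ⟨r, hr, hr'⟩ := this
    have h6 : (k1 N C + (3 * j + r), k1 N C + (3 * j + r)) ∉ M := by
      intro h6
      have := hM.1.snd hr' h6
      omega
    have h7 := occ_passed h hM hl hbb hp (i := 3 * j + r) (by omega) h6
    refine ⟨r, hr, h7.2, ?_⟩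
    have h8 := h7.1
    rw [show (3 * j + r) / 3 = j by omega] at h8
    exact h8
  intro j
  induction j with
  | zero =>
    intro hj
    have h1 := passed_var h hM hl N le_rfl
    obtain ⟨r, hr, h2, _⟩ := key 0 hj h1
    exact ⟨h1, r, hr, h2⟩
  | succ j ih =>
    intro hj
    obtain ⟨h1, _⟩ := ih (by omega)
    obtain ⟨r, hr, _, h2⟩ := key j (by omega) h1
    rw [sw_of_lt (by omega)] at h2
    have h6 : (N + (j + 1), N + (j + 1)) ∉ M := by
      intro h6
      have := hM.1.snd h2 h6
      omega
    obtain ⟨r', hr', h7, _⟩ := key (j + 1) hj h6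
    exact ⟨h6, r', hr', h7⟩

end

theorem bn_inj {a b : Bool} (h : bn a = bn b) : a = b := by
  cases a <;> cases b <;> simp [bn] at h <;> rfl

/-- soundness -/
theorem sat_of_matched (h : Ok N C φ) {M : List (ℕ × ℕ)} (hM : WeaklyStable (inst N C φ) M)
    (hl : (k2 N C, 0) ∈ M) : SAT3 φ := by
  choose bb hbb hp using exists_branch h hM hl
  have hc := passed_clause h hM hl hbb hp
  refine ⟨fun x => decide (bb x = 1), ?_⟩
  intro c hc'
  obtain ⟨j, hj, hcj⟩ := List.getElem_of_mem hc'
  have hcl : cl φ j = c := by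
    unfold cl
    rw [List.getD_eq_getElem _ _ hj, hcj]
  obtain ⟨_, r, hr, h1⟩ := hc j (by rw [← h.len]; exact hj)
  have h2 : ∀ x, bn (decide (bb x = 1)) = bb x := by
    intro x
    have := hbb x
    by_cases h3 : bb x = 1
    · simp [h3, bn]
    · have : bb x = 0 := by omega
      simp [this, bn]
  rw [← h2] at h1
  have h3 := bn_inj h1
  have h4 : occ φ (3 * j + r) = lit c r := by
    unfold occ
    rw [show (3 * j + r) / 3 = j by omega, show (3 * j + r) % 3 = r by omega, hcl]
  rw [h4] at h3
  interval_cases r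
  · left; simpa [lit] using h3.symm
  · right; left; simpa [lit] using h3.symm
  · right; right; simpa [lit] using h3.symm

end Pool.Agent.NPC.MO
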