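import Pool.Agent.H642R2.SRSys

/-!
Three disjoint perfect matchings encoding a system of not-all-equal constraints.

The agents come in blocks of 14. Block `x * 3G + i` (variable `x`, occurrence `i`) contains two
agents of the variable and two blockers of six agents each; block `V * 3G + g` is the gadget of
constraint `g`, whose literals are the occurrences `3g`, `3g+1`, `3g+2`.
-/

namespace Pool.Agent.NPC.SR

/-- next slot of the same variable -/
def nx (K q : ℕ) : ℕ := q / K * K + (q % K + 1) % K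

/-- previous slot of the same variable -/
def pv (K q : ℕ) : ℕ := q / K * K + (q % K + (K - 1)) % K

/-- second matching inside variable blocks -/
def d2 : List ℕ := [0, 0, 7, 4, 3, 6, 5, 2, 13, 10, 9, 12, 11, 8]

/-- second matching inside constraint blocks -/
def e2 : List ℕ := [3, 2, 1, 0, 9, 6, 5, 8, 7, 4, 13, 12, 11, 10]

/-- third matching inside variable blocks -/
def d3 : List ℕ := [2, 8, 0, 7, 6, 11, 4, 3, 1, 13, 12, 5, 10, 9]

/-- third matching inside constraint blocks -/
def e3 : List ℕ := [10, 6, 0, 0, 7, 13, 1, 4, 0, 0, 0, 0, 0, 5]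

/-- number of the literal of a port of a constraint block -/
def pk : List ℕ := [0, 0, 0, 0, 0, 0, 0, 0, 1, 1, 0, 2, 2, 0]

/-- positive port -/
def pP : List ℕ := [3, 8, 12]

/-- negative port -/
def pQ : List ℕ := [2, 9, 11]

/-- the number of agents -/
def nn (V G : ℕ) : ℕ := 14 * (V * (3 * G) + G)

/-- the first matching -/
def m1 (a : ℕ) : ℕ := if a % 2 = 0 then a + 1 else a - 1

/-- the second matching -/
def m2 (V G a : ℕ) : ℕ :=
  if a / 14 < V * (3 * G) then
    (if a % 14 = 0 then 14 * pv (3 * G) (a / 14) + 1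
    else if a % 14 = 1 then 14 * nx (3 * G) (a / 14)
    else 14 * (a / 14) + d2.getD (a % 14) 0)
  else 14 * (a / 14) + e2.getD (a % 14) 0

/-- the third matching -/
def m3 (V G : ℕ) (oc : ℕ → Bool × ℕ) (a : ℕ) : ℕ :=
  if a / 14 < V * (3 * G) then
    (if (a % 14 = 5 ∨ a % 14 = 11) ∧ (oc (a / 14 % (3 * G))).2 = a / 14 / (3 * G) then
      14 * (V * (3 * G) + a / 14 % (3 * G) / 3) +
        (if decide (a % 14 = 11) = (oc (a / 14 % (3 * G))).1 then
          pP.getD (a / 14 % (3 * G) % 3) 0 else pQ.getD (a / 14 % (3 * G) % 3) 0)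
    else 14 * (a / 14) + d3.getD (a % 14) 0)
  else
    (if a % 14 ∈ [2, 3, 8, 9, 11, 12] then
      14 * ((oc (3 * (a / 14 - V * (3 * G)) + pk.getD (a % 14) 0)).2 * (3 * G) +
        (3 * (a / 14 - V * (3 * G)) + pk.getD (a % 14) 0)) +
        (if decide (a % 14 ∈ [3, 8, 12]) =
          (oc (3 * (a / 14 - V * (3 * G)) + pk.getD (a % 14) 0)).1 then 11 else 5)
    else 14 * (a / 14) + e3.getD (a % 14) 0)

variable {V G : ℕ} {oc : ℕ → Bool × ℕ}

theorem dm {q t : ℕ} (ht : t < 14) : (14 * q + t) / 14 = q ∧ (14 * q + t) % 14 = t := by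
  omega

theorem nx_facts {K V q : ℕ} (hK : 2 ≤ K) (hq : q < V * K) :
    nx K q < V * K ∧ nx K q / K = q / K ∧ nx K q % K = (q % K + 1) % K ∧ nx K q ≠ q ∧
      pv K (nx K q) = q := by
  have h1 : (q % K + 1) % K < K := Nat.mod_lt _ (by omega)
  have h2 : q / K < V := Nat.div_lt_of_lt_mul (by rw [Nat.mul_comm]; exact hq)
  have e1 : nx K q / K = q / K := by
    unfold nx
    rw [Nat.add_comm, Nat.add_mul_div_right _ _ (by omega), Nat.div_eq_of_lt h1, Nat.zero_add]
  have e2 : nx K q % K = (q % K + 1) % K := by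
    unfold nx
    rw [Nat.add_comm, Nat.add_mul_mod_self_right, Nat.mod_mod]
  have h3 : q % K < K := Nat.mod_lt _ (by omega)
  have h4 := Nat.div_add_mod q K
  have h5 : (q % K + 1) % K = if q % K + 1 = K then 0 else q % K + 1 := by
    split
    · rename_i h; rw [h, Nat.mod_self]
    · exact Nat.mod_eq_of_lt (by omega)
  refine ⟨?_, e1, e2, ?_, ?_⟩
  · have := (Nat.div_lt_iff_lt_mul (x := nx K q) (k := K) (y := V) (by omega)).1 (by omega)
    exact this
  · intro h
    rw [h] at e2
    rw [h5] at e2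
    split at e2 <;> omega
  · unfold pv
    rw [e1, e2, h5]
    have h6 : K * (q / K) = q / K * K := Nat.mul_comm _ _
    split
    · rename_i h
      rw [Nat.zero_add, Nat.mod_eq_of_lt (by omega)]
      omega
    · rename_i h
      have : q % K + 1 + (K - 1) = q % K + K := by omega
      rw [this, Nat.add_mod_right, Nat.mod_eq_of_lt h3]
      omega

theorem pv_facts {K V q : ℕ} (hK : 2 ≤ K) (hq : q < V * K) :
    pv K q < V * K ∧ pv K q / K = q / K ∧ pv K q ≠ q ∧ nx K (pv K q) = q := by
  have h1 : (q % K + (K - 1)) % K < K := Nat.mod_lt _ (by omega)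
  have h2 : q / K < V := Nat.div_lt_of_lt_mul (by rw [Nat.mul_comm]; exact hq)
  have e1 : pv K q / K = q / K := by
    unfold pv
    rw [Nat.add_comm, Nat.add_mul_div_right _ _ (by omega), Nat.div_eq_of_lt h1, Nat.zero_add]
  have e2 : pv K q % K = (q % K + (K - 1)) % K := by
    unfold pv
    rw [Nat.add_comm, Nat.add_mul_mod_self_right, Nat.mod_mod]
  have h3 : q % K < K := Nat.mod_lt _ (by omega)
  have h4 := Nat.div_add_mod q K
  have h5 : (q % K + (K - 1)) % K = if q % K = 0 then K - 1 else q % K - 1 := by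
    split
    · rename_i h; rw [h, Nat.zero_add]; exact Nat.mod_eq_of_lt (by omega)
    · have : q % K + (K - 1) = q % K - 1 + K := by omega
      rw [this, Nat.add_mod_right]
      exact Nat.mod_eq_of_lt (by omega)
  refine ⟨?_, e1, ?_, ?_⟩
  · exact (Nat.div_lt_iff_lt_mul (x := pv K q) (k := K) (y := V) (by omega)).1 (by omega)
  · intro h
    rw [h] at e2
    rw [h5] at e2
    split at e2 <;> omega
  · unfold nx
    rw [e1, e2, h5]
    have h6 : K * (q / K) = q / K * K := Nat.mul_comm _ _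
    split
    · rename_i h
      rw [show K - 1 + 1 = K by omega, Nat.mod_self]
      omega
    · rename_i h
      rw [show q % K - 1 + 1 = q % K by omega, Nat.mod_eq_of_lt h3]
      omega

/-! ### evaluation -/

theorem m2_zero {q : ℕ} (hq : q < V * (3 * G)) : m2 V G (14 * q) = 14 * pv (3 * G) q + 1 := by
  unfold m2
  rw [show 14 * q / 14 = q by omega, show 14 * q % 14 = 0 by omega, if_pos hq, if_pos rfl]

theorem m2_one {q : ℕ} (hq : q < V * (3 * G)) : m2 V G (14 * q + 1) = 14 * nx (3 * G) q := by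
  unfold m2
  rw [show (14 * q + 1) / 14 = q by omega, show (14 * q + 1) % 14 = 1 by omega, if_pos hq,
    if_neg (by omega), if_pos rfl]

theorem m2_slot {q t : ℕ} (hq : q < V * (3 * G)) (ht : t < 14) (h2 : 2 ≤ t) :
    m2 V G (14 * q + t) = 14 * q + d2.getD t 0 := by
  unfold m2
  rw [(dm ht).1, (dm ht).2, if_pos hq, if_neg (by omega), if_neg (by omega)]

theorem m2_cons {q t : ℕ} (hq : V * (3 * G) ≤ q) (ht : t < 14) :
    m2 V G (14 * q + t) = 14 * q + e2.getD t 0 := by
  unfold m2
  rw [(dm ht).1, (dm ht).2, if_neg (by omega)]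

theorem m3_slot {q t : ℕ} (hq : q < V * (3 * G)) (ht : t < 14)
    (h : ¬ ((t = 5 ∨ t = 11) ∧ (oc (q % (3 * G))).2 = q / (3 * G))) :
    m3 V G oc (14 * q + t) = 14 * q + d3.getD t 0 := by
  unfold m3
  rw [(dm ht).1, (dm ht).2, if_pos hq, if_neg h]

theorem m3_used {q t : ℕ} (hq : q < V * (3 * G)) (ht : t = 5 ∨ t = 11)
    (h : (oc (q % (3 * G))).2 = q / (3 * G)) :
    m3 V G oc (14 * q + t) = 14 * (V * (3 * G) + q % (3 * G) / 3) +
      (if decide (t = 11) = (oc (q % (3 * G))).1 then
          pP.getD (q % (3 * G) % 3) 0 else pQ.getD (q % (3 * G) % 3) 0) := by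
  have ht' : t < 14 := by omega
  unfold m3
  rw [(dm ht').1, (dm ht').2, if_pos hq, if_pos ⟨ht, h⟩]

theorem m3_cons {g t : ℕ} (ht : t < 14) (h : t ∉ [2, 3, 8, 9, 11, 12]) :
    m3 V G oc (14 * (V * (3 * G) + g) + t) = 14 * (V * (3 * G) + g) + e3.getD t 0 := by
  unfold m3
  rw [(dm ht).1, (dm ht).2, if_neg (by omega), if_neg h]

theorem m3_port {g t : ℕ} (h : t ∈ [2, 3, 8, 9, 11, 12]) :
    m3 V G oc (14 * (V * (3 * G) + g) + t) = 14 * ((oc (3 * g + pk.getD t 0)).2 * (3 * G) +
        (3 * g + pk.getD t 0)) +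
        (if decide (t ∈ [3, 8, 12]) = (oc (3 * g + pk.getD t 0)).1 then 11 else 5) := by
  have ht : t < 14 := by
    simp only [List.mem_cons, List.not_mem_nil, or_false] at h
    omega
  unfold m3
  rw [(dm ht).1, (dm ht).2, if_neg (by omega), if_pos h, Nat.add_sub_cancel_left]

/-! ### the matchings are matchings -/

/-- every agent is in a variable block or in a constraint block -/
theorem cases_agent {a : ℕ} (ha : a < nn V G) : ∃ q t, t < 14 ∧ a = 14 * q + t ∧
    (q < V * (3 * G) ∨ ∃ g < G, q = V * (3 * G) + g) := by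
  refine ⟨a / 14, a % 14, by omega, by omega, ?_⟩
  unfold nn at ha
  by_cases h : a / 14 < V * (3 * G)
  · exact Or.inl h
  · exact Or.inr ⟨a / 14 - V * (3 * G), by omega, by omega⟩

theorem inv1 : Inv (nn V G) m1 := by
  intro a ha
  unfold nn at *
  unfold m1
  refine ⟨?_, ?_, ?_⟩
  · split <;> omega
  · by_cases h : a % 2 = 0
    · rw [if_pos h, if_neg (by omega)]; omega
    · rw [if_neg h, if_pos (by omega)]; omega
  · split <;> omega

theorem inv2 (hG : 0 < G) : Inv (nn V G) (m2 V G) := by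
  intro a ha
  obtain ⟨q, t, ht, rfl, hq | ⟨g, hg, rfl⟩⟩ := cases_agent ha
  · have hn := nx_facts (K := 3 * G) (by omega) hq
    have hp := pv_facts (K := 3 * G) (by omega) hq
    rcases Nat.lt_or_ge t 2 with h2 | h2
    · interval_cases t
      · rw [Nat.add_zero, m2_zero hq, m2_one hp.1, hp.2.2.2]
        unfold nn
        refine ⟨by omega, rfl, by omega⟩
      · rw [m2_one hq, m2_zero hn.1, hn.2.2.2.2]
        unfold nn
        refine ⟨by omega, rfl, by omega⟩
    · have hd : ∀ t, 2 ≤ t → t < 14 → 2 ≤ d2.getD t 0 ∧ d2.getD t 0 < 14 ∧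
          d2.getD (d2.getD t 0) 0 = t ∧ d2.getD t 0 ≠ t := by decide +kernel
      obtain ⟨h3, h4, h5, h6⟩ := hd t h2 ht
      rw [m2_slot hq ht h2, m2_slot hq h4 h3, h5]
      unfold nn
      refine ⟨by omega, rfl, by omega⟩
  · have he : ∀ t < 14, e2.getD t 0 < 14 ∧ e2.getD (e2.getD t 0) 0 = t ∧ e2.getD t 0 ≠ t := by
      decide +kernel
    obtain ⟨h4, h5, h6⟩ := he t ht
    rw [m2_cons (by omega) ht, m2_cons (by omega) h4, h5]
    unfold nn
    refine ⟨by omega, rfl, by omega⟩

theorem ports {k : ℕ} (hk : k < 3) : pP.getD k 0 ∈ [2, 3, 8, 9, 11, 12] ∧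
    pQ.getD k 0 ∈ [2, 3, 8, 9, 11, 12] ∧ pk.getD (pP.getD k 0) 0 = k ∧
    pk.getD (pQ.getD k 0) 0 = k ∧ decide (pP.getD k 0 ∈ [3, 8, 12]) = true ∧
    decide (pQ.getD k 0 ∈ [3, 8, 12]) = false := by
  interval_cases k <;> decide

theorem ports' {t : ℕ} (h : t ∈ [2, 3, 8, 9, 11, 12]) : t < 14 ∧ pk.getD t 0 < 3 ∧
    (if decide (t ∈ [3, 8, 12]) = true then pP.getD (pk.getD t 0) 0
      else pQ.getD (pk.getD t 0) 0) = t := by
  simp only [List.mem_cons, List.not_mem_nil, or_false] at h
  rcases h with rfl | rfl | rfl | rfl | rfl | rfl <;> decide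

theorem port_block (hoc : ∀ i < 3 * G, (oc i).2 < V) {i : ℕ} (hi : i < 3 * G) :
    (oc i).2 * (3 * G) + i < V * (3 * G) ∧ ((oc i).2 * (3 * G) + i) % (3 * G) = i ∧
      ((oc i).2 * (3 * G) + i) / (3 * G) = (oc i).2 := by
  have hx := hoc _ hi
  refine ⟨?_, ?_, ?_⟩
  · calc _ < (oc i).2 * (3 * G) + 3 * G := by omega
      _ = ((oc i).2 + 1) * (3 * G) := by ring
      _ ≤ V * (3 * G) := Nat.mul_le_mul_right _ hx
  · rw [Nat.add_comm, Nat.add_mul_mod_self_right, Nat.mod_eq_of_lt hi]
  · rw [Nat.add_comm, Nat.add_mul_div_right _ _ (by omega), Nat.div_eq_of_lt hi, Nat.zero_add]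

theorem inv3 (hG : 0 < G) (hoc : ∀ i < 3 * G, (oc i).2 < V) :
    Inv (nn V G) (m3 V G oc) := by
  intro a ha
  obtain ⟨q, t, ht, rfl, hq | ⟨g, hg, rfl⟩⟩ := cases_agent ha
  · by_cases hu : (t = 5 ∨ t = 11) ∧ (oc (q % (3 * G))).2 = q / (3 * G)
    · have hi : q % (3 * G) < 3 * G := Nat.mod_lt _ (by omega)
      have hp := ports (k := q % (3 * G) % 3) (by omega)
      have hg : q % (3 * G) / 3 < G := by omega
      have e : 3 * (q % (3 * G) / 3) + q % (3 * G) % 3 = q % (3 * G) := by omega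
      have e' : q / (3 * G) * (3 * G) + q % (3 * G) = q := by
        rw [Nat.mul_comm]; exact Nat.div_add_mod _ _
      rw [m3_used hq hu.1 hu.2]
      by_cases hs : decide (t = 11) = (oc (q % (3 * G))).1
      · rw [if_pos hs, m3_port hp.1, hp.2.2.1, e, hp.2.2.2.2.1, hu.2, e', ← hs]
        have h14 := (ports' hp.1).1
        have ht2 : (if true = decide (t = 11) then 11 else 5) = t := by
          rcases hu.1 with rfl | rfl <;> decide
        rw [ht2]
        unfold nn
        refine ⟨by omega, rfl, by omega⟩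
      · rw [if_neg hs, m3_port hp.2.1, hp.2.2.2.1, e, hp.2.2.2.2.2, hu.2, e']
        have h14 := (ports' hp.2.1).1
        have ht2 : (if false = (oc (q % (3 * G))).1 then 11 else 5) = t := by
          rcases hu.1 with rfl | rfl
          · cases h : (oc (q % (3 * G))).1
            · rw [h] at hs; exact absurd rfl hs
            · rfl
          · cases h : (oc (q % (3 * G))).1
            · rfl
            · rw [h] at hs; exact absurd rfl hs
        rw [ht2]
        unfold nn
        refine ⟨by omega, rfl, by omega⟩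
    · have hd : ∀ t < 14, d3.getD t 0 < 14 ∧ d3.getD (d3.getD t 0) 0 = t ∧ d3.getD t 0 ≠ t ∧
        (d3.getD t 0 = 5 ∨ d3.getD t 0 = 11 → t = 5 ∨ t = 11) := by decide +kernel
      obtain ⟨h4, h5, h6, h7⟩ := hd t ht
      rw [m3_slot hq ht hu, m3_slot hq h4 (fun h => hu ⟨h7 h.1, h.2⟩), h5]
      unfold nn
      refine ⟨by omega, rfl, by omega⟩
  · by_cases hu : t ∈ [2, 3, 8, 9, 11, 12]
    · obtain ⟨h1, h2, h3⟩ := ports' hu
      have hi : 3 * g + pk.getD t 0 < 3 * G := by omega
      have hx := hoc _ hi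
      have hq' : (oc (3 * g + pk.getD t 0)).2 * (3 * G) + (3 * g + pk.getD t 0) < V * (3 * G) := by
        calc _ < (oc (3 * g + pk.getD t 0)).2 * (3 * G) + 3 * G := by omega
          _ = ((oc (3 * g + pk.getD t 0)).2 + 1) * (3 * G) := by ring
          _ ≤ V * (3 * G) := Nat.mul_le_mul_right _ hx
      have e1 : ((oc (3 * g + pk.getD t 0)).2 * (3 * G) + (3 * g + pk.getD t 0)) % (3 * G) =
          3 * g + pk.getD t 0 := by
        rw [Nat.add_comm, Nat.add_mul_mod_self_right, Nat.mod_eq_of_lt hi]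
      have e2 : ((oc (3 * g + pk.getD t 0)).2 * (3 * G) + (3 * g + pk.getD t 0)) / (3 * G) =
          (oc (3 * g + pk.getD t 0)).2 := by
        rw [Nat.add_comm, Nat.add_mul_div_right _ _ (by omega), Nat.div_eq_of_lt hi, Nat.zero_add]
      have e3 : (3 * g + pk.getD t 0) / 3 = g := by omega
      have e4 : (3 * g + pk.getD t 0) % 3 = pk.getD t 0 := by omega
      rw [m3_port hu]
      by_cases hs : decide (t ∈ [3, 8, 12]) = (oc (3 * g + pk.getD t 0)).1
      · rw [if_pos hs, m3_used hq' (Or.inr rfl) (by rw [e1, e2]), e1, e3, e4, ← hs]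
        have h8 : (if decide (11 = 11) = decide (t ∈ [3, 8, 12]) then pP.getD (pk.getD t 0) 0
            else pQ.getD (pk.getD t 0) 0) = t := by
          simp only [List.mem_cons, List.not_mem_nil, or_false] at hu
          rcases hu with rfl | rfl | rfl | rfl | rfl | rfl <;> decide
        rw [h8]
        unfold nn
        refine ⟨by omega, rfl, by omega⟩
      · have hs' : (oc (3 * g + pk.getD t 0)).1 = !decide (t ∈ [3, 8, 12]) := by
          revert hs
          cases decide (t ∈ [3, 8, 12]) <;> cases (oc (3 * g + pk.getD t 0)).1 <;> simp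
        rw [if_neg hs, m3_used hq' (Or.inl rfl) (by rw [e1, e2]), e1, e3, e4, hs']
        have h8 : (if decide (5 = 11) = !decide (t ∈ [3, 8, 12]) then pP.getD (pk.getD t 0) 0
            else pQ.getD (pk.getD t 0) 0) = t := by
          simp only [List.mem_cons, List.not_mem_nil, or_false] at hu
          rcases hu with rfl | rfl | rfl | rfl | rfl | rfl <;> decide
        rw [h8]
        unfold nn
        refine ⟨by omega, rfl, by omega⟩
    · have he : ∀ t < 14, t ∉ [2, 3, 8, 9, 11, 12] → e3.getD t 0 < 14 ∧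
          e3.getD (e3.getD t 0) 0 = t ∧ e3.getD t 0 ≠ t ∧
          e3.getD t 0 ∉ [2, 3, 8, 9, 11, 12] := by decide +kernel
      obtain ⟨h4, h5, h6, h7⟩ := he t ht hu
      rw [m3_cons ht hu, m3_cons h4 h7, h5]
      unfold nn
      refine ⟨by omega, rfl, by omega⟩

theorem m1_eval {q t : ℕ} (ht : t < 14) : m1 (14 * q + t) = 14 * q + m1 t ∧ m1 t < 14 := by
  unfold m1
  by_cases h : t % 2 = 0
  · rw [if_pos (by omega), if_pos h]; omega
  · rw [if_neg (by omega), if_neg h]; omega

theorem ne12 (hG : 0 < G) : ∀ a < nn V G, m1 a ≠ m2 V G a := by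
  intro a ha
  obtain ⟨q, t, ht, rfl, hq | ⟨g, hg, rfl⟩⟩ := cases_agent ha
  · have hn := nx_facts (K := 3 * G) (by omega) hq
    have hp := pv_facts (K := 3 * G) (by omega) hq
    rw [(m1_eval ht).1]
    rcases Nat.lt_or_ge t 2 with h2 | h2
    · interval_cases t
      · rw [Nat.add_zero, m2_zero hq]
        have : m1 0 = 1 := rfl
        omega
      · rw [m2_one hq]
        have : m1 1 = 0 := rfl
        omega
    · rw [m2_slot hq ht h2]
      have : ∀ t, 2 ≤ t → t < 14 → m1 t ≠ d2.getD t 0 := by decide +kernel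
      have := this t h2 ht
      omega
  · rw [(m1_eval ht).1, m2_cons (by omega) ht]
    have : ∀ t < 14, m1 t ≠ e2.getD t 0 := by decide +kernel
    have := this t ht
    omega

theorem ne23 (hG : 0 < G) (hoc : ∀ i < 3 * G, (oc i).2 < V) :
    ∀ a < nn V G, m2 V G a ≠ m3 V G oc a := by
  intro a ha
  obtain ⟨q, t, ht, rfl, hq | ⟨g, hg, rfl⟩⟩ := cases_agent ha
  · have hn := nx_facts (K := 3 * G) (by omega) hq
    have hp := pv_facts (K := 3 * G) (by omega) hq
    rcases Nat.lt_or_ge t 2 with h2 | h2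
    · interval_cases t
      · rw [m3_slot hq (by omega) (by omega), Nat.add_zero, m2_zero hq]
        have : d3.getD 0 0 = 2 := rfl
        omega
      · rw [m2_one hq, m3_slot hq (by omega) (by omega)]
        have : d3.getD 1 0 = 8 := rfl
        omega
    · rw [m2_slot hq ht h2]
      by_cases hu : (t = 5 ∨ t = 11) ∧ (oc (q % (3 * G))).2 = q / (3 * G)
      · have hd : ∀ t, 2 ≤ t → t < 14 → d2.getD t 0 < 14 := by decide +kernel
        have := hd t h2 ht
        rw [m3_used hq hu.1 hu.2]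
        omega
      · rw [m3_slot hq ht hu]
        have : ∀ t, 2 ≤ t → t < 14 → d2.getD t 0 ≠ d3.getD t 0 := by decide +kernel
        have := this t h2 ht
        omega
  · rw [m2_cons (by omega) ht]
    by_cases hu : t ∈ [2, 3, 8, 9, 11, 12]
    · rw [m3_port hu]
      have hb := (port_block hoc (i := 3 * g + pk.getD t 0) (by
        have := (ports' hu).2.1; omega)).1
      split <;> omega
    · rw [m3_cons ht hu]
      have : ∀ t < 14, t ∉ [2, 3, 8, 9, 11, 12] → e2.getD t 0 ≠ e3.getD t 0 := by decide +kernel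
      have := this t ht hu
      omega

theorem ne31 (hG : 0 < G) (hoc : ∀ i < 3 * G, (oc i).2 < V) :
    ∀ a < nn V G, m3 V G oc a ≠ m1 a := by
  intro a ha
  obtain ⟨q, t, ht, rfl, hq | ⟨g, hg, rfl⟩⟩ := cases_agent ha
  · have h1 := m1_eval (q := q) ht
    rw [h1.1]
    by_cases hu : (t = 5 ∨ t = 11) ∧ (oc (q % (3 * G))).2 = q / (3 * G)
    · rw [m3_used hq hu.1 hu.2]
      omega
    · rw [m3_slot hq ht hu]
      have : ∀ t < 14, d3.getD t 0 ≠ m1 t := by decide +kernel
      have := this t ht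
      omega
  · have h1 := m1_eval (q := V * (3 * G) + g) ht
    rw [h1.1]
    by_cases hu : t ∈ [2, 3, 8, 9, 11, 12]
    · rw [m3_port hu]
      have hb := (port_block hoc (i := 3 * g + pk.getD t 0) (by
        have := (ports' hu).2.1; omega)).1
      split <;> omega
    · rw [m3_cons ht hu]
      have : ∀ t < 14, t ∉ [2, 3, 8, 9, 11, 12] → e3.getD t 0 ≠ m1 t := by decide +kernel
      have := this t ht hu
      omega

end Pool.Agent.NPC.SR
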