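import Pool.Agent.NPC.Classes

/-!
Rationalizability of sets of stable roommates matchings: definitions.
-/

namespace Pool.Agent.NPC.SR

/-- An input: the number of agents in unary (the length of the first component; the agents are
`0, 1, …`), and a list of matchings, each given as a list of pairs of agents. -/
abbrev Inst : Type := List Unit × List (List (ℕ × ℕ))

/-- the number of agents -/
def size (I : Inst) : ℕ := I.1.length

/-- `M` is a matching on the `n` agents: the pairs are pairwise disjoint pairs of different
agents. -/
def IsMatching (n : ℕ) (M : List (ℕ × ℕ)) : Prop :=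
  (M.map Prod.fst ++ M.map Prod.snd).Nodup ∧ ∀ p ∈ M, p.1 < n ∧ p.2 < n

/-- `a` and `b` are matched to each other in `M` -/
def Partner (M : List (ℕ × ℕ)) (a b : ℕ) : Prop := (a, b) ∈ M ∨ (b, a) ∈ M

/-- `P` is a stable roommates instance on `n` agents: entry `a` of `P` is the preference list of
agent `a`, a strict ranking of all other agents, most preferred first. -/
def IsSR (n : ℕ) (P : List (List ℕ)) : Prop :=
  P.length = n ∧ ∀ a < n, (P.getD a []).Perm ((List.range n).filter (fun b => decide (b ≠ a)))

/-- agent `a` strictly prefers `b` to `c` -/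
def Prefers (P : List (List ℕ)) (a b c : ℕ) : Prop :=
  (P.getD a []).idxOf b < (P.getD a []).idxOf c

/-- The pair of agents `a` and `b` blocks the matching `M`: it is not in `M`, and each of `a` and
`b` is unmatched or prefers the other to its partner. -/
def Blocks (n : ℕ) (P : List (List ℕ)) (M : List (ℕ × ℕ)) (a b : ℕ) : Prop :=
  a < n ∧ b < n ∧ a ≠ b ∧ ¬ Partner M a b ∧ (∀ c, Partner M a c → Prefers P a b c) ∧
    ∀ c, Partner M b c → Prefers P b a c

/-- the matching `M` is stable in the instance `P` -/
def Stable (n : ℕ) (P : List (List ℕ)) (M : List (ℕ × ℕ)) : Prop :=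
  IsMatching n M ∧ ∀ a b, ¬ Blocks n P M a b

/-- SR-RATIONALIZABILITY: some stable roommates instance makes all given matchings stable -/
def Rationalizable (I : Inst) : Prop :=
  ∃ P, IsSR (size I) P ∧ ∀ M ∈ I.2, Stable (size I) P M

/-- the input consists of three perfect matchings, no two of which have a pair in common -/
def ThreeDisjointPerfect (I : Inst) : Prop :=
  I.2.length = 3 ∧ (∀ M ∈ I.2, IsMatching (size I) M ∧ ∀ a < size I, ∃ b, Partner M a b) ∧
    I.2.Pairwise (fun M M' => ∀ a b, ¬ (Partner M a b ∧ Partner M' a b))

end Pool.Agent.NPC.SR
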