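import Pool.Agent.H642R2.SRDefs
import Pool.Agent.NPC.Dec

/-!
Rationalizability by stable roommates instances is in NP.
-/

namespace Pool.Agent.NPC.SR

/-- is `l` a permutation of `0, …, n-1` -/
def isPerm (n : ℕ) (l : List ℕ) : Bool :=
  decide (l.length = n) && (List.range n).all (fun a => decide (a ∈ l))

theorem isPerm_iff {n : ℕ} {l : List ℕ} : isPerm n l = true ↔ l.Perm (List.range n) := by
  unfold isPerm
  simp only [Bool.and_eq_true, decide_eq_true_eq, List.all_eq_true, List.mem_range]
  constructor
  · rintro ⟨h1, h2⟩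
    refine (List.Subperm.perm_of_length_le (List.subperm_of_subset List.nodup_range ?_)
      (by simp [h1])).symm
    intro a ha
    exact h2 a (List.mem_range.1 ha)
  · intro h
    refine ⟨by rw [h.length_eq, List.length_range], fun a ha => ?_⟩
    rw [h.mem_iff]
    exact List.mem_range.2 ha

theorem perm_cons_iff {n a : ℕ} (ha : a < n) {l : List ℕ} :
    l.Perm ((List.range n).filter (fun b => decide (b ≠ a))) ↔ (a :: l).Perm (List.range n) := by
  have h : (a :: (List.range n).filter (fun b => decide (b ≠ a))).Perm (List.range n) := by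
    refine (List.perm_ext_iff_of_nodup ?_ List.nodup_range).2 ?_
    · refine List.nodup_cons.2 ⟨?_, List.nodup_range.filter _⟩
      simp
    · intro b
      simp only [List.mem_cons, List.mem_filter, List.mem_range, decide_eq_true_eq]
      constructor
      · rintro (rfl | h)
        · exact ha
        · exact h.1
      · intro hb
        by_cases hab : b = a
        · exact Or.inl hab
        · exact Or.inr ⟨hb, hab⟩
  constructor
  · intro h'
    exact (List.Perm.cons a h').trans h
  · intro h'
    exact (List.perm_cons a).1 (h'.trans h.symm)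

/-- is `P` a stable roommates instance -/
def isSR (n : ℕ) (P : List (List ℕ)) : Bool :=
  decide (P.length = n) && (List.range n).all (fun a => isPerm n (a :: P.getD a []))

theorem isSR_iff {n : ℕ} {P : List (List ℕ)} : isSR n P = true ↔ IsSR n P := by
  unfold isSR IsSR
  simp only [Bool.and_eq_true, decide_eq_true_eq, List.all_eq_true, List.mem_range, isPerm_iff]
  refine and_congr_right fun _ => forall_congr' fun a => forall_congr' fun ha => ?_
  exact (perm_cons_iff ha).symm

/-- the ends of the pairs -/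
def ends (M : List (ℕ × ℕ)) : List ℕ := M.map Prod.fst ++ M.map Prod.snd

/-- does the list have no duplicates -/
def nodupB (l : List ℕ) : Bool :=
  (List.range l.length).all (fun i => decide (l.idxOf (l.getD i 0) = i))

theorem nodupB_iff {l : List ℕ} : nodupB l = true ↔ l.Nodup := by
  unfold nodupB
  simp only [List.all_eq_true, List.mem_range, decide_eq_true_eq]
  constructor
  · intro h
    rw [List.nodup_iff_injective_getElem]
    rintro ⟨i, hi⟩ ⟨j, hj⟩ hij
    simp only at hij
    have h1 := h i hi
    have h2 := h j hj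
    rw [List.getD_eq_getElem _ _ hi] at h1
    rw [List.getD_eq_getElem _ _ hj, ← hij] at h2
    exact Fin.ext (h1.symm.trans h2)
  · intro h i hi
    rw [List.getD_eq_getElem _ _ hi]
    exact h.idxOf_getElem i hi

/-- is `M` a matching -/
def isMatching (n : ℕ) (M : List (ℕ × ℕ)) : Bool :=
  nodupB (ends M) && M.all (fun p => decide (p.1 < n) && decide (p.2 < n))

theorem isMatching_iff {n : ℕ} {M : List (ℕ × ℕ)} : isMatching n M = true ↔ IsMatching n M := by
  unfold isMatching IsMatching
  simp only [Bool.and_eq_true, decide_eq_true_eq, List.all_eq_true, nodupB_iff]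
  rfl

/-- does `a` prefer `b` to every partner -/
def prefAll (P : List (List ℕ)) (M : List (ℕ × ℕ)) (a b : ℕ) : Bool :=
  M.all (fun p => (!decide (p.1 = a) ||
      decide ((P.getD a []).idxOf b < (P.getD a []).idxOf p.2)) &&
    (!decide (p.2 = a) || decide ((P.getD a []).idxOf b < (P.getD a []).idxOf p.1)))

theorem prefAll_iff {P : List (List ℕ)} {M : List (ℕ × ℕ)} {a b : ℕ} :
    prefAll P M a b = true ↔ ∀ c, Partner M a c → Prefers P a b c := by
  unfold prefAll Partner Prefers
  simp only [List.all_eq_true, Bool.and_eq_true, Bool.or_eq_true, Bool.not_eq_true',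
    decide_eq_false_iff_not, decide_eq_true_eq]
  constructor
  · rintro h c (hc | hc)
    · rcases (h _ hc).1 with h1 | h1
      · exact absurd rfl h1
      · exact h1
    · rcases (h _ hc).2 with h1 | h1
      · exact absurd rfl h1
      · exact h1
  · rintro h ⟨x, y⟩ hp
    constructor
    · by_cases hx : x = a
      · subst hx; exact Or.inr (h _ (Or.inl hp))
      · exact Or.inl hx
    · by_cases hy : y = a
      · subst hy; exact Or.inr (h _ (Or.inr hp))
      · exact Or.inl hy

/-- does the pair not block -/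
def okPair (P : List (List ℕ)) (M : List (ℕ × ℕ)) (a b : ℕ) : Bool :=
  decide (a = b) || (decide ((a, b) ∈ M) || (decide ((b, a) ∈ M) ||
    (!prefAll P M a b || !prefAll P M b a)))

/-- is `M` stable -/
def isStable (n : ℕ) (P : List (List ℕ)) (M : List (ℕ × ℕ)) : Bool :=
  isMatching n M && (List.range n).all (fun a => (List.range n).all (fun b => okPair P M a b))

theorem isStable_iff {n : ℕ} {P : List (List ℕ)} {M : List (ℕ × ℕ)} :
    isStable n P M = true ↔ Stable n P M := by
  unfold isStable Stable
  simp only [Bool.and_eq_true, List.all_eq_true, List.mem_range, isMatching_iff]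
  refine and_congr_right fun _ => ?_
  constructor
  · rintro h a b ⟨h1, h2, h3, h4, h5, h6⟩
    have h7 := h a h1 b h2
    unfold okPair at h7
    simp only [Bool.or_eq_true, decide_eq_true_eq, Bool.not_eq_true', Bool.eq_false_iff] at h7
    rw [Ne, Ne, prefAll_iff, prefAll_iff] at h7
    rcases h7 with h7 | h7 | h7 | h7 | h7
    · exact h3 h7
    · exact h4 (Or.inl h7)
    · exact h4 (Or.inr h7)
    · exact h7 h5
    · exact h7 h6
  · intro h a ha b hb
    unfold okPair
    simp only [Bool.or_eq_true, decide_eq_true_eq, Bool.not_eq_true', Bool.eq_false_iff]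
    rw [Ne, Ne, prefAll_iff, prefAll_iff]
    by_contra hcon
    push Not at hcon
    obtain ⟨h1, h2, h3, h4, h5⟩ := hcon
    refine h a b ⟨ha, hb, h1, ?_, h4, h5⟩
    rintro (h6 | h6)
    · exact h2 h6
    · exact h3 h6

/-- the verifier -/
def verify (p : Inst × List (List ℕ)) : Bool :=
  isSR p.1.1.length p.2 && p.1.2.all (fun M => isStable p.1.1.length p.2 M)

theorem rationalizable_iff (I : Inst) : Rationalizable I ↔
    ∃ P : List (List ℕ), sz P ≤ (Polynomial.C 4 * Polynomial.X * Polynomial.X * Polynomial.X +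
      Polynomial.C 2 * Polynomial.X * Polynomial.X +
      Polynomial.C 2 * Polynomial.X + Polynomial.C 1).eval (sz I) ∧ verify (I, P) = true := by
  have hv : ∀ P : List (List ℕ), verify (I, P) = true ↔
      IsSR (size I) P ∧ ∀ M ∈ I.2, Stable (size I) P M := by
    intro P
    unfold verify size
    simp only [Bool.and_eq_true, List.all_eq_true, isSR_iff, isStable_iff]
  unfold Rationalizable
  constructor
  · rintro ⟨P, hP, hS⟩
    refine ⟨P, ?_, (hv P).2 ⟨hP, hS⟩⟩
    set n := size I with hn
    have hlen : ∀ l ∈ P, sz l ≤ n * (4 * n + 2) + 1 := by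
      intro l hl
      obtain ⟨a, ha, rfl⟩ := List.mem_iff_getElem.1 hl
      have ha' : a < n := by rw [← hP.1]; exact ha
      have h1 := hP.2 a ha'
      rw [List.getD_eq_getElem _ _ ha] at h1
      have h2 : (P[a]).length ≤ n := by
        rw [h1.length_eq]
        refine (List.length_filter_le _ _).trans ?_
        simp
      have h3 := sz_le_length_mul P[a] (4 * n + 1) (by
        intro b hb
        rw [h1.mem_iff, List.mem_filter, List.mem_range] at hb
        have h3 := sz_nat_le b
        have h4 := Poly.size_le_self b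
        omega)
      refine h3.trans ?_
      have : P[a].length * (4 * n + 1 + 1) ≤ n * (4 * n + 1 + 1) := Nat.mul_le_mul_right _ h2
      have e : n * (4 * n + 1 + 1) = n * (4 * n + 2) := rfl
      omega
    have h5 := sz_le_length_mul P _ hlen
    rw [hP.1] at h5
    have h6 : n ≤ sz I := by
      have e1 := length_lt_sz I.1
      have e2 : sz I = sz I.1 + sz I.2 + 1 := sz_pair I.1 I.2
      have : n = I.1.length := rfl
      omega
    refine h5.trans ?_
    simp only [Polynomial.eval_add, Polynomial.eval_mul, Polynomial.eval_C, Polynomial.eval_X]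
    generalize sz I = s at *
    have h7 : n * (4 * n + 2) ≤ s * (4 * s + 2) := Nat.mul_le_mul h6 (by omega)
    have h8 : n * (n * (4 * n + 2) + 1 + 1) ≤ s * (s * (4 * s + 2) + 1 + 1) :=
      Nat.mul_le_mul h6 (by omega)
    have h9 : s * (s * (4 * s + 2) + 1 + 1) = 4 * s * s * s + 2 * s * s + 2 * s := by ring
    omega
  · rintro ⟨P, _, h⟩
    exact ⟨P, (hv P).1 h⟩

section

variable {α : Type} [TEnc α]

theorem poly_idxOf {l : α → List ℕ} {x : α → ℕ} (hl : NPC.Poly l) (hx : NPC.Poly x) :
    NPC.Poly (fun a => (l a).idxOf (x a)) := by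
  obtain ⟨r, hr⟩ := hl.sz_le
  have key : ∀ (x : ℕ) (l : List ℕ),
      l.foldr (fun b acc => if b = x then 0 else acc + 1) 0 = l.idxOf x := by
    intro x l
    induction l with
    | nil => rfl
    | cons b l ih =>
      rw [List.foldr_cons, ih, List.idxOf_cons]
      by_cases h : b = x
      · subst h; simp
      · have : (b == x) = false := by simpa using h
        simp [h, this]
  refine (Poly.foldr (F := fun a b acc => if b = x a then 0 else acc + 1) hl (Poly.const 0) ?_
    (Polynomial.C 4 * r + Polynomial.C 1) ?_).congr fun a => key _ _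
  · exact Poly.ite (Poly.decide_eq (Poly.fst (Poly.snd Poly.id)) (hx.comp (Poly.fst Poly.id)))
      (Poly.const _) (Poly.succ (Poly.snd (Poly.snd Poly.id)))
  · intro a k hk
    rw [key]
    have h1 : ((l a).drop k).idxOf (x a) ≤ ((l a).drop k).length := List.idxOf_le_length
    have h2 : ((l a).drop k).length ≤ (l a).length := by simp
    have h3 := length_lt_sz (l a)
    have h4 := hr a
    have h5 := sz_nat_le (((l a).drop k).idxOf (x a))
    have h6 := Poly.size_le_self (((l a).drop k).idxOf (x a))
    simp only [Polynomial.eval_add, Polynomial.eval_mul, Polynomial.eval_C]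
    omega

theorem poly_isPerm {n : α → ℕ} {l : α → List ℕ} (hn : UPoly n) (hl : NPC.Poly l) :
    NPC.Poly (fun a => isPerm (n a) (l a)) :=
  Poly.and (Poly.decide_eq (Poly.length hl) hn.toPoly)
    (Poly.all (p := fun a b => decide (b ∈ l a)) hn.range
      (Poly.decide_mem (Poly.snd Poly.id) (hl.comp (Poly.fst Poly.id))))

theorem poly_isSR {n : α → ℕ} {P : α → List (List ℕ)} (hn : UPoly n) (hP : NPC.Poly P) :
    NPC.Poly (fun a => isSR (n a) (P a)) := by
  refine Poly.and (Poly.decide_eq (Poly.length hP) hn.toPoly)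
    (Poly.all (p := fun a b => isPerm (n a) (b :: (P a).getD b [])) hn.range ?_)
  refine poly_isPerm (n := fun q : α × ℕ => n q.1) (l := fun q : α × ℕ => q.2 ::
    (P q.1).getD q.2 []) (hn.comp (Poly.fst Poly.id)) ?_
  exact Poly.cons (Poly.snd Poly.id) (Poly.getD (hP.comp (Poly.fst Poly.id)) (Poly.snd Poly.id)
    (Poly.const []))

theorem poly_ends {M : α → List (ℕ × ℕ)} (hM : NPC.Poly M) : NPC.Poly (fun a => ends (M a)) :=
  Poly.append (Poly.map (F := fun _ p => p.1) hM (Poly.fst (Poly.snd Poly.id)))
    (Poly.map (F := fun _ p => p.2) hM (Poly.snd (Poly.snd Poly.id)))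

theorem poly_nodupB {l : α → List ℕ} (hl : NPC.Poly l) : NPC.Poly (fun a => nodupB (l a)) := by
  refine Poly.all (p := fun a i => decide ((l a).idxOf ((l a).getD i 0) = i))
    (UPoly.length hl).range ?_
  have h : NPC.Poly (fun q : α × ℕ => l q.1) := hl.comp (Poly.fst Poly.id)
  exact Poly.decide_eq (poly_idxOf h (Poly.getD h (Poly.snd Poly.id) (Poly.const 0)))
    (Poly.snd Poly.id)

theorem poly_isMatching {n : α → ℕ} {M : α → List (ℕ × ℕ)} (hn : UPoly n) (hM : NPC.Poly M) :
    NPC.Poly (fun a => isMatching (n a) (M a)) := by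
  refine Poly.and (poly_nodupB (poly_ends hM))
    (Poly.all (p := fun a p => decide (p.1 < n a) && decide (p.2 < n a)) hM ?_)
  have h : NPC.Poly (fun q : α × (ℕ × ℕ) => n q.1) := hn.toPoly.comp (Poly.fst Poly.id)
  exact Poly.and (Poly.decide_lt (Poly.fst (Poly.snd Poly.id)) h)
    (Poly.decide_lt (Poly.snd (Poly.snd Poly.id)) h)

theorem poly_prefAll {P : α → List (List ℕ)} {M : α → List (ℕ × ℕ)} {x y : α → ℕ}
    (hP : NPC.Poly P) (hM : NPC.Poly M) (hx : NPC.Poly x) (hy : NPC.Poly y) :
    NPC.Poly (fun a => prefAll (P a) (M a) (x a) (y a)) := by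
  refine Poly.all (p := fun a p => (!decide (p.1 = x a) ||
      decide (((P a).getD (x a) []).idxOf (y a) < ((P a).getD (x a) []).idxOf p.2)) &&
    (!decide (p.2 = x a) ||
      decide (((P a).getD (x a) []).idxOf (y a) < ((P a).getD (x a) []).idxOf p.1))) hM ?_
  have hx' : NPC.Poly (fun q : α × (ℕ × ℕ) => x q.1) := hx.comp (Poly.fst Poly.id)
  have hy' : NPC.Poly (fun q : α × (ℕ × ℕ) => y q.1) := hy.comp (Poly.fst Poly.id)
  have hl : NPC.Poly (fun q : α × (ℕ × ℕ) => (P q.1).getD (x q.1) []) :=
    Poly.getD (hP.comp (Poly.fst Poly.id)) hx' (Poly.const [])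
  have h1 : NPC.Poly (fun q : α × (ℕ × ℕ) => q.2.1) := Poly.fst (Poly.snd Poly.id)
  have h2 : NPC.Poly (fun q : α × (ℕ × ℕ) => q.2.2) := Poly.snd (Poly.snd Poly.id)
  have hiy := poly_idxOf hl hy'
  exact Poly.and (Poly.or (Poly.not (Poly.decide_eq h1 hx')) (Poly.decide_lt hiy
      (poly_idxOf hl h2)))
    (Poly.or (Poly.not (Poly.decide_eq h2 hx')) (Poly.decide_lt hiy (poly_idxOf hl h1)))

theorem poly_okPair {P : α → List (List ℕ)} {M : α → List (ℕ × ℕ)} {x y : α → ℕ}
    (hP : NPC.Poly P) (hM : NPC.Poly M) (hx : NPC.Poly x) (hy : NPC.Poly y) :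
    NPC.Poly (fun a => okPair (P a) (M a) (x a) (y a)) :=
  Poly.or (Poly.decide_eq hx hy)
    (Poly.or ((Poly.decide_mem (Poly.pair hx hy) hM).congr fun _ => decide_eq_decide.2 Iff.rfl)
    (Poly.or ((Poly.decide_mem (Poly.pair hy hx) hM).congr fun _ => decide_eq_decide.2 Iff.rfl)
      (Poly.or (Poly.not (poly_prefAll hP hM hx hy)) (Poly.not (poly_prefAll hP hM hy hx)))))

theorem poly_isStable {n : α → ℕ} {P : α → List (List ℕ)} {M : α → List (ℕ × ℕ)}
    (hn : UPoly n) (hP : NPC.Poly P) (hM : NPC.Poly M) :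
    NPC.Poly (fun a => isStable (n a) (P a) (M a)) := by
  refine Poly.and (poly_isMatching hn hM) (Poly.all (p := fun a b => (List.range (n a)).all
    (fun c => okPair (P a) (M a) b c)) hn.range ?_)
  refine Poly.all (p := fun (q : α × ℕ) c => okPair (P q.1) (M q.1) q.2 c)
    (hn.comp (Poly.fst Poly.id)).range ?_
  exact poly_okPair (P := fun q : (α × ℕ) × ℕ => P q.1.1) (M := fun q : (α × ℕ) × ℕ => M q.1.1)
    (x := fun q : (α × ℕ) × ℕ => q.1.2) (y := fun q : (α × ℕ) × ℕ => q.2)
    (hP.comp (Poly.fst (Poly.fst Poly.id))) (hM.comp (Poly.fst (Poly.fst Poly.id)))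
    (Poly.snd (Poly.fst Poly.id)) (Poly.snd Poly.id)

end

theorem poly_verify : NPC.Poly verify := by
  have hI : NPC.Poly (fun p : Inst × List (List ℕ) => p.1) := Poly.fst Poly.id
  have hn : UPoly (fun p : Inst × List (List ℕ) => p.1.1.length) := UPoly.length (Poly.fst hI)
  refine Poly.and (poly_isSR hn (Poly.snd Poly.id))
    (Poly.all (p := fun (p : Inst × List (List ℕ)) M => isStable p.1.1.length p.2 M)
      (Poly.snd hI) ?_)
  exact poly_isStable (n := fun q : (Inst × List (List ℕ)) × List (ℕ × ℕ) => q.1.1.1.length)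
    (P := fun q : (Inst × List (List ℕ)) × List (ℕ × ℕ) => q.1.2)
    (M := fun q : (Inst × List (List ℕ)) × List (ℕ × ℕ) => q.2)
    (hn.comp (Poly.fst Poly.id)) (Poly.snd (Poly.fst Poly.id)) (Poly.snd Poly.id)

/-- membership in NP -/
theorem inNPP_rationalizable : InNPP Rationalizable :=
  inNPP_of poly_verify _ rationalizable_iff

end Pool.Agent.NPC.SR
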