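import Pool.Agent.H642R2.SRRed

/-!
The reduction is computable in polynomial time; hardness.
-/

namespace Pool.Agent.NPC.SR

section

variable {α : Type} [TEnc α]

theorem poly_mulc {m : α → ℕ} (hm : NPC.Poly m) (c : ℕ) : NPC.Poly (fun a => c * m a) :=
  Poly.mul (Poly.const c) hm

theorem poly_addc {m : α → ℕ} (hm : NPC.Poly m) (c : ℕ) : NPC.Poly (fun a => m a + c) :=
  Poly.add hm (Poly.const c)

theorem poly_subc {m : α → ℕ} (hm : NPC.Poly m) (c : ℕ) : NPC.Poly (fun a => m a - c) :=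
  Poly.sub hm (Poly.const c)

theorem poly_cl {φ : α → List Cl} {j : α → ℕ} (hφ : NPC.Poly φ) (hj : NPC.Poly j) :
    NPC.Poly (fun a => cl (φ a) (j a)) :=
  Poly.getD hφ hj (Poly.const _)

theorem poly_ocf {φ : α → List Cl} {i : α → ℕ} (hφ : NPC.Poly φ) (hi : NPC.Poly i) :
    NPC.Poly (fun a => ocf (φ a) (i a)) := by
  have hr : NPC.Poly (fun a => i a % 6) := Poly.mod hi (Poly.const 6)
  have hj : NPC.Poly (fun a => i a / 6) := Poly.div hi (Poly.const 6)
  have hc : NPC.Poly (fun a => cl (φ a) (i a / 6)) := poly_cl hφ hj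
  have hl : NPC.Poly (fun a => (φ a).length) := Poly.length hφ
  have hw : NPC.Poly (fun a => 3 * (φ a).length + i a / 6) := Poly.add (poly_mulc hl 3) hj
  exact Poly.ite (Poly.decide_eq hr (Poly.const 0)) (Poly.fst hc)
    (Poly.ite (Poly.decide_eq hr (Poly.const 1)) (Poly.fst (Poly.snd hc))
      (Poly.ite (Poly.decide_eq hr (Poly.const 2)) (Poly.pair (Poly.const true) hw)
        (Poly.ite (Poly.decide_eq hr (Poly.const 3)) (Poly.pair (Poly.const false) hw)
          (Poly.ite (Poly.decide_eq hr (Poly.const 4)) (Poly.snd (Poly.snd hc))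
            (Poly.pair (Poly.const true) (poly_mulc hl 4))))))

theorem poly_nx {K q : α → ℕ} (hK : NPC.Poly K) (hq : NPC.Poly q) :
    NPC.Poly (fun a => nx (K a) (q a)) :=
  Poly.add (Poly.mul (Poly.div hq hK) hK) (Poly.mod (poly_addc (Poly.mod hq hK) 1) hK)

theorem poly_pv {K q : α → ℕ} (hK : NPC.Poly K) (hq : NPC.Poly q) :
    NPC.Poly (fun a => pv (K a) (q a)) :=
  Poly.add (Poly.mul (Poly.div hq hK) hK)
    (Poly.mod (Poly.add (Poly.mod hq hK) (poly_subc hK 1)) hK)

theorem poly_m1 {x : α → ℕ} (hx : NPC.Poly x) : NPC.Poly (fun a => m1 (x a)) :=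
  Poly.ite (Poly.decide_eq (Poly.mod hx (Poly.const 2)) (Poly.const 0)) (poly_addc hx 1)
    (poly_subc hx 1)

theorem poly_m2 {V G x : α → ℕ} (hV : NPC.Poly V) (hG : NPC.Poly G) (hx : NPC.Poly x) :
    NPC.Poly (fun a => m2 (V a) (G a) (x a)) := by
  have hK : NPC.Poly (fun a => 3 * G a) := poly_mulc hG 3
  have hVK : NPC.Poly (fun a => V a * (3 * G a)) := Poly.mul hV hK
  have hq : NPC.Poly (fun a => x a / 14) := Poly.div hx (Poly.const 14)
  have ht : NPC.Poly (fun a => x a % 14) := Poly.mod hx (Poly.const 14)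
  exact Poly.ite (Poly.decide_lt hq hVK)
    (Poly.ite (Poly.decide_eq ht (Poly.const 0)) (poly_addc (poly_mulc (poly_pv hK hq) 14) 1)
      (Poly.ite (Poly.decide_eq ht (Poly.const 1)) (poly_mulc (poly_nx hK hq) 14)
        (Poly.add (poly_mulc hq 14) (Poly.getD (Poly.const d2) ht (Poly.const 0)))))
    (Poly.add (poly_mulc hq 14) (Poly.getD (Poly.const e2) ht (Poly.const 0)))

theorem poly_m3 {V G x : α → ℕ} {φ : α → List Cl} (hV : NPC.Poly V) (hG : NPC.Poly G)
    (hx : NPC.Poly x) (hφ : NPC.Poly φ) :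
    NPC.Poly (fun a => m3 (V a) (G a) (ocf (φ a)) (x a)) := by
  have hK : NPC.Poly (fun a => 3 * G a) := poly_mulc hG 3
  have hVK : NPC.Poly (fun a => V a * (3 * G a)) := Poly.mul hV hK
  have hq : NPC.Poly (fun a => x a / 14) := Poly.div hx (Poly.const 14)
  have ht : NPC.Poly (fun a => x a % 14) := Poly.mod hx (Poly.const 14)
  have hi : NPC.Poly (fun a => x a / 14 % (3 * G a)) := Poly.mod hq hK
  have hoc : NPC.Poly (fun a => ocf (φ a) (x a / 14 % (3 * G a))) := poly_ocf hφ hi
  have hg : NPC.Poly (fun a => 3 * (x a / 14 - V a * (3 * G a)) + pk.getD (x a % 14) 0) :=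
    Poly.add (poly_mulc (Poly.sub hq hVK) 3) (Poly.getD (Poly.const pk) ht (Poly.const 0))
  have hog : NPC.Poly (fun a => ocf (φ a)
      (3 * (x a / 14 - V a * (3 * G a)) + pk.getD (x a % 14) 0)) := poly_ocf hφ hg
  have hk : NPC.Poly (fun a => x a / 14 % (3 * G a) % 3) := Poly.mod hi (Poly.const 3)
  exact Poly.ite (Poly.decide_lt hq hVK)
    (Poly.ite (Poly.decide_and (Poly.decide_or (Poly.decide_eq ht (Poly.const 5))
        (Poly.decide_eq ht (Poly.const 11))) (Poly.decide_eq (Poly.snd hoc) (Poly.div hq hK)))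
      (Poly.add (poly_mulc (Poly.add hVK (Poly.div hi (Poly.const 3))) 14)
        (Poly.ite (Poly.decide_eq (Poly.decide_eq ht (Poly.const 11)) (Poly.fst hoc))
          (Poly.getD (Poly.const pP) hk (Poly.const 0))
          (Poly.getD (Poly.const pQ) hk (Poly.const 0))))
      (Poly.add (poly_mulc hq 14) (Poly.getD (Poly.const d3) ht (Poly.const 0))))
    (Poly.ite (Poly.decide_mem ht (Poly.const [2, 3, 8, 9, 11, 12]))
      (Poly.add (poly_mulc (Poly.add (Poly.mul (Poly.snd hog) hK) hg) 14)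
        (Poly.ite (Poly.decide_eq (Poly.decide_mem ht (Poly.const [3, 8, 12])) (Poly.fst hog))
          (Poly.const 11) (Poly.const 5)))
      (Poly.add (poly_mulc hq 14) (Poly.getD (Poly.const e3) ht (Poly.const 0))))

end

theorem poly_len : NPC.Poly (fun φ : List Cl => φ.length) := Poly.length Poly.id

theorem upoly_num : UPoly num := by
  have hc : UPoly (fun φ : List Cl => φ.length) := UPoly.length Poly.id
  have hG : UPoly (fun φ : List Cl => 2 * φ.length) := UPoly.mul (UPoly.const 2) hc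
  have hK : UPoly (fun φ : List Cl => 3 * (2 * φ.length)) := UPoly.mul (UPoly.const 3) hG
  have h4 : UPoly (fun φ : List Cl => 4 * φ.length) := UPoly.mul (UPoly.const 4) hc
  have hV : UPoly (fun φ : List Cl => 4 * φ.length + 1) := UPoly.add h4 (UPoly.const 1)
  have hVK : UPoly (fun φ : List Cl => (4 * φ.length + 1) * (3 * (2 * φ.length))) :=
    UPoly.mul hV hK
  have h5 : UPoly (fun φ : List Cl => (4 * φ.length + 1) * (3 * (2 * φ.length)) +
    2 * φ.length) := UPoly.add hVK hG
  exact UPoly.mul (UPoly.const 14) h5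

theorem poly_mm2 : NPC.Poly (fun p : List Cl × ℕ => mm2 p.1 p.2) := by
  have hl : NPC.Poly (fun p : List Cl × ℕ => p.1.length) := poly_len.comp (Poly.fst Poly.id)
  exact poly_m2 (poly_addc (poly_mulc hl 4) 1) (poly_mulc hl 2) (Poly.snd Poly.id)

theorem poly_mm3 : NPC.Poly (fun p : List Cl × ℕ => mm3 p.1 p.2) := by
  have hl : NPC.Poly (fun p : List Cl × ℕ => p.1.length) := poly_len.comp (Poly.fst Poly.id)
  exact poly_m3 (poly_addc (poly_mulc hl 4) 1) (poly_mulc hl 2) (Poly.snd Poly.id)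
    (Poly.fst Poly.id)

theorem poly_filt {l : List Cl → List ℕ} (hl : NPC.Poly l) {F : List Cl → ℕ → Bool}
    (hF : NPC.Poly (fun p : List Cl × ℕ => F p.1 p.2)) :
    NPC.Poly (fun φ => (l φ).filter (F φ)) :=
  Poly.filter hl hF

theorem poly_mapp {l : List Cl → List ℕ} (hl : NPC.Poly l) {F : List Cl → ℕ → ℕ × ℕ}
    (hF : NPC.Poly (fun p : List Cl × ℕ => F p.1 p.2)) :
    NPC.Poly (fun φ => (l φ).map (F φ)) :=
  Poly.map hl hF

theorem poly_mlist {m : List Cl → ℕ → ℕ} (hm : NPC.Poly (fun p : List Cl × ℕ => m p.1 p.2)) :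
    NPC.Poly (fun φ => mlist (num φ) (m φ)) := by
  have hr : NPC.Poly (fun φ : List Cl => List.range (num φ)) := upoly_num.range
  have hd : NPC.Poly (fun p : List Cl × ℕ => decide (p.2 < m p.1 p.2)) :=
    Poly.decide_lt (Poly.snd Poly.id) hm
  have hf : NPC.Poly (fun φ : List Cl => (List.range (num φ)).filter
      (fun a => decide (a < m φ a))) :=
    poly_filt (F := fun φ a => decide (a < m φ a)) hr hd
  exact poly_mapp (F := fun φ a => (a, m φ a)) hf (Poly.pair (Poly.snd Poly.id) hm)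

theorem poly_red : NPC.Poly red := by
  have h1 : NPC.Poly (fun φ : List Cl => mlist (num φ) m1) :=
    poly_mlist (m := fun _ a => m1 a) (poly_m1 (Poly.snd Poly.id))
  have h2 : NPC.Poly (fun φ : List Cl => mlist (num φ) (mm2 φ)) := poly_mlist poly_mm2
  have h3 : NPC.Poly (fun φ : List Cl => mlist (num φ) (mm3 φ)) := poly_mlist poly_mm3
  exact Poly.pair upoly_num (Poly.cons h1 (Poly.cons h2 (Poly.cons h3 (Poly.const []))))

/-- rationalizability is hard, even for three disjoint perfect matchings -/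
theorem hardPr_three : HardPr ThreeDisjointPerfect Rationalizable :=
  hardPr_SAT3b.trans poly_red (fun _ h => red_three h.2.1 h.2.2)
    (fun _ h => red_correct h.2.1 h.2.2)

end Pool.Agent.NPC.SR
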