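import Pool.Agent.H642R2.SRSol
import Pool.Agent.NPC.Sat2
import Pool.Agent.NPC.Dec

/-!
The reduction from 3SAT to rationalizability by stable roommates instances.
-/

namespace Pool.Agent.NPC.SR

/-- clauses -/
abbrev Cl : Type := Lit ℕ × Lit ℕ × Lit ℕ

/-- clause number `j` -/
def cl (φ : List Cl) (j : ℕ) : Cl := φ.getD j ((false, 0), (false, 0), (false, 0))

/-- the literals of the not-all-equal system -/
def ocf (φ : List Cl) (i : ℕ) : Bool × ℕ :=
  if i % 6 = 0 then (cl φ (i / 6)).1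
  else if i % 6 = 1 then (cl φ (i / 6)).2.1
  else if i % 6 = 2 then (true, 3 * φ.length + i / 6)
  else if i % 6 = 3 then (false, 3 * φ.length + i / 6)
  else if i % 6 = 4 then (cl φ (i / 6)).2.2
  else (true, 4 * φ.length)

theorem ocf_bdd {φ : List Cl} (hb : Bounded3 φ) :
    ∀ i < 3 * (2 * φ.length), (ocf φ i).2 < 4 * φ.length + 1 := by
  intro i hi
  have h1 : cl φ (i / 6) ∈ φ := by
    unfold cl
    rw [List.getD_eq_getElem _ _ (by omega)]
    exact List.getElem_mem _
  obtain ⟨h2, h3, h4⟩ := hb _ h1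
  unfold ocf
  split_ifs <;> try (simp only)
  all_goals omega

theorem nae_iff {φ : List Cl} (hb : Bounded3 φ) : SAT3 φ ↔ ∃ τ : ℕ → Bool,
    ∀ g < 2 * φ.length, Nae (lv (ocf φ) τ (3 * g)) (lv (ocf φ) τ (3 * g + 1))
      (lv (ocf φ) τ (3 * g + 2)) := by
  have e0 : ∀ j, ocf φ (6 * j) = (cl φ j).1 := by
    intro j
    unfold ocf
    rw [show 6 * j % 6 = 0 by omega, show 6 * j / 6 = j by omega, if_pos rfl]
  have e1 : ∀ j, ocf φ (6 * j + 1) = (cl φ j).2.1 := by
    intro j
    unfold ocf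
    rw [show (6 * j + 1) % 6 = 1 by omega, show (6 * j + 1) / 6 = j by omega]
    simp
  have e2 : ∀ j, ocf φ (6 * j + 2) = (true, 3 * φ.length + j) := by
    intro j
    unfold ocf
    rw [show (6 * j + 2) % 6 = 2 by omega, show (6 * j + 2) / 6 = j by omega]
    simp
  have e3 : ∀ j, ocf φ (6 * j + 3) = (false, 3 * φ.length + j) := by
    intro j
    unfold ocf
    rw [show (6 * j + 3) % 6 = 3 by omega, show (6 * j + 3) / 6 = j by omega]
    simp
  have e4 : ∀ j, ocf φ (6 * j + 4) = (cl φ j).2.2 := by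
    intro j
    unfold ocf
    rw [show (6 * j + 4) % 6 = 4 by omega, show (6 * j + 4) / 6 = j by omega]
    simp
  have e5 : ∀ j, ocf φ (6 * j + 5) = (true, 4 * φ.length) := by
    intro j
    unfold ocf
    rw [show (6 * j + 5) % 6 = 5 by omega]
    simp
  have hcl : ∀ j < φ.length, cl φ j ∈ φ := by
    intro j hj
    unfold cl
    rw [List.getD_eq_getElem _ _ hj]
    exact List.getElem_mem _
  constructor
  · rintro ⟨σ, hσ⟩
    let a : ℕ → Bool := fun j => σ (cl φ j).1.2 == (cl φ j).1.1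
    let b : ℕ → Bool := fun j => σ (cl φ j).2.1.2 == (cl φ j).2.1.1
    refine ⟨fun x => if x < 3 * φ.length then σ x else if x < 4 * φ.length then
      !(a (x - 3 * φ.length) || b (x - 3 * φ.length)) else false, ?_⟩
    intro g hg
    obtain ⟨j, rfl | rfl⟩ : ∃ j, g = 2 * j ∨ g = 2 * j + 1 := ⟨g / 2, by omega⟩
    · obtain ⟨h1, h2, h3⟩ := hb _ (hcl j (by omega))
      rw [show 3 * (2 * j) = 6 * j by ring]
      unfold lv
      rw [e0, e1, e2]
      beta_reduce
      rw [if_pos h1, if_pos h2, if_neg (by simp), if_pos (by simp only; omega)]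
      simp only [Nat.add_sub_cancel_left]
      show Nae (a j) (b j) _
      cases a j <;> cases b j <;> simp [Nae]
    · obtain ⟨h1, h2, h3⟩ := hb _ (hcl j (by omega))
      rw [show 3 * (2 * j + 1) = 6 * j + 3 by ring]
      unfold lv
      rw [e3, show 6 * j + 3 + 1 = 6 * j + 4 by ring, e4, show 6 * j + 3 + 2 = 6 * j + 5 by ring, e5]
      beta_reduce
      rw [if_pos h3, if_neg (by simp), if_pos (by simp only; omega), if_neg (by simp only; omega),
        if_neg (by simp)]
      simp only [Nat.add_sub_cancel_left]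
      have hs := hσ _ (hcl j (by omega))
      have ha : a j = (σ (cl φ j).1.2 == (cl φ j).1.1) := rfl
      have hb' : b j = (σ (cl φ j).2.1.2 == (cl φ j).2.1.1) := rfl
      rw [← beq_iff_eq (a := σ (cl φ j).1.2), ← ha, ← beq_iff_eq (a := σ (cl φ j).2.1.2), ← hb',
        ← beq_iff_eq (a := σ (cl φ j).2.2.2)] at hs
      revert hs
      cases a j <;> cases b j <;> cases (σ (cl φ j).2.2.2 == (cl φ j).2.2.1) <;> simp [Nae]
  · rintro ⟨τ, hτ⟩
    have key : ∀ j < φ.length,
        Nae (τ (cl φ j).1.2 == (cl φ j).1.1) (τ (cl φ j).2.1.2 == (cl φ j).2.1.1)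
          (τ (3 * φ.length + j)) ∧
        Nae (!τ (3 * φ.length + j)) (τ (cl φ j).2.2.2 == (cl φ j).2.2.1) (τ (4 * φ.length)) := by
      intro j hj
      have h1 := hτ (2 * j) (by omega)
      have h2 := hτ (2 * j + 1) (by omega)
      rw [show 3 * (2 * j) = 6 * j by ring] at h1
      rw [show 3 * (2 * j + 1) = 6 * j + 3 by ring, show 6 * j + 3 + 1 = 6 * j + 4 by ring,
        show 6 * j + 3 + 2 = 6 * j + 5 by ring] at h2
      unfold lv at h1 h2
      rw [e0, e1, e2] at h1
      rw [e3, e4, e5] at h2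
      simpa using And.intro h1 h2
    cases hf : τ (4 * φ.length)
    · refine ⟨τ, ?_⟩
      intro c hc
      obtain ⟨j, hj, rfl⟩ : ∃ j < φ.length, cl φ j = c := by
        obtain ⟨j, hj, rfl⟩ := List.mem_iff_getElem.1 hc
        exact ⟨j, hj, by unfold cl; rw [List.getD_eq_getElem _ _ hj]⟩
      obtain ⟨h1, h2⟩ := key j hj
      rw [hf] at h2
      rw [← beq_iff_eq (a := τ (cl φ j).1.2), ← beq_iff_eq (a := τ (cl φ j).2.1.2),
        ← beq_iff_eq (a := τ (cl φ j).2.2.2)]
      revert h1 h2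
      cases (τ (cl φ j).1.2 == (cl φ j).1.1) <;> cases (τ (cl φ j).2.1.2 == (cl φ j).2.1.1) <;>
        cases (τ (cl φ j).2.2.2 == (cl φ j).2.2.1) <;> cases τ (3 * φ.length + j) <;> simp [Nae]
    · refine ⟨fun x => !τ x, ?_⟩
      intro c hc
      obtain ⟨j, hj, rfl⟩ : ∃ j < φ.length, cl φ j = c := by
        obtain ⟨j, hj, rfl⟩ := List.mem_iff_getElem.1 hc
        exact ⟨j, hj, by unfold cl; rw [List.getD_eq_getElem _ _ hj]⟩
      obtain ⟨h1, h2⟩ := key j hj
      rw [hf] at h2
      have hn : ∀ x y : Bool, ((!x) = y) ↔ (x == y) = false := by decide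
      beta_reduce
      rw [hn, hn, hn]
      revert h1 h2
      cases (τ (cl φ j).1.2 == (cl φ j).1.1) <;> cases (τ (cl φ j).2.1.2 == (cl φ j).2.1.1) <;>
        cases (τ (cl φ j).2.2.2 == (cl φ j).2.2.1) <;> cases τ (3 * φ.length + j) <;> simp [Nae]

/-- the number of agents -/
def num (φ : List Cl) : ℕ := nn (4 * φ.length + 1) (2 * φ.length)

/-- the second matching -/
def mm2 (φ : List Cl) (a : ℕ) : ℕ := m2 (4 * φ.length + 1) (2 * φ.length) a

/-- the third matching -/
def mm3 (φ : List Cl) (a : ℕ) : ℕ := m3 (4 * φ.length + 1) (2 * φ.length) (ocf φ) a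

/-- the reduction -/
def red (φ : List Cl) : Inst :=
  (List.replicate (num φ) (), [mlist (num φ) m1, mlist (num φ) (mm2 φ), mlist (num φ) (mm3 φ)])

theorem red_size (φ : List Cl) : size (red φ) = num φ := by
  unfold size red
  simp

theorem red_correct {φ : List Cl} (hb : Bounded3 φ) (hne : φ ≠ []) :
    SAT3 φ ↔ Rationalizable (red φ) := by
  have hpos : 0 < φ.length := List.length_pos_iff.2 hne
  have hG : 0 < 2 * φ.length := by omega
  have hoc := ocf_bdd hb
  have i1 : Inv (num φ) m1 := inv1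
  have i2 : Inv (num φ) (mm2 φ) := inv2 hG
  have i3 : Inv (num φ) (mm3 φ) := inv3 hG hoc
  have n12 : ∀ a < num φ, m1 a ≠ mm2 φ a := ne12 hG
  have n23 : ∀ a < num φ, mm2 φ a ≠ mm3 φ a := ne23 hG hoc
  have n31 : ∀ a < num φ, mm3 φ a ≠ m1 a := ne31 hG hoc
  rw [nae_iff hb]
  constructor
  · rintro ⟨τ, hτ⟩
    obtain ⟨P, hP, s1, s2, s3⟩ := stable_of_sol i1 i2 i3 n12 n23 n31 (sol_of_nae hG hoc hτ)
    refine ⟨P, ?_, ?_⟩
    · rw [red_size]; exact hP
    · intro M hM
      rw [red_size]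
      unfold red at hM
      simp only [List.mem_cons, List.not_mem_nil, or_false] at hM
      rcases hM with rfl | rfl | rfl
      · exact s1
      · exact s2
      · exact s3
  · rintro ⟨P, hP, hs⟩
    rw [red_size] at hP
    have s1 := hs (mlist (num φ) m1) (by simp [red])
    have s2 := hs (mlist (num φ) (mm2 φ)) (by simp [red])
    have s3 := hs (mlist (num φ) (mm3 φ)) (by simp [red])
    rw [red_size] at s1 s2 s3
    obtain ⟨p12, p23, p31, S⟩ := sol_of_stable hP i1 i2 i3 n12 n23 n31 s1 s2 s3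
    exact ⟨_, nae_of_sol hG hoc S⟩

theorem red_three {φ : List Cl} (hb : Bounded3 φ) (hne : φ ≠ []) :
    ThreeDisjointPerfect (red φ) := by
  have hpos : 0 < φ.length := List.length_pos_iff.2 hne
  have hG : 0 < 2 * φ.length := by omega
  have hoc := ocf_bdd hb
  have i1 : Inv (num φ) m1 := inv1
  have i2 : Inv (num φ) (mm2 φ) := inv2 hG
  have i3 : Inv (num φ) (mm3 φ) := inv3 hG hoc
  have n12 : ∀ a < num φ, m1 a ≠ mm2 φ a := ne12 hG
  have n23 : ∀ a < num φ, mm2 φ a ≠ mm3 φ a := ne23 hG hoc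
  have n31 : ∀ a < num φ, mm3 φ a ≠ m1 a := ne31 hG hoc
  have aux : ∀ {m : ℕ → ℕ}, Inv (num φ) m → IsMatching (size (red φ)) (mlist (num φ) m) ∧
      ∀ a < size (red φ), ∃ b, Partner (mlist (num φ) m) a b := by
    intro m hm
    rw [red_size]
    exact ⟨mlist_matching hm, fun a ha => ⟨m a, (partner_mlist hm).2 ⟨ha, rfl⟩⟩⟩
  refine ⟨rfl, ?_, ?_⟩
  · intro M hM
    unfold red at hM
    simp only [List.mem_cons, List.not_mem_nil, or_false] at hM
    rcases hM with rfl | rfl | rfl
    · exact aux i1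
    · exact aux i2
    · exact aux i3
  · unfold red
    simp only [List.pairwise_cons, List.mem_cons, List.not_mem_nil, or_false, forall_eq_or_imp,
      forall_eq, List.Pairwise.nil, and_true, IsEmpty.forall_iff, implies_true]
    refine ⟨⟨?_, ?_⟩, ?_⟩
    · rintro a b ⟨h1, h2⟩
      rw [partner_mlist i1] at h1
      rw [partner_mlist i2] at h2
      exact n12 a h1.1 (h1.2.symm.trans h2.2)
    · rintro a b ⟨h1, h2⟩
      rw [partner_mlist i1] at h1
      rw [partner_mlist i3] at h2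
      exact n31 a h1.1 (h2.2.symm.trans h1.2)
    · rintro a b ⟨h1, h2⟩
      rw [partner_mlist i2] at h1
      rw [partner_mlist i3] at h2
      exact n23 a h1.1 (h1.2.symm.trans h2.2)

end Pool.Agent.NPC.SR
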