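import Pool.Agent.H642R2.SRCons

/-!
The constraint system of the three matchings is solvable iff the not-all-equal system is.
-/

namespace Pool.Agent.NPC.SR

variable {V G : ℕ} {oc : ℕ → Bool × ℕ}

/-- value of a literal -/
def lv (oc : ℕ → Bool × ℕ) (τ : ℕ → Bool) (i : ℕ) : Bool := τ (oc i).2 == (oc i).1

/-- the bits of the solution -/
def bit (V G : ℕ) (τ l : ℕ → Bool) (s : List Bool) (k : List ℕ) (c : List Bool) (a : ℕ) : Bool :=
  if a / 14 < V * (3 * G) then xor (τ (a / 14 / (3 * G))) (s.getD (a % 14) false)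
  else xor (l (3 * (a / 14 - V * (3 * G)) + k.getD (a % 14) 0)) (c.getD (a % 14) false)

theorem bit_slot {τ l : ℕ → Bool} {s : List Bool} {k : List ℕ} {c : List Bool} {q t : ℕ}
    (hq : q < V * (3 * G)) (ht : t < 14) :
    bit V G τ l s k c (14 * q + t) = xor (τ (q / (3 * G))) (s.getD t false) := by
  unfold bit
  rw [(dm ht).1, (dm ht).2, if_pos hq]

theorem bit_cons {τ l : ℕ → Bool} {s : List Bool} {k : List ℕ} {c : List Bool} {g t : ℕ}
    (ht : t < 14) :
    bit V G τ l s k c (14 * (V * (3 * G) + g) + t) =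
      xor (l (3 * g + k.getD t 0)) (c.getD t false) := by
  unfold bit
  rw [(dm ht).1, (dm ht).2, if_neg (by omega), Nat.add_sub_cancel_left]

theorem flip1 {τ l : ℕ → Bool} {s : List Bool} {k : List ℕ} {c : List Bool}
    (hs : ∀ t < 14, s.getD (m1 t) false = !s.getD t false)
    (hk : ∀ t < 14, k.getD (m1 t) 0 = k.getD t 0)
    (hc : ∀ t < 14, c.getD (m1 t) false = !c.getD t false) :
    ∀ a < nn V G, bit V G τ l s k c (m1 a) = !bit V G τ l s k c a := by
  intro a ha
  obtain ⟨q, t, ht, rfl, hq | ⟨g, hg, rfl⟩⟩ := cases_agent ha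
  · obtain ⟨h1, h2⟩ := m1_eval (q := q) ht
    rw [h1, bit_slot hq h2, bit_slot hq ht, hs t ht]
    cases τ (q / (3 * G)) <;> simp
  · obtain ⟨h1, h2⟩ := m1_eval (q := V * (3 * G) + g) ht
    rw [h1, bit_cons h2, bit_cons ht, hc t ht, hk t ht]
    cases l (3 * g + k.getD t 0) <;> simp

theorem flip2 (hG : 0 < G) {τ l : ℕ → Bool} {s : List Bool} {k : List ℕ} {c : List Bool}
    (hs : ∀ t, 2 ≤ t → t < 14 → d2.getD t 0 < 14 ∧ s.getD (d2.getD t 0) false = !s.getD t false)
    (hs' : s.getD 1 false = !s.getD 0 false)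
    (hk : ∀ t < 14, e2.getD t 0 < 14 ∧ k.getD (e2.getD t 0) 0 = k.getD t 0 ∧
      c.getD (e2.getD t 0) false = !c.getD t false) :
    ∀ a < nn V G, bit V G τ l s k c (m2 V G a) = !bit V G τ l s k c a := by
  intro a ha
  obtain ⟨q, t, ht, rfl, hq | ⟨g, hg, rfl⟩⟩ := cases_agent ha
  · rcases Nat.lt_or_ge t 2 with h2 | h2
    · have hn := nx_facts (K := 3 * G) (by omega) hq
      have hp := pv_facts (K := 3 * G) (by omega) hq
      interval_cases t
      · rw [Nat.add_zero, m2_zero hq, bit_slot hp.1 (by omega),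
          show 14 * q = 14 * q + 0 from rfl, bit_slot hq (by omega), hp.2.1, hs']
        cases τ (q / (3 * G)) <;> simp
      · rw [m2_one hq, show 14 * nx (3 * G) q = 14 * nx (3 * G) q + 0 from rfl,
          bit_slot hn.1 (by omega), bit_slot hq (by omega), hn.2.1, hs']
        cases τ (q / (3 * G)) <;> simp
    · obtain ⟨h3, h4⟩ := hs t h2 ht
      rw [m2_slot hq ht h2, bit_slot hq h3, bit_slot hq ht, h4]
      cases τ (q / (3 * G)) <;> simp
  · obtain ⟨h1, h2, h3⟩ := hk t ht
    rw [m2_cons (by omega) ht, bit_cons h1, bit_cons ht, h2, h3]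
    cases l (3 * g + k.getD t 0) <;> simp

theorem flip3 (hG : 0 < G) (hoc : ∀ i < 3 * G, (oc i).2 < V) {τ : ℕ → Bool} {s : List Bool}
    {k : List ℕ} {c : List Bool}
    (hs : ∀ t < 14, d3.getD t 0 < 14 ∧ s.getD (d3.getD t 0) false = !s.getD t false)
    (h5 : s.getD 5 false = true) (h11 : s.getD 11 false = false)
    (hk : ∀ t < 14, t ∉ [2, 3, 8, 9, 11, 12] → e3.getD t 0 < 14 ∧
      k.getD (e3.getD t 0) 0 = k.getD t 0 ∧ c.getD (e3.getD t 0) false = !c.getD t false)
    (hp : ∀ t ∈ [2, 3, 8, 9, 11, 12], k.getD t 0 = pk.getD t 0 ∧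
      c.getD t false = decide (t ∈ [3, 8, 12])) :
    ∀ a < nn V G, bit V G τ (lv oc τ) s k c (m3 V G oc a) = !bit V G τ (lv oc τ) s k c a := by
  -- the ports of the constraint blocks
  have port : ∀ g < G, ∀ t ∈ [2, 3, 8, 9, 11, 12],
      bit V G τ (lv oc τ) s k c (m3 V G oc (14 * (V * (3 * G) + g) + t)) =
        !bit V G τ (lv oc τ) s k c (14 * (V * (3 * G) + g) + t) := by
    intro g hg t hu
    obtain ⟨h1, h2, _⟩ := ports' hu
    have hb := port_block hoc (i := 3 * g + pk.getD t 0) (by omega)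
    rw [m3_port hu, bit_slot hb.1 (by split <;> omega), bit_cons h1, (hp t hu).1, (hp t hu).2,
      hb.2.2]
    unfold lv
    by_cases hs : decide (t ∈ [3, 8, 12]) = (oc (3 * g + pk.getD t 0)).1
    · rw [if_pos hs, hs, h11]
      cases τ (oc (3 * g + pk.getD t 0)).2 <;> cases (oc (3 * g + pk.getD t 0)).1 <;> rfl
    · rw [if_neg hs, h5]
      revert hs
      cases τ (oc (3 * g + pk.getD t 0)).2 <;> cases (oc (3 * g + pk.getD t 0)).1 <;>
        cases decide (t ∈ [3, 8, 12]) <;> simp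
  intro a ha
  obtain ⟨q, t, ht, rfl, hq | ⟨g, hg, rfl⟩⟩ := cases_agent ha
  · by_cases hu : (t = 5 ∨ t = 11) ∧ (oc (q % (3 * G))).2 = q / (3 * G)
    · -- the partner is a port
      have hi : q % (3 * G) < 3 * G := Nat.mod_lt _ (by omega)
      have hpo := ports (k := q % (3 * G) % 3) (by omega)
      have hinv := (inv3 (V := V) hG hoc) (14 * q + t) ha
      have key : ∃ t' ∈ [2, 3, 8, 9, 11, 12], m3 V G oc (14 * q + t) =
          14 * (V * (3 * G) + q % (3 * G) / 3) + t' := by
        rw [m3_used hq hu.1 hu.2]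
        split
        · exact ⟨_, hpo.1, rfl⟩
        · exact ⟨_, hpo.2.1, rfl⟩
      obtain ⟨t', ht', e⟩ := key
      have := port (q % (3 * G) / 3) (by omega) t' ht'
      rw [← e, hinv.2.1] at this
      rw [this]
      simp
    · obtain ⟨h3, h4⟩ := hs t ht
      rw [m3_slot hq ht hu, bit_slot hq h3, bit_slot hq ht, h4]
      cases τ (q / (3 * G)) <;> simp
  · by_cases hu : t ∈ [2, 3, 8, 9, 11, 12]
    · exact port g hg t hu
    · obtain ⟨h1, h2, h3⟩ := hk t ht hu
      rw [m3_cons ht hu, bit_cons h1, bit_cons ht, h2, h3]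
      cases lv oc τ (3 * g + k.getD t 0) <;> simp

def s12 : List Bool := [false, true, true, false, true, false, true, false, false, true, false,
  true, false, true]
def s23 : List Bool := [true, false, false, false, true, true, false, true, true, true, false,
  false, true, false]
def s31 : List Bool := [true, false, false, true, false, true, true, false, true, false, true,
  false, false, true]
def k12 : List ℕ := [0, 0, 0, 0, 1, 1, 1, 1, 1, 1, 2, 2, 2, 2]
def k23 : List ℕ := [0, 0, 0, 0, 1, 0, 0, 1, 1, 1, 0, 2, 2, 0]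
def k31 : List ℕ := [2, 2, 0, 0, 2, 2, 2, 2, 1, 1, 2, 2, 2, 2]
def c12 : List Bool := [true, false, true, false, false, true, false, true, false, true, false,
  true, false, true]
def c23 : List Bool := [false, true, false, true, true, true, false, false, true, false, true,
  false, true, false]
def c31 : List Bool := [false, true, false, true, false, true, false, true, true, false, true,
  false, true, false]

/-- a solution of the not-all-equal system gives a solution of the constraint system -/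
theorem sol_of_nae (hG : 0 < G) (hoc : ∀ i < 3 * G, (oc i).2 < V) {τ : ℕ → Bool}
    (h : ∀ g < G, Nae (lv oc τ (3 * g)) (lv oc τ (3 * g + 1)) (lv oc τ (3 * g + 2))) :
    Sol (nn V G) m1 (m2 V G) (m3 V G oc) (bit V G τ (lv oc τ) s12 k12 c12)
      (bit V G τ (lv oc τ) s23 k23 c23) (bit V G τ (lv oc τ) s31 k31 c31) := by
  refine ⟨?_, ?_, ?_, ?_, ?_, ?_, ?_⟩
  · exact flip1 (by decide +kernel) (by decide +kernel) (by decide +kernel)
  · exact flip2 hG (by decide +kernel) (by decide +kernel) (by decide +kernel)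
  · exact flip2 hG (by decide +kernel) (by decide +kernel) (by decide +kernel)
  · exact flip3 hG hoc (by decide +kernel) rfl rfl (by decide +kernel) (by decide +kernel)
  · exact flip3 hG hoc (by decide +kernel) rfl rfl (by decide +kernel) (by decide +kernel)
  · exact flip1 (by decide +kernel) (by decide +kernel) (by decide +kernel)
  · intro a ha
    obtain ⟨q, t, ht, rfl, hq | ⟨g, hg, rfl⟩⟩ := cases_agent ha
    · rw [bit_slot hq ht, bit_slot hq ht, bit_slot hq ht]
      have : ∀ b : Bool, ∀ t < 14, ¬ (xor b (s12.getD t false) = xor b (s23.getD t false) ∧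
        xor b (s23.getD t false) = xor b (s31.getD t false)) := by decide +kernel
      exact this _ t ht
    · rw [bit_cons ht, bit_cons ht, bit_cons ht]
      have hk : ∀ (l : ℕ → Bool) (k : ℕ), k < 3 →
          l (3 * g + k) = [l (3 * g), l (3 * g + 1), l (3 * g + 2)].getD k false := by
        intro l k hk
        interval_cases k <;> rfl
      have hb : ∀ t < 14, k12.getD t 0 < 3 ∧ k23.getD t 0 < 3 ∧ k31.getD t 0 < 3 := by
        decide +kernel
      rw [hk (lv oc τ) _ (hb t ht).1, hk (lv oc τ) _ (hb t ht).2.1, hk (lv oc τ) _ (hb t ht).2.2]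
      have h2 : ∀ l0 l1 l2 : Bool, ¬ (l0 = l1 ∧ l1 = l2) → ∀ t < 14,
        ¬ (xor ([l0, l1, l2].getD (k12.getD t 0) false) (c12.getD t false) =
            xor ([l0, l1, l2].getD (k23.getD t 0) false) (c23.getD t false) ∧
          xor ([l0, l1, l2].getD (k23.getD t 0) false) (c23.getD t false) =
            xor ([l0, l1, l2].getD (k31.getD t 0) false) (c31.getD t false)) := by
        decide +kernel
      exact h2 _ _ _ (h g hg) t ht

/-! ### the converse -/

theorem blocker {n : ℕ} {m1 m2 m3 : ℕ → ℕ} {p12 p23 p31 : ℕ → Bool}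
    (S : Sol n m1 m2 m3 p12 p23 p31) {b0 b1 b2 b3 b4 b5 : ℕ} (h0 : b0 < n) (h1 : b1 < n)
    (h2 : b2 < n) (h3 : b3 < n) (h4 : b4 < n) (e1 : m1 b0 = b1) (e2 : m1 b2 = b3)
    (e3 : m1 b4 = b5) (e4 : m2 b0 = b5) (e5 : m2 b1 = b2) (e6 : m2 b3 = b4) (e7 : m3 b1 = b5)
    (e8 : m3 b2 = b4) :
    (p23 b0 = !p12 b0) ∧ (p31 b0 = !p12 b0) ∧ (p23 b3 = !p12 b3) ∧ (p31 b3 = !p12 b3) ∧
      (p12 b3 = !p12 b0) := by
  have A1 := S.a1 b0 h0
  have A2 := S.a1 b2 h2
  have A3 := S.a2 b1 h1
  have A4 := S.a2 b3 h3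
  have B1 := S.b2 b0 h0
  have B2 := S.b3 b1 h1
  have B3 := S.b2 b1 h1
  have B4 := S.b3 b2 h2
  have B5 := S.b2 b3 h3
  have C1 := S.c1 b0 h0
  have C2 := S.c3 b1 h1
  have C3 := S.c1 b4 h4
  have C4 := S.c3 b2 h2
  have C5 := S.c1 b2 h2
  have N0 := S.nae b0 h0
  have N1 := S.nae b1 h1
  have N4 := S.nae b4 h4
  rw [e1] at A1 C1
  rw [e2] at A2 C5
  rw [e3] at C3
  rw [e4] at B1
  rw [e5] at A3 B3
  rw [e6] at A4 B5
  rw [e7] at B2 C2
  rw [e8] at B4 C4
  unfold Nae at N0 N1 N4
  cases h12 : p12 b0 <;> cases h23 : p23 b0 <;> cases h31 : p31 b0 <;> simp_all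

theorem nae_of_sol (hG : 0 < G) (hoc : ∀ i < 3 * G, (oc i).2 < V) {p12 p23 p31 : ℕ → Bool}
    (S : Sol (nn V G) m1 (m2 V G) (m3 V G oc) p12 p23 p31) :
    ∀ g < G, Nae (lv oc (fun x => p12 (14 * (x * (3 * G)))) (3 * g))
      (lv oc (fun x => p12 (14 * (x * (3 * G)))) (3 * g + 1))
      (lv oc (fun x => p12 (14 * (x * (3 * G)))) (3 * g + 2)) := by
  have hn : ∀ q t, q < V * (3 * G) + G → t < 14 → 14 * q + t < nn V G := by
    intro q t hq ht
    unfold nn
    omega
  -- variable blocks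
  have slot : ∀ q, q < V * (3 * G) → ¬ False →
      (p23 (14 * q + 5) = !p12 (14 * q + 5)) ∧ (p31 (14 * q + 5) = !p12 (14 * q + 5)) ∧
      (p12 (14 * q + 5) = p12 (14 * q)) ∧
      (p23 (14 * q + 11) = !p12 (14 * q + 11)) ∧ (p31 (14 * q + 11) = !p12 (14 * q + 11)) ∧
      (p12 (14 * q + 11) = !p12 (14 * q)) ∧ (p12 (14 * nx (3 * G) q) = p12 (14 * q)) := by
    intro q hq _
    have hn' : ∀ t < 14, 14 * q + t < nn V G := fun t ht => hn q t (by omega) ht
    have m1e : ∀ t < 14, m1 (14 * q + t) = 14 * q + m1 t := fun t ht => (m1_eval ht).1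
    have m2e : ∀ t < 14, 2 ≤ t → m2 V G (14 * q + t) = 14 * q + d2.getD t 0 :=
      fun t ht h2 => m2_slot hq ht h2
    have m3e : ∀ t < 14, t ≠ 5 → t ≠ 11 → m3 V G oc (14 * q + t) = 14 * q + d3.getD t 0 :=
      fun t ht h5 h11 => m3_slot hq ht (by omega)
    have B1 := blocker S (b0 := 14 * q + 2) (b1 := 14 * q + 3) (b2 := 14 * q + 4)
      (b3 := 14 * q + 5) (b4 := 14 * q + 6) (b5 := 14 * q + 7) (hn' _ (by omega))
      (hn' _ (by omega)) (hn' _ (by omega)) (hn' _ (by omega)) (hn' _ (by omega))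
      (m1e 2 (by omega)) (m1e 4 (by omega)) (m1e 6 (by omega)) (m2e 2 (by omega) (by omega))
      (m2e 3 (by omega) (by omega)) (m2e 5 (by omega) (by omega))
      (m3e 3 (by omega) (by omega) (by omega)) (m3e 4 (by omega) (by omega) (by omega))
    have B2 := blocker S (b0 := 14 * q + 8) (b1 := 14 * q + 9) (b2 := 14 * q + 10)
      (b3 := 14 * q + 11) (b4 := 14 * q + 12) (b5 := 14 * q + 13) (hn' _ (by omega))
      (hn' _ (by omega)) (hn' _ (by omega)) (hn' _ (by omega)) (hn' _ (by omega))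
      (m1e 8 (by omega)) (m1e 10 (by omega)) (m1e 12 (by omega)) (m2e 8 (by omega) (by omega))
      (m2e 9 (by omega) (by omega)) (m2e 11 (by omega) (by omega))
      (m3e 9 (by omega) (by omega) (by omega)) (m3e 10 (by omega) (by omega) (by omega))
    obtain ⟨x1, x2, x3, x4, x5⟩ := B1
    obtain ⟨y1, y2, y3, y4, y5⟩ := B2
    have h0 : 14 * q < nn V G := hn' 0 (by omega)
    have h1 : 14 * q + 1 < nn V G := hn' 1 (by omega)
    have f0 : m3 V G oc (14 * q) = 14 * q + 2 := m3e 0 (by omega) (by omega) (by omega)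
    have f1 : m3 V G oc (14 * q + 1) = 14 * q + 8 := m3e 1 (by omega) (by omega) (by omega)
    have g0 : m1 (14 * q) = 14 * q + 1 := m1e 0 (by omega)
    have u1 := S.b3 (14 * q) h0
    have u2 := S.c3 (14 * q) h0
    have u3 := S.nae (14 * q) h0
    have v1 := S.b3 (14 * q + 1) h1
    have v2 := S.c3 (14 * q + 1) h1
    have v3 := S.nae (14 * q + 1) h1
    have w1 := S.a1 (14 * q) h0
    have w2 := S.a2 (14 * q + 1) h1
    rw [f0] at u1 u2
    rw [f1] at v1 v2
    rw [g0] at w1
    rw [m2_one hq] at w2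
    unfold Nae at u3 v3
    have z1 : p12 (14 * q + 2) = !p12 (14 * q) := by
      revert u1 u2 u3 x1 x2
      cases p12 (14 * q) <;> cases p12 (14 * q + 2) <;> cases p23 (14 * q) <;>
        cases p31 (14 * q) <;> simp_all
    have z2 : p12 (14 * q + 8) = !p12 (14 * q + 1) := by
      revert v1 v2 v3 y1 y2
      cases p12 (14 * q + 1) <;> cases p12 (14 * q + 8) <;> cases p23 (14 * q + 1) <;>
        cases p31 (14 * q + 1) <;> simp_all
    refine ⟨x3, x4, ?_, y3, y4, ?_, ?_⟩
    · rw [x5, z1]; simp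
    · rw [y5, z2, w1]; simp
    · rw [w2, w1]; simp
  -- all slots of a variable carry the same value
  have chain : ∀ x < V, ∀ i < 3 * G, p12 (14 * (x * (3 * G) + i)) = p12 (14 * (x * (3 * G))) := by
    intro x hx i
    induction i with
    | zero => intro _; rfl
    | succ i ih =>
      intro hi
      have hlt : x * (3 * G) + i < V * (3 * G) := by
        calc _ < x * (3 * G) + 3 * G := by omega
          _ = (x + 1) * (3 * G) := by ring
          _ ≤ V * (3 * G) := Nat.mul_le_mul_right _ hx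
      have h7 := (slot _ hlt (fun h => h)).2.2.2.2.2.2
      have e1 : (x * (3 * G) + i) / (3 * G) = x := by
        rw [Nat.add_comm, Nat.add_mul_div_right _ _ (by omega), Nat.div_eq_of_lt (by omega),
          Nat.zero_add]
      have e2 : (x * (3 * G) + i) % (3 * G) = i := by
        rw [Nat.add_comm, Nat.add_mul_mod_self_right, Nat.mod_eq_of_lt (by omega)]
      have e3 : nx (3 * G) (x * (3 * G) + i) = x * (3 * G) + (i + 1) := by
        unfold nx
        rw [e1, e2, Nat.mod_eq_of_lt hi]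
      rw [e3] at h7
      rw [h7, ih (by omega)]
  -- the ports
  have port : ∀ g < G, ∀ t ∈ [3, 8, 12],
      p12 (14 * (V * (3 * G) + g) + t) =
        lv oc (fun x => p12 (14 * (x * (3 * G)))) (3 * g + pk.getD t 0) ∧
      p23 (14 * (V * (3 * G) + g) + t) =
        !lv oc (fun x => p12 (14 * (x * (3 * G)))) (3 * g + pk.getD t 0) ∧
      p31 (14 * (V * (3 * G) + g) + t) =
        !lv oc (fun x => p12 (14 * (x * (3 * G)))) (3 * g + pk.getD t 0) := by
    intro g hg t ht
    have ht' : t ∈ [2, 3, 8, 9, 11, 12] := by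
      simp only [List.mem_cons, List.not_mem_nil, or_false] at ht ⊢
      omega
    obtain ⟨h1, h2, _⟩ := ports' ht'
    have hi : 3 * g + pk.getD t 0 < 3 * G := by omega
    have hb := port_block hoc hi
    have hs := slot _ hb.1 (fun h => h)
    have hc := chain _ (hoc _ hi) _ hi
    have hm := m3_port (V := V) (G := G) (oc := oc) (g := g) ht'
    have hlt : 14 * (V * (3 * G) + g) + t < nn V G := hn _ _ (by omega) h1
    have u1 := S.b3 _ hlt
    have u2 := S.c3 _ hlt
    have u3 := S.nae _ hlt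
    rw [decide_eq_true ht] at hm
    unfold Nae at u3
    unfold lv
    beta_reduce
    by_cases hsg : true = (oc (3 * g + pk.getD t 0)).1
    · rw [if_pos hsg] at hm
      rw [hm] at u1 u2
      obtain ⟨_, _, _, s4, s5, s6, _⟩ := hs
      rw [s4, s6, hc] at u1
      rw [s5, s6, hc] at u2
      rw [← hsg]
      simp only [Bool.not_not] at u1 u2
      revert u1 u2 u3
      cases p12 (14 * ((oc (3 * g + pk.getD t 0)).2 * (3 * G))) <;>
        cases p12 (14 * (V * (3 * G) + g) + t) <;>
        cases p23 (14 * (V * (3 * G) + g) + t) <;>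
        cases p31 (14 * (V * (3 * G) + g) + t) <;> simp
    · rw [if_neg hsg] at hm
      rw [hm] at u1 u2
      obtain ⟨s1, s2, s3, _⟩ := hs
      rw [s1, s3, hc] at u1
      rw [s2, s3, hc] at u2
      have hf : (oc (3 * g + pk.getD t 0)).1 = false := by
        cases h : (oc (3 * g + pk.getD t 0)).1
        · rfl
        · rw [h] at hsg; exact absurd rfl hsg
      rw [hf]
      revert u1 u2 u3
      cases p12 (14 * ((oc (3 * g + pk.getD t 0)).2 * (3 * G))) <;>
        cases p12 (14 * (V * (3 * G) + g) + t) <;>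
        cases p23 (14 * (V * (3 * G) + g) + t) <;>
        cases p31 (14 * (V * (3 * G) + g) + t) <;> simp
  intro g hg
  obtain ⟨_, P0, _⟩ := port g hg 3 (by simp)
  obtain ⟨P1, _⟩ := port g hg 8 (by simp)
  obtain ⟨_, _, P2⟩ := port g hg 12 (by simp)
  have q0 : pk.getD 3 0 = 0 := rfl
  have q1 : pk.getD 8 0 = 1 := rfl
  have q2 : pk.getD 12 0 = 2 := rfl
  rw [q0, Nat.add_zero] at P0
  rw [q1] at P1
  rw [q2] at P2
  generalize lv oc (fun x => p12 (14 * (x * (3 * G)))) (3 * g) = l0 at *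
  generalize lv oc (fun x => p12 (14 * (x * (3 * G)))) (3 * g + 1) = l1 at *
  generalize lv oc (fun x => p12 (14 * (x * (3 * G)))) (3 * g + 2) = l2 at *
  have hB : V * (3 * G) ≤ V * (3 * G) + g := by omega
  have hn' : ∀ t < 14, 14 * (V * (3 * G) + g) + t < nn V G := fun t ht => hn _ t (by omega) ht
  have m1e : ∀ t < 14, m1 (14 * (V * (3 * G) + g) + t) = 14 * (V * (3 * G) + g) + m1 t :=
    fun t ht => (m1_eval ht).1
  have m2e : ∀ t < 14, m2 V G (14 * (V * (3 * G) + g) + t) =
      14 * (V * (3 * G) + g) + e2.getD t 0 := fun t ht => m2_cons hB ht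
  have m3e : ∀ t < 14, t ∉ [2, 3, 8, 9, 11, 12] → m3 V G oc (14 * (V * (3 * G) + g) + t) =
      14 * (V * (3 * G) + g) + e3.getD t 0 := fun t ht hu => m3_cons ht hu
  generalize 14 * (V * (3 * G) + g) = B at *
  -- first chain
  have a1 := S.a2 (B + 5) (hn' 5 (by omega))
  rw [m2e 5 (by omega), show e2.getD 5 0 = 6 from rfl] at a1
  have a2 := S.a1 (B + 6) (hn' 6 (by omega))
  rw [m1e 6 (by omega), show m1 6 = 7 from rfl] at a2
  have a3 := S.a2 (B + 7) (hn' 7 (by omega))
  rw [m2e 7 (by omega), show e2.getD 7 0 = 8 from rfl] at a3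
  -- second chain
  have b1 := S.b3 (B + 5) (hn' 5 (by omega))
  rw [m3e 5 (by omega) (by decide), show e3.getD 5 0 = 13 from rfl] at b1
  have b2 := S.b2 (B + 13) (hn' 13 (by omega))
  rw [m2e 13 (by omega), show e2.getD 13 0 = 10 from rfl] at b2
  have b3 := S.b3 (B + 10) (hn' 10 (by omega))
  rw [m3e 10 (by omega) (by decide), show e3.getD 10 0 = 0 from rfl] at b3
  have b4 := S.b2 (B + 0) (hn' 0 (by omega))
  rw [m2e 0 (by omega), show e2.getD 0 0 = 3 from rfl] at b4
  -- third chain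
  have c1 := S.c3 (B + 5) (hn' 5 (by omega))
  rw [m3e 5 (by omega) (by decide), show e3.getD 5 0 = 13 from rfl] at c1
  have c2 := S.c1 (B + 13) (hn' 13 (by omega))
  rw [m1e 13 (by omega), show m1 13 = 12 from rfl] at c2
  have N := S.nae (B + 5) (hn' 5 (by omega))
  have e12 : p12 (B + 5) = !l1 := by
    rw [a2, a1] at a3
    rw [a3] at P1
    rw [← P1]; simp
  have e23 : p23 (B + 5) = !l0 := by
    rw [b3, b2, b1] at b4
    rw [b4] at P0
    rw [← P0]; simp
  have e31 : p31 (B + 5) = !l2 := by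
    rw [c1] at c2
    rw [c2] at P2
    rw [← P2]; simp
  rw [e12, e23, e31] at N
  revert N
  unfold Nae
  cases l0 <;> cases l1 <;> cases l2 <;> simp

end Pool.Agent.NPC.SR
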