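import Pool.Agent.H642R2.SRDefs

/-!
Rationalizability of three disjoint perfect matchings as a Boolean constraint system.
-/

namespace Pool.Agent.NPC.SR

/-- a fixed-point-free involution of `{0, …, n-1}` -/
def Inv (n : ℕ) (m : ℕ → ℕ) : Prop := ∀ a < n, m a < n ∧ m (m a) = a ∧ m a ≠ a

/-- the matching of an involution -/
def mlist (n : ℕ) (m : ℕ → ℕ) : List (ℕ × ℕ) :=
  ((List.range n).filter (fun a => decide (a < m a))).map (fun a => (a, m a))

theorem mem_mlist {n : ℕ} {m : ℕ → ℕ} {a b : ℕ} :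
    (a, b) ∈ mlist n m ↔ a < n ∧ a < m a ∧ b = m a := by
  unfold mlist
  simp only [List.mem_map, List.mem_filter, List.mem_range, decide_eq_true_eq, Prod.mk.injEq]
  constructor
  · rintro ⟨c, ⟨h1, h2⟩, rfl, rfl⟩; exact ⟨h1, h2, rfl⟩
  · rintro ⟨h1, h2, rfl⟩; exact ⟨a, ⟨h1, h2⟩, rfl, rfl⟩

theorem partner_mlist {n : ℕ} {m : ℕ → ℕ} (hm : Inv n m) {a b : ℕ} :
    Partner (mlist n m) a b ↔ a < n ∧ b = m a := by
  unfold Partner
  rw [mem_mlist, mem_mlist]
  constructor
  · rintro (⟨h1, h2, rfl⟩ | ⟨h1, h2, rfl⟩)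
    · exact ⟨h1, rfl⟩
    · obtain ⟨h3, h4, h5⟩ := hm b h1
      exact ⟨h3, h4.symm⟩
  · rintro ⟨h1, rfl⟩
    obtain ⟨h3, h4, h5⟩ := hm a h1
    rcases lt_or_gt_of_ne h5 with h | h
    · right; exact ⟨h3, by rw [h4]; exact h, h4.symm⟩
    · left; exact ⟨h1, h, rfl⟩

theorem mlist_matching {n : ℕ} {m : ℕ → ℕ} (hm : Inv n m) : IsMatching n (mlist n m) := by
  constructor
  · have e1 : (mlist n m).map Prod.fst = (List.range n).filter (fun a => decide (a < m a)) := by
      unfold mlist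
      rw [List.map_map]
      exact List.map_id' _
    have e2 : (mlist n m).map Prod.snd =
        ((List.range n).filter (fun a => decide (a < m a))).map m := by
      unfold mlist
      rw [List.map_map]
      rfl
    rw [e1, e2]
    refine List.Nodup.append (List.nodup_range.filter _) ?_ ?_
    · refine List.Nodup.map_on ?_ (List.nodup_range.filter _)
      intro a ha b hb hab
      simp only [List.mem_filter, List.mem_range] at ha hb
      have h1 := (hm a ha.1).2.1
      rw [hab, (hm b hb.1).2.1] at h1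
      exact h1.symm
    · intro a ha ha'
      simp only [List.mem_filter, List.mem_range, decide_eq_true_eq, List.mem_map] at ha ha'
      obtain ⟨b, ⟨hb, hb'⟩, rfl⟩ := ha'
      rw [(hm b hb).2.1] at ha
      omega
  · rintro ⟨a, b⟩ hab
    obtain ⟨h1, _, rfl⟩ := mem_mlist.1 hab
    exact ⟨h1, (hm a h1).1⟩

/-- if at most one end of each `mi`-edge and at least one end of each `mj`-edge satisfies `p`,
then exactly one does -/
theorem flip {n : ℕ} {mi mj : ℕ → ℕ} (hi : Inv n mi) (hj : Inv n mj) {p : ℕ → Prop}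
    (h1 : ∀ a < n, ¬ (p a ∧ p (mi a))) (h2 : ∀ a < n, p a ∨ p (mj a)) :
    ∀ a < n, (p (mi a) ↔ ¬ p a) ∧ (p (mj a) ↔ ¬ p a) := by
  classical
  let S := (Finset.range n).filter p
  let T := (Finset.range n).filter (fun a => ¬ p a)
  have hST : S.card + T.card = n := by
    rw [Finset.card_filter_add_card_filter_not]
    simp
  have key : ∀ (m : ℕ → ℕ) (_ : Inv n m) (U : Finset ℕ) (_ : U ⊆ Finset.range n)
      (_ : ∀ a ∈ U, m a ∉ U), (U ∪ U.image m).card = 2 * U.card ∧
        U ∪ U.image m ⊆ Finset.range n := by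
    intro m hm U hU hd
    constructor
    · rw [Finset.card_union_of_disjoint, Finset.card_image_of_injOn]
      · ring
      · intro a ha b hb hab
        have ha' := Finset.mem_range.1 (hU ha)
        have hb' := Finset.mem_range.1 (hU hb)
        have h3 := (hm a ha').2.1
        rw [hab, (hm b hb').2.1] at h3
        exact h3.symm
      · rw [Finset.disjoint_left]
        intro a ha ha'
        obtain ⟨b, hb, rfl⟩ := Finset.mem_image.1 ha'
        exact hd b hb ha
    · intro a ha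
      rcases Finset.mem_union.1 ha with h | h
      · exact hU h
      · obtain ⟨b, hb, rfl⟩ := Finset.mem_image.1 h
        exact Finset.mem_range.2 (hm b (Finset.mem_range.1 (hU hb))).1
  have hS := key mi hi S (Finset.filter_subset _ _) (by
    intro a ha ha'
    simp only [S, Finset.mem_filter, Finset.mem_range] at ha ha'
    exact h1 a ha.1 ⟨ha.2, ha'.2⟩)
  have hT := key mj hj T (Finset.filter_subset _ _) (by
    intro a ha ha'
    simp only [T, Finset.mem_filter, Finset.mem_range] at ha ha'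
    rcases h2 a ha.1 with h | h
    · exact ha.2 h
    · exact ha'.2 h)
  have cS : 2 * S.card ≤ n := by
    rw [← hS.1]
    simpa using Finset.card_le_card hS.2
  have cT : 2 * T.card ≤ n := by
    rw [← hT.1]
    simpa using Finset.card_le_card hT.2
  have eS : S ∪ S.image mi = Finset.range n :=
    Finset.eq_of_subset_of_card_le hS.2 (by rw [hS.1]; simp; omega)
  have eT : T ∪ T.image mj = Finset.range n :=
    Finset.eq_of_subset_of_card_le hT.2 (by rw [hT.1]; simp; omega)
  intro a ha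
  constructor
  · constructor
    · intro h3 h4; exact h1 a ha ⟨h4, h3⟩
    · intro h3
      have h4 : a ∈ S ∪ S.image mi := by rw [eS]; exact Finset.mem_range.2 ha
      rcases Finset.mem_union.1 h4 with h | h
      · exact absurd (Finset.mem_filter.1 h).2 h3
      · obtain ⟨b, hb, rfl⟩ := Finset.mem_image.1 h
        have hb' := Finset.mem_filter.1 hb
        rw [(hi b (Finset.mem_range.1 hb'.1)).2.1]
        exact hb'.2
  · constructor
    · intro h3 h4
      have h5 : a ∈ T ∪ T.image mj := by rw [eT]; exact Finset.mem_range.2 ha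
      rcases Finset.mem_union.1 h5 with h | h
      · exact (Finset.mem_filter.1 h).2 h4
      · obtain ⟨b, hb, rfl⟩ := Finset.mem_image.1 h
        have hb' := Finset.mem_filter.1 hb
        rw [(hj b (Finset.mem_range.1 hb'.1)).2.1] at h3
        exact hb'.2 h3
    · intro h3
      rcases h2 a ha with h | h
      · exact absurd h h3
      · exact h

/-- not all three equal -/
def Nae (a b c : Bool) : Prop := ¬ (a = b ∧ b = c)

/-- A solution of the constraint system: `p12 a` says that agent `a` prefers its first partner to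
its second partner, and so on. -/
structure Sol (n : ℕ) (m1 m2 m3 : ℕ → ℕ) (p12 p23 p31 : ℕ → Bool) : Prop where
  a1 : ∀ a < n, p12 (m1 a) = !p12 a
  a2 : ∀ a < n, p12 (m2 a) = !p12 a
  b2 : ∀ a < n, p23 (m2 a) = !p23 a
  b3 : ∀ a < n, p23 (m3 a) = !p23 a
  c3 : ∀ a < n, p31 (m3 a) = !p31 a
  c1 : ∀ a < n, p31 (m1 a) = !p31 a
  nae : ∀ a < n, Nae (p12 a) (p23 a) (p31 a)

section

variable {n : ℕ} {m1 m2 m3 : ℕ → ℕ}

theorem mem_pref {P : List (List ℕ)} (hP : IsSR n P) {a b : ℕ} (ha : a < n) (hb : b < n)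
    (hab : b ≠ a) : b ∈ P.getD a [] := by
  rw [(hP.2 a ha).mem_iff, List.mem_filter]
  exact ⟨List.mem_range.2 hb, by simpa using hab⟩

theorem idxOf_inj' {P : List (List ℕ)} (hP : IsSR n P) {a b c : ℕ} (ha : a < n) (hb : b < n)
    (hab : b ≠ a) (h : (P.getD a []).idxOf b = (P.getD a []).idxOf c) : b = c :=
  (List.idxOf_inj (mem_pref hP ha hb hab)).1 h

/-- an `mi`-edge does not block the matching `mj` -/
theorem edge_not_both {P : List (List ℕ)} {mi mj : ℕ → ℕ} (hi : Inv n mi) (hj : Inv n mj)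
    (hd : ∀ a < n, mi a ≠ mj a) (hS : Stable n P (mlist n mj)) {a : ℕ} (ha : a < n) :
    ¬ (Prefers P a (mi a) (mj a) ∧ Prefers P (mi a) (mi (mi a)) (mj (mi a))) := by
  rintro ⟨h1, h2⟩
  obtain ⟨i1, i2, i3⟩ := hi a ha
  refine hS.2 a (mi a) ⟨ha, i1, i3.symm, ?_, ?_, ?_⟩
  · rw [partner_mlist hj]
    rintro ⟨_, h3⟩
    exact hd a ha h3
  · intro c hc
    rw [partner_mlist hj] at hc
    rw [hc.2]; exact h1
  · intro c hc
    rw [partner_mlist hj] at hc
    rw [hc.2]
    rw [i2] at h2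
    exact h2

theorem sol_of_stable {P : List (List ℕ)} (hP : IsSR n P) (h1 : Inv n m1) (h2 : Inv n m2)
    (h3 : Inv n m3) (h12 : ∀ a < n, m1 a ≠ m2 a) (h23 : ∀ a < n, m2 a ≠ m3 a)
    (h31 : ∀ a < n, m3 a ≠ m1 a) (s1 : Stable n P (mlist n m1)) (s2 : Stable n P (mlist n m2))
    (s3 : Stable n P (mlist n m3)) : ∃ p12 p23 p31, Sol n m1 m2 m3 p12 p23 p31 := by
  classical
  have key : ∀ {mi mj : ℕ → ℕ}, Inv n mi → Inv n mj → (∀ a < n, mi a ≠ mj a) →
      Stable n P (mlist n mi) → Stable n P (mlist n mj) →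
      ∀ a < n, (Prefers P (mi a) (mi (mi a)) (mj (mi a)) ↔ ¬ Prefers P a (mi a) (mj a)) ∧
        (Prefers P (mj a) (mi (mj a)) (mj (mj a)) ↔ ¬ Prefers P a (mi a) (mj a)) := by
    intro mi mj hi hj hd si sj
    refine flip (p := fun a => Prefers P a (mi a) (mj a)) hi hj ?_ ?_
    · intro a ha
      exact edge_not_both hi hj hd sj ha
    · intro a ha
      by_contra hcon
      push Not at hcon
      obtain ⟨j1, j2, j3⟩ := hj a ha
      obtain ⟨i1, i2, i3⟩ := hi a ha
      obtain ⟨k1, k2, k3⟩ := hi (mj a) j1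
      refine edge_not_both hj hi (fun a ha => (hd a ha).symm) si ha ⟨?_, ?_⟩
      · have := hcon.1
        unfold Prefers at this ⊢
        rcases Nat.lt_trichotomy ((P.getD a []).idxOf (mj a)) ((P.getD a []).idxOf (mi a)) with
          h | h | h
        · exact h
        · exact absurd (idxOf_inj' hP ha j1 j3 h) (hd a ha).symm
        · exact absurd h this
      · have := hcon.2
        unfold Prefers at this ⊢
        rcases Nat.lt_trichotomy ((P.getD (mj a) []).idxOf (mj (mj a)))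
          ((P.getD (mj a) []).idxOf (mi (mj a))) with h | h | h
        · exact h
        · exact absurd (idxOf_inj' hP j1 k1 k3 h.symm) (hd (mj a) j1)
        · exact absurd h this
  have k12 := key h1 h2 h12 s1 s2
  have k23 := key h2 h3 h23 s2 s3
  have k31 := key h3 h1 h31 s3 s1
  have aux : ∀ {p q : Prop}, (p ↔ ¬ q) → decide p = !decide q := by
    intro p q h
    by_cases hq : q
    · simp [hq, h]
    · simp [hq, h]
  refine ⟨fun a => decide (Prefers P a (m1 a) (m2 a)), fun a => decide (Prefers P a (m2 a) (m3 a)),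
    fun a => decide (Prefers P a (m3 a) (m1 a)), ?_, ?_, ?_, ?_, ?_, ?_, ?_⟩
  · intro a ha; exact aux (k12 a ha).1
  · intro a ha; exact aux (k12 a ha).2
  · intro a ha; exact aux (k23 a ha).1
  · intro a ha; exact aux (k23 a ha).2
  · intro a ha; exact aux (k31 a ha).1
  · intro a ha; exact aux (k31 a ha).2
  · rintro a ha ⟨e1, e2⟩
    obtain ⟨i1, _, i3⟩ := h1 a ha
    obtain ⟨j1, _, j3⟩ := h2 a ha
    unfold Prefers at e1 e2
    rw [decide_eq_decide] at e1 e2
    have hne : (P.getD a []).idxOf (m1 a) ≠ (P.getD a []).idxOf (m2 a) := fun h =>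
      h12 a ha (idxOf_inj' hP ha i1 i3 h)
    by_cases hc : (P.getD a []).idxOf (m1 a) < (P.getD a []).idxOf (m2 a)
    · have hd := e1.1 hc
      have he := e2.1 hd
      omega
    · have hd : ¬ _ := fun h => hc (e1.2 h)
      have he : ¬ _ := fun h => hd (e2.2 h)
      omega

/-- the three partners, sorted -/
def top (m1 m2 m3 : ℕ → ℕ) (p12 p23 p31 : ℕ → Bool) (a : ℕ) : List ℕ :=
  match p12 a, p23 a, p31 a with
  | true, true, _ => [m1 a, m2 a, m3 a]
  | true, false, false => [m1 a, m3 a, m2 a]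
  | true, false, true => [m3 a, m1 a, m2 a]
  | false, true, true => [m2 a, m3 a, m1 a]
  | false, true, false => [m2 a, m1 a, m3 a]
  | false, false, _ => [m3 a, m2 a, m1 a]

/-- a preference list -/
def plist (n : ℕ) (m1 m2 m3 : ℕ → ℕ) (p12 p23 p31 : ℕ → Bool) (a : ℕ) : List ℕ :=
  top m1 m2 m3 p12 p23 p31 a ++
    (List.range n).filter (fun b => decide (b ≠ a) && decide (b ∉ top m1 m2 m3 p12 p23 p31 a))

theorem top_facts {p12 p23 p31 : ℕ → Bool} (h12 : ∀ a < n, m1 a ≠ m2 a)
    (h23 : ∀ a < n, m2 a ≠ m3 a) (h31 : ∀ a < n, m3 a ≠ m1 a) {a : ℕ} (ha : a < n)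
    (hn : Nae (p12 a) (p23 a) (p31 a)) (l : List ℕ) :
    (top m1 m2 m3 p12 p23 p31 a).Nodup ∧
    (∀ b, b ∈ top m1 m2 m3 p12 p23 p31 a ↔ b = m1 a ∨ b = m2 a ∨ b = m3 a) ∧
    ((top m1 m2 m3 p12 p23 p31 a ++ l).idxOf (m1 a) <
      (top m1 m2 m3 p12 p23 p31 a ++ l).idxOf (m2 a) ↔ p12 a = true) ∧
    ((top m1 m2 m3 p12 p23 p31 a ++ l).idxOf (m2 a) <
      (top m1 m2 m3 p12 p23 p31 a ++ l).idxOf (m1 a) ↔ p12 a = false) ∧
    ((top m1 m2 m3 p12 p23 p31 a ++ l).idxOf (m2 a) <
      (top m1 m2 m3 p12 p23 p31 a ++ l).idxOf (m3 a) ↔ p23 a = true) ∧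
    ((top m1 m2 m3 p12 p23 p31 a ++ l).idxOf (m3 a) <
      (top m1 m2 m3 p12 p23 p31 a ++ l).idxOf (m2 a) ↔ p23 a = false) ∧
    ((top m1 m2 m3 p12 p23 p31 a ++ l).idxOf (m3 a) <
      (top m1 m2 m3 p12 p23 p31 a ++ l).idxOf (m1 a) ↔ p31 a = true) ∧
    ((top m1 m2 m3 p12 p23 p31 a ++ l).idxOf (m1 a) <
      (top m1 m2 m3 p12 p23 p31 a ++ l).idxOf (m3 a) ↔ p31 a = false) := by
  have e12 := h12 a ha
  have e23 := h23 a ha
  have e31 := h31 a ha
  have e21 := e12.symm
  have e32 := e23.symm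
  have e13 := e31.symm
  unfold top
  unfold Nae at hn
  generalize m1 a = x at *
  generalize m2 a = y at *
  generalize m3 a = z at *
  cases h1 : p12 a <;> cases h2 : p23 a <;> cases h3 : p31 a <;> rw [h1, h2, h3] at hn <;>
    simp [List.idxOf_cons, e12, e23, e31, e21, e32, e13] at hn ⊢ <;> tauto

theorem stable_of_sol {p12 p23 p31 : ℕ → Bool} (h1 : Inv n m1) (h2 : Inv n m2)
    (h3 : Inv n m3) (h12 : ∀ a < n, m1 a ≠ m2 a) (h23 : ∀ a < n, m2 a ≠ m3 a)
    (h31 : ∀ a < n, m3 a ≠ m1 a) (S : Sol n m1 m2 m3 p12 p23 p31) :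
    ∃ P, IsSR n P ∧ Stable n P (mlist n m1) ∧ Stable n P (mlist n m2) ∧
      Stable n P (mlist n m3) := by
  let P : List (List ℕ) := (List.range n).map (plist n m1 m2 m3 p12 p23 p31)
  have hP : ∀ a < n, P.getD a [] = plist n m1 m2 m3 p12 p23 p31 a := by
    intro a ha
    rw [List.getD_eq_getElem _ _ (by simpa [P] using ha)]
    simp [P]
  have hf := fun a (ha : a < n) l => top_facts h12 h23 h31 ha (S.nae a ha) l
  -- a woman preferred to a partner is a partner
  have htop : ∀ a < n, ∀ b c, c ∈ top m1 m2 m3 p12 p23 p31 a → Prefers P a b c →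
      b ∈ top m1 m2 m3 p12 p23 p31 a := by
    intro a ha b c hc hp
    by_contra hb
    unfold Prefers at hp
    rw [hP a ha] at hp
    unfold plist at hp
    rw [List.idxOf_append_of_mem hc, List.idxOf_append_of_notMem hb] at hp
    have := List.idxOf_lt_length_of_mem hc
    omega
  refine ⟨P, ⟨by simp [P], ?_⟩, ⟨mlist_matching h1, ?_⟩, ⟨mlist_matching h2, ?_⟩,
    ⟨mlist_matching h3, ?_⟩⟩
  · intro a ha
    rw [hP a ha]
    obtain ⟨i1, _, i3⟩ := h1 a ha
    obtain ⟨j1, _, j3⟩ := h2 a ha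
    obtain ⟨k1, _, k3⟩ := h3 a ha
    obtain ⟨t1, t2, _⟩ := hf a ha []
    refine (List.perm_ext_iff_of_nodup ?_ (List.nodup_range.filter _)).2 ?_
    · refine List.Nodup.append t1 (List.nodup_range.filter _) ?_
      intro b hb hb'
      simp only [List.mem_filter, Bool.and_eq_true, decide_eq_true_eq] at hb'
      exact hb'.2.2 hb
    · intro b
      unfold plist
      simp only [List.mem_append, List.mem_filter, List.mem_range, Bool.and_eq_true,
        decide_eq_true_eq]
      constructor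
      · rintro (h | ⟨h, h', _⟩)
        · rw [t2] at h
          rcases h with rfl | rfl | rfl
          · exact ⟨i1, i3⟩
          · exact ⟨j1, j3⟩
          · exact ⟨k1, k3⟩
        · exact ⟨h, h'⟩
      · rintro ⟨h, h'⟩
        by_cases hb : b ∈ top m1 m2 m3 p12 p23 p31 a
        · exact Or.inl hb
        · exact Or.inr ⟨h, h', hb⟩
  · rintro a b ⟨ha, hb, _, _, hca, hcb⟩
    have pa := hca (m1 a) ((partner_mlist h1).2 ⟨ha, rfl⟩)
    have pb := hcb (m1 b) ((partner_mlist h1).2 ⟨hb, rfl⟩)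
    obtain ⟨_, t2, _⟩ := hf a ha []
    have hmem := htop a ha b _ ((t2 _).2 (Or.inl rfl)) pa
    rw [t2] at hmem
    unfold Prefers at pa pb
    rw [hP a ha] at pa
    rw [hP b hb] at pb
    have fa := hf a ha ((List.range n).filter (fun b => decide (b ≠ a) &&
      decide (b ∉ top m1 m2 m3 p12 p23 p31 a)))
    have fb := hf b hb ((List.range n).filter (fun c => decide (c ≠ b) &&
      decide (c ∉ top m1 m2 m3 p12 p23 p31 b)))
    rcases hmem with rfl | rfl | rfl
    · exact lt_irrefl _ pa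
    · rw [show a = m2 (m2 a) from (h2 a ha).2.1.symm] at pb
      rw [(h2 a ha).2.1] at pb
      have e1 := fa.2.2.2.1.1 pa
      have e2 := fb.2.2.2.1.1 (by rw [(h2 a ha).2.1]; exact pb)
      rw [S.a2 a ha, e1] at e2
      exact absurd e2 (by decide)
    · have e1 := fa.2.2.2.2.2.2.1.1 pa
      have e2 := fb.2.2.2.2.2.2.1.1 (by rw [(h3 a ha).2.1]; exact pb)
      rw [S.c3 a ha, e1] at e2
      exact absurd e2 (by decide)
  · rintro a b ⟨ha, hb, _, _, hca, hcb⟩
    have pa := hca (m2 a) ((partner_mlist h2).2 ⟨ha, rfl⟩)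
    have pb := hcb (m2 b) ((partner_mlist h2).2 ⟨hb, rfl⟩)
    obtain ⟨_, t2, _⟩ := hf a ha []
    have hmem := htop a ha b _ ((t2 _).2 (Or.inr (Or.inl rfl))) pa
    rw [t2] at hmem
    unfold Prefers at pa pb
    rw [hP a ha] at pa
    rw [hP b hb] at pb
    have fa := hf a ha ((List.range n).filter (fun b => decide (b ≠ a) &&
      decide (b ∉ top m1 m2 m3 p12 p23 p31 a)))
    have fb := hf b hb ((List.range n).filter (fun c => decide (c ≠ b) &&
      decide (c ∉ top m1 m2 m3 p12 p23 p31 b)))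
    rcases hmem with rfl | rfl | rfl
    · have e1 := fa.2.2.1.1 pa
      have e2 := fb.2.2.1.1 (by rw [(h1 a ha).2.1]; exact pb)
      rw [S.a1 a ha, e1] at e2
      exact absurd e2 (by decide)
    · exact lt_irrefl _ pa
    · have e1 := fa.2.2.2.2.2.1.1 pa
      have e2 := fb.2.2.2.2.2.1.1 (by rw [(h3 a ha).2.1]; exact pb)
      rw [S.b3 a ha, e1] at e2
      exact absurd e2 (by decide)
  · rintro a b ⟨ha, hb, _, _, hca, hcb⟩
    have pa := hca (m3 a) ((partner_mlist h3).2 ⟨ha, rfl⟩)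
    have pb := hcb (m3 b) ((partner_mlist h3).2 ⟨hb, rfl⟩)
    obtain ⟨_, t2, _⟩ := hf a ha []
    have hmem := htop a ha b _ ((t2 _).2 (Or.inr (Or.inr rfl))) pa
    rw [t2] at hmem
    unfold Prefers at pa pb
    rw [hP a ha] at pa
    rw [hP b hb] at pb
    have fa := hf a ha ((List.range n).filter (fun b => decide (b ≠ a) &&
      decide (b ∉ top m1 m2 m3 p12 p23 p31 a)))
    have fb := hf b hb ((List.range n).filter (fun c => decide (c ≠ b) &&
      decide (c ∉ top m1 m2 m3 p12 p23 p31 b)))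
    rcases hmem with rfl | rfl | rfl
    · have e1 := fa.2.2.2.2.2.2.2.1 pa
      have e2 := fb.2.2.2.2.2.2.2.1 (by rw [(h1 a ha).2.1]; exact pb)
      rw [S.c1 a ha, e1] at e2
      exact absurd e2 (by decide)
    · have e1 := fa.2.2.2.2.1.1 pa
      have e2 := fb.2.2.2.2.1.1 (by rw [(h2 a ha).2.1]; exact pb)
      rw [S.b2 a ha, e1] at e2
      exact absurd e2 (by decide)
    · exact lt_irrefl _ pa

end

end Pool.Agent.NPC.SR
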