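import Pool.Agent.H642R2.SRSys

/-!
Any two perfect matchings are rationalizable.
-/

namespace Pool.Agent.NPC.SR

variable {n : ℕ} {m1 m2 : ℕ → ℕ}

/-- extension of an involution by the identity -/
def ext (n : ℕ) (m : ℕ → ℕ) (a : ℕ) : ℕ := if a < n then m a else a

theorem ext_ext {m : ℕ → ℕ} (h : Inv n m) (a : ℕ) : ext n m (ext n m a) = a := by
  unfold ext
  by_cases ha : a < n
  · rw [if_pos ha, if_pos (h a ha).1, (h a ha).2.1]
  · rw [if_neg ha, if_neg ha]

/-- the involution as a permutation -/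
def prm {m : ℕ → ℕ} (h : Inv n m) : Equiv.Perm ℕ := ⟨ext n m, ext n m, ext_ext h, ext_ext h⟩

theorem prm_prm {m : ℕ → ℕ} (h : Inv n m) (a : ℕ) : prm h (prm h a) = a := ext_ext h a

theorem prm_mul {m : ℕ → ℕ} (h : Inv n m) : prm h * prm h = 1 := by
  ext a
  exact prm_prm h a

theorem prm_fix {m : ℕ → ℕ} (h : Inv n m) {a : ℕ} (ha : prm h a = a) : ¬ a < n := by
  intro hlt
  have : ext n m a = a := ha
  unfold ext at this
  rw [if_pos hlt] at this
  exact (h a hlt).2.2 this

theorem prm_ge {m : ℕ → ℕ} (h : Inv n m) {a : ℕ} (ha : ¬ a < n) : prm h a = a := by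
  show ext n m a = a
  unfold ext
  rw [if_neg ha]

theorem prm_lt {m : ℕ → ℕ} (h : Inv n m) {a : ℕ} (ha : a < n) : prm h a = m a := by
  show ext n m a = m a
  unfold ext
  rw [if_pos ha]

/-- two fixed-point-free involutions have a common proper 2-colouring -/
theorem two_colour (h1 : Inv n m1) (h2 : Inv n m2) :
    ∃ c : ℕ → Bool, ∀ a < n, c (m1 a) = !c a ∧ c (m2 a) = !c a := by
  classical
  set p := prm h1 with hp
  set q := prm h2 with hq
  set σ := q * p with hσ
  have hpp : p⁻¹ = p := inv_eq_of_mul_eq_one_left (prm_mul h1)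
  have hqq : q⁻¹ = q := inv_eq_of_mul_eq_one_left (prm_mul h2)
  have hσi : σ⁻¹ = p * q := by rw [hσ, mul_inv_rev, hpp, hqq]
  have hconj : ∀ k : ℤ, p * σ ^ k = (σ ^ k)⁻¹ * p := by
    intro k
    have e1 : p * σ * p⁻¹ = σ⁻¹ := by
      rw [hσi, hσ]
      group
    have e2 := conj_zpow (a := p) (b := σ) (i := k)
    rw [e1] at e2
    rw [← inv_zpow, e2]
    group
  have fixσ : ∀ b, ¬ b < n → ∀ k : ℤ, (σ ^ k) b = b := by
    intro b hb k
    apply Equiv.Perm.zpow_apply_eq_self_of_apply_eq_self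
    show q (p b) = b
    rw [prm_ge h1 hb, prm_ge h2 hb]
  have hnot : ∀ a < n, ¬ σ.SameCycle a (p a) := by
    rintro a ha ⟨k, hk⟩
    have back : ∀ (j : ℤ) (b : ℕ), (σ ^ j) a = b → ¬ b < n → False := by
      intro j b hb hbn
      have h3 := fixσ b hbn (-j)
      rw [← hb, ← Equiv.Perm.mul_apply, ← zpow_add, neg_add_cancel, zpow_zero,
        Equiv.Perm.one_apply] at h3
      rw [h3] at ha
      exact hbn (hb ▸ ha)
    rcases Int.even_or_odd' k with ⟨j, rfl | rfl⟩
    · refine back j _ rfl (prm_fix h1 ?_)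
      show p ((σ ^ j) a) = (σ ^ j) a
      rw [← Equiv.Perm.mul_apply, hconj, Equiv.Perm.mul_apply, ← hk, ← Equiv.Perm.mul_apply,
        ← zpow_neg, ← zpow_add]
      congr 2
      ring
    · refine back (j + 1) _ rfl (prm_fix h2 ?_)
      show q ((σ ^ (j + 1)) a) = (σ ^ (j + 1)) a
      have e : q = σ * p := by rw [hσ, mul_assoc, prm_mul h1, mul_one]
      have e2 : q * σ ^ (j + 1) = σ * ((σ ^ (j + 1))⁻¹ * p) := by
        rw [← hconj, ← mul_assoc, ← e]
      have e3 : (q * σ ^ (j + 1)) a = (σ * (σ ^ (j + 1))⁻¹) (p a) := by rw [e2]; rfl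
      have e4 : σ * (σ ^ (j + 1))⁻¹ * σ ^ (2 * j + 1) = σ ^ (j + 1) := by group
      have e5 : (q * σ ^ (j + 1)) a = (σ * (σ ^ (j + 1))⁻¹ * σ ^ (2 * j + 1)) a := by
        rw [e3, ← hk]; rfl
      rw [e4] at e5
      exact e5
  let mn : ℕ → ℕ := fun a => sInf {b | σ.SameCycle a b}
  have mn_mem : ∀ a, σ.SameCycle a (mn a) := fun a =>
    Nat.sInf_mem (s := {b | σ.SameCycle a b}) ⟨a, Equiv.Perm.SameCycle.refl _ _⟩
  have mn_eq : ∀ a b, σ.SameCycle a b → mn a = mn b := by
    intro a b hab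
    have : {x | σ.SameCycle a x} = {x | σ.SameCycle b x} := by
      ext x
      exact ⟨fun h => hab.symm.trans h, fun h => hab.trans h⟩
    show sInf _ = sInf _
    rw [this]
  have mn_ne : ∀ a < n, mn a ≠ mn (p a) := by
    intro a ha h
    apply hnot a ha
    have h3 := mn_mem a
    rw [h] at h3
    exact h3.trans (mn_mem (p a)).symm
  have key : ∀ a < n, decide (mn (p a) < mn a) = !decide (mn a < mn (p a)) := by
    intro a ha
    have := mn_ne a ha
    rcases lt_or_gt_of_ne this with h | h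
    · simp [h, h.le]
    · simp [h, h.le]
  refine ⟨fun a => decide (mn a < mn (p a)), fun a ha => ⟨?_, ?_⟩⟩
  · rw [← prm_lt h1 ha]
    show decide (mn (p a) < mn (p (p a))) = _
    rw [prm_prm h1]
    exact key a ha
  · rw [← prm_lt h2 ha]
    show decide (mn (q a) < mn (p (q a))) = _
    have s1 : mn (q a) = mn (p a) := by
      apply mn_eq
      refine Equiv.Perm.SameCycle.symm ⟨1, ?_⟩
      show q (p (p a)) = q a
      rw [prm_prm h1]
    have s2 : mn (p (q a)) = mn a := by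
      apply mn_eq
      refine Equiv.Perm.SameCycle.symm ⟨-1, ?_⟩
      rw [zpow_neg_one, hσi]
      rfl
    rw [s1, s2]
    exact key a ha

/-- the first choices -/
def top2 (m1 m2 : ℕ → ℕ) (c : ℕ → Bool) (a : ℕ) : List ℕ :=
  if m1 a = m2 a then [m1 a] else if c a = true then [m1 a, m2 a] else [m2 a, m1 a]

/-- the preference list -/
def plist2 (n : ℕ) (m1 m2 : ℕ → ℕ) (c : ℕ → Bool) (a : ℕ) : List ℕ :=
  top2 m1 m2 c a ++
    (List.range n).filter (fun b => decide (b ≠ a) && decide (b ∉ top2 m1 m2 c a))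

theorem unique_partner {M : List (ℕ × ℕ)} (hM : IsMatching n M) {a b c : ℕ}
    (h1 : Partner M a b) (h2 : Partner M a c) : b = c := by
  obtain ⟨hn, _⟩ := hM
  rw [List.nodup_append] at hn
  obtain ⟨n1, n2, n3⟩ := hn
  have f1 : ∀ p ∈ M, ∀ q ∈ M, p.1 = q.1 → p = q := fun p hp q hq h =>
    List.inj_on_of_nodup_map n1 hp hq h
  have f2 : ∀ p ∈ M, ∀ q ∈ M, p.2 = q.2 → p = q := fun p hp q hq h =>
    List.inj_on_of_nodup_map n2 hp hq h
  rcases h1 with h1 | h1 <;> rcases h2 with h2 | h2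
  · exact (Prod.ext_iff.1 (f1 _ h1 _ h2 rfl)).2
  · exact absurd rfl (n3 a (List.mem_map.2 ⟨_, h1, rfl⟩) a (List.mem_map.2 ⟨_, h2, rfl⟩))
  · exact absurd rfl (n3 a (List.mem_map.2 ⟨_, h2, rfl⟩) a (List.mem_map.2 ⟨_, h1, rfl⟩))
  · exact (Prod.ext_iff.1 (f2 _ h1 _ h2 rfl)).1

/-- a perfect matching as an involution -/
theorem exists_inv {M : List (ℕ × ℕ)} (hM : IsMatching n M)
    (hp : ∀ a < n, ∃ b, Partner M a b) :
    ∃ m, Inv n m ∧ ∀ a < n, ∀ b, Partner M a b ↔ b = m a := by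
  classical
  choose! m hm using hp
  have key : ∀ a < n, ∀ b, Partner M a b ↔ b = m a := by
    intro a ha b
    constructor
    · intro h; exact unique_partner hM h (hm a ha)
    · rintro rfl; exact hm a ha
  have lt : ∀ a < n, m a < n := by
    intro a ha
    rcases hm a ha with h | h
    · exact (hM.2 _ h).2
    · exact (hM.2 _ h).1
  refine ⟨m, fun a ha => ⟨lt a ha, ?_, ?_⟩, key⟩
  · exact ((key (m a) (lt a ha) a).1 (hm a ha).symm).symm
  · intro h
    have h1 := hm a ha
    rw [h] at h1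
    obtain ⟨hn, _⟩ := hM
    rw [List.nodup_append] at hn
    have h2 : (a, a) ∈ M := by
      rcases h1 with h1 | h1 <;> exact h1
    exact hn.2.2 a (List.mem_map.2 ⟨_, h2, rfl⟩) a (List.mem_map.2 ⟨_, h2, rfl⟩) rfl

theorem two_rationalizable {M1 M2 : List (ℕ × ℕ)} (hM1 : IsMatching n M1)
    (hM2 : IsMatching n M2) (hp1 : ∀ a < n, ∃ b, Partner M1 a b)
    (hp2 : ∀ a < n, ∃ b, Partner M2 a b) :
    ∃ P, IsSR n P ∧ Stable n P M1 ∧ Stable n P M2 := by
  obtain ⟨m1, i1, k1⟩ := exists_inv hM1 hp1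
  obtain ⟨m2, i2, k2⟩ := exists_inv hM2 hp2
  obtain ⟨c, hc⟩ := two_colour i1 i2
  let P : List (List ℕ) := (List.range n).map (plist2 n m1 m2 c)
  have hP : ∀ a < n, P.getD a [] = plist2 n m1 m2 c a := by
    intro a ha
    rw [List.getD_eq_getElem _ _ (by simpa [P] using ha)]
    simp [P]
  have t1 : ∀ a, (top2 m1 m2 c a).Nodup := by
    intro a
    unfold top2
    split_ifs with h1 h2
    · simp
    · simp [h1]
    · simp [Ne.symm h1]
  have t2 : ∀ a b, b ∈ top2 m1 m2 c a ↔ b = m1 a ∨ b = m2 a := by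
    intro a b
    unfold top2
    split_ifs with h1 h2
    · simp [h1]
    · simp
    · simp [or_comm]
  -- an agent preferred to a partner is a partner
  have htop : ∀ a < n, ∀ b x, x ∈ top2 m1 m2 c a → Prefers P a b x → b ∈ top2 m1 m2 c a := by
    intro a ha b x hx hp
    by_contra hb
    unfold Prefers at hp
    rw [hP a ha] at hp
    unfold plist2 at hp
    rw [List.idxOf_append_of_mem hx, List.idxOf_append_of_notMem hb] at hp
    have := List.idxOf_lt_length_of_mem hx
    omega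
  have pr1 : ∀ a < n, ∀ b, Prefers P a b (m1 a) → c a = false ∧ b = m2 a := by
    intro a ha b hp
    have hb := (t2 a b).1 (htop a ha b _ ((t2 a _).2 (Or.inl rfl)) hp)
    unfold Prefers at hp
    rw [hP a ha] at hp
    unfold plist2 top2 at hp
    rcases hb with rfl | rfl
    · exact absurd hp (lt_irrefl _)
    · split_ifs at hp with h1 h2
      · rw [← h1] at hp; exact absurd hp (lt_irrefl _)
      · simp at hp
      · exact ⟨by simpa using h2, rfl⟩
  have pr2 : ∀ a < n, ∀ b, Prefers P a b (m2 a) → c a = true ∧ b = m1 a := by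
    intro a ha b hp
    have hb := (t2 a b).1 (htop a ha b _ ((t2 a _).2 (Or.inr rfl)) hp)
    unfold Prefers at hp
    rw [hP a ha] at hp
    unfold plist2 top2 at hp
    rcases hb with rfl | rfl
    · split_ifs at hp with h1 h2
      · rw [← h1] at hp; exact absurd hp (lt_irrefl _)
      · exact ⟨h2, rfl⟩
      · simp at hp
    · exact absurd hp (lt_irrefl _)
  refine ⟨P, ⟨by simp [P], ?_⟩, ⟨hM1, ?_⟩, ⟨hM2, ?_⟩⟩
  · intro a ha
    rw [hP a ha]
    refine (List.perm_ext_iff_of_nodup ?_ (List.nodup_range.filter _)).2 ?_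
    · refine List.Nodup.append (t1 a) (List.nodup_range.filter _) ?_
      intro b hb hb'
      simp only [List.mem_filter, Bool.and_eq_true, decide_eq_true_eq] at hb'
      exact hb'.2.2 hb
    · intro b
      unfold plist2
      simp only [List.mem_append, List.mem_filter, List.mem_range, Bool.and_eq_true,
        decide_eq_true_eq]
      constructor
      · rintro (h | ⟨h, h', _⟩)
        · rw [t2] at h
          rcases h with rfl | rfl
          · exact ⟨(i1 a ha).1, (i1 a ha).2.2⟩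
          · exact ⟨(i2 a ha).1, (i2 a ha).2.2⟩
        · exact ⟨h, h'⟩
      · rintro ⟨h, h'⟩
        by_cases hb : b ∈ top2 m1 m2 c a
        · exact Or.inl hb
        · exact Or.inr ⟨h, h', hb⟩
  · rintro a b ⟨ha, hb, _, _, hca, hcb⟩
    obtain ⟨e1, e2⟩ := pr1 a ha b (hca _ ((k1 a ha _).2 rfl))
    obtain ⟨e3, _⟩ := pr1 b hb a (hcb _ ((k1 b hb _).2 rfl))
    rw [e2, (hc a ha).2, e1] at e3
    exact absurd e3 (by decide)
  · rintro a b ⟨ha, hb, _, _, hca, hcb⟩
    obtain ⟨e1, e2⟩ := pr2 a ha b (hca _ ((k2 a ha _).2 rfl))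
    obtain ⟨e3, _⟩ := pr2 b hb a (hcb _ ((k2 b hb _).2 rfl))
    rw [e2, (hc a ha).1, e1] at e3
    exact absurd e3 (by decide)

end Pool.Agent.NPC.SR
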