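import Pool.Agent.H642R2.TGDefs

/-!
Matchings as functions. The agents are numbered `3 i` (men), `3 i + 1` (women), `3 i + 2` (dogs).
-/

namespace Pool.Agent.NPC.TG

/-- `f v` is the partner of `v` of the next kind -/
structure Mat (n : ℕ) (f : ℕ → ℕ) : Prop where
  lt : ∀ v < 3 * n, f v < 3 * n
  gd : ∀ v < 3 * n, f v % 3 = (v + 1) % 3
  cyc : ∀ v < 3 * n, f (f (f v)) = v

/-- the preferences of an agent -/
def pref (I : Inst) (v : ℕ) : List ℕ × List ℕ :=
  if v % 3 = 0 then I.1.getD (v / 3) ([], [])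
  else if v % 3 = 1 then I.2.1.getD (v / 3) ([], [])
  else I.2.2.getD (v / 3) ([], [])

/-- `v` prefers `(w, u)` to its pair -/
def Imp (I : Inst) (f : ℕ → ℕ) (v w u : ℕ) : Prop :=
  LexPref (pref I v) (w / 3) (u / 3) (f v / 3) (f (f v) / 3)

/-- no blocking triple -/
def StableF (I : Inst) (f : ℕ → ℕ) : Prop :=
  ∀ x < 3 * size I, ∀ y < 3 * size I, ∀ z < 3 * size I, y % 3 = (x + 1) % 3 →
    z % 3 = (y + 1) % 3 → ¬ (Imp I f x y z ∧ Imp I f y z x ∧ Imp I f z x y)

theorem pref0 {I : Inst} {i : ℕ} : pref I (3 * i) = I.1.getD i ([], []) := by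
  unfold pref
  rw [if_pos (by omega), show 3 * i / 3 = i by omega]

theorem pref1 {I : Inst} {i : ℕ} : pref I (3 * i + 1) = I.2.1.getD i ([], []) := by
  unfold pref
  rw [if_neg (by omega), if_pos (by omega), show (3 * i + 1) / 3 = i by omega]

theorem pref2 {I : Inst} {i : ℕ} : pref I (3 * i + 2) = I.2.2.getD i ([], []) := by
  unfold pref
  rw [if_neg (by omega), if_neg (by omega), show (3 * i + 2) / 3 = i by omega]

/-- it suffices to consider triples starting with a man -/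
theorem stableF_iff {I : Inst} {f : ℕ → ℕ} : StableF I f ↔ ∀ m < size I, ∀ w < size I,
    ∀ d < size I, ¬ (Imp I f (3 * m) (3 * w + 1) (3 * d + 2) ∧
      Imp I f (3 * w + 1) (3 * d + 2) (3 * m) ∧ Imp I f (3 * d + 2) (3 * m) (3 * w + 1)) := by
  constructor
  · intro h m hm w hw d hd
    exact h _ (by omega) _ (by omega) _ (by omega) (by omega) (by omega)
  · rintro h x hx y hy z hz h1 h2 ⟨b1, b2, b3⟩
    have hc : x % 3 = 0 ∨ x % 3 = 1 ∨ x % 3 = 2 := by omega
    rcases hc with hc | hc | hc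
    · obtain ⟨i, rfl⟩ : ∃ i, x = 3 * i := ⟨x / 3, by omega⟩
      obtain ⟨j, rfl⟩ : ∃ j, y = 3 * j + 1 := ⟨y / 3, by omega⟩
      obtain ⟨k, rfl⟩ : ∃ k, z = 3 * k + 2 := ⟨z / 3, by omega⟩
      exact h i (by omega) j (by omega) k (by omega) ⟨b1, b2, b3⟩
    · obtain ⟨i, rfl⟩ : ∃ i, x = 3 * i + 1 := ⟨x / 3, by omega⟩
      obtain ⟨j, rfl⟩ : ∃ j, y = 3 * j + 2 := ⟨y / 3, by omega⟩
      obtain ⟨k, rfl⟩ : ∃ k, z = 3 * k := ⟨z / 3, by omega⟩
      exact h k (by omega) i (by omega) j (by omega) ⟨b3, b1, b2⟩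
    · obtain ⟨i, rfl⟩ : ∃ i, x = 3 * i + 2 := ⟨x / 3, by omega⟩
      obtain ⟨j, rfl⟩ : ∃ j, y = 3 * j := ⟨y / 3, by omega⟩
      obtain ⟨k, rfl⟩ : ∃ k, z = 3 * k + 1 := ⟨z / 3, by omega⟩
      exact h j (by omega) k (by omega) i (by omega) ⟨b2, b3, b1⟩

/-- the matching of a function -/
def matOf (n : ℕ) (f : ℕ → ℕ) : List (ℕ × ℕ × ℕ) :=
  (List.range n).map (fun i => (i, f (3 * i) / 3, f (f (3 * i)) / 3))

theorem mat_inj {n : ℕ} {f : ℕ → ℕ} (h : Mat n f) {v w : ℕ} (hv : v < 3 * n) (hw : w < 3 * n)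
    (he : f v = f w) : v = w := by
  rw [← h.cyc v hv, ← h.cyc w hw, he]

theorem isMatching_matOf {n : ℕ} {f : ℕ → ℕ} (h : Mat n f) : IsMatching n (matOf n f) := by
  have h1 : ∀ i < n, f (3 * i) < 3 * n ∧ f (3 * i) % 3 = 1 := fun i hi =>
    ⟨h.lt _ (by omega), by rw [h.gd _ (by omega)]; omega⟩
  have h2 : ∀ i < n, f (f (3 * i)) < 3 * n ∧ f (f (3 * i)) % 3 = 2 := fun i hi =>
    ⟨h.lt _ (h1 i hi).1, by
      rw [h.gd _ (h1 i hi).1]
      have := (h1 i hi).2
      omega⟩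
  have aux : ∀ F : ℕ → ℕ, (∀ i < n, F i < n) → (∀ i < n, ∀ j < n, F i = F j → i = j) →
      ((List.range n).map F).Perm (List.range n) := by
    intro F hF hinj
    have hn : ((List.range n).map F).Nodup := by
      refine List.Nodup.map_on ?_ List.nodup_range
      intro a ha b hb hab
      exact hinj a (List.mem_range.1 ha) b (List.mem_range.1 hb) hab
    refine (List.subperm_of_subset hn ?_).perm_of_length_le (by simp)
    intro a ha
    obtain ⟨b, hb, rfl⟩ := List.mem_map.1 ha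
    exact List.mem_range.2 (hF b (List.mem_range.1 hb))
  unfold matOf IsMatching
  simp only [List.map_map]
  refine ⟨?_, ?_, ?_⟩
  · exact aux _ (fun i hi => hi) (fun i _ j _ hij => hij)
  · refine aux _ (fun i hi => ?_) (fun i hi j hj hij => ?_)
    · have := h1 i hi
      simp only [Function.comp_apply]
      omega
    · simp only [Function.comp_apply] at hij
      have a1 := h1 i hi
      have a2 := h1 j hj
      have : 3 * i = 3 * j := mat_inj h (by omega) (by omega) (by omega)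
      omega
  · refine aux _ (fun i hi => ?_) (fun i hi j hj hij => ?_)
    · have := h2 i hi
      simp only [Function.comp_apply]
      omega
    · simp only [Function.comp_apply] at hij
      have a1 := h2 i hi
      have a2 := h2 j hj
      have e : f (3 * i) = f (3 * j) := mat_inj h (h1 i hi).1 (h1 j hj).1 (by omega)
      have : 3 * i = 3 * j := mat_inj h (by omega) (by omega) e
      omega

theorem exists_fun {n : ℕ} {M : List (ℕ × ℕ × ℕ)} (hM : IsMatching n M) :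
    ∃ f, Mat n f ∧ ∀ t ∈ M, f (3 * t.1) = 3 * t.2.1 + 1 ∧ f (3 * t.2.1 + 1) = 3 * t.2.2 + 2 ∧
      f (3 * t.2.2 + 2) = 3 * t.1 := by
  classical
  obtain ⟨p1, p2, p3⟩ := hM
  have ex : ∀ (F : ℕ × ℕ × ℕ → ℕ), (M.map F).Perm (List.range n) →
      ∃ t : ℕ → ℕ × ℕ × ℕ, (∀ i < n, t i ∈ M ∧ F (t i) = i) ∧ ∀ s ∈ M, t (F s) = s := by
    intro F hF
    have h1 : ∀ i < n, ∃ t, t ∈ M ∧ F t = i := by
      intro i hi
      have : i ∈ M.map F := (hF.mem_iff).2 (List.mem_range.2 hi)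
      obtain ⟨t, ht, e⟩ := List.mem_map.1 this
      exact ⟨t, ht, e⟩
    choose! t ht using h1
    refine ⟨t, ht, ?_⟩
    intro s hs
    have hlt : F s < n := List.mem_range.1 ((hF.mem_iff).1 (List.mem_map.2 ⟨s, hs, rfl⟩))
    have hn : (M.map F).Nodup := hF.nodup_iff.2 List.nodup_range
    exact List.inj_on_of_nodup_map hn (ht _ hlt).1 hs (ht _ hlt).2
  have lt : ∀ (F : ℕ × ℕ × ℕ → ℕ), (M.map F).Perm (List.range n) → ∀ s ∈ M, F s < n := by
    intro F hF s hs
    exact List.mem_range.1 ((hF.mem_iff).1 (List.mem_map.2 ⟨s, hs, rfl⟩))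
  obtain ⟨t0, a0, b0⟩ := ex (fun t => t.1) p1
  obtain ⟨t1, a1, b1⟩ := ex (fun t => t.2.1) p2
  obtain ⟨t2, a2, b2⟩ := ex (fun t => t.2.2) p3
  have l0 := lt _ p1
  have l1 := lt _ p2
  have l2 := lt _ p3
  let f : ℕ → ℕ := fun v => if v % 3 = 0 then 3 * (t0 (v / 3)).2.1 + 1
    else if v % 3 = 1 then 3 * (t1 (v / 3)).2.2 + 2 else 3 * (t2 (v / 3)).1
  have f0 : ∀ i, f (3 * i) = 3 * (t0 i).2.1 + 1 := by
    intro i
    show (if 3 * i % 3 = 0 then _ else _) = _
    rw [if_pos (by omega), show 3 * i / 3 = i by omega]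
  have f1 : ∀ i, f (3 * i + 1) = 3 * (t1 i).2.2 + 2 := by
    intro i
    show (if (3 * i + 1) % 3 = 0 then _ else _) = _
    rw [if_neg (by omega), if_pos (by omega), show (3 * i + 1) / 3 = i by omega]
  have f2 : ∀ i, f (3 * i + 2) = 3 * (t2 i).1 := by
    intro i
    show (if (3 * i + 2) % 3 = 0 then _ else _) = _
    rw [if_neg (by omega), if_neg (by omega), show (3 * i + 2) / 3 = i by omega]
  have key : ∀ t ∈ M, f (3 * t.1) = 3 * t.2.1 + 1 ∧ f (3 * t.2.1 + 1) = 3 * t.2.2 + 2 ∧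
      f (3 * t.2.2 + 2) = 3 * t.1 := by
    intro t ht
    rw [f0, f1, f2]
    have e0 : t0 t.1 = t := b0 t ht
    have e1 : t1 t.2.1 = t := b1 t ht
    have e2 : t2 t.2.2 = t := b2 t ht
    rw [e0, e1, e2]
    exact ⟨rfl, rfl, rfl⟩
  have cover : ∀ v < 3 * n, ∃ t ∈ M, v = 3 * t.1 ∨ v = 3 * t.2.1 + 1 ∨ v = 3 * t.2.2 + 2 := by
    intro v hv
    have hc : v % 3 = 0 ∨ v % 3 = 1 ∨ v % 3 = 2 := by omega
    rcases hc with hc | hc | hc
    · obtain ⟨x1, x2⟩ := a0 (v / 3) (by omega)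
      exact ⟨_, x1, Or.inl (by omega)⟩
    · obtain ⟨x1, x2⟩ := a1 (v / 3) (by omega)
      exact ⟨_, x1, Or.inr (Or.inl (by omega))⟩
    · obtain ⟨x1, x2⟩ := a2 (v / 3) (by omega)
      exact ⟨_, x1, Or.inr (Or.inr (by omega))⟩
  refine ⟨f, ⟨?_, ?_, ?_⟩, key⟩
  · intro v hv
    obtain ⟨t, ht, h | h | h⟩ := cover v hv
    · rw [h, (key t ht).1]; have := l1 t ht; omega
    · rw [h, (key t ht).2.1]; have := l2 t ht; omega
    · rw [h, (key t ht).2.2]; have := l0 t ht; omega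
  · intro v hv
    obtain ⟨t, ht, h | h | h⟩ := cover v hv
    · rw [h, (key t ht).1]; omega
    · rw [h, (key t ht).2.1]; omega
    · rw [h, (key t ht).2.2]; omega
  · intro v hv
    obtain ⟨t, ht, h | h | h⟩ := cover v hv
    · rw [h, (key t ht).1, (key t ht).2.1, (key t ht).2.2]
    · rw [h, (key t ht).2.1, (key t ht).2.2, (key t ht).1]
    · rw [h, (key t ht).2.2, (key t ht).1, (key t ht).2.1]

/-- stable matchings exist iff they exist as functions -/
theorem exists_stable_iff (I : Inst) :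
    (∃ M, Stable I M) ↔ ∃ f, Mat (size I) f ∧ StableF I f := by
  constructor
  · rintro ⟨M, hM, hs⟩
    obtain ⟨f, hf, hk⟩ := exists_fun hM
    refine ⟨f, hf, stableF_iff.2 ?_⟩
    rintro m hm w hw d hd ⟨b1, b2, b3⟩
    refine hs m w d ⟨hm, hw, hd, ?_⟩
    intro t ht
    obtain ⟨k1, k2, k3⟩ := hk t ht
    refine ⟨?_, ?_, ?_⟩
    · rintro rfl
      unfold Imp at b1
      rw [pref0, k1, k2, show (3 * w + 1) / 3 = w by omega, show (3 * d + 2) / 3 = d by omega,
        show (3 * t.2.1 + 1) / 3 = t.2.1 by omega, show (3 * t.2.2 + 2) / 3 = t.2.2 by omega] at b1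
      exact b1
    · rintro rfl
      unfold Imp at b2
      rw [pref1, k2, k3, show (3 * d + 2) / 3 = d by omega, show 3 * m / 3 = m by omega,
        show (3 * t.2.2 + 2) / 3 = t.2.2 by omega, show 3 * t.1 / 3 = t.1 by omega] at b2
      exact b2
    · rintro rfl
      unfold Imp at b3
      rw [pref2, k3, k1, show (3 * w + 1) / 3 = w by omega, show 3 * m / 3 = m by omega,
        show (3 * t.2.1 + 1) / 3 = t.2.1 by omega, show 3 * t.1 / 3 = t.1 by omega] at b3
      exact b3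
  · rintro ⟨f, hf, hs⟩
    rw [stableF_iff] at hs
    refine ⟨matOf (size I) f, isMatching_matOf hf, ?_⟩
    rintro m w d ⟨hm, hw, hd, hb⟩
    refine hs m hm w hw d hd ⟨?_, ?_, ?_⟩
    · have h1 := (hb (m, f (3 * m) / 3, f (f (3 * m)) / 3)
        (List.mem_map.2 ⟨m, List.mem_range.2 hm, rfl⟩)).1 rfl
      unfold Imp
      rw [pref0, show (3 * w + 1) / 3 = w by omega, show (3 * d + 2) / 3 = d by omega]
      exact h1
    · -- the man of `w`
      have e1 := hf.gd (3 * w + 1) (by omega)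
      have e2 := hf.lt (3 * w + 1) (by omega)
      have e3 := hf.gd _ e2
      have e4 := hf.lt _ e2
      have e5 := hf.cyc (3 * w + 1) (by omega)
      obtain ⟨i, hi⟩ : ∃ i, f (f (3 * w + 1)) = 3 * i :=
        ⟨f (f (3 * w + 1)) / 3, by omega⟩
      rw [hi] at e5
      have h1 := (hb (i, f (3 * i) / 3, f (f (3 * i)) / 3)
        (List.mem_map.2 ⟨i, List.mem_range.2 (by omega), rfl⟩)).2.1 (by
          simp only [e5]; omega)
      simp only at h1
      unfold Imp
      rw [pref1, show (3 * d + 2) / 3 = d by omega, show 3 * m / 3 = m by omega, hi,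
        show 3 * i / 3 = i by omega]
      rw [e5] at h1
      exact h1
    · have e1 := hf.gd (3 * d + 2) (by omega)
      have e2 := hf.lt (3 * d + 2) (by omega)
      have e5 := hf.cyc (3 * d + 2) (by omega)
      obtain ⟨i, hi⟩ : ∃ i, f (3 * d + 2) = 3 * i := ⟨f (3 * d + 2) / 3, by omega⟩
      rw [hi] at e5
      have h1 := (hb (i, f (3 * i) / 3, f (f (3 * i)) / 3)
        (List.mem_map.2 ⟨i, List.mem_range.2 (by omega), rfl⟩)).2.2 (by
          simp only [e5]; omega)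
      simp only at h1
      unfold Imp
      rw [pref2, show (3 * w + 1) / 3 = w by omega, show 3 * m / 3 = m by omega, hi,
        show 3 * i / 3 = i by omega]
      exact h1

end Pool.Agent.NPC.TG
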