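import Pool.Agent.H642R2.TGCore
import Mathlib.Order.Nat
import Mathlib.Order.Interval.Finset.Nat

/-!
From stable matchings with incomplete lists to stable matchings of the completed instance.
-/

namespace Pool.Agent.NPC.TG

/-- `x` is unmatched or prefers `y` to its partner -/
def Bet (acc : ℕ → List ℕ) (mt : ℕ → Option ℕ) (x y : ℕ) : Prop :=
  ∀ w, mt x = some w → (acc x).idxOf y < (acc x).idxOf w

/-- a stable matching with incomplete lists -/
structure PMat (N : ℕ) (acc : ℕ → List ℕ) (mt : ℕ → Option ℕ) : Prop where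
  mem : ∀ v < 3 * N, ∀ w, mt v = some w → w ∈ acc v ∧ ∃ z, mt w = some z ∧ mt z = some v
  lin : ∀ x < 3 * N, ∀ y ∈ acc x, ∀ z ∈ acc y, ∀ z' ∈ acc y, x ∈ acc z → x ∈ acc z' → z = z'
  stab : ∀ x < 3 * N, ∀ y ∈ acc x, ∀ z ∈ acc y, x ∈ acc z →
    ¬ (Bet acc mt x y ∧ Bet acc mt y z ∧ Bet acc mt z x)

/-- unmatched agents of kind `g` -/
def U (N : ℕ) (mt : ℕ → Option ℕ) (g u : ℕ) : Prop := u < 3 * N ∧ u % 3 = g ∧ mt u = none

instance {N : ℕ} {mt : ℕ → Option ℕ} {g : ℕ} : DecidablePred (U N mt g) := fun u => by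
  unfold U; infer_instance

/-- partner of the substitute of an unmatched agent -/
noncomputable def fp (N : ℕ) (mt : ℕ → Option ℕ) (u : ℕ) : ℕ :=
  Nat.nth (U N mt ((u + 1) % 3)) (Nat.count (U N mt (u % 3)) u)

/-- the matching of the completed instance -/
noncomputable def fB (N : ℕ) (mt : ℕ → Option ℕ) (v : ℕ) : ℕ :=
  if v < 3 * N then (mt v).getD (3 * N + rot v)
  else if v < 6 * N then 6 * N + rot (v - 3 * N)
  else if v < 9 * N then
    (if mt (rot (v - 6 * N)) = none then rot (v - 6 * N) else 9 * N + rot (v - 6 * N))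
  else (if mt (v - 9 * N) = none then 9 * N + fp N mt (v - 9 * N) else 3 * N + rot (v - 9 * N))

variable {N : ℕ} {acc : ℕ → List ℕ} {mt : ℕ → Option ℕ}

theorem card_le (h : AccOk N acc) (hp : PMat N acc mt) (g : ℕ) :
    ((Finset.range (3 * N)).filter (fun u => u % 3 = g ∧ mt u ≠ none)).card ≤
      ((Finset.range (3 * N)).filter (fun u => u % 3 = (g + 1) % 3 ∧ mt u ≠ none)).card := by
  apply Finset.card_le_card_of_injOn (fun u => (mt u).getD 0)
  · intro u hu
    simp only [Finset.coe_filter, Finset.mem_range, Set.mem_setOf_eq] at hu ⊢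
    obtain ⟨h1, h2, h3⟩ := hu
    obtain ⟨w, hw⟩ := Option.ne_none_iff_exists'.1 h3
    obtain ⟨h4, z, h5, h6⟩ := hp.mem u h1 w hw
    have h7 := h.lt u h1 w h4
    rw [hw]
    simp only [Option.getD_some]
    refine ⟨h7.1, by omega, ?_⟩
    rw [h5]
    simp
  · intro u hu u' hu' he
    simp only [Finset.coe_filter, Finset.mem_range, Set.mem_setOf_eq] at hu hu'
    obtain ⟨h1, h2, h3⟩ := hu
    obtain ⟨h1', h2', h3'⟩ := hu'
    obtain ⟨w, hw⟩ := Option.ne_none_iff_exists'.1 h3
    obtain ⟨w', hw'⟩ := Option.ne_none_iff_exists'.1 h3'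
    obtain ⟨h4, z, h5, h6⟩ := hp.mem u h1 w hw
    obtain ⟨h4', z', h5', h6'⟩ := hp.mem u' h1' w' hw'
    simp only [hw, hw', Option.getD_some] at he
    subst he
    rw [h5] at h5'
    injection h5' with h5'
    subst h5'
    rw [h6] at h6'
    injection h6'

theorem count_eq (N : ℕ) (mt : ℕ → Option ℕ) {g : ℕ} (hg : g < 3) :
    Nat.count (U N mt g) (3 * N) +
      ((Finset.range (3 * N)).filter (fun u => u % 3 = g ∧ mt u ≠ none)).card = N := by
  have h1 : ((Finset.range (3 * N)).filter (fun u => u % 3 = g)).card = N := by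
    have : (Finset.range (3 * N)).filter (fun u => u % 3 = g) =
        (Finset.range N).image (fun i => 3 * i + g) := by
      ext u
      simp only [Finset.mem_filter, Finset.mem_range, Finset.mem_image]
      constructor
      · rintro ⟨h1, h2⟩; exact ⟨u / 3, by omega, by omega⟩
      · rintro ⟨i, hi, rfl⟩; omega
    rw [this, Finset.card_image_of_injective _ (by intro a b hab; simp only at hab; omega),
      Finset.card_range]
  rw [Nat.count_eq_card_filter_range]
  have h2 : (Finset.range (3 * N)).filter (U N mt g) =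
      ((Finset.range (3 * N)).filter (fun u => u % 3 = g)).filter (fun u => mt u = none) := by
    ext u
    simp only [Finset.mem_filter, Finset.mem_range, U]
    tauto
  have h3 : (Finset.range (3 * N)).filter (fun u => u % 3 = g ∧ mt u ≠ none) =
      ((Finset.range (3 * N)).filter (fun u => u % 3 = g)).filter (fun u => ¬ mt u = none) := by
    ext u
    simp only [Finset.mem_filter, Finset.mem_range, ne_eq]
    tauto
  rw [h2, h3, Finset.card_filter_add_card_filter_not, h1]

theorem count_same (h : AccOk N acc) (hp : PMat N acc mt) {g : ℕ} (hg : g < 3) :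
    Nat.count (U N mt ((g + 1) % 3)) (3 * N) = Nat.count (U N mt g) (3 * N) := by
  have a0 := card_le h hp 0
  have a1 := card_le h hp 1
  have a2 := card_le h hp 2
  have b0 := count_eq N mt (g := 0) (by omega)
  have b1 := count_eq N mt (g := 1) (by omega)
  have b2 := count_eq N mt (g := 2) (by omega)
  simp only [show (0 + 1) % 3 = 1 by rfl, show (1 + 1) % 3 = 2 by rfl,
    show (2 + 1) % 3 = 0 by rfl] at a0 a1 a2
  interval_cases g
  · show Nat.count (U N mt 1) _ = _; omega
  · show Nat.count (U N mt 2) _ = _; omega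
  · show Nat.count (U N mt 0) _ = _; omega

theorem fp_facts (h : AccOk N acc) (hp : PMat N acc mt) {u : ℕ} (hu : u < 3 * N)
    (hm : mt u = none) : U N mt ((u + 1) % 3) (fp N mt u) ∧
      Nat.count (U N mt ((u + 1) % 3)) (fp N mt u) = Nat.count (U N mt (u % 3)) u := by
  have hU : U N mt (u % 3) u := ⟨hu, rfl, hm⟩
  have h1 : Nat.count (U N mt (u % 3)) u < Nat.count (U N mt (u % 3)) (3 * N) :=
    Nat.count_strict_mono hU hu
  have h2 : Nat.count (U N mt ((u + 1) % 3)) (3 * N) = Nat.count (U N mt (u % 3)) (3 * N) := by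
    have := count_same h hp (g := u % 3) (by omega)
    rw [show (u % 3 + 1) % 3 = (u + 1) % 3 by omega] at this
    exact this
  have h3 : ∀ hf : (setOf (U N mt ((u + 1) % 3))).Finite,
      Nat.count (U N mt (u % 3)) u < hf.toFinset.card := by
    intro hf
    have : hf.toFinset = (Finset.range (3 * N)).filter (U N mt ((u + 1) % 3)) := by
      ext v
      simp only [Set.Finite.mem_toFinset, Set.mem_setOf_eq, Finset.mem_filter, Finset.mem_range]
      exact ⟨fun hv => ⟨hv.1, hv⟩, fun hv => hv.2⟩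
    rw [this, ← Nat.count_eq_card_filter_range, h2]
    exact h1
  exact ⟨Nat.nth_mem _ h3, Nat.count_nth h3⟩

theorem fp3 (h : AccOk N acc) (hp : PMat N acc mt) {u : ℕ} (hu : u < 3 * N)
    (hm : mt u = none) : fp N mt (fp N mt (fp N mt u)) = u := by
  obtain ⟨⟨a1, a2, a3⟩, a4⟩ := fp_facts h hp hu hm
  obtain ⟨⟨b1, b2, b3⟩, b4⟩ := fp_facts h hp a1 a3
  have e : fp N mt (fp N mt (fp N mt u)) = Nat.nth (U N mt ((fp N mt (fp N mt u) + 1) % 3))
      (Nat.count (U N mt (fp N mt (fp N mt u) % 3)) (fp N mt (fp N mt u))) := rfl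
  rw [e, b2, b4, a2, a4, show (fp N mt (fp N mt u) + 1) % 3 = u % 3 by omega]
  exact Nat.nth_count (p := U N mt (u % 3)) ⟨hu, rfl, hm⟩

theorem fB_orig_some {v w : ℕ} (hv : v < 3 * N) (hm : mt v = some w) : fB N mt v = w := by
  unfold fB; rw [if_pos hv, hm]; rfl

theorem fB_orig_none {v : ℕ} (hv : v < 3 * N) (hm : mt v = none) :
    fB N mt v = 3 * N + rot v := by
  unfold fB; rw [if_pos hv, hm]; rfl

theorem fB_one {u : ℕ} (hu : u < 3 * N) : fB N mt (3 * N + u) = 6 * N + rot u := by
  unfold fB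
  rw [if_neg (by omega), if_pos (by omega), Nat.add_sub_cancel_left]

theorem fB_two_none {u : ℕ} (hu : u < 3 * N) (hm : mt (rot u) = none) :
    fB N mt (6 * N + u) = rot u := by
  unfold fB
  rw [if_neg (by omega), if_neg (by omega), if_pos (by omega), Nat.add_sub_cancel_left, if_pos hm]

theorem fB_two_some {u : ℕ} (hu : u < 3 * N) (hm : mt (rot u) ≠ none) :
    fB N mt (6 * N + u) = 9 * N + rot u := by
  unfold fB
  rw [if_neg (by omega), if_neg (by omega), if_pos (by omega), Nat.add_sub_cancel_left, if_neg hm]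

theorem fB_three_none {u : ℕ} (hm : mt u = none) :
    fB N mt (9 * N + u) = 9 * N + fp N mt u := by
  unfold fB
  rw [if_neg (by omega), if_neg (by omega), if_neg (by omega), Nat.add_sub_cancel_left, if_pos hm]

theorem fB_three_some {u : ℕ} (hm : mt u ≠ none) :
    fB N mt (9 * N + u) = 3 * N + rot u := by
  unfold fB
  rw [if_neg (by omega), if_neg (by omega), if_neg (by omega), Nat.add_sub_cancel_left, if_neg hm]

/-- the four sorts of agents -/
theorem kinds {v : ℕ} (hv : v < 12 * N) : v < 3 * N ∨ (∃ u < 3 * N, v = 3 * N + u) ∨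
    (∃ u < 3 * N, v = 6 * N + u) ∨ ∃ u < 3 * N, v = 9 * N + u := by
  by_cases h1 : v < 3 * N
  · exact Or.inl h1
  by_cases h2 : v < 6 * N
  · exact Or.inr (Or.inl ⟨v - 3 * N, by omega, by omega⟩)
  by_cases h3 : v < 9 * N
  · exact Or.inr (Or.inr (Or.inl ⟨v - 6 * N, by omega, by omega⟩))
  · exact Or.inr (Or.inr (Or.inr ⟨v - 9 * N, by omega, by omega⟩))

theorem mat_fB (h : AccOk N acc) (hp : PMat N acc mt) : Mat (4 * N) (fB N mt) := by
  have hfp : ∀ u < 3 * N, mt u = none → fp N mt u < 3 * N ∧ fp N mt u % 3 = (u + 1) % 3 ∧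
      mt (fp N mt u) = none := fun u hu hm => (fp_facts h hp hu hm).1
  have lg : ∀ v < 12 * N, fB N mt v < 12 * N ∧ fB N mt v % 3 = (v + 1) % 3 := by
    intro v hv
    rcases kinds hv with hv | ⟨u, hu, rfl⟩ | ⟨u, hu, rfl⟩ | ⟨u, hu, rfl⟩
    · cases hm : mt v with
      | none =>
        rw [fB_orig_none hv hm]
        have := rot_lt hv
        have := rot_mod v
        omega
      | some w =>
        rw [fB_orig_some hv hm]
        have := h.lt v hv w (hp.mem v hv w hm).1
        omega
    · rw [fB_one hu]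
      have := rot_lt hu
      have := rot_mod u
      omega
    · have := rot_lt hu
      have := rot_mod u
      by_cases hm : mt (rot u) = none
      · rw [fB_two_none hu hm]; omega
      · rw [fB_two_some hu hm]; omega
    · have := rot_lt hu
      have := rot_mod u
      by_cases hm : mt u = none
      · rw [fB_three_none hm]
        have := hfp u hu hm
        omega
      · rw [fB_three_some hm]; omega
  refine ⟨fun v hv => ?_, fun v hv => ?_, fun v hv => ?_⟩
  · have := (lg v (by omega)).1; omega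
  · exact (lg v (by omega)).2
  · have hrr := rot3
    rcases kinds (v := v) (N := N) (by omega) with hv | ⟨u, hu, rfl⟩ | ⟨u, hu, rfl⟩ | ⟨u, hu, rfl⟩
    · cases hm : mt v with
      | none =>
        rw [fB_orig_none hv hm, fB_one (rot_lt hv), fB_two_none (rot_lt (rot_lt hv))]
        · exact hrr v
        · rw [hrr]; exact hm
      | some w =>
        obtain ⟨h1, z, h2, h3⟩ := hp.mem v hv w hm
        have h4 := (h.lt v hv w h1).1
        have h5 := (h.lt w h4 z (hp.mem w h4 z h2).1).1
        rw [fB_orig_some hv hm, fB_orig_some h4 h2, fB_orig_some h5 h3]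
    · rw [fB_one hu]
      by_cases hm : mt (rot (rot u)) = none
      · rw [fB_two_none (rot_lt hu) hm, fB_orig_none (rot_lt (rot_lt hu)) hm, hrr]
      · rw [fB_two_some (rot_lt hu) hm, fB_three_some hm, hrr]
    · by_cases hm : mt (rot u) = none
      · rw [fB_two_none hu hm, fB_orig_none (rot_lt hu) hm, fB_one (rot_lt (rot_lt hu)), hrr]
      · rw [fB_two_some hu hm, fB_three_some hm, fB_one (rot_lt (rot_lt hu)), hrr]
    · by_cases hm : mt u = none
      · obtain ⟨a1, a2, a3⟩ := hfp u hu hm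
        obtain ⟨b1, b2, b3⟩ := hfp _ a1 a3
        rw [fB_three_none hm, fB_three_none a3, fB_three_none b3, fp3 h hp hu hm]
      · rw [fB_three_some hm, fB_one (rot_lt hu), fB_two_some (rot_lt (rot_lt hu)) (by rwa [hrr]),
          hrr]

theorem fB_mem (h : AccOk N acc) (hp : PMat N acc mt) {v : ℕ} (hv : v < 12 * N) :
    fB N mt v ∈ T1 N acc v := by
  rcases kinds hv with hv | ⟨u, hu, rfl⟩ | ⟨u, hu, rfl⟩ | ⟨u, hu, rfl⟩
  · rw [T1_orig hv]
    cases hm : mt v with
    | none => rw [fB_orig_none hv hm]; simp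
    | some w => rw [fB_orig_some hv hm]; simp [(hp.mem v hv w hm).1]
  · rw [T1_one hu, fB_one hu]; simp
  · rw [T1_two hu]
    by_cases hm : mt (rot u) = none
    · rw [fB_two_none hu hm]; simp
    · rw [fB_two_some hu hm]; simp
  · rw [T1_three]
    by_cases hm : mt u = none
    · rw [fB_three_none hm]
      have := (fp_facts h hp hu hm).1
      refine List.mem_cons_of_mem _ ?_
      rw [mem_fil]
      obtain ⟨a1, a2, a3⟩ := this
      omega
    · rw [fB_three_some hm]; simp

/-- what an improvement means -/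
theorem imp_fB (h : AccOk N acc) (hp : PMat N acc mt) {v w u : ℕ} (hv : v < 12 * N)
    (hw : w % 3 = (v + 1) % 3) (hi : Imp (inst N acc) (fB N mt) v w u) :
    w ∈ T1 N acc v ∧ ((T1 N acc v).idxOf w < (T1 N acc v).idxOf (fB N mt v) ∨
      (w = fB N mt v ∧
        rk (4 * N) (T2 N v) u < rk (4 * N) (T2 N v) (fB N mt (fB N mt v)))) := by
  have hf := mat_fB h hp
  rw [imp_iff hf hv hw] at hi
  have hg := hf.gd v (by omega)
  rcases hi with hi | ⟨hi, hi'⟩
  · have := rk_lt_mem (fun w hw => ((T1_facts h hv).2 w hw).2) hw hg (fB_mem h hp hv) hi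
    exact ⟨this.1, Or.inl this.2⟩
  · refine ⟨?_, Or.inr ⟨hi, hi'⟩⟩
    rw [hi]
    exact fB_mem h hp hv

theorem stable_fB (h : AccOk N acc) (hp : PMat N acc mt) : StableF (inst N acc) (fB N mt) := by
  have hf := mat_fB h hp
  -- no agent of the second sort
  have one : ∀ x < 12 * N, ∀ y < 12 * N, ∀ z < 12 * N, y % 3 = (x + 1) % 3 →
      z % 3 = (y + 1) % 3 → Imp (inst N acc) (fB N mt) x y z → Imp (inst N acc) (fB N mt) y z x →
      Imp (inst N acc) (fB N mt) z x y → ¬ (3 * N ≤ y ∧ y < 6 * N) := by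
    rintro x hx y hy z hz g1 g2 b1 b2 b3 ⟨hy1, hy2⟩
    obtain ⟨u, hu, rfl⟩ : ∃ u < 3 * N, y = 3 * N + u := ⟨y - 3 * N, by omega, by omega⟩
    obtain ⟨m2, c2⟩ := imp_fB h hp hy g2 b2
    rw [T1_one hu] at m2
    simp only [List.mem_singleton] at m2
    subst m2
    obtain ⟨m3, c3⟩ := imp_fB h hp hz (by omega) b3
    have r1 := rot_lt hu
    have r2 := rot_lt r1
    rw [T1_two r1] at m3
    simp only [List.mem_cons, List.not_mem_nil, or_false] at m3
    have e2 : fB N mt (3 * N + u) = 6 * N + rot u := fB_one hu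
    rw [e2] at c2
    have c2' : rk (4 * N) (T2 N (3 * N + u)) x <
        rk (4 * N) (T2 N (3 * N + u)) (fB N mt (6 * N + rot u)) := by
      rcases c2 with c2 | c2
      · exact absurd c2 (lt_irrefl _)
      · exact c2.2
    have hT2 := (T2_facts (N := N) (v := 3 * N + u) hy).2
    by_cases hm : mt (rot (rot u)) = none
    · rw [fB_two_none r1 hm] at c2'
      rcases m3 with rfl | rfl
      · exact lt_irrefl _ c2'
      · have := (rk_lt_mem (fun w hw => (hT2 w hw).2) (by omega)
          (hT2 _ (by rw [T2_one hu]; simp)).2 (by rw [T2_one hu]; simp) c2').2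
        rw [T2_one hu, List.idxOf_cons_self] at this
        omega
    · rw [fB_two_some r1 hm] at c2'
      rcases m3 with rfl | rfl
      · -- the agent prefers its acceptable partner
        obtain ⟨m1, c1⟩ := imp_fB h hp hx g1 b1
        obtain ⟨w, hw⟩ := Option.ne_none_iff_exists'.1 hm
        have hacc := (hp.mem _ r2 w hw).1
        have hlw := (h.lt _ r2 w hacc).1
        rw [fB_orig_some r2 hw] at c1
        have hna : 3 * N + u ∉ acc (rot (rot u)) := by
          intro hc
          have := (h.lt _ r2 _ hc).1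
          omega
        rcases c1 with c1 | c1
        · rw [T1_orig r2, List.idxOf_append_of_mem hacc, List.idxOf_append_of_notMem hna] at c1
          have := List.idxOf_lt_length_of_mem hacc
          omega
        · omega
      · exact lt_irrefl _ c2'
  intro x hx y hy z hz g1 g2
  rw [size_inst] at hx hy hz
  rintro ⟨b1, b2, b3⟩
  have hx : x < 12 * N := by omega
  have hy : y < 12 * N := by omega
  have hz : z < 12 * N := by omega
  have g3 : x % 3 = (z + 1) % 3 := by omega
  have ny := one x hx y hy z hz g1 g2 b1 b2 b3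
  have nz := one y hy z hz x hx g2 g3 b2 b3 b1
  have nx := one z hz x hx y hy g3 g1 b3 b1 b2
  obtain ⟨m1, c1⟩ := imp_fB h hp hx g1 b1
  obtain ⟨m2, c2⟩ := imp_fB h hp hy g2 b2
  obtain ⟨m3, c3⟩ := imp_fB h hp hz g3 b3
  -- possible transitions
  have trans : ∀ v < 12 * N, ∀ w ∈ T1 N acc v, ¬ (3 * N ≤ v ∧ v < 6 * N) →
      ¬ (3 * N ≤ w ∧ w < 6 * N) → (v < 3 * N ∧ w < 3 * N ∧ w ∈ acc v) ∨
      (6 * N ≤ v ∧ v < 9 * N) ∨ (9 * N ≤ v ∧ 9 * N ≤ w) := by
    intro v hv w hw n1 n2
    rcases kinds hv with hv | ⟨u, hu, rfl⟩ | ⟨u, hu, rfl⟩ | ⟨u, hu, rfl⟩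
    · left
      rw [T1_orig hv] at hw
      simp only [List.mem_append, List.mem_singleton] at hw
      rcases hw with hw | hw
      · exact ⟨hv, (h.lt v hv w hw).1, hw⟩
      · have := rot_lt hv; omega
    · exact absurd ⟨by omega, by omega⟩ n1
    · right; left; omega
    · right; right
      rw [T1_three] at hw
      simp only [List.mem_cons] at hw
      rw [mem_fil] at hw
      have := rot_lt hu
      omega
  have into : ∀ v < 12 * N, ∀ w ∈ T1 N acc v, (6 * N ≤ w ∧ w < 9 * N) →
      3 * N ≤ v ∧ v < 6 * N := by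
    intro v hv w hw hw'
    rcases kinds hv with hv | ⟨u, hu, rfl⟩ | ⟨u, hu, rfl⟩ | ⟨u, hu, rfl⟩
    · rw [T1_orig hv] at hw
      simp only [List.mem_append, List.mem_singleton] at hw
      rcases hw with hw | hw
      · have := (h.lt v hv w hw).1; omega
      · have := rot_lt hv; omega
    · omega
    · have := rot_lt hu
      rw [T1_two hu] at hw
      simp only [List.mem_cons, List.not_mem_nil, or_false] at hw
      omega
    · have := rot_lt hu
      rw [T1_three] at hw
      simp only [List.mem_cons] at hw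
      rw [mem_fil] at hw
      omega
  have n2y : ¬ (6 * N ≤ y ∧ y < 9 * N) := fun hc => nx (into x hx y m1 hc)
  have n2z : ¬ (6 * N ≤ z ∧ z < 9 * N) := fun hc => ny (into y hy z m2 hc)
  have n2x : ¬ (6 * N ≤ x ∧ x < 9 * N) := fun hc => nz (into z hz x m3 hc)
  have t1 := trans x hx y m1 nx ny
  have t2 := trans y hy z m2 ny nz
  have t3 := trans z hz x m3 nz nx
  by_cases hx3 : x < 3 * N
  · -- original agents
    have hy3 : y < 3 * N ∧ y ∈ acc x := by
      rcases t1 with t1 | t1 | t1
      · exact ⟨t1.2.1, t1.2.2⟩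
      · omega
      · omega
    have hz3 : z < 3 * N ∧ z ∈ acc y := by
      rcases t2 with t2 | t2 | t2
      · exact ⟨t2.2.1, t2.2.2⟩
      · omega
      · omega
    have hxz : x ∈ acc z := by
      rcases t3 with t3 | t3 | t3
      · exact t3.2.2
      · omega
      · omega
    have bet : ∀ v < 3 * N, ∀ w ∈ acc v, ∀ u ∈ acc w, v ∈ acc u →
        ((T1 N acc v).idxOf w < (T1 N acc v).idxOf (fB N mt v) ∨
          (w = fB N mt v ∧
            rk (4 * N) (T2 N v) u < rk (4 * N) (T2 N v) (fB N mt (fB N mt v)))) →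
        Bet acc mt v w := by
      intro v hv w hw u hu hvu hc w' hw'
      obtain ⟨p1, z', p2, p3⟩ := hp.mem v hv w' hw'
      have l1 := (h.lt v hv w' p1).1
      have p4 := (hp.mem w' l1 z' p2).1
      have l2 := (h.lt w' l1 z' p4).1
      have p5 := (hp.mem z' l2 v p3).1
      rw [fB_orig_some hv hw'] at hc
      rcases hc with hc | ⟨hc, hc'⟩
      · rw [T1_orig hv, List.idxOf_append_of_mem hw, List.idxOf_append_of_mem p1] at hc
        exact hc
      · subst hc
        have := hp.lin v hv w hw u hu z' p4 hvu p5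
        rw [fB_orig_some l1 p2, this] at hc'
        exact absurd hc' (lt_irrefl _)
    exact hp.stab x hx3 y hy3.2 z hz3.2 hxz ⟨bet x hx3 y hy3.2 z hz3.2 hxz c1,
      bet y hy3.1 z hz3.2 x hxz hy3.2 c2, bet z hz3.1 x hxz y hy3.2 hz3.2 c3⟩
  · -- substitutes
    obtain ⟨p, hp', rfl⟩ : ∃ p < 3 * N, x = 9 * N + p := ⟨x - 9 * N, by omega, by omega⟩
    obtain ⟨q, hq', rfl⟩ : ∃ q < 3 * N, y = 9 * N + q := ⟨y - 9 * N, by omega, by omega⟩
    obtain ⟨r, hr', rfl⟩ : ∃ r < 3 * N, z = 9 * N + r := ⟨z - 9 * N, by omega, by omega⟩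
    have key : ∀ p < 3 * N, ∀ q < 3 * N, ∀ r < 3 * N, q % 3 = (p + 1) % 3 → r % 3 = (q + 1) % 3 →
        ((T1 N acc (9 * N + p)).idxOf (9 * N + q) <
          (T1 N acc (9 * N + p)).idxOf (fB N mt (9 * N + p)) ∨
          (9 * N + q = fB N mt (9 * N + p) ∧
            rk (4 * N) (T2 N (9 * N + p)) (9 * N + r) <
              rk (4 * N) (T2 N (9 * N + p)) (fB N mt (fB N mt (9 * N + p))))) →
        mt p = none ∧ (q < fp N mt p ∨ (q = fp N mt p ∧
          rk (4 * N) (T2 N (9 * N + p)) (9 * N + r) <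
              rk (4 * N) (T2 N (9 * N + p)) (fB N mt (9 * N + q)))) := by
      intro p hp' q hq' r hr' g1 g2 hc
      have hrp := rot_lt hp'
      have hmq : 9 * N + q ∈ fil N (9 * N + p + 1) := by rw [mem_fil]; omega
      by_cases hm : mt p = none
      · refine ⟨hm, ?_⟩
        rw [fB_three_none hm] at hc
        obtain ⟨⟨f1, f2, f3⟩, f4⟩ := fp_facts h hp hp' hm
        have hmf : 9 * N + fp N mt p ∈ fil N (9 * N + p + 1) := by rw [mem_fil]; omega
        rcases hc with hc | ⟨hc, hc'⟩
        · left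
          rw [T1_three, List.idxOf_cons_ne _ (by omega), List.idxOf_cons_ne _ (by omega),
            idxOf_fil hmq, idxOf_fil hmf] at hc
          omega
        · right
          have e : q = fp N mt p := by omega
          rw [← e] at hc'
          exact ⟨e, hc'⟩
      · exfalso
        rw [fB_three_some hm] at hc
        rcases hc with hc | ⟨hc, _⟩
        · rw [T1_three, List.idxOf_cons_self] at hc
          omega
        · omega
    obtain ⟨k1, k2⟩ := key p hp' q hq' r hr' (by omega) (by omega) c1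
    obtain ⟨k3, k4⟩ := key q hq' r hr' p hp' (by omega) (by omega) c2
    obtain ⟨k5, k6⟩ := key r hr' p hp' q hq' (by omega) (by omega) c3
    have cnt : ∀ p < 3 * N, ∀ q < 3 * N, q % 3 = (p + 1) % 3 → mt p = none → mt q = none →
        (q < fp N mt p → Nat.count (U N mt (q % 3)) q < Nat.count (U N mt (p % 3)) p) ∧
        (q = fp N mt p → Nat.count (U N mt (q % 3)) q = Nat.count (U N mt (p % 3)) p) := by
      intro p hp' q hq' g1 hm hm'
      obtain ⟨f0, f4⟩ := fp_facts h hp hp' hm
      constructor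
      · intro hlt
        rw [← f4, ← g1]
        exact Nat.count_strict_mono (p := U N mt (q % 3)) ⟨hq', rfl, hm'⟩ hlt
      · intro he
        rw [← f4, ← g1, ← he]
    obtain ⟨d1, d1'⟩ := cnt p hp' q hq' (by omega) k1 k3
    obtain ⟨d2, d2'⟩ := cnt q hq' r hr' (by omega) k3 k5
    obtain ⟨d3, d3'⟩ := cnt r hr' p hp' (by omega) k5 k1
    rcases k2 with k2 | ⟨k2, k2'⟩
    · have := d1 k2
      rcases k4 with k4 | ⟨k4, _⟩ <;> rcases k6 with k6 | ⟨k6, _⟩
      · have := d2 k4; have := d3 k6; omega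
      · have := d2 k4; have := d3' k6; omega
      · have := d2' k4; have := d3 k6; omega
      · have := d2' k4; have := d3' k6; omega
    · have := d1' k2
      rcases k4 with k4 | ⟨k4, _⟩
      · have := d2 k4
        rcases k6 with k6 | ⟨k6, _⟩
        · have := d3 k6; omega
        · have := d3' k6; omega
      · rw [fB_three_none k3, ← k4] at k2'
        exact lt_irrefl _ k2'

theorem coreB (h : AccOk N acc) (hp : PMat N acc mt) :
    ∃ f, Mat (size (inst N acc)) f ∧ StableF (inst N acc) f := by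
  rw [size_inst]
  exact ⟨_, mat_fB h hp, stable_fB h hp⟩

end Pool.Agent.NPC.TG
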