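import Pool.Agent.H642R2.TGSound
import Pool.Agent.H642R2.TGCoreB

/-!
A satisfying assignment gives a stable matching of the completed instance.
-/

namespace Pool.Agent.NPC.TG

variable {C Q : ℕ} {oc : ℕ → Bool × ℕ} {τ : ℕ → Bool}

/-- value of an occurrence -/
def l (oc : ℕ → Bool × ℕ) (τ : ℕ → Bool) (i : ℕ) : Bool := τ (oc i).2 == (oc i).1

/-- the chosen triples of a clause ring -/
def rs (a b c : Bool) : List Bool :=
  [!a && b, !a && (!b && c), !(!b && c), !b && c, !b && (!c && a), !(!c && a), !c && a,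
    !c && (!a && b), !(!a && b)]

/-- which triples are chosen -/
def s (C Q : ℕ) (oc : ℕ → Bool × ℕ) (τ : ℕ → Bool) (e : ℕ) : Bool :=
  if e < 6 * Q then τ (e / 6 / (3 * C)) == decide (e % 2 = 1)
  else (rs (l oc τ (3 * ((e - 6 * Q) / 9))) (l oc τ (3 * ((e - 6 * Q) / 9) + 1))
    (l oc τ (3 * ((e - 6 * Q) / 9) + 2))).getD ((e - 6 * Q) % 9) false

/-- agents of the first sort matched by an occurrence -/
def lm (Q : ℕ) (oc : ℕ → Bool × ℕ) (τ : ℕ → Bool) (e : ℕ) : Bool :=
  decide (6 * Q ≤ e ∧ e % 3 = 0) && l oc τ ((e - 6 * Q) / 3)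

/-- the matching -/
def mtf (C Q : ℕ) (oc : ℕ → Bool × ℕ) (τ : ℕ → Bool) (u : ℕ) : Option ℕ :=
  if u < 6 * Q + 9 * C then
    (if lm Q oc τ u = true then some (6 * Q + 9 * C + rot (W C oc ((u - 6 * Q) / 3)))
    else if s C Q oc τ (nxt C Q u) = true then some (nxt C Q u)
    else if s C Q oc τ u = true then some (6 * Q + 9 * C + rot u) else none)
  else if u < 12 * Q + 18 * C then
    (if s C Q oc τ (rot (rot (u - (6 * Q + 9 * C)))) = true then
      some (prv C Q (rot (rot (u - (6 * Q + 9 * C)))))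
    else if rot (rot (u - (6 * Q + 9 * C))) < 6 * Q ∧
        W C oc (rot (rot (u - (6 * Q + 9 * C))) / 6 % (3 * C)) =
          rot (rot (u - (6 * Q + 9 * C))) then
      some (12 * Q + 18 * C + 3 * (rot (rot (u - (6 * Q + 9 * C))) / 6 % (3 * C)) + 2)
    else none)
  else if u % 3 = 2 ∧ l oc τ ((u - (12 * Q + 18 * C)) / 3) = true then
    some (6 * Q + 3 * ((u - (12 * Q + 18 * C)) / 3)) else none

theorem mtf_A {u : ℕ} (hu : u < 6 * Q + 9 * C) : mtf C Q oc τ u =
    (if lm Q oc τ u = true then some (6 * Q + 9 * C + rot (W C oc ((u - 6 * Q) / 3)))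
    else if s C Q oc τ (nxt C Q u) = true then some (nxt C Q u)
    else if s C Q oc τ u = true then some (6 * Q + 9 * C + rot u) else none) := by
  unfold mtf; rw [if_pos hu]

theorem mtf_B {e : ℕ} (he : e < 6 * Q + 9 * C) : mtf C Q oc τ (6 * Q + 9 * C + rot e) =
    (if s C Q oc τ e = true then some (prv C Q e)
    else if e < 6 * Q ∧ W C oc (e / 6 % (3 * C)) = e then
      some (12 * Q + 18 * C + 3 * (e / 6 % (3 * C)) + 2) else none) := by
  have h := rot_lt' he
  unfold mtf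
  rw [if_neg (by omega), if_pos (by omega), Nat.add_sub_cancel_left, rot3]

theorem mtf_Z (i : ℕ) : mtf C Q oc τ (12 * Q + 18 * C + 3 * i + 2) =
    if l oc τ i = true then some (6 * Q + 3 * i) else none := by
  unfold mtf
  rw [if_neg (by omega), if_neg (by omega),
    show (12 * Q + 18 * C + 3 * i + 2 - (12 * Q + 18 * C)) / 3 = i by omega]
  by_cases h : l oc τ i = true
  · rw [if_pos ⟨by omega, h⟩, if_pos h]
  · rw [if_neg (fun hc => h hc.2), if_neg h]

theorem mtf_none {u : ℕ} (hu : 12 * Q + 18 * C ≤ u) (h : u % 3 ≠ 2) : mtf C Q oc τ u = none := by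
  unfold mtf
  rw [if_neg (by omega), if_neg (by omega), if_neg (fun hc => h hc.1)]

/-- satisfying -/
def Sat (C : ℕ) (oc : ℕ → Bool × ℕ) (τ : ℕ → Bool) : Prop :=
  ∀ d < C, ∃ k < 3, l oc τ (3 * d + k) = true

/-- local conditions -/
theorem loc (c : Ctx C Q oc) (hs : Sat C oc τ) {e : ℕ} (he : e < 6 * Q + 9 * C) :
    (s C Q oc τ e = true → s C Q oc τ (nxt C Q e) = false) ∧
    (s C Q oc τ e = true → lm Q oc τ e = false) ∧
    (s C Q oc τ (nxt C Q e) = true → lm Q oc τ e = false) ∧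
    (s C Q oc τ (nxt C Q e) = false → s C Q oc τ (nxt C Q (nxt C Q e)) = true ∨
      lm Q oc τ (nxt C Q e) = true ∨ lm Q oc τ e = true) := by
  have hn := nxt_facts c.pos c.sq he
  have hn' := nxt_facts c.pos c.sq hn.1
  by_cases hv : e < 6 * Q
  · obtain ⟨a1, a2, a3⟩ := hn.2.2.2.1 hv
    obtain ⟨b1, b2, b3⟩ := hn'.2.2.2.1 a1
    have l1 : lm Q oc τ e = false := by
      unfold lm; rw [decide_eq_false (by omega)]; rfl
    have l2 : lm Q oc τ (nxt C Q e) = false := by
      unfold lm; rw [decide_eq_false (by omega)]; rfl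
    have e1 : s C Q oc τ (nxt C Q e) = !s C Q oc τ e := by
      unfold s
      rw [if_pos a1, if_pos hv, a3]
      have : decide (nxt C Q e % 2 = 1) = !decide (e % 2 = 1) := by
        rcases Nat.mod_two_eq_zero_or_one e with h | h
        · rw [decide_eq_true (by omega), decide_eq_false (by omega)]; rfl
        · rw [decide_eq_false (by omega), decide_eq_true (by omega)]; rfl
      rw [this]
      cases τ (e / 6 / (3 * C)) <;> cases decide (e % 2 = 1) <;> rfl
    have e2 : s C Q oc τ (nxt C Q (nxt C Q e)) = !s C Q oc τ (nxt C Q e) := by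
      unfold s
      rw [if_pos b1, if_pos a1, b3]
      have : decide (nxt C Q (nxt C Q e) % 2 = 1) = !decide (nxt C Q e % 2 = 1) := by
        rcases Nat.mod_two_eq_zero_or_one (nxt C Q e) with h | h
        · rw [decide_eq_true (by omega), decide_eq_false (by omega)]; rfl
        · rw [decide_eq_false (by omega), decide_eq_true (by omega)]; rfl
      rw [this]
      cases τ (nxt C Q e / 6 / (3 * C)) <;> cases decide (nxt C Q e % 2 = 1) <;> rfl
    rw [l1, l2, e2, e1]
    cases s C Q oc τ e <;> simp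
  · obtain ⟨a1, a2, a3⟩ := hn.2.2.2.2 (by omega)
    obtain ⟨b1, b2, b3⟩ := hn'.2.2.2.2 a1
    obtain ⟨k, hk, hl⟩ := hs ((e - 6 * Q) / 9) (by omega)
    have hr : (e - 6 * Q) % 9 < 9 := Nat.mod_lt _ (by omega)
    have key : ∀ u, 6 * Q ≤ u → (u - 6 * Q) / 9 = (e - 6 * Q) / 9 → u % 3 = (u - 6 * Q) % 9 % 3 →
        s C Q oc τ u = (rs (l oc τ (3 * ((e - 6 * Q) / 9))) (l oc τ (3 * ((e - 6 * Q) / 9) + 1))
          (l oc τ (3 * ((e - 6 * Q) / 9) + 2))).getD ((u - 6 * Q) % 9) false ∧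
        lm Q oc τ u = (decide ((u - 6 * Q) % 9 % 3 = 0) &&
          [l oc τ (3 * ((e - 6 * Q) / 9)), l oc τ (3 * ((e - 6 * Q) / 9) + 1),
            l oc τ (3 * ((e - 6 * Q) / 9) + 2)].getD ((u - 6 * Q) % 9 / 3) false) := by
      intro u hu h1 h2
      constructor
      · unfold s
        rw [if_neg (by omega), h1]
      · unfold lm
        by_cases h3 : u % 3 = 0
        · rw [decide_eq_true ⟨hu, h3⟩, decide_eq_true (by omega), Bool.true_and, Bool.true_and]
          have h4 : (u - 6 * Q) / 3 = 3 * ((e - 6 * Q) / 9) + (u - 6 * Q) % 9 / 3 := by omega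
          rw [h4]
          have h5 : (u - 6 * Q) % 9 / 3 < 3 := by omega
          generalize (u - 6 * Q) % 9 / 3 = j at h5
          interval_cases j <;> rfl
        · rw [decide_eq_false (by omega), decide_eq_false (by omega), Bool.false_and,
            Bool.false_and]
    obtain ⟨s0, l0⟩ := key e (by omega) rfl (by omega)
    obtain ⟨s1, l1⟩ := key (nxt C Q e) a1 a3 (by omega)
    obtain ⟨s2, _⟩ := key (nxt C Q (nxt C Q e)) b1 (by omega) (by omega)
    rw [s0, s1, s2, l0, l1, b2, a2]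
    have hsat : (l oc τ (3 * ((e - 6 * Q) / 9)) || (l oc τ (3 * ((e - 6 * Q) / 9) + 1) ||
        l oc τ (3 * ((e - 6 * Q) / 9) + 2))) = true := by
      interval_cases k
      · rw [Nat.add_zero] at hl; rw [hl]; rfl
      · rw [hl]; simp
      · rw [hl]; simp
    generalize (e - 6 * Q) % 9 = r at *
    generalize l oc τ (3 * ((e - 6 * Q) / 9)) = p0 at *
    generalize l oc τ (3 * ((e - 6 * Q) / 9) + 1) = p1 at *
    generalize l oc τ (3 * ((e - 6 * Q) / 9) + 2) = p2 at *
    clear key s0 s1 s2 l0 l1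
    have : ∀ p0 p1 p2 : Bool, (p0 || (p1 || p2)) = true → ∀ r < 9,
        ((rs p0 p1 p2).getD r false = true → (rs p0 p1 p2).getD ((r + 1) % 9) false = false) ∧
        ((rs p0 p1 p2).getD r false = true →
          (decide (r % 3 = 0) && [p0, p1, p2].getD (r / 3) false) = false) ∧
        ((rs p0 p1 p2).getD ((r + 1) % 9) false = true →
          (decide (r % 3 = 0) && [p0, p1, p2].getD (r / 3) false) = false) ∧
        ((rs p0 p1 p2).getD ((r + 1) % 9) false = false →
          (rs p0 p1 p2).getD (((r + 1) % 9 + 1) % 9) false = true ∨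
          (decide ((r + 1) % 9 % 3 = 0) && [p0, p1, p2].getD ((r + 1) % 9 / 3) false) = true ∨
          (decide (r % 3 = 0) && [p0, p1, p2].getD (r / 3) false) = true) := by
      decide +kernel
    exact this p0 p1 p2 hsat r hr

/-- the variable triple of an occurrence is chosen iff the literal is false -/
theorem s_W (c : Ctx C Q oc) {i : ℕ} (hi : i < 3 * C) : s C Q oc τ (W C oc i) = !l oc τ i := by
  obtain ⟨w1, w2, w3, w4, w5⟩ := W_facts c.sq c.bd hi
  unfold s l
  rw [if_pos w1, w4]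
  cases hs : (oc i).1
  · rw [hs] at w5
    simp only [Bool.false_eq_true, if_false] at w5
    rw [decide_eq_true (by omega)]
    cases τ (oc i).2 <;> rfl
  · rw [hs] at w5
    simp only [if_true] at w5
    rw [decide_eq_false (by omega)]
    cases τ (oc i).2 <;> rfl

/-- the partners of a chosen triple -/
theorem mtf_ring (c : Ctx C Q oc) (hs : Sat C oc τ) {e : ℕ} (he : e < 6 * Q + 9 * C)
    (h : s C Q oc τ e = true) : mtf C Q oc τ (prv C Q e) = some e ∧
      mtf C Q oc τ e = some (6 * Q + 9 * C + rot e) ∧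
      mtf C Q oc τ (6 * Q + 9 * C + rot e) = some (prv C Q e) := by
  have hp := prv_facts c.pos c.sq he
  obtain ⟨a1, a2, a3, a4⟩ := loc c hs he
  obtain ⟨b1, b2, b3, b4⟩ := loc c hs hp.1
  rw [hp.2.2.1] at b3
  refine ⟨?_, ?_, ?_⟩
  · rw [mtf_A hp.1, b3 h, hp.2.2.1, h]; simp
  · rw [mtf_A he, a2 h, a1 h, h]; simp
  · rw [mtf_B he, h]; simp

theorem mtf_lit (c : Ctx C Q oc) {i : ℕ} (hi : i < 3 * C) (h : l oc τ i = true) :
    mtf C Q oc τ (6 * Q + 3 * i) = some (6 * Q + 9 * C + rot (W C oc i)) ∧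
      mtf C Q oc τ (6 * Q + 9 * C + rot (W C oc i)) = some (12 * Q + 18 * C + 3 * i + 2) ∧
      mtf C Q oc τ (12 * Q + 18 * C + 3 * i + 2) = some (6 * Q + 3 * i) := by
  obtain ⟨w1, w2, w3, w4, w5⟩ := W_facts c.sq c.bd hi
  have e1 : (6 * Q + 3 * i - 6 * Q) / 3 = i := by omega
  refine ⟨?_, ?_, ?_⟩
  · rw [mtf_A (by omega)]
    have : lm Q oc τ (6 * Q + 3 * i) = true := by
      unfold lm; rw [decide_eq_true ⟨by omega, by omega⟩, e1, h]; rfl
    rw [if_pos this, e1]
  · rw [mtf_B (by omega), s_W c hi, h, w3, if_neg (by simp), if_pos ⟨w1, rfl⟩]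
  · rw [mtf_Z, if_pos h]

/-- the possible partners -/
theorem mtf_cases (c : Ctx C Q oc) {v w : ℕ} (hv : v < 12 * Q + 27 * C)
    (h : mtf C Q oc τ v = some w) :
    (∃ e < 6 * Q + 9 * C, s C Q oc τ e = true ∧ ((v = prv C Q e ∧ w = e) ∨
      (v = e ∧ w = 6 * Q + 9 * C + rot e) ∨ (v = 6 * Q + 9 * C + rot e ∧ w = prv C Q e))) ∨
    ∃ i < 3 * C, l oc τ i = true ∧ ((v = 6 * Q + 3 * i ∧ w = 6 * Q + 9 * C + rot (W C oc i)) ∨
      (v = 6 * Q + 9 * C + rot (W C oc i) ∧ w = 12 * Q + 18 * C + 3 * i + 2) ∨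
      (v = 12 * Q + 18 * C + 3 * i + 2 ∧ w = 6 * Q + 3 * i)) := by
  by_cases h1 : v < 6 * Q + 9 * C
  · rw [mtf_A h1] at h
    split_ifs at h with h2 h3 h4
    · right
      unfold lm at h2
      rw [Bool.and_eq_true, decide_eq_true_eq] at h2
      injection h with h
      exact ⟨(v - 6 * Q) / 3, by omega, h2.2, Or.inl ⟨by omega, h.symm⟩⟩
    · left
      injection h with h
      have hn := nxt_facts c.pos c.sq h1
      exact ⟨nxt C Q v, hn.1, h3, Or.inl ⟨hn.2.2.1.symm, h.symm⟩⟩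
    · left
      injection h with h
      exact ⟨v, h1, h4, Or.inr (Or.inl ⟨rfl, h.symm⟩)⟩
  by_cases h2 : v < 12 * Q + 18 * C
  · obtain ⟨e, he, rfl⟩ : ∃ e < 6 * Q + 9 * C, v = 6 * Q + 9 * C + rot e :=
      ⟨rot (rot (v - (6 * Q + 9 * C))), rot_lt' (rot_lt' (by omega)), by rw [rot3]; omega⟩
    rw [mtf_B he] at h
    split_ifs at h with h3 h4
    · left
      injection h with h
      exact ⟨e, he, h3, Or.inr (Or.inr ⟨rfl, h.symm⟩)⟩
    · right
      injection h with h
      have hi : e / 6 % (3 * C) < 3 * C := Nat.mod_lt _ (by have := c.pos; omega)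
      refine ⟨e / 6 % (3 * C), hi, ?_, Or.inr (Or.inl ⟨by rw [h4.2], h.symm⟩)⟩
      have := s_W (τ := τ) c hi
      rw [h4.2] at this
      rw [this] at h3
      simpa using h3
  · by_cases h3 : v % 3 = 2
    · obtain ⟨i, hi, rfl⟩ : ∃ i < 3 * C, v = 12 * Q + 18 * C + 3 * i + 2 :=
        ⟨(v - (12 * Q + 18 * C)) / 3, by omega, by omega⟩
      rw [mtf_Z] at h
      split_ifs at h with h4
      injection h with h
      exact Or.inr ⟨i, hi, h4, Or.inr (Or.inr ⟨rfl, h.symm⟩)⟩
    · rw [mtf_none (by omega) h3] at h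
      simp at h

/-- third agent of a triple, as a function of the two others -/
def thd (C Q : ℕ) (oc : ℕ → Bool × ℕ) (x y : ℕ) : ℕ :=
  if x < 6 * Q + 9 * C then
    (if y < 6 * Q + 9 * C then 6 * Q + 9 * C + rot y
    else if y = 6 * Q + 9 * C + rot x then prv C Q x
    else 12 * Q + 18 * C + (x - 6 * Q) + 2)
  else if x < 12 * Q + 18 * C then
    (if y < 6 * Q + 9 * C then nxt C Q y else 6 * Q + (y - (12 * Q + 18 * C + 2)))
  else 6 * Q + 9 * C + rot (W C oc ((x - (12 * Q + 18 * C)) / 3))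

theorem thd_eq (c : Ctx C Q oc) {x y z : ℕ} (h1 : Arc C Q oc x y) (h2 : Arc C Q oc y z)
    (h3 : Arc C Q oc z x) : z = thd C Q oc x y := by
  unfold thd
  rcases tri c.pos c.sq c.bd h1 h2 h3 with ⟨e, he, h | h | h⟩ | ⟨i, hi, h | h | h⟩
  · obtain ⟨rfl, rfl, rfl⟩ := h
    have hp := (prv_facts c.pos c.sq he).1
    rw [if_pos hp, if_pos he]
  · obtain ⟨rfl, rfl, rfl⟩ := h
    have hp := prv_facts c.pos c.sq he
    have hr := rot_lt' he
    rw [if_neg (by omega), if_pos (by omega), if_pos hp.1, hp.2.2.1]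
  · obtain ⟨rfl, rfl, rfl⟩ := h
    rw [if_pos he, if_neg (by omega), if_pos rfl]
  · obtain ⟨rfl, rfl, rfl⟩ := h
    have hW := W_facts c.sq c.bd hi
    have hne : rot (W C oc i) ≠ rot (6 * Q + 3 * i) := by
      intro hc
      have := rot_inj hc
      omega
    rw [if_pos (by omega), if_neg (by omega), if_neg (by omega)]
    omega
  · obtain ⟨rfl, rfl, rfl⟩ := h
    rw [if_neg (by omega), if_neg (by omega),
      show (12 * Q + 18 * C + 3 * i + 2 - (12 * Q + 18 * C)) / 3 = i by omega]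
  · obtain ⟨rfl, rfl, rfl⟩ := h
    have hW := W_facts c.sq c.bd hi
    have := rot_lt' (C := C) (Q := Q) (e := W C oc i) (by omega)
    rw [if_neg (by omega), if_pos (by omega), if_neg (by omega)]
    omega

theorem noBet_ring (c : Ctx C Q oc) (hs : Sat C oc τ) {e : ℕ} (he : e < 6 * Q + 9 * C)
    (h1 : Bet (acc C Q oc) (mtf C Q oc τ) (prv C Q e) e)
    (h2 : Bet (acc C Q oc) (mtf C Q oc τ) e (6 * Q + 9 * C + rot e)) : False := by
  have hp := prv_facts c.pos c.sq he
  obtain ⟨a1, a2, a3, a4⟩ := loc c hs he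
  obtain ⟨b1, b2, b3, b4⟩ := loc c hs hp.1
  rw [hp.2.2.1] at b3 b4
  have hn := nxt_facts c.pos c.sq he
  by_cases h : s C Q oc τ e = true
  · have := h2 _ (mtf_ring c hs he h).2.1
    exact lt_irrefl _ this
  · have h' : s C Q oc τ e = false := by simpa using h
    by_cases h3 : lm Q oc τ e = true
    · have hm : mtf C Q oc τ e = some (6 * Q + 9 * C + rot (W C oc ((e - 6 * Q) / 3))) := by
        rw [mtf_A he, if_pos h3]
      have := h2 _ hm
      unfold lm at h3
      rw [Bool.and_eq_true, decide_eq_true_eq] at h3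
      rw [acc_A he, if_pos h3.1, List.singleton_append, List.idxOf_cons_self] at this
      omega
    · by_cases h4 : lm Q oc τ (prv C Q e) = true
      · have hm : mtf C Q oc τ (prv C Q e) =
            some (6 * Q + 9 * C + rot (W C oc ((prv C Q e - 6 * Q) / 3))) := by
          rw [mtf_A hp.1, if_pos h4]
        have := h1 _ hm
        unfold lm at h4
        rw [Bool.and_eq_true, decide_eq_true_eq] at h4
        rw [acc_A hp.1, if_pos h4.1, List.singleton_append, List.idxOf_cons_self] at this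
        omega
      · rcases b4 h' with h5 | h5 | h5
        · have hm : mtf C Q oc τ e = some (nxt C Q e) := by
            rw [mtf_A he, if_neg h3, if_pos h5]
          have := h2 _ hm
          rw [acc_A he] at this
          split_ifs at this with h6
          · have hW := W_facts (i := (e - 6 * Q) / 3) c.sq c.bd (by omega)
            have hne : rot (W C oc ((e - 6 * Q) / 3)) ≠ rot e := by
              intro hc
              have := rot_inj hc
              omega
            rw [List.singleton_append, List.idxOf_cons_ne _ (by omega),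
              List.idxOf_cons_ne _ (by omega), List.idxOf_cons_self,
              List.idxOf_cons_ne _ (by omega), List.idxOf_cons_self] at this
            omega
          · rw [List.nil_append, List.idxOf_cons_self] at this
            omega
        · exact h3 h5
        · exact h4 h5

theorem noBet_lit (c : Ctx C Q oc) (hs : Sat C oc τ) {i : ℕ} (hi : i < 3 * C)
    (h1 : Bet (acc C Q oc) (mtf C Q oc τ) (6 * Q + 3 * i) (6 * Q + 9 * C + rot (W C oc i)))
    (h2 : Bet (acc C Q oc) (mtf C Q oc τ) (6 * Q + 9 * C + rot (W C oc i))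
      (12 * Q + 18 * C + 3 * i + 2)) : False := by
  have hW := W_facts c.sq c.bd hi
  by_cases h : l oc τ i = true
  · exact lt_irrefl _ (h1 _ (mtf_lit c hi h).1)
  · have h3 : s C Q oc τ (W C oc i) = true := by
      rw [s_W c hi]; simpa using h
    have := h2 _ (mtf_ring c hs (by omega) h3).2.2
    rw [acc_B (by omega), List.singleton_append, List.idxOf_cons_self] at this
    omega

theorem pmat (c : Ctx C Q oc) (hs : Sat C oc τ) :
    PMat (4 * Q + 9 * C) (acc C Q oc) (mtf C Q oc τ) := by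
  constructor
  · intro v hv w hw
    rcases mtf_cases c (by omega) hw with ⟨e, he, h, h' | h' | h'⟩ | ⟨i, hi, h, h' | h' | h'⟩
    · obtain ⟨rfl, rfl⟩ := h'
      have hp := prv_facts c.pos c.sq he
      obtain ⟨m1, m2, m3⟩ := mtf_ring c hs he h
      exact ⟨(c.arc (by omega)).2 (Or.inl ⟨hp.1, hp.2.2.1.symm⟩), _, m2, m3⟩
    · obtain ⟨rfl, rfl⟩ := h'
      obtain ⟨m1, m2, m3⟩ := mtf_ring c hs he h
      exact ⟨(c.arc (by omega)).2 (Or.inr (Or.inl ⟨he, rfl⟩)), _, m3, m1⟩
    · obtain ⟨rfl, rfl⟩ := h'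
      obtain ⟨m1, m2, m3⟩ := mtf_ring c hs he h
      exact ⟨(c.arc (by omega)).2 (Or.inr (Or.inr (Or.inr (Or.inl ⟨e, he, rfl, rfl⟩)))),
        _, m1, m2⟩
    · obtain ⟨rfl, rfl⟩ := h'
      obtain ⟨m1, m2, m3⟩ := mtf_lit c hi h
      exact ⟨(c.arc (by omega)).2 (Or.inr (Or.inr (Or.inl ⟨i, hi, rfl, rfl⟩))), _, m2, m3⟩
    · obtain ⟨rfl, rfl⟩ := h'
      obtain ⟨m1, m2, m3⟩ := mtf_lit c hi h
      exact ⟨(c.arc (by omega)).2 (Or.inr (Or.inr (Or.inr (Or.inr (Or.inl ⟨i, hi, rfl, rfl⟩))))),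
        _, m3, m1⟩
    · obtain ⟨rfl, rfl⟩ := h'
      obtain ⟨m1, m2, m3⟩ := mtf_lit c hi h
      exact ⟨(c.arc (by omega)).2 (Or.inr (Or.inr (Or.inr (Or.inr (Or.inr ⟨i, hi, rfl, rfl⟩))))),
        _, m1, m2⟩
  · intro x hx y hy z hz z' hz' h1 h2
    have ly := (c.ok.lt x hx y hy).1
    have lz := (c.ok.lt y ly z hz).1
    have lz' := (c.ok.lt y ly z' hz').1
    rw [c.arc (by omega)] at hy hz hz' h1 h2
    rw [thd_eq c hy hz h1, thd_eq c hy hz' h2]
  · rintro x hx y hy z hz h1 ⟨b1, b2, b3⟩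
    have ly := (c.ok.lt x hx y hy).1
    have lz := (c.ok.lt y ly z hz).1
    rw [c.arc (by omega)] at hy hz h1
    rcases tri c.pos c.sq c.bd hy hz h1 with ⟨e, he, h | h | h⟩ | ⟨i, hi, h | h | h⟩
    · obtain ⟨rfl, rfl, rfl⟩ := h
      exact noBet_ring c hs he b1 b2
    · obtain ⟨rfl, rfl, rfl⟩ := h
      exact noBet_ring c hs he b2 b3
    · obtain ⟨rfl, rfl, rfl⟩ := h
      exact noBet_ring c hs he b3 b1
    · obtain ⟨rfl, rfl, rfl⟩ := h
      exact noBet_lit c hs hi b1 b2
    · obtain ⟨rfl, rfl, rfl⟩ := h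
      exact noBet_lit c hs hi b2 b3
    · obtain ⟨rfl, rfl, rfl⟩ := h
      exact noBet_lit c hs hi b3 b1

/-- the completed instance has a stable matching iff the clauses are satisfiable -/
theorem stable_iff_sat (c : Ctx C Q oc) :
    (∃ M, Stable (inst (4 * Q + 9 * C) (acc C Q oc)) M) ↔
      ∃ τ : ℕ → Bool, ∀ d < C, ∃ k < 3, τ (oc (3 * d + k)).2 = (oc (3 * d + k)).1 := by
  rw [exists_stable_iff]
  constructor
  · rintro ⟨f, hf, hs⟩
    rw [size_inst] at hf
    exact sound c ⟨hf, hs⟩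
  · rintro ⟨τ, hτ⟩
    refine coreB c.ok (pmat (τ := τ) c ?_)
    intro d hd
    obtain ⟨k, hk, h⟩ := hτ d hd
    refine ⟨k, hk, ?_⟩
    unfold l
    rw [h]
    simp

end Pool.Agent.NPC.TG
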