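import Pool.Agent.H642R2.TGBridge

/-!
Incomplete lists: every acceptability structure is completed to an instance with complete
lists by adding, for every agent `a`, a triple of fallback partners and a substitute.
-/

namespace Pool.Agent.NPC.TG

/-- the agent of the next kind with the same number -/
def rot (a : ℕ) : ℕ := 3 * (a / 3) + (a % 3 + 1) % 3

theorem rot_mod (a : ℕ) : rot a % 3 = (a + 1) % 3 := by unfold rot; omega

theorem rot_div (a : ℕ) : rot a / 3 = a / 3 := by unfold rot; omega

theorem rot3 (a : ℕ) : rot (rot (rot a)) = a := by unfold rot; omega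

theorem rot_lt {N a : ℕ} (h : a < 3 * N) : rot a < 3 * N := by unfold rot; omega

theorem rot_inj {a b : ℕ} (h : rot a = rot b) : a = b := by
  rw [← rot3 a, h, rot3]

/-- the substitutes of one kind -/
def fil (N g : ℕ) : List ℕ := (List.range N).map (fun i => 9 * N + 3 * i + g % 3)

theorem mem_fil {N g w : ℕ} : w ∈ fil N g ↔ 9 * N ≤ w ∧ w < 12 * N ∧ w % 3 = g % 3 := by
  unfold fil
  simp only [List.mem_map, List.mem_range]
  constructor
  · rintro ⟨i, hi, rfl⟩; omega
  · rintro ⟨h1, h2, h3⟩; exact ⟨(w - 9 * N) / 3, by omega, by omega⟩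

theorem idxOf_fil {N g w : ℕ} (hw : w ∈ fil N g) : (fil N g).idxOf w = (w - 9 * N) / 3 := by
  rw [mem_fil] at hw
  have hi : (w - 9 * N) / 3 < (fil N g).length := by
    unfold fil; simp; omega
  have e : (fil N g)[(w - 9 * N) / 3]'hi = w := by
    unfold fil; simp; omega
  have hn : (fil N g).Nodup := by
    unfold fil
    refine List.Nodup.map_on ?_ List.nodup_range
    intro a _ b _ hab
    omega
  have := hn.idxOf_getElem ((w - 9 * N) / 3) hi
  rw [e] at this
  exact this

theorem fil_nodup (N g : ℕ) : (fil N g).Nodup := by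
  unfold fil
  refine List.Nodup.map_on ?_ List.nodup_range
  intro a _ b _ hab
  omega

/-- top of the first order -/
def T1 (N : ℕ) (acc : ℕ → List ℕ) (v : ℕ) : List ℕ :=
  if v < 3 * N then acc v ++ [3 * N + rot v]
  else if v < 6 * N then [6 * N + rot (v - 3 * N)]
  else if v < 9 * N then [rot (v - 6 * N), 9 * N + rot (v - 6 * N)]
  else (3 * N + rot (v - 9 * N)) :: fil N (v + 1)

/-- top of the second order -/
def T2 (N : ℕ) (v : ℕ) : List ℕ :=
  if v < 3 * N then [6 * N + rot (rot v)]
  else if v < 6 * N then [rot (rot (v - 3 * N)), 9 * N + rot (rot (v - 3 * N))]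
  else if v < 9 * N then [3 * N + rot (rot (v - 6 * N))]
  else (6 * N + rot (rot (v - 9 * N))) :: fil N (v + 2)

/-- completion of a list -/
def full (n : ℕ) (l : List ℕ) : List ℕ := l ++ (List.range n).filter (fun b => decide (b ∉ l))

/-- preferences of an agent -/
def P (N : ℕ) (acc : ℕ → List ℕ) (v : ℕ) : List ℕ × List ℕ :=
  (full (4 * N) ((T1 N acc v).map (fun w => w / 3)), full (4 * N) ((T2 N v).map (fun w => w / 3)))

/-- the completed instance -/
def inst (N : ℕ) (acc : ℕ → List ℕ) : Inst :=
  ((List.range (4 * N)).map (fun i => P N acc (3 * i)),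
    (List.range (4 * N)).map (fun i => P N acc (3 * i + 1)),
    (List.range (4 * N)).map (fun i => P N acc (3 * i + 2)))

theorem size_inst (N : ℕ) (acc : ℕ → List ℕ) : size (inst N acc) = 4 * N := by
  unfold size inst; simp

theorem pref_inst {N : ℕ} {acc : ℕ → List ℕ} {v : ℕ} (hv : v < 12 * N) :
    pref (inst N acc) v = P N acc v := by
  have aux : ∀ F : ℕ → List ℕ × List ℕ, ((List.range (4 * N)).map F).getD (v / 3) ([], []) =
      F (v / 3) := by
    intro F
    rw [List.getD_eq_getElem _ _ (by simp; omega)]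
    simp
  unfold pref inst
  split_ifs with h0 h1
  · rw [aux]; congr 1; omega
  · rw [aux]; congr 1; omega
  · rw [aux]; congr 1; omega

theorem full_perm {n : ℕ} {l : List ℕ} (h1 : l.Nodup) (h2 : ∀ b ∈ l, b < n) :
    (full n l).Perm (List.range n) := by
  refine (List.perm_ext_iff_of_nodup ?_ List.nodup_range).2 ?_
  · unfold full
    refine List.Nodup.append h1 (List.nodup_range.filter _) ?_
    intro b hb hb'
    simp only [List.mem_filter, decide_eq_true_eq] at hb'
    exact hb'.2 hb
  · intro b
    unfold full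
    simp only [List.mem_append, List.mem_filter, List.mem_range, decide_eq_true_eq]
    constructor
    · rintro (h | h)
      · exact h2 b h
      · exact h.1
    · intro h
      by_cases hb : b ∈ l
      · exact Or.inl hb
      · exact Or.inr ⟨h, hb⟩

/-- conditions on the acceptability lists -/
structure AccOk (N : ℕ) (acc : ℕ → List ℕ) : Prop where
  lt : ∀ v < 3 * N, ∀ w ∈ acc v, w < 3 * N ∧ w % 3 = (v + 1) % 3
  nodup : ∀ v < 3 * N, (acc v).Nodup

variable {N : ℕ} {acc : ℕ → List ℕ}

theorem T1_facts (h : AccOk N acc) {v : ℕ} (hv : v < 12 * N) :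
    (T1 N acc v).Nodup ∧ ∀ w ∈ T1 N acc v, w < 12 * N ∧ w % 3 = (v + 1) % 3 := by
  unfold T1
  split_ifs with h1 h2 h3
  · have hr := rot_lt h1
    have hm := rot_mod v
    constructor
    · refine List.Nodup.append (h.nodup v h1) (List.nodup_singleton _) ?_
      intro b hb hb'
      simp only [List.mem_singleton] at hb'
      have := (h.lt v h1 b hb).1
      omega
    · intro w hw
      simp only [List.mem_append, List.mem_singleton] at hw
      rcases hw with hw | rfl
      · have := h.lt v h1 w hw; omega
      · omega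
  · have hr := rot_lt (N := N) (a := v - 3 * N) (by omega)
    have hm := rot_mod (v - 3 * N)
    refine ⟨List.nodup_singleton _, ?_⟩
    intro w hw
    simp only [List.mem_singleton] at hw
    omega
  · have hr := rot_lt (N := N) (a := v - 6 * N) (by omega)
    have hm := rot_mod (v - 6 * N)
    constructor
    · simp; omega
    · intro w hw
      simp only [List.mem_cons, List.not_mem_nil, or_false] at hw
      omega
  · have hr := rot_lt (N := N) (a := v - 9 * N) (by omega)
    have hm := rot_mod (v - 9 * N)
    constructor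
    · refine List.nodup_cons.2 ⟨?_, fil_nodup _ _⟩
      rw [mem_fil]; omega
    · intro w hw
      simp only [List.mem_cons] at hw
      rw [mem_fil] at hw
      omega

theorem T2_facts {v : ℕ} (hv : v < 12 * N) :
    (T2 N v).Nodup ∧ ∀ w ∈ T2 N v, w < 12 * N ∧ w % 3 = (v + 2) % 3 := by
  unfold T2
  split_ifs with h1 h2 h3
  · have hr := rot_lt (rot_lt h1)
    have hm := rot_mod v
    have hm' := rot_mod (rot v)
    refine ⟨List.nodup_singleton _, ?_⟩
    intro w hw
    simp only [List.mem_singleton] at hw
    omega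
  · have hr := rot_lt (rot_lt (N := N) (a := v - 3 * N) (by omega))
    have hm := rot_mod (v - 3 * N)
    have hm' := rot_mod (rot (v - 3 * N))
    constructor
    · simp; omega
    · intro w hw
      simp only [List.mem_cons, List.not_mem_nil, or_false] at hw
      omega
  · have hr := rot_lt (rot_lt (N := N) (a := v - 6 * N) (by omega))
    have hm := rot_mod (v - 6 * N)
    have hm' := rot_mod (rot (v - 6 * N))
    refine ⟨List.nodup_singleton _, ?_⟩
    intro w hw
    simp only [List.mem_singleton] at hw
    omega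
  · have hr := rot_lt (rot_lt (N := N) (a := v - 9 * N) (by omega))
    have hm := rot_mod (v - 9 * N)
    have hm' := rot_mod (rot (v - 9 * N))
    constructor
    · refine List.nodup_cons.2 ⟨?_, fil_nodup _ _⟩
      rw [mem_fil]; omega
    · intro w hw
      simp only [List.mem_cons] at hw
      rw [mem_fil] at hw
      omega

theorem inst_ok (h : AccOk N acc) : IsLexCyclic (inst N acc) := by
  have aux : ∀ v < 12 * N, (P N acc v).1.Perm (List.range (4 * N)) ∧
      (P N acc v).2.Perm (List.range (4 * N)) := by
    intro v hv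
    obtain ⟨a1, a2⟩ := T1_facts h hv
    obtain ⟨b1, b2⟩ := T2_facts hv
    constructor
    · apply full_perm
      · refine List.Nodup.map_on ?_ a1
        intro x hx y hy hxy
        have := a2 x hx
        have := a2 y hy
        omega
      · intro b hb
        obtain ⟨x, hx, rfl⟩ := List.mem_map.1 hb
        have := a2 x hx
        omega
    · apply full_perm
      · refine List.Nodup.map_on ?_ b1
        intro x hx y hy hxy
        have := b2 x hx
        have := b2 y hy
        omega
      · intro b hb
        obtain ⟨x, hx, rfl⟩ := List.mem_map.1 hb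
        have := b2 x hx
        omega
  unfold IsLexCyclic IsPrefs
  rw [size_inst]
  unfold inst
  refine ⟨⟨by simp, ?_⟩, ⟨by simp, ?_⟩, ⟨by simp, ?_⟩⟩ <;>
  · intro q hq
    obtain ⟨i, hi, rfl⟩ := List.mem_map.1 hq
    rw [List.mem_range] at hi
    exact aux _ (by omega)

/-- the rank of an agent -/
def rk (n : ℕ) (l : List ℕ) (y : ℕ) : ℕ := (full n (l.map (fun w => w / 3))).idxOf (y / 3)

theorem mem_div {l : List ℕ} {g y : ℕ} (hl : ∀ w ∈ l, w % 3 = g) (hy : y % 3 = g) :
    y / 3 ∈ l.map (fun w => w / 3) ↔ y ∈ l := by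
  rw [List.mem_map]
  constructor
  · rintro ⟨w, hw, e⟩
    have := hl w hw
    have : w = y := by omega
    rw [← this]; exact hw
  · intro h; exact ⟨y, h, rfl⟩

theorem idxOf_div {l : List ℕ} {g y : ℕ} (hl : ∀ w ∈ l, w % 3 = g) (hy : y % 3 = g) :
    (l.map (fun w => w / 3)).idxOf (y / 3) = l.idxOf y := by
  induction l with
  | nil => rfl
  | cons a l ih =>
    rw [List.map_cons, List.idxOf_cons, List.idxOf_cons,
      ih (fun w hw => hl w (List.mem_cons_of_mem _ hw))]
    have ha := hl a (by simp)
    by_cases h : a = y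
    · subst h; simp
    · have h1 : (a == y) = false := by simpa using h
      have h2 : (a / 3 == y / 3) = false := by
        simp only [beq_eq_false_iff_ne, ne_eq]; omega
      rw [h1, h2]

theorem rk_lt_mem {n : ℕ} {l : List ℕ} {g y w : ℕ} (hl : ∀ w ∈ l, w % 3 = g) (hy : y % 3 = g)
    (hw : w % 3 = g) (hm : w ∈ l) (h : rk n l y < rk n l w) : y ∈ l ∧ l.idxOf y < l.idxOf w := by
  unfold rk full at h
  rw [List.idxOf_append_of_mem ((mem_div hl hw).2 hm), idxOf_div hl hw] at h
  by_cases hyl : y ∈ l
  · rw [List.idxOf_append_of_mem ((mem_div hl hy).2 hyl), idxOf_div hl hy] at h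
    exact ⟨hyl, h⟩
  · rw [List.idxOf_append_of_notMem (fun hc => hyl ((mem_div hl hy).1 hc))] at h
    have := List.idxOf_lt_length_of_mem hm
    simp only [List.length_map] at h
    omega

theorem rk_of_notMem {n : ℕ} {l : List ℕ} {g y w : ℕ} (hl : ∀ w ∈ l, w % 3 = g)
    (hy : y % 3 = g) (hw : w % 3 = g) (hm : y ∈ l) (h : w ∉ l) : rk n l y < rk n l w := by
  unfold rk full
  rw [List.idxOf_append_of_mem ((mem_div hl hy).2 hm), idxOf_div hl hy,
    List.idxOf_append_of_notMem (fun hc => h ((mem_div hl hw).1 hc))]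
  have := List.idxOf_lt_length_of_mem hm
  simp only [List.length_map]
  omega

theorem rk_of_lt {n : ℕ} {l : List ℕ} {g y w : ℕ} (hl : ∀ w ∈ l, w % 3 = g)
    (hy : y % 3 = g) (hw : w % 3 = g) (hmy : y ∈ l) (hmw : w ∈ l) (h : l.idxOf y < l.idxOf w) :
    rk n l y < rk n l w := by
  unfold rk full
  rw [List.idxOf_append_of_mem ((mem_div hl hy).2 hmy), idxOf_div hl hy,
    List.idxOf_append_of_mem ((mem_div hl hw).2 hmw), idxOf_div hl hw]
  exact h

theorem imp_iff {f : ℕ → ℕ} (hf : Mat (4 * N) f) {v w u : ℕ} (hv : v < 12 * N)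
    (hw : w % 3 = (v + 1) % 3) : Imp (inst N acc) f v w u ↔
      rk (4 * N) (T1 N acc v) w < rk (4 * N) (T1 N acc v) (f v) ∨
        (w = f v ∧ rk (4 * N) (T2 N v) u < rk (4 * N) (T2 N v) (f (f v))) := by
  unfold Imp LexPref
  rw [pref_inst hv]
  unfold P rk
  have e := hf.gd v (by omega)
  have : w / 3 = f v / 3 ↔ w = f v := by
    constructor
    · intro h; omega
    · intro h; rw [h]
  rw [this]

/-- agents `a`, `a'`, `a''` -/
theorem T1_orig {v : ℕ} (hv : v < 3 * N) : T1 N acc v = acc v ++ [3 * N + rot v] := by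
  unfold T1; rw [if_pos hv]

theorem T1_one {u : ℕ} (hu : u < 3 * N) : T1 N acc (3 * N + u) = [6 * N + rot u] := by
  unfold T1
  rw [if_neg (by omega), if_pos (by omega), Nat.add_sub_cancel_left]

theorem T1_two {u : ℕ} (hu : u < 3 * N) :
    T1 N acc (6 * N + u) = [rot u, 9 * N + rot u] := by
  unfold T1
  rw [if_neg (by omega), if_neg (by omega), if_pos (by omega), Nat.add_sub_cancel_left]

theorem T1_three (u : ℕ) :
    T1 N acc (9 * N + u) = (3 * N + rot u) :: fil N (9 * N + u + 1) := by
  unfold T1
  rw [if_neg (by omega), if_neg (by omega), if_neg (by omega), Nat.add_sub_cancel_left]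

theorem T2_orig {v : ℕ} (hv : v < 3 * N) : T2 N v = [6 * N + rot (rot v)] := by
  unfold T2; rw [if_pos hv]

theorem T2_one {u : ℕ} (hu : u < 3 * N) :
    T2 N (3 * N + u) = [rot (rot u), 9 * N + rot (rot u)] := by
  unfold T2
  rw [if_neg (by omega), if_pos (by omega), Nat.add_sub_cancel_left]

theorem T2_two {u : ℕ} (hu : u < 3 * N) :
    T2 N (6 * N + u) = [3 * N + rot (rot u)] := by
  unfold T2
  rw [if_neg (by omega), if_neg (by omega), if_pos (by omega), Nat.add_sub_cancel_left]

theorem T2_three (u : ℕ) :
    T2 N (9 * N + u) = (6 * N + rot (rot u)) :: fil N (9 * N + u + 2) := by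
  unfold T2
  rw [if_neg (by omega), if_neg (by omega), if_neg (by omega), Nat.add_sub_cancel_left]

/-! ### from complete to incomplete lists -/

/-- every original agent is in its fallback triple or with an acceptable partner -/
theorem fallback (h : AccOk N acc) {f : ℕ → ℕ} (hf : Mat (4 * N) f)
    (hs : StableF (inst N acc) f) {v : ℕ} (hv : v < 3 * N) :
    (f v = 3 * N + rot v ∧ f (3 * N + rot v) = 6 * N + rot (rot v)) ∨ f v ∈ acc v := by
  by_contra hcon
  push Not at hcon
  obtain ⟨h1, h2⟩ := hcon
  have r1 := rot_lt hv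
  have r2 := rot_lt r1
  have m1 := rot_mod v
  have m2 := rot_mod (rot v)
  have hrr := rot3 v
  have a1 := T1_facts h (v := v) (by omega)
  have a2 := T1_facts h (v := 3 * N + rot v) (by omega)
  have a3 := T1_facts h (v := 6 * N + rot (rot v)) (by omega)
  have b1 := T2_facts (N := N) (v := v) (by omega)
  have b2 := T2_facts (N := N) (v := 3 * N + rot v) (by omega)
  have b3 := T2_facts (N := N) (v := 6 * N + rot (rot v)) (by omega)
  have c0 := hf.lt v (by omega)
  have c1 := hf.gd v (by omega)
  have c2 := hf.gd (f v) c0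
  have c3 := hf.cyc v (by omega)
  have c4 := hf.lt (f v) c0
  have d0 := hf.lt (3 * N + rot v) (by omega)
  have d1 := hf.gd (3 * N + rot v) (by omega)
  have d2 := hf.gd _ d0
  have d3 := hf.cyc (3 * N + rot v) (by omega)
  have e0 := hf.lt (6 * N + rot (rot v)) (by omega)
  have e1 := hf.gd (6 * N + rot (rot v)) (by omega)
  have e2 := hf.gd _ e0
  have e3 := hf.cyc (6 * N + rot (rot v)) (by omega)
  refine hs v (by rw [size_inst]; omega) (3 * N + rot v) (by rw [size_inst]; omega)
    (6 * N + rot (rot v)) (by rw [size_inst]; omega) (by omega) (by omega) ⟨?_, ?_, ?_⟩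
  · rw [imp_iff hf (by omega) (by omega)]
    by_cases hfv : f v = 3 * N + rot v
    · right
      refine ⟨hfv.symm, ?_⟩
      refine rk_of_notMem (fun w hw => (b1.2 w hw).2) (by omega) (by omega) ?_ ?_
      · rw [T2_orig hv]; simp
      · rw [T2_orig hv, hfv]
        simp only [List.mem_singleton]
        exact h1 hfv
    · left
      refine rk_of_notMem (fun w hw => (a1.2 w hw).2) (by omega) (by omega) ?_ ?_
      · rw [T1_orig hv]; simp
      · rw [T1_orig hv]
        simp only [List.mem_append, List.mem_singleton, not_or]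
        exact ⟨h2, hfv⟩
  · rw [imp_iff hf (by omega) (by omega)]
    by_cases hfv : f (3 * N + rot v) = 6 * N + rot (rot v)
    · right
      refine ⟨hfv.symm, ?_⟩
      have hne : f (f (3 * N + rot v)) ≠ v := by
        intro he
        rw [he] at d3
        exact h1 d3 hfv
      have hmem : v ∈ T2 N (3 * N + rot v) := by
        rw [T2_one r1, hrr]; simp
      by_cases hm2 : f (f (3 * N + rot v)) ∈ T2 N (3 * N + rot v)
      · refine rk_of_lt (fun w hw => (b2.2 w hw).2) (by omega) (by omega) hmem hm2 ?_
        rw [T2_one r1, hrr] at hm2 ⊢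
        simp only [List.mem_cons, List.not_mem_nil, or_false] at hm2
        rcases hm2 with hm2 | hm2
        · exact absurd hm2 hne
        · rw [hm2, List.idxOf_cons_self]
          rw [List.idxOf_cons_ne _ (by omega)]
          omega
      · exact rk_of_notMem (fun w hw => (b2.2 w hw).2) (by omega) (by omega) hmem hm2
    · left
      refine rk_of_notMem (fun w hw => (a2.2 w hw).2) (by omega) (by omega) ?_ ?_
      · rw [T1_one r1]; simp
      · rw [T1_one r1]
        simp only [List.mem_singleton]
        exact hfv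
  · rw [imp_iff hf (by omega) (by omega)]
    have hmem : v ∈ T1 N acc (6 * N + rot (rot v)) := by
      rw [T1_two r2, hrr]; simp
    by_cases hfv : f (6 * N + rot (rot v)) = v
    · right
      refine ⟨hfv.symm, ?_⟩
      refine rk_of_notMem (fun w hw => (b3.2 w hw).2) (by omega) (by omega) ?_ ?_
      · rw [T2_two r2]
        have : rot (rot (rot (rot v))) = rot v := by rw [hrr]
        rw [this]; simp
      · rw [T2_two r2]
        have : rot (rot (rot (rot v))) = rot v := by rw [hrr]
        rw [this, hfv]
        simp only [List.mem_singleton]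
        intro he
        rw [hfv, he] at e3
        exact h1 he e3
    · left
      by_cases hm2 : f (6 * N + rot (rot v)) ∈ T1 N acc (6 * N + rot (rot v))
      · refine rk_of_lt (fun w hw => (a3.2 w hw).2) (by omega) (by omega) hmem hm2 ?_
        rw [T1_two r2, hrr] at hm2 ⊢
        simp only [List.mem_cons, List.not_mem_nil, or_false] at hm2
        rcases hm2 with hm2 | hm2
        · exact absurd hm2 hfv
        · rw [hm2, List.idxOf_cons_self]
          rw [List.idxOf_cons_ne _ (by omega)]
          omega
      · exact rk_of_notMem (fun w hw => (a3.2 w hw).2) (by omega) (by omega) hmem hm2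

theorem closed (h : AccOk N acc) {f : ℕ → ℕ} (hf : Mat (4 * N) f)
    (hs : StableF (inst N acc) f) {v : ℕ} (hv : v < 3 * N) (hm : f v ∈ acc v) :
    f (f v) ∈ acc (f v) ∧ v ∈ acc (f (f v)) := by
  have h1 := (h.lt v hv _ hm).1
  have c3 := hf.cyc v (by omega)
  have key : f (f v) ∈ acc (f v) := by
    rcases fallback h hf hs h1 with ⟨h2, h3⟩ | h2
    · rw [h2, h3] at c3
      omega
    · exact h2
  refine ⟨key, ?_⟩
  have h4 := (h.lt _ h1 _ key).1
  rcases fallback h hf hs h4 with ⟨h2, h3⟩ | h2
  · rw [c3] at h2; omega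
  · rw [c3] at h2; exact h2

/-- `x` has no acceptable partner or one worse than `y` -/
def Wants (acc : ℕ → List ℕ) (f : ℕ → ℕ) (x y : ℕ) : Prop :=
  f x ∉ acc x ∨ (acc x).idxOf y < (acc x).idxOf (f x)

theorem coreA (h : AccOk N acc) {f : ℕ → ℕ} (hf : Mat (4 * N) f)
    (hs : StableF (inst N acc) f) {x y z : ℕ} (hx : x < 3 * N) (hy : y ∈ acc x) (hz : z ∈ acc y)
    (hx' : x ∈ acc z) : ¬ (Wants acc f x y ∧ Wants acc f y z ∧ Wants acc f z x) := by
  have l1 := h.lt x hx y hy
  have l2 := h.lt y l1.1 z hz
  have l3 := h.lt z l2.1 x hx'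
  have key : ∀ v w u, v < 3 * N → w ∈ acc v → Wants acc f v w → Imp (inst N acc) f v w u := by
    intro v w u hv hw hwant
    have hlw := h.lt v hv w hw
    have c1 := hf.gd v (by omega)
    have a1 := T1_facts h (v := v) (by omega)
    rw [imp_iff hf (by omega) hlw.2]
    left
    have hmem : w ∈ T1 N acc v := by rw [T1_orig hv]; simp [hw]
    by_cases hfm : f v ∈ T1 N acc v
    · refine rk_of_lt (fun w hw => (a1.2 w hw).2) (by omega) (by omega) hmem hfm ?_
      rw [T1_orig hv] at hfm ⊢
      rcases hwant with hwant | hwant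
      · rw [List.idxOf_append_of_mem hw, List.idxOf_append_of_notMem hwant]
        have := List.idxOf_lt_length_of_mem hw
        omega
      · have hfa : f v ∈ acc v ∨ f v ∉ acc v := em _
        rcases hfa with hfa | hfa
        · rw [List.idxOf_append_of_mem hw, List.idxOf_append_of_mem hfa]
          exact hwant
        · rw [List.idxOf_append_of_mem hw, List.idxOf_append_of_notMem hfa]
          have := List.idxOf_lt_length_of_mem hw
          omega
    · exact rk_of_notMem (fun w hw => (a1.2 w hw).2) (by omega) (by omega) hmem hfm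
  rintro ⟨w1, w2, w3⟩
  exact hs x (by rw [size_inst]; omega) y (by rw [size_inst]; omega) z (by rw [size_inst]; omega)
    l1.2 l2.2 ⟨key x y z hx hy w1, key y z x l1.1 hz w2, key z x y l2.1 hx' w3⟩

end Pool.Agent.NPC.TG
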