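import Pool.Agent.NPC.Classes

/-!
Three-gender stable marriage with lexicographically cyclic preferences: definitions.
-/

namespace Pool.Agent.NPC.TG

/-- The preferences of all agents of one kind: entry `i` belongs to agent `i` of this kind. It
consists of the strict order of the agent on the kind that counts first and of its strict order on
the remaining kind, each given as a list of numbers, best first. -/
abbrev Prefs : Type := List (List ℕ × List ℕ)

/-- An instance: the preferences of the men (first component of an entry: order on the women,
second: order on the dogs), of the women (order on the dogs, order on the men) and of the dogs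
(order on the men, order on the women). -/
abbrev Inst : Type := Prefs × Prefs × Prefs

/-- the number of men -/
def size (I : Inst) : ℕ := I.1.length

/-- `n` agents, each with two orders of `0, …, n-1` -/
def IsPrefs (n : ℕ) (p : Prefs) : Prop :=
  p.length = n ∧ ∀ q ∈ p, q.1.Perm (List.range n) ∧ q.2.Perm (List.range n)

/-- a lexicographically cyclic instance of size `size I` -/
def IsLexCyclic (I : Inst) : Prop :=
  IsPrefs (size I) I.1 ∧ IsPrefs (size I) I.2.1 ∧ IsPrefs (size I) I.2.2

/-- An agent with preferences `q` strictly prefers the pair `(y, z)` to `(y', z')`, where `y`, `y'`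
are of the kind that counts first. -/
def LexPref (q : List ℕ × List ℕ) (y z y' z' : ℕ) : Prop :=
  q.1.idxOf y < q.1.idxOf y' ∨ (y = y' ∧ q.2.idxOf z < q.2.idxOf z')

/-- `M` is a list of `n` triples (man, woman, dog) in which every agent occurs exactly once -/
def IsMatching (n : ℕ) (M : List (ℕ × ℕ × ℕ)) : Prop :=
  (M.map (fun t => t.1)).Perm (List.range n) ∧ (M.map (fun t => t.2.1)).Perm (List.range n) ∧
    (M.map (fun t => t.2.2)).Perm (List.range n)

/-- the triple `(m, w, d)` blocks `M`: each of its members strictly prefers the pair of the two
other members to its pair in `M` -/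
def Blocks (I : Inst) (M : List (ℕ × ℕ × ℕ)) (m w d : ℕ) : Prop :=
  m < size I ∧ w < size I ∧ d < size I ∧ ∀ t ∈ M,
    (t.1 = m → LexPref (I.1.getD m ([], [])) w d t.2.1 t.2.2) ∧
    (t.2.1 = w → LexPref (I.2.1.getD w ([], [])) d m t.2.2 t.1) ∧
    (t.2.2 = d → LexPref (I.2.2.getD d ([], [])) m w t.1 t.2.1)

/-- `M` is a stable matching -/
def Stable (I : Inst) (M : List (ℕ × ℕ × ℕ)) : Prop :=
  IsMatching (size I) M ∧ ∀ m w d, ¬ Blocks I M m w d

end Pool.Agent.NPC.TG
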