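import Pool.Agent.H642R2.TGDefs
import Pool.Agent.NPC.Dec

/-!
Existence of stable matchings is in NP.
-/

namespace Pool.Agent.NPC.TG

/-- is `l` a permutation of `0, …, n-1` -/
def isPerm (n : ℕ) (l : List ℕ) : Bool :=
  decide (l.length = n) && (List.range n).all (fun a => decide (a ∈ l))

theorem isPerm_iff {n : ℕ} {l : List ℕ} : isPerm n l = true ↔ l.Perm (List.range n) := by
  unfold isPerm
  simp only [Bool.and_eq_true, decide_eq_true_eq, List.all_eq_true, List.mem_range]
  constructor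
  · rintro ⟨h1, h2⟩
    refine (List.Subperm.perm_of_length_le (List.subperm_of_subset List.nodup_range ?_)
      (by simp [h1])).symm
    intro a ha
    exact h2 a (List.mem_range.1 ha)
  · intro h
    refine ⟨by rw [h.length_eq, List.length_range], fun a ha => ?_⟩
    rw [h.mem_iff]
    exact List.mem_range.2 ha

def isPrefs (n : ℕ) (p : Prefs) : Bool :=
  decide (p.length = n) && p.all (fun q => isPerm n q.1 && isPerm n q.2)

theorem isPrefs_iff {n : ℕ} {p : Prefs} : isPrefs n p = true ↔ IsPrefs n p := by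
  unfold isPrefs IsPrefs
  simp only [Bool.and_eq_true, decide_eq_true_eq, List.all_eq_true, isPerm_iff]

def isLex (I : Inst) : Bool :=
  isPrefs I.1.length I.1 && (isPrefs I.1.length I.2.1 && isPrefs I.1.length I.2.2)

theorem isLex_iff {I : Inst} : isLex I = true ↔ IsLexCyclic I := by
  unfold isLex IsLexCyclic size
  simp only [Bool.and_eq_true, isPrefs_iff]

def isMat (n : ℕ) (M : List (ℕ × ℕ × ℕ)) : Bool :=
  isPerm n (M.map (fun t => t.1)) && (isPerm n (M.map (fun t => t.2.1)) &&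
    isPerm n (M.map (fun t => t.2.2)))

theorem isMat_iff {n : ℕ} {M : List (ℕ × ℕ × ℕ)} : isMat n M = true ↔ IsMatching n M := by
  unfold isMat IsMatching
  simp only [Bool.and_eq_true, isPerm_iff]

def lexb (q : List ℕ × List ℕ) (y z y' z' : ℕ) : Bool :=
  decide (q.1.idxOf y < q.1.idxOf y') || (decide (y = y') && decide (q.2.idxOf z < q.2.idxOf z'))

theorem lexb_iff {q : List ℕ × List ℕ} {y z y' z' : ℕ} :
    lexb q y z y' z' = true ↔ LexPref q y z y' z' := by
  unfold lexb LexPref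
  simp only [Bool.or_eq_true, Bool.and_eq_true, decide_eq_true_eq]

/-- does the triple block -/
def blk (I : Inst) (M : List (ℕ × ℕ × ℕ)) (m w d : ℕ) : Bool :=
  M.all (fun t => (!decide (t.1 = m) || lexb (I.1.getD m ([], [])) w d t.2.1 t.2.2) &&
    ((!decide (t.2.1 = w) || lexb (I.2.1.getD w ([], [])) d m t.2.2 t.1) &&
      (!decide (t.2.2 = d) || lexb (I.2.2.getD d ([], [])) m w t.1 t.2.1)))

theorem blk_iff {I : Inst} {M : List (ℕ × ℕ × ℕ)} {m w d : ℕ} (hm : m < size I)
    (hw : w < size I) (hd : d < size I) : blk I M m w d = true ↔ Blocks I M m w d := by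
  have aux : ∀ (p : Prop) [Decidable p] (b : Bool), (!decide p || b) = true ↔ (p → b = true) := by
    intro p _ b
    by_cases hp : p <;> simp [hp]
  unfold blk Blocks
  simp only [List.all_eq_true, Bool.and_eq_true, aux, lexb_iff]
  exact ⟨fun h => ⟨hm, hw, hd, h⟩, fun h => h.2.2.2⟩

/-- the verifier -/
def verify (p : Inst × List (ℕ × ℕ × ℕ)) : Bool :=
  isLex p.1 && (isMat p.1.1.length p.2 && (List.range p.1.1.length).all (fun m =>
    (List.range p.1.1.length).all (fun w => (List.range p.1.1.length).all (fun d =>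
      !blk p.1 p.2 m w d))))

theorem verify_iff {I : Inst} {M : List (ℕ × ℕ × ℕ)} :
    verify (I, M) = true ↔ IsLexCyclic I ∧ Stable I M := by
  unfold verify Stable
  simp only [Bool.and_eq_true, isLex_iff, isMat_iff, List.all_eq_true, List.mem_range]
  refine and_congr_right fun _ => and_congr_right fun _ => ?_
  constructor
  · intro h m w d hb
    have := h m hb.1 w hb.2.1 d hb.2.2.1
    rw [(blk_iff hb.1 hb.2.1 hb.2.2.1).2 hb] at this
    exact absurd this (by decide)
  · intro h m hm w hw d hd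
    have := h m w d
    rw [← blk_iff hm hw hd] at this
    simpa using this

theorem hasStable_iff (I : Inst) : (IsLexCyclic I ∧ ∃ M, Stable I M) ↔
    ∃ M : List (ℕ × ℕ × ℕ), sz M ≤ (Polynomial.C 12 * Polynomial.X * Polynomial.X +
      Polynomial.C 6 * Polynomial.X + Polynomial.C 1).eval (sz I) ∧ verify (I, M) = true := by
  constructor
  · rintro ⟨hI, M, hM⟩
    refine ⟨M, ?_, verify_iff.2 ⟨hI, hM⟩⟩
    obtain ⟨p1, p2, p3⟩ := hM.1
    have hlen : M.length = size I := by
      have := p1.length_eq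
      simpa using this
    have h1 := sz_le_length_mul M (12 * size I + 5) (by
      intro t ht
      have a1 : t.1 < size I := List.mem_range.1 (p1.mem_iff.1 (List.mem_map.2 ⟨t, ht, rfl⟩))
      have a2 : t.2.1 < size I := List.mem_range.1 (p2.mem_iff.1 (List.mem_map.2 ⟨t, ht, rfl⟩))
      have a3 : t.2.2 < size I := List.mem_range.1 (p3.mem_iff.1 (List.mem_map.2 ⟨t, ht, rfl⟩))
      have b1 := sz_nat_le t.1
      have b2 := sz_nat_le t.2.1
      have b3 := sz_nat_le t.2.2
      have c1 := Poly.size_le_self t.1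
      have c2 := Poly.size_le_self t.2.1
      have c3 := Poly.size_le_self t.2.2
      have e1 : sz t = sz t.1 + sz t.2 + 1 := sz_pair t.1 t.2
      have e2 : sz t.2 = sz t.2.1 + sz t.2.2 + 1 := sz_pair t.2.1 t.2.2
      omega)
    rw [hlen] at h1
    have h6 : size I ≤ sz I := by
      have e1 := length_lt_sz I.1
      have e2 : sz I = sz I.1 + sz I.2 + 1 := sz_pair I.1 I.2
      have : size I = I.1.length := rfl
      omega
    refine h1.trans ?_
    simp only [Polynomial.eval_add, Polynomial.eval_mul, Polynomial.eval_C, Polynomial.eval_X]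
    generalize sz I = s at *
    generalize size I = n at *
    have h7 : n * (12 * n + 5 + 1) ≤ s * (12 * s + 5 + 1) := Nat.mul_le_mul h6 (by omega)
    have h8 : s * (12 * s + 5 + 1) = 12 * s * s + 6 * s := by ring
    omega
  · rintro ⟨M, _, h⟩
    obtain ⟨h1, h2⟩ := verify_iff.1 h
    exact ⟨h1, M, h2⟩

section

variable {α : Type} [TEnc α]

theorem poly_idxOf {l : α → List ℕ} {x : α → ℕ} (hl : NPC.Poly l) (hx : NPC.Poly x) :
    NPC.Poly (fun a => (l a).idxOf (x a)) := by
  obtain ⟨r, hr⟩ := hl.sz_le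
  have key : ∀ (x : ℕ) (l : List ℕ),
      l.foldr (fun b acc => if b = x then 0 else acc + 1) 0 = l.idxOf x := by
    intro x l
    induction l with
    | nil => rfl
    | cons b l ih =>
      rw [List.foldr_cons, ih, List.idxOf_cons]
      by_cases h : b = x
      · subst h; simp
      · have : (b == x) = false := by simpa using h
        simp [h, this]
  refine (Poly.foldr (F := fun a b acc => if b = x a then 0 else acc + 1) hl (Poly.const 0) ?_
    (Polynomial.C 4 * r + Polynomial.C 1) ?_).congr fun a => key _ _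
  · exact Poly.ite (Poly.decide_eq (Poly.fst (Poly.snd Poly.id)) (hx.comp (Poly.fst Poly.id)))
      (Poly.const _) (Poly.succ (Poly.snd (Poly.snd Poly.id)))
  · intro a k hk
    rw [key]
    have h1 : ((l a).drop k).idxOf (x a) ≤ ((l a).drop k).length := List.idxOf_le_length
    have h2 : ((l a).drop k).length ≤ (l a).length := by simp
    have h3 := length_lt_sz (l a)
    have h4 := hr a
    have h5 := sz_nat_le (((l a).drop k).idxOf (x a))
    have h6 := Poly.size_le_self (((l a).drop k).idxOf (x a))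
    simp only [Polynomial.eval_add, Polynomial.eval_mul, Polynomial.eval_C]
    omega

theorem poly_isPerm {n : α → ℕ} {l : α → List ℕ} (hn : UPoly n) (hl : NPC.Poly l) :
    NPC.Poly (fun a => isPerm (n a) (l a)) :=
  Poly.and (Poly.decide_eq (Poly.length hl) hn.toPoly)
    (Poly.all (p := fun a b => decide (b ∈ l a)) hn.range
      (Poly.decide_mem (Poly.snd Poly.id) (hl.comp (Poly.fst Poly.id))))

theorem poly_isPrefs {n : α → ℕ} {p : α → Prefs} (hn : UPoly n) (hp : NPC.Poly p) :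
    NPC.Poly (fun a => isPrefs (n a) (p a)) := by
  refine Poly.and (Poly.decide_eq (Poly.length hp) hn.toPoly)
    (Poly.all (p := fun a q => isPerm (n a) q.1 && isPerm (n a) q.2) hp ?_)
  have h : UPoly (fun q : α × (List ℕ × List ℕ) => n q.1) := hn.comp (Poly.fst Poly.id)
  exact Poly.and (poly_isPerm h (Poly.fst (Poly.snd Poly.id)))
    (poly_isPerm h (Poly.snd (Poly.snd Poly.id)))

theorem poly_isMat {n : α → ℕ} {M : α → List (ℕ × ℕ × ℕ)} (hn : UPoly n) (hM : NPC.Poly M) :
    NPC.Poly (fun a => isMat (n a) (M a)) := by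
  have h1 : NPC.Poly (fun a => (M a).map (fun t => t.1)) :=
    Poly.map (F := fun _ t => t.1) hM (Poly.fst (Poly.snd Poly.id))
  have h2 : NPC.Poly (fun a => (M a).map (fun t => t.2.1)) :=
    Poly.map (F := fun _ t => t.2.1) hM (Poly.fst (Poly.snd (Poly.snd Poly.id)))
  have h3 : NPC.Poly (fun a => (M a).map (fun t => t.2.2)) :=
    Poly.map (F := fun _ t => t.2.2) hM (Poly.snd (Poly.snd (Poly.snd Poly.id)))
  exact Poly.and (poly_isPerm hn h1) (Poly.and (poly_isPerm hn h2) (poly_isPerm hn h3))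

theorem poly_lexb {q : α → List ℕ × List ℕ} {y z y' z' : α → ℕ} (hq : NPC.Poly q)
    (hy : NPC.Poly y) (hz : NPC.Poly z) (hy' : NPC.Poly y') (hz' : NPC.Poly z') :
    NPC.Poly (fun a => lexb (q a) (y a) (z a) (y' a) (z' a)) :=
  Poly.or (Poly.decide_lt (poly_idxOf (Poly.fst hq) hy) (poly_idxOf (Poly.fst hq) hy'))
    (Poly.and (Poly.decide_eq hy hy')
      (Poly.decide_lt (poly_idxOf (Poly.snd hq) hz) (poly_idxOf (Poly.snd hq) hz')))

theorem poly_blk {I : α → Inst} {M : α → List (ℕ × ℕ × ℕ)} {m w d : α → ℕ} (hI : NPC.Poly I)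
    (hM : NPC.Poly M) (hm : NPC.Poly m) (hw : NPC.Poly w) (hd : NPC.Poly d) :
    NPC.Poly (fun a => blk (I a) (M a) (m a) (w a) (d a)) := by
  refine Poly.all (p := fun a t =>
    (!decide (t.1 = m a) || lexb ((I a).1.getD (m a) ([], [])) (w a) (d a) t.2.1 t.2.2) &&
    ((!decide (t.2.1 = w a) || lexb ((I a).2.1.getD (w a) ([], [])) (d a) (m a) t.2.2 t.1) &&
      (!decide (t.2.2 = d a) || lexb ((I a).2.2.getD (d a) ([], [])) (m a) (w a) t.1 t.2.1)))
    hM ?_
  have hI' : NPC.Poly (fun q : α × (ℕ × ℕ × ℕ) => I q.1) := hI.comp (Poly.fst Poly.id)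
  have hm' : NPC.Poly (fun q : α × (ℕ × ℕ × ℕ) => m q.1) := hm.comp (Poly.fst Poly.id)
  have hw' : NPC.Poly (fun q : α × (ℕ × ℕ × ℕ) => w q.1) := hw.comp (Poly.fst Poly.id)
  have hd' : NPC.Poly (fun q : α × (ℕ × ℕ × ℕ) => d q.1) := hd.comp (Poly.fst Poly.id)
  have t1 : NPC.Poly (fun q : α × (ℕ × ℕ × ℕ) => q.2.1) := Poly.fst (Poly.snd Poly.id)
  have t2 : NPC.Poly (fun q : α × (ℕ × ℕ × ℕ) => q.2.2.1) :=
    Poly.fst (Poly.snd (Poly.snd Poly.id))
  have t3 : NPC.Poly (fun q : α × (ℕ × ℕ × ℕ) => q.2.2.2) :=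
    Poly.snd (Poly.snd (Poly.snd Poly.id))
  have q1 : NPC.Poly (fun q : α × (ℕ × ℕ × ℕ) => (I q.1).1.getD (m q.1) ([], [])) :=
    Poly.getD (Poly.fst hI') hm' (Poly.const _)
  have q2 : NPC.Poly (fun q : α × (ℕ × ℕ × ℕ) => (I q.1).2.1.getD (w q.1) ([], [])) :=
    Poly.getD (Poly.fst (Poly.snd hI')) hw' (Poly.const _)
  have q3 : NPC.Poly (fun q : α × (ℕ × ℕ × ℕ) => (I q.1).2.2.getD (d q.1) ([], [])) :=
    Poly.getD (Poly.snd (Poly.snd hI')) hd' (Poly.const _)
  exact Poly.and (Poly.or (Poly.not (Poly.decide_eq t1 hm')) (poly_lexb q1 hw' hd' t2 t3))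
    (Poly.and (Poly.or (Poly.not (Poly.decide_eq t2 hw')) (poly_lexb q2 hd' hm' t3 t1))
      (Poly.or (Poly.not (Poly.decide_eq t3 hd')) (poly_lexb q3 hm' hw' t1 t2)))

end

theorem poly_verify : NPC.Poly verify := by
  have hI : NPC.Poly (fun p : Inst × List (ℕ × ℕ × ℕ) => p.1) := Poly.fst Poly.id
  have hn : UPoly (fun p : Inst × List (ℕ × ℕ × ℕ) => p.1.1.length) := UPoly.length (Poly.fst hI)
  have hl : NPC.Poly (fun p : Inst × List (ℕ × ℕ × ℕ) => isLex p.1) :=
    Poly.and (poly_isPrefs hn (Poly.fst hI)) (Poly.and (poly_isPrefs hn (Poly.fst (Poly.snd hI)))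
      (poly_isPrefs hn (Poly.snd (Poly.snd hI))))
  refine Poly.and hl (Poly.and (poly_isMat hn (Poly.snd Poly.id)) ?_)
  refine Poly.all (p := fun (p : Inst × List (ℕ × ℕ × ℕ)) m =>
    (List.range p.1.1.length).all (fun w => (List.range p.1.1.length).all (fun d =>
      !blk p.1 p.2 m w d))) hn.range ?_
  refine Poly.all (p := fun (p : (Inst × List (ℕ × ℕ × ℕ)) × ℕ) w =>
    (List.range p.1.1.1.length).all (fun d => !blk p.1.1 p.1.2 p.2 w d))
    (hn.comp (Poly.fst Poly.id)).range ?_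
  refine Poly.all (p := fun (p : ((Inst × List (ℕ × ℕ × ℕ)) × ℕ) × ℕ) d =>
    !blk p.1.1.1 p.1.1.2 p.1.2 p.2 d)
    ((hn.comp (Poly.fst Poly.id)).comp (Poly.fst Poly.id)).range ?_
  have f1 : NPC.Poly (fun p : (((Inst × List (ℕ × ℕ × ℕ)) × ℕ) × ℕ) × ℕ => p.1) :=
    Poly.fst Poly.id
  exact Poly.not (poly_blk (Poly.fst (Poly.fst (Poly.fst f1))) (Poly.snd (Poly.fst (Poly.fst f1)))
    (Poly.snd (Poly.fst f1)) (Poly.snd f1) (Poly.snd Poly.id))

/-- membership in NP -/
theorem inNPP_stable : InNPP (fun I : Inst => IsLexCyclic I ∧ ∃ M, Stable I M) :=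
  inNPP_of poly_verify _ hasStable_iff

end Pool.Agent.NPC.TG
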