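import Pool.Agent.H642R2.TGCompl
import Pool.Agent.NPC.Sat2
import Pool.Agent.NPC.Dec

/-!
The reduction from 3SAT and its running time.
-/

namespace Pool.Agent.NPC.TG

/-- clauses -/
abbrev Cl : Type := Lit ℕ × Lit ℕ × Lit ℕ

/-- clause number `j` -/
def cl (φ : List Cl) (j : ℕ) : Cl := φ.getD j ((false, 0), (false, 0), (false, 0))

/-- the literal occurrences -/
def ocf (φ : List Cl) (i : ℕ) : Bool × ℕ :=
  if i % 3 = 0 then (cl φ (i / 3)).1
  else if i % 3 = 1 then (cl φ (i / 3)).2.1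
  else (cl φ (i / 3)).2.2

/-- the number of pairs (variable, occurrence) -/
def sq (φ : List Cl) : ℕ := 3 * φ.length * (3 * φ.length)

/-- a quarter of the size of the instance -/
def num (φ : List Cl) : ℕ := 4 * sq φ + 9 * φ.length

/-- the reduction -/
def red (φ : List Cl) : Inst := inst (num φ) (acc φ.length (sq φ) (ocf φ))

theorem cl_mem {φ : List Cl} {j : ℕ} (hj : j < φ.length) : cl φ j ∈ φ := by
  unfold cl
  rw [List.getD_eq_getElem _ _ hj]
  exact List.getElem_mem _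

theorem ctx {φ : List Cl} (hb : Bounded3 φ) (hne : φ ≠ []) : Ctx φ.length (sq φ) (ocf φ) := by
  refine ⟨List.length_pos_iff.2 hne, rfl, fun i hi => ?_⟩
  obtain ⟨h2, h3, h4⟩ := hb _ (cl_mem (φ := φ) (j := i / 3) (by omega))
  unfold ocf
  split_ifs
  · exact h2
  · exact h3
  · exact h4

theorem sat_iff (φ : List Cl) : SAT3 φ ↔ ∃ τ : ℕ → Bool, ∀ d < φ.length, ∃ k < 3,
    τ (ocf φ (3 * d + k)).2 = (ocf φ (3 * d + k)).1 := by
  have e0 : ∀ d, ocf φ (3 * d + 0) = (cl φ d).1 := by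
    intro d
    unfold ocf
    rw [if_pos (by omega), show (3 * d + 0) / 3 = d by omega]
  have e1 : ∀ d, ocf φ (3 * d + 1) = (cl φ d).2.1 := by
    intro d
    unfold ocf
    rw [if_neg (by omega), if_pos (by omega), show (3 * d + 1) / 3 = d by omega]
  have e2 : ∀ d, ocf φ (3 * d + 2) = (cl φ d).2.2 := by
    intro d
    unfold ocf
    rw [if_neg (by omega), if_neg (by omega), show (3 * d + 2) / 3 = d by omega]
  constructor
  · rintro ⟨τ, hτ⟩
    refine ⟨τ, fun d hd => ?_⟩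
    rcases hτ _ (cl_mem hd) with h | h | h
    · exact ⟨0, by omega, by rw [e0]; exact h⟩
    · exact ⟨1, by omega, by rw [e1]; exact h⟩
    · exact ⟨2, by omega, by rw [e2]; exact h⟩
  · rintro ⟨τ, hτ⟩
    refine ⟨τ, fun c hc => ?_⟩
    obtain ⟨d, hd, rfl⟩ : ∃ d < φ.length, cl φ d = c := by
      obtain ⟨j, hj, rfl⟩ := List.mem_iff_getElem.1 hc
      exact ⟨j, hj, by unfold cl; rw [List.getD_eq_getElem _ _ hj]⟩
    obtain ⟨k, hk, h⟩ := hτ d hd
    interval_cases k
    · rw [e0] at h; exact Or.inl h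
    · rw [e1] at h; exact Or.inr (Or.inl h)
    · rw [e2] at h; exact Or.inr (Or.inr h)

theorem red_correct {φ : List Cl} (hb : Bounded3 φ) (hne : φ ≠ []) :
    SAT3 φ ↔ ∃ M, Stable (red φ) M := by
  rw [sat_iff]
  exact (stable_iff_sat (ctx hb hne)).symm

theorem red_ok {φ : List Cl} (hb : Bounded3 φ) (hne : φ ≠ []) : IsLexCyclic (red φ) :=
  inst_ok (ctx hb hne).ok

section

variable {α : Type} [TEnc α]

theorem poly_mulc {m : α → ℕ} (hm : NPC.Poly m) (c : ℕ) : NPC.Poly (fun a => c * m a) :=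
  Poly.mul (Poly.const c) hm

theorem poly_addc {m : α → ℕ} (hm : NPC.Poly m) (c : ℕ) : NPC.Poly (fun a => m a + c) :=
  Poly.add hm (Poly.const c)

theorem poly_subc {m : α → ℕ} (hm : NPC.Poly m) (c : ℕ) : NPC.Poly (fun a => m a - c) :=
  Poly.sub hm (Poly.const c)

theorem poly_divc {m : α → ℕ} (hm : NPC.Poly m) (c : ℕ) : NPC.Poly (fun a => m a / c) :=
  Poly.div hm (Poly.const c)

theorem poly_modc {m : α → ℕ} (hm : NPC.Poly m) (c : ℕ) : NPC.Poly (fun a => m a % c) :=
  Poly.mod hm (Poly.const c)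

theorem poly_single {m : α → ℕ} (hm : NPC.Poly m) : NPC.Poly (fun a => [m a]) :=
  Poly.cons hm (Poly.const _)

theorem poly_cl {φ : α → List Cl} {j : α → ℕ} (hφ : NPC.Poly φ) (hj : NPC.Poly j) :
    NPC.Poly (fun a => cl (φ a) (j a)) :=
  Poly.getD hφ hj (Poly.const _)

theorem poly_ocf {φ : α → List Cl} {i : α → ℕ} (hφ : NPC.Poly φ) (hi : NPC.Poly i) :
    NPC.Poly (fun a => ocf (φ a) (i a)) := by
  have hr : NPC.Poly (fun a => i a % 3) := poly_modc hi 3
  have hc : NPC.Poly (fun a => cl (φ a) (i a / 3)) := poly_cl hφ (poly_divc hi 3)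
  exact Poly.ite (Poly.decide_eq hr (Poly.const 0)) (Poly.fst hc)
    (Poly.ite (Poly.decide_eq hr (Poly.const 1)) (Poly.fst (Poly.snd hc))
      (Poly.snd (Poly.snd hc)))

theorem poly_rot {x : α → ℕ} (hx : NPC.Poly x) : NPC.Poly (fun a => rot (x a)) :=
  Poly.add (poly_mulc (poly_divc hx 3) 3) (poly_modc (poly_addc (poly_modc hx 3) 1) 3)

theorem poly_nx {K q : α → ℕ} (hK : NPC.Poly K) (hq : NPC.Poly q) :
    NPC.Poly (fun a => nx (K a) (q a)) :=
  Poly.add (Poly.mul (Poly.div hq hK) hK) (Poly.mod (poly_addc (Poly.mod hq hK) 1) hK)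

theorem poly_pv {K q : α → ℕ} (hK : NPC.Poly K) (hq : NPC.Poly q) :
    NPC.Poly (fun a => pv (K a) (q a)) :=
  Poly.add (Poly.mul (Poly.div hq hK) hK)
    (Poly.mod (Poly.add (Poly.mod hq hK) (poly_subc hK 1)) hK)

theorem poly_nxt {C Q e : α → ℕ} (hC : NPC.Poly C) (hQ : NPC.Poly Q) (he : NPC.Poly e) :
    NPC.Poly (fun a => nxt (C a) (Q a) (e a)) := by
  have h6 : NPC.Poly (fun a => 6 * Q a) := poly_mulc hQ 6
  exact Poly.ite (Poly.decide_lt he h6)
    (Poly.ite (Poly.decide_lt (poly_modc he 6) (Poly.const 5)) (poly_addc he 1)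
      (poly_mulc (poly_nx (poly_mulc hC 3) (poly_divc he 6)) 6))
    (Poly.ite (Poly.decide_lt (poly_modc (Poly.sub he h6) 9) (Poly.const 8)) (poly_addc he 1)
      (poly_subc he 8))

theorem poly_prv {C Q e : α → ℕ} (hC : NPC.Poly C) (hQ : NPC.Poly Q) (he : NPC.Poly e) :
    NPC.Poly (fun a => prv (C a) (Q a) (e a)) := by
  have h6 : NPC.Poly (fun a => 6 * Q a) := poly_mulc hQ 6
  exact Poly.ite (Poly.decide_lt he h6)
    (Poly.ite (Poly.decide_lt (Poly.const 0) (poly_modc he 6)) (poly_subc he 1)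
      (poly_addc (poly_mulc (poly_pv (poly_mulc hC 3) (poly_divc he 6)) 6) 5))
    (Poly.ite (Poly.decide_lt (Poly.const 0) (poly_modc (Poly.sub he h6) 9)) (poly_subc he 1)
      (poly_addc he 8))

theorem poly_W {C i : α → ℕ} {φ : α → List Cl} (hC : NPC.Poly C) (hφ : NPC.Poly φ)
    (hi : NPC.Poly i) : NPC.Poly (fun a => W (C a) (ocf (φ a)) (i a)) := by
  have ho := poly_ocf hφ hi
  exact Poly.add (poly_mulc (Poly.add (Poly.mul (Poly.snd ho) (poly_mulc hC 3)) hi) 6)
    (Poly.ite (Poly.decide_bool (Poly.fst ho)) (Poly.const 0) (Poly.const 3))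

theorem poly_acc {C Q u : α → ℕ} {φ : α → List Cl} (hC : NPC.Poly C) (hQ : NPC.Poly Q)
    (hφ : NPC.Poly φ) (hu : NPC.Poly u) :
    NPC.Poly (fun a => acc (C a) (Q a) (ocf (φ a)) (u a)) := by
  have h6 : NPC.Poly (fun a => 6 * Q a) := poly_mulc hQ 6
  have hE : NPC.Poly (fun a => 6 * Q a + 9 * C a) := Poly.add h6 (poly_mulc hC 9)
  have hE2 : NPC.Poly (fun a => 12 * Q a + 18 * C a) :=
    Poly.add (poly_mulc hQ 12) (poly_mulc hC 18)
  have hm : NPC.Poly (fun a => u a % 3) := poly_modc hu 3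
  have hw : NPC.Poly (fun a => W (C a) (ocf (φ a)) ((u a - 6 * Q a) / 3)) :=
    poly_W hC hφ (poly_divc (Poly.sub hu h6) 3)
  have hr : NPC.Poly (fun a => rot (rot (u a - (6 * Q a + 9 * C a)))) :=
    poly_rot (poly_rot (Poly.sub hu hE))
  have hj : NPC.Poly (fun a => rot (rot (u a - (6 * Q a + 9 * C a))) / 6 % (3 * C a)) :=
    Poly.mod (poly_divc hr 6) (poly_mulc hC 3)
  have hA : NPC.Poly (fun a =>
      (if 6 * Q a ≤ u a ∧ u a % 3 = 0 then
        [6 * Q a + 9 * C a + rot (W (C a) (ocf (φ a)) ((u a - 6 * Q a) / 3))] else []) ++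
      [nxt (C a) (Q a) (u a), 6 * Q a + 9 * C a + rot (u a)]) :=
    Poly.append (Poly.ite (Poly.decide_and (Poly.decide_le h6 hu)
        (Poly.decide_eq hm (Poly.const 0)))
      (poly_single (Poly.add hE (poly_rot hw))) (Poly.const []))
      (Poly.cons (poly_nxt hC hQ hu) (poly_single (Poly.add hE (poly_rot hu))))
  have hB : NPC.Poly (fun a => [prv (C a) (Q a) (rot (rot (u a - (6 * Q a + 9 * C a))))] ++
      (if rot (rot (u a - (6 * Q a + 9 * C a))) < 6 * Q a ∧
          W (C a) (ocf (φ a)) (rot (rot (u a - (6 * Q a + 9 * C a))) / 6 % (3 * C a)) =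
            rot (rot (u a - (6 * Q a + 9 * C a))) then
        [12 * Q a + 18 * C a + 3 * (rot (rot (u a - (6 * Q a + 9 * C a))) / 6 % (3 * C a)) + 2]
        else [])) :=
    Poly.append (poly_single (poly_prv hC hQ hr))
      (Poly.ite (Poly.decide_and (Poly.decide_lt hr h6) (Poly.decide_eq (poly_W hC hφ hj) hr))
        (poly_single (poly_addc (Poly.add hE2 (poly_mulc hj 3)) 2)) (Poly.const []))
  have hZ : NPC.Poly (fun a => if u a % 3 = 2 then
      [6 * Q a + 3 * ((u a - (12 * Q a + 18 * C a)) / 3)] else []) :=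
    Poly.ite (Poly.decide_eq hm (Poly.const 2))
      (poly_single (Poly.add h6 (poly_mulc (poly_divc (Poly.sub hu hE2) 3) 3))) (Poly.const [])
  exact Poly.ite (Poly.decide_lt hu hE) hA (Poly.ite (Poly.decide_lt hu hE2) hB hZ)

theorem poly_fil {N g : α → ℕ} (hN : UPoly N) (hg : NPC.Poly g) :
    NPC.Poly (fun a => fil (N a) (g a)) := by
  refine Poly.map (F := fun a i => 9 * N a + 3 * i + g a % 3) hN.range ?_
  have h1 : NPC.Poly (fun q : α × ℕ => 9 * N q.1) :=
    poly_mulc (hN.toPoly.comp (Poly.fst Poly.id)) 9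
  have h2 : NPC.Poly (fun q : α × ℕ => g q.1 % 3) := poly_modc (hg.comp (Poly.fst Poly.id)) 3
  exact Poly.add (Poly.add h1 (poly_mulc (Poly.snd Poly.id) 3)) h2

theorem poly_T1 {N C Q v : α → ℕ} {φ : α → List Cl} (hN : UPoly N) (hC : NPC.Poly C)
    (hQ : NPC.Poly Q) (hφ : NPC.Poly φ) (hv : NPC.Poly v) :
    NPC.Poly (fun a => T1 (N a) (acc (C a) (Q a) (ocf (φ a))) (v a)) := by
  have hN' := hN.toPoly
  have h3 : NPC.Poly (fun a => 3 * N a) := poly_mulc hN' 3
  have h6 : NPC.Poly (fun a => 6 * N a) := poly_mulc hN' 6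
  have h9 : NPC.Poly (fun a => 9 * N a) := poly_mulc hN' 9
  have r6 : NPC.Poly (fun a => rot (v a - 6 * N a)) := poly_rot (Poly.sub hv h6)
  exact Poly.ite (Poly.decide_lt hv h3)
    (Poly.append (poly_acc hC hQ hφ hv) (poly_single (Poly.add h3 (poly_rot hv))))
    (Poly.ite (Poly.decide_lt hv h6) (poly_single (Poly.add h6 (poly_rot (Poly.sub hv h3))))
      (Poly.ite (Poly.decide_lt hv h9) (Poly.cons r6 (poly_single (Poly.add h9 r6)))
        (Poly.cons (Poly.add h3 (poly_rot (Poly.sub hv h9))) (poly_fil hN (poly_addc hv 1)))))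

theorem poly_T2 {N v : α → ℕ} (hN : UPoly N) (hv : NPC.Poly v) :
    NPC.Poly (fun a => T2 (N a) (v a)) := by
  have hN' := hN.toPoly
  have h3 : NPC.Poly (fun a => 3 * N a) := poly_mulc hN' 3
  have h6 : NPC.Poly (fun a => 6 * N a) := poly_mulc hN' 6
  have h9 : NPC.Poly (fun a => 9 * N a) := poly_mulc hN' 9
  have r3 : NPC.Poly (fun a => rot (rot (v a - 3 * N a))) := poly_rot (poly_rot (Poly.sub hv h3))
  exact Poly.ite (Poly.decide_lt hv h3)
    (poly_single (Poly.add h6 (poly_rot (poly_rot hv))))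
    (Poly.ite (Poly.decide_lt hv h6) (Poly.cons r3 (poly_single (Poly.add h9 r3)))
      (Poly.ite (Poly.decide_lt hv h9)
        (poly_single (Poly.add h3 (poly_rot (poly_rot (Poly.sub hv h6)))))
        (Poly.cons (Poly.add h6 (poly_rot (poly_rot (Poly.sub hv h9))))
          (poly_fil hN (poly_addc hv 2)))))

theorem poly_full {n : α → ℕ} {l : α → List ℕ} (hn : UPoly n) (hl : NPC.Poly l) :
    NPC.Poly (fun a => full (n a) (l a)) :=
  Poly.append hl (Poly.filter (p := fun a b => decide (b ∉ l a)) hn.range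
    (Poly.decide_not (Poly.decide_mem (Poly.snd Poly.id) (hl.comp (Poly.fst Poly.id)))))

theorem poly_div3 {l : α → List ℕ} (hl : NPC.Poly l) :
    NPC.Poly (fun a => (l a).map (fun w => w / 3)) :=
  Poly.map (F := fun _ w => w / 3) hl (poly_divc (Poly.snd Poly.id) 3)

theorem poly_P {N C Q v : α → ℕ} {φ : α → List Cl} (hN : UPoly N) (hC : NPC.Poly C)
    (hQ : NPC.Poly Q) (hφ : NPC.Poly φ) (hv : NPC.Poly v) :
    NPC.Poly (fun a => P (N a) (acc (C a) (Q a) (ocf (φ a))) (v a)) := by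
  have h4 : UPoly (fun a => 4 * N a) := UPoly.mul (UPoly.const 4) hN
  exact Poly.pair (poly_full h4 (poly_div3 (poly_T1 hN hC hQ hφ hv)))
    (poly_full h4 (poly_div3 (poly_T2 hN hv)))

end

theorem upoly_num : UPoly num := by
  have hc : UPoly (fun φ : List Cl => φ.length) := UPoly.length Poly.id
  have h3 : UPoly (fun φ : List Cl => 3 * φ.length) := UPoly.mul (UPoly.const 3) hc
  have hs : UPoly (fun φ : List Cl => 3 * φ.length * (3 * φ.length)) := UPoly.mul h3 h3
  have h4 : UPoly (fun φ : List Cl => 4 * (3 * φ.length * (3 * φ.length))) :=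
    UPoly.mul (UPoly.const 4) hs
  exact UPoly.add h4 (UPoly.mul (UPoly.const 9) hc)

theorem poly_sq : NPC.Poly sq := by
  have h3 : NPC.Poly (fun φ : List Cl => 3 * φ.length) := poly_mulc (Poly.length Poly.id) 3
  exact Poly.mul h3 h3

/-- entry of an instance -/
def ent (φ : List Cl) (v : ℕ) : List ℕ × List ℕ :=
  P (num φ) (acc φ.length (sq φ) (ocf φ)) v

theorem poly_ent {k : ℕ} : NPC.Poly (fun p : List Cl × ℕ => ent p.1 (3 * p.2 + k)) := by
  have hf : NPC.Poly (fun p : List Cl × ℕ => p.1) := Poly.fst Poly.id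
  have hv : NPC.Poly (fun p : List Cl × ℕ => 3 * p.2 + k) :=
    poly_addc (poly_mulc (Poly.snd Poly.id) 3) k
  exact poly_P (upoly_num.comp hf) (Poly.length hf) (poly_sq.comp hf) hf hv

theorem poly_mape {l : List Cl → List ℕ} (hl : NPC.Poly l)
    {F : List Cl → ℕ → List ℕ × List ℕ} (hF : NPC.Poly (fun p : List Cl × ℕ => F p.1 p.2)) :
    NPC.Poly (fun φ => (l φ).map (F φ)) :=
  Poly.map hl hF

theorem poly_row (k : ℕ) :
    NPC.Poly (fun φ : List Cl => (List.range (4 * num φ)).map (fun i => ent φ (3 * i + k))) := by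
  have h4 : UPoly (fun φ : List Cl => 4 * num φ) := UPoly.mul (UPoly.const 4) upoly_num
  exact poly_mape (F := fun φ i => ent φ (3 * i + k)) h4.range poly_ent

theorem poly_red : NPC.Poly red := by
  have h : NPC.Poly (fun φ : List Cl =>
      ((List.range (4 * num φ)).map (fun i => ent φ (3 * i + 0)),
        (List.range (4 * num φ)).map (fun i => ent φ (3 * i + 1)),
        (List.range (4 * num φ)).map (fun i => ent φ (3 * i + 2)))) :=
    Poly.pair (poly_row 0) (Poly.pair (poly_row 1) (poly_row 2))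
  exact h.congr fun φ => rfl

/-- existence of stable matchings is hard -/
theorem hardPr_stable : HardPr IsLexCyclic (fun I => ∃ M, Stable I M) :=
  hardPr_SAT3b.trans poly_red (fun _ h => red_ok h.2.1 h.2.2)
    (fun _ h => red_correct h.2.1 h.2.2)

end Pool.Agent.NPC.TG
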