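import Pool.Agent.H642R2.TGCore

/-!
The acceptability structure of a formula: a ring of triples of even length for every variable,
a ring of nine triples for every clause, and a triple for every literal occurrence.

There are `3 C` variables and `3 C` occurrences of literals, `Q = (3 C)^2`. The triple `e` of a ring
consists of the agents `prv e`, `e` and `6 Q + 9 C + rot e`.
-/

namespace Pool.Agent.NPC.TG

/-- next element of the cyclic group of order `K` in blocks -/
def nx (K q : ℕ) : ℕ := q / K * K + (q % K + 1) % K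

/-- previous element -/
def pv (K q : ℕ) : ℕ := q / K * K + (q % K + (K - 1)) % K

theorem nx_facts {K V q : ℕ} (hK : 2 ≤ K) (hq : q < V * K) :
    nx K q < V * K ∧ nx K q / K = q / K ∧ nx K q % K = (q % K + 1) % K ∧ pv K (nx K q) = q := by
  have h1 : (q % K + 1) % K < K := Nat.mod_lt _ (by omega)
  have h2 : q / K < V := Nat.div_lt_of_lt_mul (by rw [Nat.mul_comm]; exact hq)
  have e1 : nx K q / K = q / K := by
    unfold nx
    rw [Nat.add_comm, Nat.add_mul_div_right _ _ (by omega), Nat.div_eq_of_lt h1, Nat.zero_add]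
  have e2 : nx K q % K = (q % K + 1) % K := by
    unfold nx
    rw [Nat.add_comm, Nat.add_mul_mod_self_right, Nat.mod_mod]
  have h3 : q % K < K := Nat.mod_lt _ (by omega)
  have h4 := Nat.div_add_mod q K
  have h5 : (q % K + 1) % K = if q % K + 1 = K then 0 else q % K + 1 := by
    split
    · rename_i h; rw [h, Nat.mod_self]
    · exact Nat.mod_eq_of_lt (by omega)
  refine ⟨?_, e1, e2, ?_⟩
  · exact (Nat.div_lt_iff_lt_mul (x := nx K q) (k := K) (y := V) (by omega)).1 (by omega)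
  · unfold pv
    rw [e1, e2, h5]
    have h6 : K * (q / K) = q / K * K := Nat.mul_comm _ _
    split
    · rename_i h
      rw [Nat.zero_add, Nat.mod_eq_of_lt (by omega)]
      omega
    · rename_i h
      have : q % K + 1 + (K - 1) = q % K + K := by omega
      rw [this, Nat.add_mod_right, Nat.mod_eq_of_lt h3]
      omega

theorem pv_facts {K V q : ℕ} (hK : 2 ≤ K) (hq : q < V * K) :
    pv K q < V * K ∧ nx K (pv K q) = q := by
  have h1 : (q % K + (K - 1)) % K < K := Nat.mod_lt _ (by omega)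
  have h2 : q / K < V := Nat.div_lt_of_lt_mul (by rw [Nat.mul_comm]; exact hq)
  have e1 : pv K q / K = q / K := by
    unfold pv
    rw [Nat.add_comm, Nat.add_mul_div_right _ _ (by omega), Nat.div_eq_of_lt h1, Nat.zero_add]
  have e2 : pv K q % K = (q % K + (K - 1)) % K := by
    unfold pv
    rw [Nat.add_comm, Nat.add_mul_mod_self_right, Nat.mod_mod]
  have h3 : q % K < K := Nat.mod_lt _ (by omega)
  have h4 := Nat.div_add_mod q K
  have h5 : (q % K + (K - 1)) % K = if q % K = 0 then K - 1 else q % K - 1 := by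
    split
    · rename_i h; rw [h, Nat.zero_add]; exact Nat.mod_eq_of_lt (by omega)
    · have : q % K + (K - 1) = q % K - 1 + K := by omega
      rw [this, Nat.add_mod_right]
      exact Nat.mod_eq_of_lt (by omega)
  refine ⟨?_, ?_⟩
  · exact (Nat.div_lt_iff_lt_mul (x := pv K q) (k := K) (y := V) (by omega)).1 (by omega)
  · unfold nx
    rw [e1, e2, h5]
    have h6 : K * (q / K) = q / K * K := Nat.mul_comm _ _
    split
    · rename_i h
      rw [show K - 1 + 1 = K by omega, Nat.mod_self]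
      omega
    · rename_i h
      rw [show q % K - 1 + 1 = q % K by omega, Nat.mod_eq_of_lt h3]
      omega

/-- next triple of the ring -/
def nxt (C Q e : ℕ) : ℕ :=
  if e < 6 * Q then (if e % 6 < 5 then e + 1 else 6 * nx (3 * C) (e / 6))
  else (if (e - 6 * Q) % 9 < 8 then e + 1 else e - 8)

/-- previous triple of the ring -/
def prv (C Q e : ℕ) : ℕ :=
  if e < 6 * Q then (if 0 < e % 6 then e - 1 else 6 * pv (3 * C) (e / 6) + 5)
  else (if 0 < (e - 6 * Q) % 9 then e - 1 else e + 8)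

/-- the triple of a variable ring to which an occurrence is attached -/
def W (C : ℕ) (oc : ℕ → Bool × ℕ) (i : ℕ) : ℕ :=
  6 * ((oc i).2 * (3 * C) + i) + (if (oc i).1 = true then 0 else 3)

/-- acceptable partners of the next kind, best first -/
def acc (C Q : ℕ) (oc : ℕ → Bool × ℕ) (u : ℕ) : List ℕ :=
  if u < 6 * Q + 9 * C then
    (if 6 * Q ≤ u ∧ u % 3 = 0 then [6 * Q + 9 * C + rot (W C oc ((u - 6 * Q) / 3))] else []) ++
      [nxt C Q u, 6 * Q + 9 * C + rot u]
  else if u < 12 * Q + 18 * C then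
    [prv C Q (rot (rot (u - (6 * Q + 9 * C))))] ++
      (if rot (rot (u - (6 * Q + 9 * C))) < 6 * Q ∧
          W C oc (rot (rot (u - (6 * Q + 9 * C))) / 6 % (3 * C)) =
            rot (rot (u - (6 * Q + 9 * C))) then
        [12 * Q + 18 * C + 3 * (rot (rot (u - (6 * Q + 9 * C))) / 6 % (3 * C)) + 2] else [])
  else if u % 3 = 2 then [6 * Q + 3 * ((u - (12 * Q + 18 * C)) / 3)] else []

variable {C Q : ℕ} {oc : ℕ → Bool × ℕ}

theorem nxt_facts (hC : 0 < C) (hQ : Q = 3 * C * (3 * C)) {e : ℕ} (he : e < 6 * Q + 9 * C) :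
    nxt C Q e < 6 * Q + 9 * C ∧ nxt C Q e % 3 = (e + 1) % 3 ∧ prv C Q (nxt C Q e) = e ∧
    (e < 6 * Q → nxt C Q e < 6 * Q ∧ nxt C Q e % 6 = (e % 6 + 1) % 6 ∧
      nxt C Q e / 6 / (3 * C) = e / 6 / (3 * C)) ∧
    (6 * Q ≤ e → 6 * Q ≤ nxt C Q e ∧ (nxt C Q e - 6 * Q) % 9 = ((e - 6 * Q) % 9 + 1) % 9 ∧
      (nxt C Q e - 6 * Q) / 9 = (e - 6 * Q) / 9) := by
  by_cases h1 : e < 6 * Q
  · by_cases h2 : e % 6 < 5
    · have e1 : nxt C Q e = e + 1 := by unfold nxt; rw [if_pos h1, if_pos h2]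
      have e2 : prv C Q (e + 1) = e := by
        unfold prv; rw [if_pos (by omega), if_pos (by omega)]; omega
      have e3 : (e + 1) / 6 = e / 6 := by omega
      rw [e1, e2, e3]
      refine ⟨by omega, by omega, rfl, fun _ => ⟨by omega, by omega, rfl⟩, fun h => by omega⟩
    · have hq : e / 6 < 3 * C * (3 * C) := by omega
      obtain ⟨a1, a2, a3, a4⟩ := nx_facts (K := 3 * C) (by omega) hq
      rw [← hQ] at a1
      have e1 : nxt C Q e = 6 * nx (3 * C) (e / 6) := by unfold nxt; rw [if_pos h1, if_neg h2]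
      have e2 : prv C Q (6 * nx (3 * C) (e / 6)) = e := by
        unfold prv
        rw [if_pos (by omega), if_neg (by omega),
          show 6 * nx (3 * C) (e / 6) / 6 = nx (3 * C) (e / 6) by omega, a4]
        omega
      rw [e1, e2, show 6 * nx (3 * C) (e / 6) / 6 = nx (3 * C) (e / 6) by omega]
      refine ⟨by omega, by omega, rfl, fun _ => ⟨by omega, by omega, a2⟩, fun h => by omega⟩
  · by_cases h2 : (e - 6 * Q) % 9 < 8
    · have e1 : nxt C Q e = e + 1 := by unfold nxt; rw [if_neg h1, if_pos h2]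
      have e2 : prv C Q (e + 1) = e := by
        unfold prv; rw [if_neg (by omega), if_pos (by omega)]; omega
      rw [e1, e2]
      refine ⟨by omega, by omega, rfl, fun h => by omega, fun _ => ⟨by omega, by omega, by omega⟩⟩
    · have e1 : nxt C Q e = e - 8 := by unfold nxt; rw [if_neg h1, if_neg h2]
      have e2 : prv C Q (e - 8) = e := by
        unfold prv; rw [if_neg (by omega), if_neg (by omega)]; omega
      rw [e1, e2]
      refine ⟨by omega, by omega, rfl, fun h => by omega, fun _ => ⟨by omega, by omega, by omega⟩⟩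

theorem prv_facts (hC : 0 < C) (hQ : Q = 3 * C * (3 * C)) {e : ℕ} (he : e < 6 * Q + 9 * C) :
    prv C Q e < 6 * Q + 9 * C ∧ prv C Q e % 3 = (e + 2) % 3 ∧ nxt C Q (prv C Q e) = e ∧
    (e < 6 * Q → prv C Q e < 6 * Q) ∧ (6 * Q ≤ e → 6 * Q ≤ prv C Q e) := by
  by_cases h1 : e < 6 * Q
  · by_cases h2 : 0 < e % 6
    · have e1 : prv C Q e = e - 1 := by unfold prv; rw [if_pos h1, if_pos h2]
      have e2 : nxt C Q (e - 1) = e := by
        unfold nxt; rw [if_pos (by omega), if_pos (by omega)]; omega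
      rw [e1, e2]
      refine ⟨by omega, by omega, rfl, by omega, by omega⟩
    · have hq : e / 6 < 3 * C * (3 * C) := by omega
      obtain ⟨a1, a4⟩ := pv_facts (K := 3 * C) (by omega) hq
      rw [← hQ] at a1
      have e1 : prv C Q e = 6 * pv (3 * C) (e / 6) + 5 := by
        unfold prv; rw [if_pos h1, if_neg h2]
      have e2 : nxt C Q (6 * pv (3 * C) (e / 6) + 5) = e := by
        unfold nxt
        rw [if_pos (by omega), if_neg (by omega),
          show (6 * pv (3 * C) (e / 6) + 5) / 6 = pv (3 * C) (e / 6) by omega, a4]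
        omega
      rw [e1, e2]
      refine ⟨by omega, by omega, rfl, by omega, by omega⟩
  · obtain ⟨m, rfl⟩ : ∃ m, e = 6 * Q + m := ⟨e - 6 * Q, by omega⟩
    clear hQ
    have hm : 6 * Q + m - 6 * Q = m := by omega
    by_cases h2 : 0 < m % 9
    · have e1 : prv C Q (6 * Q + m) = 6 * Q + m - 1 := by
        unfold prv; rw [if_neg h1, hm, if_pos h2]
      have hm' : 6 * Q + m - 1 - 6 * Q = m - 1 := by omega
      have e2 : nxt C Q (6 * Q + m - 1) = 6 * Q + m := by
        unfold nxt; rw [if_neg (by omega), hm', if_pos (by omega)]; omega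
      rw [e1, e2]
      refine ⟨by omega, by omega, rfl, by omega, by omega⟩
    · have e1 : prv C Q (6 * Q + m) = 6 * Q + m + 8 := by
        unfold prv; rw [if_neg h1, hm, if_neg h2]
      have hm' : 6 * Q + m + 8 - 6 * Q = m + 8 := by omega
      have e2 : nxt C Q (6 * Q + m + 8) = 6 * Q + m := by
        unfold nxt; rw [if_neg (by omega), hm', if_neg (by omega)]; omega
      rw [e1, e2]
      refine ⟨by omega, by omega, rfl, by omega, by omega⟩

theorem W_facts (hQ : Q = 3 * C * (3 * C)) (hoc : ∀ i < 3 * C, (oc i).2 < 3 * C) {i : ℕ}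
    (hi : i < 3 * C) : W C oc i < 6 * Q ∧ W C oc i % 3 = 0 ∧ W C oc i / 6 % (3 * C) = i ∧
    W C oc i / 6 / (3 * C) = (oc i).2 ∧ W C oc i % 6 = (if (oc i).1 = true then 0 else 3) := by
  have hx := hoc i hi
  have h1 : (oc i).2 * (3 * C) + i < Q := by
    rw [hQ]
    calc _ < (oc i).2 * (3 * C) + 3 * C := by omega
      _ = ((oc i).2 + 1) * (3 * C) := by ring
      _ ≤ 3 * C * (3 * C) := Nat.mul_le_mul_right _ hx
  have h2 : ((oc i).2 * (3 * C) + i) % (3 * C) = i := by
    rw [Nat.add_comm, Nat.add_mul_mod_self_right, Nat.mod_eq_of_lt hi]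
  have h3 : ((oc i).2 * (3 * C) + i) / (3 * C) = (oc i).2 := by
    rw [Nat.add_comm, Nat.add_mul_div_right _ _ (by omega), Nat.div_eq_of_lt hi, Nat.zero_add]
  have h4 : W C oc i / 6 = (oc i).2 * (3 * C) + i := by
    unfold W
    generalize (oc i).2 * (3 * C) = p
    split <;> omega
  rw [h4, h2, h3]
  unfold W
  generalize (oc i).2 * (3 * C) = p at *
  refine ⟨?_, ?_, rfl, rfl, ?_⟩
  · split <;> omega
  · split <;> omega
  · split <;> omega

theorem rot_lt' {e : ℕ} (he : e < 6 * Q + 9 * C) : rot e < 6 * Q + 9 * C := by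
  unfold rot; omega

theorem acc_A {u : ℕ} (hu : u < 6 * Q + 9 * C) : acc C Q oc u =
    (if 6 * Q ≤ u ∧ u % 3 = 0 then [6 * Q + 9 * C + rot (W C oc ((u - 6 * Q) / 3))] else []) ++
      [nxt C Q u, 6 * Q + 9 * C + rot u] := by
  unfold acc; rw [if_pos hu]

theorem acc_B {e : ℕ} (he : e < 6 * Q + 9 * C) : acc C Q oc (6 * Q + 9 * C + rot e) =
    [prv C Q e] ++ (if e < 6 * Q ∧ W C oc (e / 6 % (3 * C)) = e then
        [12 * Q + 18 * C + 3 * (e / 6 % (3 * C)) + 2] else []) := by
  have h := rot_lt' he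
  unfold acc
  rw [if_neg (by omega), if_pos (by omega), Nat.add_sub_cancel_left, rot3]

theorem acc_Z (i : ℕ) : acc C Q oc (12 * Q + 18 * C + 3 * i + 2) = [6 * Q + 3 * i] := by
  unfold acc
  rw [if_neg (by omega), if_neg (by omega), if_pos (by omega),
    show (12 * Q + 18 * C + 3 * i + 2 - (12 * Q + 18 * C)) / 3 = i by omega]

theorem sorts {u : ℕ} (hu : u < 12 * Q + 27 * C) : u < 6 * Q + 9 * C ∨
    (∃ e < 6 * Q + 9 * C, u = 6 * Q + 9 * C + rot e) ∨
    (∃ i < 3 * C, u = 12 * Q + 18 * C + 3 * i + 2) ∨ acc C Q oc u = [] := by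
  by_cases h1 : u < 6 * Q + 9 * C
  · exact Or.inl h1
  by_cases h2 : u < 12 * Q + 18 * C
  · right; left
    refine ⟨rot (rot (u - (6 * Q + 9 * C))), ?_, ?_⟩
    · exact rot_lt' (rot_lt' (by omega))
    · rw [rot3]; omega
  right; right
  by_cases h3 : u % 3 = 2
  · left; exact ⟨(u - (12 * Q + 18 * C)) / 3, by omega, by omega⟩
  · right
    unfold acc
    rw [if_neg h1, if_neg h2, if_neg h3]

/-- the six sorts of acceptable pairs -/
def Arc (C Q : ℕ) (oc : ℕ → Bool × ℕ) (x y : ℕ) : Prop :=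
  (x < 6 * Q + 9 * C ∧ y = nxt C Q x) ∨
  (x < 6 * Q + 9 * C ∧ y = 6 * Q + 9 * C + rot x) ∨
  (∃ i < 3 * C, x = 6 * Q + 3 * i ∧ y = 6 * Q + 9 * C + rot (W C oc i)) ∨
  (∃ e < 6 * Q + 9 * C, x = 6 * Q + 9 * C + rot e ∧ y = prv C Q e) ∨
  (∃ i < 3 * C, x = 6 * Q + 9 * C + rot (W C oc i) ∧ y = 12 * Q + 18 * C + 3 * i + 2) ∨
  (∃ i < 3 * C, x = 12 * Q + 18 * C + 3 * i + 2 ∧ y = 6 * Q + 3 * i)

theorem arc_iff (hC : 0 < C) (hQ : Q = 3 * C * (3 * C)) (hoc : ∀ i < 3 * C, (oc i).2 < 3 * C)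
    {x y : ℕ} (hx : x < 12 * Q + 27 * C) : y ∈ acc C Q oc x ↔ Arc C Q oc x y := by
  constructor
  · intro h
    rcases sorts (oc := oc) hx with h1 | ⟨e, he, rfl⟩ | ⟨i, hi, rfl⟩ | h1
    · rw [acc_A h1] at h
      simp only [List.mem_append, List.mem_cons, List.not_mem_nil, or_false] at h
      rcases h with h | h | h
      · split_ifs at h with h2
        · simp only [List.mem_singleton] at h
          right; right; left
          exact ⟨(x - 6 * Q) / 3, by omega, by omega, h⟩
        · simp at h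
      · exact Or.inl ⟨h1, h⟩
      · exact Or.inr (Or.inl ⟨h1, h⟩)
    · rw [acc_B he] at h
      simp only [List.mem_append, List.mem_singleton] at h
      rcases h with h | h
      · right; right; right; left
        exact ⟨e, he, rfl, h⟩
      · split_ifs at h with h2
        · simp only [List.mem_singleton] at h
          right; right; right; right; left
          refine ⟨e / 6 % (3 * C), Nat.mod_lt _ (by omega), ?_, h⟩
          rw [h2.2]
        · simp at h
    · rw [acc_Z] at h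
      simp only [List.mem_singleton] at h
      right; right; right; right; right
      exact ⟨i, hi, rfl, h⟩
    · rw [h1] at h; simp at h
  · rintro (⟨h1, h2⟩ | ⟨h1, h2⟩ | ⟨i, hi, h1, h2⟩ | ⟨e, he, h1, h2⟩ | ⟨i, hi, h1, h2⟩ |
      ⟨i, hi, h1, h2⟩)
    · rw [acc_A h1, h2]; simp
    · rw [acc_A h1, h2]; simp
    · subst h1
      rw [acc_A (by omega), if_pos ⟨by omega, by omega⟩,
        show (6 * Q + 3 * i - 6 * Q) / 3 = i by omega, h2]
      simp
    · subst h1
      rw [acc_B he, h2]; simp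
    · subst h1
      obtain ⟨w1, w2, w3, w4, w5⟩ := W_facts hQ hoc hi
      rw [acc_B (by omega), w3, if_pos ⟨w1, rfl⟩, h2]; simp
    · subst h1
      rw [acc_Z, h2]; simp

theorem accOk (hC : 0 < C) (hQ : Q = 3 * C * (3 * C)) (hoc : ∀ i < 3 * C, (oc i).2 < 3 * C) :
    AccOk (4 * Q + 9 * C) (acc C Q oc) := by
  constructor
  · intro v hv w hw
    rw [arc_iff hC hQ hoc (by omega)] at hw
    rcases hw with ⟨h1, h2⟩ | ⟨h1, h2⟩ | ⟨i, hi, h1, h2⟩ | ⟨e, he, h1, h2⟩ | ⟨i, hi, h1, h2⟩ |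
      ⟨i, hi, h1, h2⟩
    · have := nxt_facts hC hQ h1; omega
    · have := rot_lt' h1; have := rot_mod v; omega
    · have hW := W_facts hQ hoc hi
      have := rot_lt' (C := C) (Q := Q) (e := W C oc i) (by omega)
      have := rot_mod (W C oc i)
      omega
    · have := prv_facts hC hQ he
      have := rot_lt' he
      have := rot_mod e
      omega
    · have hW := W_facts hQ hoc hi
      have := rot_lt' (C := C) (Q := Q) (e := W C oc i) (by omega)
      have := rot_mod (W C oc i)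
      omega
    · omega
  · intro v hv
    rcases sorts (C := C) (Q := Q) (oc := oc) (u := v) (by omega) with h1 | ⟨e, he, rfl⟩ | ⟨i, hi, rfl⟩ | h1
    · rw [acc_A h1]
      have a1 := nxt_facts hC hQ h1
      have a2 := rot_lt' h1
      split_ifs with h2
      · have hi : (v - 6 * Q) / 3 < 3 * C := by omega
        have hW := W_facts hQ hoc hi
        have a3 := rot_lt' (C := C) (Q := Q) (e := W C oc ((v - 6 * Q) / 3)) (by omega)
        have a4 : rot (W C oc ((v - 6 * Q) / 3)) ≠ rot v := by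
          intro he
          have := rot_inj he
          omega
        simp only [List.singleton_append, List.nodup_cons, List.mem_cons, List.not_mem_nil,
          or_false, List.nodup_nil, and_true, not_or, not_false_eq_true]
        omega
      · simp only [List.nil_append, List.nodup_cons, List.mem_cons, List.not_mem_nil, or_false,
          List.nodup_nil, and_true, not_false_eq_true]
        omega
    · rw [acc_B he]
      have a1 := prv_facts hC hQ he
      split_ifs with h2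
      · simp only [List.singleton_append, List.nodup_cons, List.mem_cons, List.not_mem_nil,
          or_false, List.nodup_nil, and_true, not_false_eq_true]
        omega
      · simp
    · rw [acc_Z]; simp
    · rw [h1]; simp

/-- the third agent of a triple -/
theorem tri (hC : 0 < C) (hQ : Q = 3 * C * (3 * C)) (hoc : ∀ i < 3 * C, (oc i).2 < 3 * C)
    {x y z : ℕ} (h1 : Arc C Q oc x y) (h2 : Arc C Q oc y z) (h3 : Arc C Q oc z x) :
    (∃ e < 6 * Q + 9 * C, (x = prv C Q e ∧ y = e ∧ z = 6 * Q + 9 * C + rot e) ∨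
      (y = prv C Q e ∧ z = e ∧ x = 6 * Q + 9 * C + rot e) ∨
      (z = prv C Q e ∧ x = e ∧ y = 6 * Q + 9 * C + rot e)) ∨
    ∃ i < 3 * C,
      (x = 6 * Q + 3 * i ∧ y = 6 * Q + 9 * C + rot (W C oc i) ∧
        z = 12 * Q + 18 * C + 3 * i + 2) ∨
      (y = 6 * Q + 3 * i ∧ z = 6 * Q + 9 * C + rot (W C oc i) ∧
        x = 12 * Q + 18 * C + 3 * i + 2) ∨
      (z = 6 * Q + 3 * i ∧ x = 6 * Q + 9 * C + rot (W C oc i) ∧
        y = 12 * Q + 18 * C + 3 * i + 2) := by
  -- ranges
  have rg : ∀ x y, Arc C Q oc x y → x < 12 * Q + 27 * C ∧ y < 12 * Q + 27 * C := by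
    rintro x y (⟨h1, h2⟩ | ⟨h1, h2⟩ | ⟨i, hi, h1, h2⟩ | ⟨e, he, h1, h2⟩ | ⟨i, hi, h1, h2⟩ |
      ⟨i, hi, h1, h2⟩)
    · have := nxt_facts hC hQ h1; omega
    · have := rot_lt' h1; omega
    · have hW := W_facts hQ hoc hi
      have := rot_lt' (C := C) (Q := Q) (e := W C oc i) (by omega)
      omega
    · have := prv_facts hC hQ he
      have := rot_lt' he
      omega
    · have hW := W_facts hQ hoc hi
      have := rot_lt' (C := C) (Q := Q) (e := W C oc i) (by omega)
      omega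
    · omega
  -- an arc into an agent of the third sort
  have intoZ : ∀ y z, Arc C Q oc y z → 12 * Q + 18 * C ≤ z → ∃ i < 3 * C,
      y = 6 * Q + 9 * C + rot (W C oc i) ∧ z = 12 * Q + 18 * C + 3 * i + 2 := by
    rintro x y (⟨h1, h2⟩ | ⟨h1, h2⟩ | ⟨i, hi, h1, h2⟩ | ⟨e, he, h1, h2⟩ | ⟨i, hi, h1, h2⟩ |
      ⟨i, hi, h1, h2⟩) hz
    · have := nxt_facts hC hQ h1; omega
    · have := rot_lt' h1; omega
    · have hW := W_facts hQ hoc hi
      have := rot_lt' (C := C) (Q := Q) (e := W C oc i) (by omega)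
      omega
    · have := prv_facts hC hQ he
      omega
    · exact ⟨i, hi, h1, h2⟩
    · omega
  have fromZ : ∀ z x, Arc C Q oc z x → 12 * Q + 18 * C ≤ z → ∃ i < 3 * C,
      z = 12 * Q + 18 * C + 3 * i + 2 ∧ x = 6 * Q + 3 * i := by
    rintro x y (⟨h1, h2⟩ | ⟨h1, h2⟩ | ⟨i, hi, h1, h2⟩ | ⟨e, he, h1, h2⟩ | ⟨i, hi, h1, h2⟩ |
      ⟨i, hi, h1, h2⟩) hz
    · omega
    · omega
    · omega
    · have := rot_lt' he; omega
    · have hW := W_facts hQ hoc hi
      have := rot_lt' (C := C) (Q := Q) (e := W C oc i) (by omega)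
      omega
    · exact ⟨i, hi, h1, h2⟩
  have caseZ : ∀ x y z, Arc C Q oc y z → Arc C Q oc z x → 12 * Q + 18 * C ≤ z →
      ∃ i < 3 * C, x = 6 * Q + 3 * i ∧ y = 6 * Q + 9 * C + rot (W C oc i) ∧
        z = 12 * Q + 18 * C + 3 * i + 2 := by
    intro x y z h2 h3 hz
    obtain ⟨i, hi, a1, a2⟩ := intoZ y z h2 hz
    obtain ⟨j, hj, b1, b2⟩ := fromZ z x h3 hz
    have : j = i := by omega
    subst this
    exact ⟨j, hj, b2, a1, a2⟩
  -- an arc between agents of the first sort
  have AA : ∀ x y, Arc C Q oc x y → x < 6 * Q + 9 * C → y < 6 * Q + 9 * C → y = nxt C Q x := by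
    rintro x y (⟨h1, h2⟩ | ⟨h1, h2⟩ | ⟨i, hi, h1, h2⟩ | ⟨e, he, h1, h2⟩ | ⟨i, hi, h1, h2⟩ |
      ⟨i, hi, h1, h2⟩) hx hy
    · exact h2
    · omega
    · omega
    · omega
    · omega
    · omega
  -- an arc out of an agent of the second sort
  have BA : ∀ e y, e < 6 * Q + 9 * C → Arc C Q oc (6 * Q + 9 * C + rot e) y →
      y < 6 * Q + 9 * C → y = prv C Q e := by
    rintro e y he (⟨h1, h2⟩ | ⟨h1, h2⟩ | ⟨i, hi, h1, h2⟩ | ⟨e', he', h1, h2⟩ | ⟨i, hi, h1, h2⟩ |
      ⟨i, hi, h1, h2⟩) hy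
    · omega
    · omega
    · omega
    · have : rot e = rot e' := by omega
      rw [rot_inj this]; exact h2
    · omega
    · have := rot_lt' he; omega
  have notBB : ∀ x y, Arc C Q oc x y → 6 * Q + 9 * C ≤ x → 6 * Q + 9 * C ≤ y →
      y < 12 * Q + 18 * C → False := by
    rintro x y (⟨h1, h2⟩ | ⟨h1, h2⟩ | ⟨i, hi, h1, h2⟩ | ⟨e', he', h1, h2⟩ | ⟨i, hi, h1, h2⟩ |
      ⟨i, hi, h1, h2⟩) hx hy hy'
    · omega
    · omega
    · omega
    · have := (prv_facts hC hQ he').1
      omega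
    · omega
    · omega
  have caseB : ∀ x y z, Arc C Q oc x y → Arc C Q oc y z → Arc C Q oc z x →
      x < 12 * Q + 18 * C → y < 12 * Q + 18 * C → 6 * Q + 9 * C ≤ z → z < 12 * Q + 18 * C →
      ∃ e < 6 * Q + 9 * C, x = prv C Q e ∧ y = e ∧ z = 6 * Q + 9 * C + rot e := by
    intro x y z h1 h2 h3 hx hy hz hz'
    have hyA : y < 6 * Q + 9 * C := by
      by_contra hc
      exact notBB y z h2 (by omega) hz hz'
    have hxA : x < 6 * Q + 9 * C := by
      by_contra hc
      exact notBB z x h3 hz (by omega) hx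
    obtain ⟨e, he, rfl⟩ : ∃ e < 6 * Q + 9 * C, z = 6 * Q + 9 * C + rot e :=
      ⟨rot (rot (z - (6 * Q + 9 * C))), rot_lt' (rot_lt' (by omega)), by rw [rot3]; omega⟩
    have e1 := BA e x he h3 hxA
    have e2 := AA x y h1 hxA hyA
    rw [e1, (prv_facts hC hQ he).2.2.1] at e2
    exact ⟨e, he, e1, e2, rfl⟩
  have l1 := rg x y h1
  have l2 := rg y z h2
  by_cases hz : 12 * Q + 18 * C ≤ z
  · obtain ⟨i, hi, h⟩ := caseZ x y z h2 h3 hz
    exact Or.inr ⟨i, hi, Or.inl h⟩
  by_cases hx : 12 * Q + 18 * C ≤ x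
  · obtain ⟨i, hi, h⟩ := caseZ y z x h3 h1 hx
    exact Or.inr ⟨i, hi, Or.inr (Or.inl h)⟩
  by_cases hy : 12 * Q + 18 * C ≤ y
  · obtain ⟨i, hi, h⟩ := caseZ z x y h1 h2 hy
    exact Or.inr ⟨i, hi, Or.inr (Or.inr h)⟩
  left
  by_cases hz' : 6 * Q + 9 * C ≤ z
  · obtain ⟨e, he, h⟩ := caseB x y z h1 h2 h3 (by omega) (by omega) hz' (by omega)
    exact ⟨e, he, Or.inl h⟩
  by_cases hx' : 6 * Q + 9 * C ≤ x
  · obtain ⟨e, he, h⟩ := caseB y z x h2 h3 h1 (by omega) (by omega) hx' (by omega)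
    exact ⟨e, he, Or.inr (Or.inl h)⟩
  by_cases hy' : 6 * Q + 9 * C ≤ y
  · obtain ⟨e, he, h⟩ := caseB z x y h3 h1 h2 (by omega) (by omega) hy' (by omega)
    exact ⟨e, he, Or.inr (Or.inr h)⟩
  exfalso
  have e1 := AA x y h1 (by omega) (by omega)
  have e2 := AA y z h2 (by omega) (by omega)
  have e3 := AA z x h3 (by omega) (by omega)
  have f1 := nxt_facts hC hQ (e := x) (by omega)
  have f2 := nxt_facts hC hQ (e := y) (by omega)
  have f3 := nxt_facts hC hQ (e := z) (by omega)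
  rw [← e1] at f1
  rw [← e2] at f2
  rw [← e3] at f3
  by_cases hv : x < 6 * Q
  · have := f1.2.2.2.1 hv
    have := f2.2.2.2.1 (by omega)
    have := f3.2.2.2.1 (by omega)
    omega
  · have := f1.2.2.2.2 (by omega)
    have := f2.2.2.2.2 (by omega)
    have := f3.2.2.2.2 (by omega)
    omega

end Pool.Agent.NPC.TG
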