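import Pool.Agent.H642R2.TGRing

/-!
A stable matching of the completed instance gives a satisfying assignment.
-/

namespace Pool.Agent.NPC.TG

variable {C Q : ℕ} {oc : ℕ → Bool × ℕ} {f : ℕ → ℕ}

/-- the standing assumptions -/
structure Ctx (C Q : ℕ) (oc : ℕ → Bool × ℕ) : Prop where
  pos : 0 < C
  sq : Q = 3 * C * (3 * C)
  bd : ∀ i < 3 * C, (oc i).2 < 3 * C

/-- a stable matching -/
structure Stb (C Q : ℕ) (oc : ℕ → Bool × ℕ) (f : ℕ → ℕ) : Prop where
  mat : Mat (4 * (4 * Q + 9 * C)) f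
  stab : StableF (inst (4 * Q + 9 * C) (acc C Q oc)) f

theorem Ctx.ok (c : Ctx C Q oc) : AccOk (4 * Q + 9 * C) (acc C Q oc) := accOk c.pos c.sq c.bd

theorem Ctx.arc (c : Ctx C Q oc) {x y : ℕ} (hx : x < 12 * Q + 27 * C) :
    y ∈ acc C Q oc x ↔ Arc C Q oc x y := arc_iff c.pos c.sq c.bd hx

/-- the triple of an agent with an acceptable partner -/
theorem tri_of (c : Ctx C Q oc) (s : Stb C Q oc f) {v : ℕ} (hv : v < 12 * Q + 27 * C)
    (hm : f v ∈ acc C Q oc v) : Arc C Q oc v (f v) ∧ Arc C Q oc (f v) (f (f v)) ∧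
      Arc C Q oc (f (f v)) v := by
  obtain ⟨h1, h2⟩ := closed c.ok s.mat s.stab (by omega) hm
  have l1 := (c.ok.lt v (by omega) _ hm).1
  have l2 := (c.ok.lt _ l1 _ h1).1
  exact ⟨(c.arc hv).1 hm, (c.arc (by omega)).1 h1, (c.arc (by omega)).1 h2⟩

/-- the triple `e` of a ring is in the matching -/
def S (C Q : ℕ) (f : ℕ → ℕ) (e : ℕ) : Prop := f e = 6 * Q + 9 * C + rot e

/-- the triple of an occurrence is in the matching -/
def SL (C Q : ℕ) (oc : ℕ → Bool × ℕ) (f : ℕ → ℕ) (i : ℕ) : Prop :=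
  f (6 * Q + 3 * i) = 6 * Q + 9 * C + rot (W C oc i)

theorem S_facts (c : Ctx C Q oc) (s : Stb C Q oc f) {e : ℕ} (he : e < 6 * Q + 9 * C)
    (h : S C Q f e) : f (6 * Q + 9 * C + rot e) = prv C Q e ∧ f (prv C Q e) = e := by
  have h' : f e = 6 * Q + 9 * C + rot e := h
  have hm : f e ∈ acc C Q oc e := by
    rw [c.arc (by omega), h']; exact Or.inr (Or.inl ⟨he, rfl⟩)
  obtain ⟨a1, a2, a3⟩ := tri_of c s (by omega) hm
  have hcyc := s.mat.cyc e (by omega)
  have hr := rot_lt' he
  rcases tri c.pos c.sq c.bd a1 a2 a3 with ⟨e', he', h1 | h1 | h1⟩ | ⟨i, hi, h1 | h1 | h1⟩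
  · omega
  · have := (prv_facts c.pos c.sq he').1; omega
  · obtain ⟨b1, b2, b3⟩ := h1
    subst b2
    rw [h'] at b1
    rw [h', b1] at hcyc
    exact ⟨b1, hcyc⟩
  · have := W_facts c.sq c.bd hi
    have h2 : rot e = rot (W C oc i) := by omega
    have := rot_inj h2
    omega
  · omega
  · omega

theorem S_of_nxt (c : Ctx C Q oc) (s : Stb C Q oc f) {e : ℕ} (he : e < 6 * Q + 9 * C)
    (h : f e = nxt C Q e) : S C Q f (nxt C Q e) := by
  have hn := nxt_facts c.pos c.sq he
  have hm : f e ∈ acc C Q oc e := by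
    rw [c.arc (by omega), h]; exact Or.inl ⟨he, rfl⟩
  obtain ⟨a1, a2, a3⟩ := tri_of c s (by omega) hm
  rcases tri c.pos c.sq c.bd a1 a2 a3 with ⟨e', he', h1 | h1 | h1⟩ | ⟨i, hi, h1 | h1 | h1⟩
  · obtain ⟨b1, b2, b3⟩ := h1
    rw [← b2] at b3
    rw [h] at b3
    exact b3
  · omega
  · omega
  · omega
  · omega
  · omega

theorem SL_facts (c : Ctx C Q oc) (s : Stb C Q oc f) {i : ℕ} (hi : i < 3 * C)
    (h : SL C Q oc f i) : f (6 * Q + 9 * C + rot (W C oc i)) = 12 * Q + 18 * C + 3 * i + 2 := by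
  have h' : f (6 * Q + 3 * i) = 6 * Q + 9 * C + rot (W C oc i) := h
  have hm : f (6 * Q + 3 * i) ∈ acc C Q oc (6 * Q + 3 * i) := by
    rw [c.arc (by omega), h']; exact Or.inr (Or.inr (Or.inl ⟨i, hi, rfl, rfl⟩))
  obtain ⟨a1, a2, a3⟩ := tri_of c s (by omega) hm
  have hW := W_facts c.sq c.bd hi
  rcases tri c.pos c.sq c.bd a1 a2 a3 with ⟨e', he', h1 | h1 | h1⟩ | ⟨j, hj, h1 | h1 | h1⟩
  · omega
  · have := (prv_facts c.pos c.sq he').1; omega
  · obtain ⟨b1, b2, b3⟩ := h1
    have h2 : rot e' = rot (W C oc i) := by omega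
    have := rot_inj h2
    omega
  · obtain ⟨b1, b2, b3⟩ := h1
    have : j = i := by omega
    subst this
    rw [h'] at b3
    exact b3
  · omega
  · omega

theorem S_of_B (c : Ctx C Q oc) (s : Stb C Q oc f) {e : ℕ} (he : e < 6 * Q + 9 * C)
    (h : f (6 * Q + 9 * C + rot e) = prv C Q e) : S C Q f e := by
  have hp := prv_facts c.pos c.sq he
  have hr := rot_lt' he
  have hm : f (6 * Q + 9 * C + rot e) ∈ acc C Q oc (6 * Q + 9 * C + rot e) := by
    rw [c.arc (by omega), h]
    exact Or.inr (Or.inr (Or.inr (Or.inl ⟨e, he, rfl, rfl⟩)))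
  obtain ⟨a1, a2, a3⟩ := tri_of c s (by omega) hm
  have hcyc := s.mat.cyc (6 * Q + 9 * C + rot e) (by omega)
  rcases tri c.pos c.sq c.bd a1 a2 a3 with ⟨e', he', h1 | h1 | h1⟩ | ⟨i, hi, h1 | h1 | h1⟩
  · have := (prv_facts c.pos c.sq he').1; omega
  · obtain ⟨b1, b2, b3⟩ := h1
    have h2 : rot e = rot e' := by omega
    have h3 := rot_inj h2
    subst h3
    rw [b2] at hcyc
    exact hcyc
  · omega
  · omega
  · omega
  · omega

/-- two neighbouring triples are not both chosen -/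
theorem S_disj (c : Ctx C Q oc) (s : Stb C Q oc f) {e : ℕ} (he : e < 6 * Q + 9 * C)
    (h : S C Q f e) : ¬ S C Q f (nxt C Q e) := by
  intro h'
  have hn := nxt_facts c.pos c.sq he
  have h1 := (S_facts c s hn.1 h').2
  rw [hn.2.2.1] at h1
  have h2 : f e = 6 * Q + 9 * C + rot e := h
  omega

/-- maximality -/
theorem S_max (c : Ctx C Q oc) (s : Stb C Q oc f) {e : ℕ} (he : e < 6 * Q + 9 * C)
    (h : ¬ S C Q f e) (n1 : ∀ i < 3 * C, SL C Q oc f i → e ≠ 6 * Q + 3 * i)
    (n2 : ∀ i < 3 * C, SL C Q oc f i → prv C Q e ≠ 6 * Q + 3 * i) :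
    S C Q f (nxt C Q e) := by
  have hp := prv_facts c.pos c.sq he
  have hr := rot_lt' he
  have hrp := rot_lt' hp.1
  have hn := nxt_facts c.pos c.sq he
  -- an agent of the first sort not matched to an agent of an occurrence
  have fA : ∀ u < 6 * Q + 9 * C, (∀ i < 3 * C, SL C Q oc f i → u ≠ 6 * Q + 3 * i) →
      f u ∈ acc C Q oc u → f u = nxt C Q u ∨ f u = 6 * Q + 9 * C + rot u := by
    intro u hu hne hm
    rw [acc_A hu] at hm
    simp only [List.mem_append, List.mem_cons, List.not_mem_nil, or_false] at hm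
    rcases hm with hm | hm
    · split_ifs at hm with h2
      · simp only [List.mem_singleton] at hm
        have e1 : 6 * Q + 3 * ((u - 6 * Q) / 3) = u := by omega
        exact absurd e1.symm (hne ((u - 6 * Q) / 3) (by omega) (by
          show f (6 * Q + 3 * ((u - 6 * Q) / 3)) = _
          rw [e1]; exact hm))
      · simp at hm
    · exact hm
  have core := coreA c.ok s.mat s.stab (x := prv C Q e) (y := e)
    (z := 6 * Q + 9 * C + rot e) (by omega)
    ((c.arc (by omega)).2 (Or.inl ⟨hp.1, hp.2.2.1.symm⟩))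
    ((c.arc (by omega)).2 (Or.inr (Or.inl ⟨he, rfl⟩)))
    ((c.arc (by omega)).2 (Or.inr (Or.inr (Or.inr (Or.inl ⟨e, he, rfl, rfl⟩)))))
  have w1 : Wants (acc C Q oc) f (prv C Q e) e := by
    by_cases hm : f (prv C Q e) ∈ acc C Q oc (prv C Q e)
    · right
      rcases fA _ hp.1 n2 hm with h1 | h1
      · exfalso
        apply h
        have := S_of_nxt c s hp.1 h1
        rw [hp.2.2.1] at this
        exact this
      · rw [h1, acc_A hp.1, hp.2.2.1]
        split_ifs with h2
        · have hW := W_facts (i := (prv C Q e - 6 * Q) / 3) c.sq c.bd (by omega)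
          have hne : rot (W C oc ((prv C Q e - 6 * Q) / 3)) ≠ rot (prv C Q e) := by
            intro hc
            have := rot_inj hc
            omega
          rw [List.singleton_append, List.idxOf_cons_ne _ (by omega), List.idxOf_cons_self,
            List.idxOf_cons_ne _ (by omega), List.idxOf_cons_ne _ (by omega)]
          omega
        · rw [List.nil_append, List.idxOf_cons_self, List.idxOf_cons_ne _ (by omega)]
          omega
    · exact Or.inl hm
  have w3 : Wants (acc C Q oc) f (6 * Q + 9 * C + rot e) (prv C Q e) := by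
    right
    have hne : f (6 * Q + 9 * C + rot e) ≠ prv C Q e := fun hc => h (S_of_B c s he hc)
    rw [acc_B he, List.singleton_append, List.idxOf_cons_self, List.idxOf_cons_ne _ hne.symm]
    omega
  have w2 : ¬ Wants (acc C Q oc) f e (6 * Q + 9 * C + rot e) := fun hc => core ⟨w1, hc, w3⟩
  unfold Wants at w2
  push Not at w2
  rcases fA e he n1 w2.1 with h1 | h1
  · exact S_of_nxt c s he h1
  · exact absurd h1 h

/-- alternation in the variable rings -/
theorem S_var (c : Ctx C Q oc) (s : Stb C Q oc f) {e : ℕ} (he : e < 6 * Q) :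
    S C Q f (nxt C Q e) ↔ ¬ S C Q f e := by
  have hp := prv_facts c.pos c.sq (e := e) (by omega)
  have h4 := hp.2.2.2.1 he
  constructor
  · intro h1 h2
    exact S_disj c s (by omega) h2 h1
  · intro h1
    exact S_max c s (by omega) h1 (fun i hi _ => by omega) (fun i hi _ => by omega)

theorem S_chain (c : Ctx C Q oc) (s : Stb C Q oc f) {x : ℕ} (hx : x < 3 * C) :
    ∀ j < 6 * (3 * C), S C Q f (6 * (x * (3 * C)) + j) ↔
      (S C Q f (6 * (x * (3 * C))) ↔ j % 2 = 0) := by
  have hlt : x * (3 * C) + 3 * C ≤ Q := by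
    rw [c.sq]
    calc x * (3 * C) + 3 * C = (x + 1) * (3 * C) := by ring
      _ ≤ 3 * C * (3 * C) := Nat.mul_le_mul_right _ hx
  intro j
  induction j with
  | zero => intro _; simp
  | succ j ih =>
    intro hj
    have ih := ih (by omega)
    have e1 : nxt C Q (6 * (x * (3 * C)) + j) = 6 * (x * (3 * C)) + (j + 1) := by
      have h1 : (6 * (x * (3 * C)) + j) / 6 = x * (3 * C) + j / 6 := by omega
      have h2 : (x * (3 * C) + j / 6) / (3 * C) = x := by
        rw [Nat.add_comm, Nat.add_mul_div_right _ _ (by omega), Nat.div_eq_of_lt (by omega),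
          Nat.zero_add]
      have h3 : (x * (3 * C) + j / 6) % (3 * C) = j / 6 := by
        rw [Nat.add_comm, Nat.add_mul_mod_self_right, Nat.mod_eq_of_lt (by omega)]
      unfold nxt
      rw [if_pos (by omega)]
      by_cases h4 : (6 * (x * (3 * C)) + j) % 6 < 5
      · rw [if_pos h4]; rfl
      · rw [if_neg h4, h1]
        unfold nx
        rw [h2, h3, Nat.mod_eq_of_lt (by omega)]
        omega
    have := S_var c s (e := 6 * (x * (3 * C)) + j) (by omega)
    rw [e1] at this
    rw [this, ih]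
    rcases Nat.mod_two_eq_zero_or_one j with hj2 | hj2
    · rw [show (j + 1) % 2 = 1 by omega, hj2]; simp
    · rw [show (j + 1) % 2 = 0 by omega, hj2]; simp

theorem S_lit (c : Ctx C Q oc) (s : Stb C Q oc f) {i : ℕ} (hi : i < 3 * C)
    (h : SL C Q oc f i) : (oc i).1 = true ↔ ¬ S C Q f (6 * ((oc i).2 * (3 * C))) := by
  have hW := W_facts c.sq c.bd hi
  have h1 : ¬ S C Q f (W C oc i) := by
    intro hs
    have a1 := (S_facts c s (by omega) hs).1
    have a2 := SL_facts c s hi h
    have a3 := (prv_facts c.pos c.sq (e := W C oc i) (by omega)).1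
    omega
  have hx := c.bd i hi
  have e1 : W C oc i = 6 * ((oc i).2 * (3 * C)) + (6 * i + (if (oc i).1 = true then 0 else 3)) := by
    unfold W; ring
  rw [e1, S_chain c s hx _ (by split <;> omega)] at h1
  cases hs : (oc i).1
  · rw [hs] at h1
    simp only [Bool.false_eq_true, if_false] at h1 ⊢
    rw [show (6 * i + 3) % 2 = 1 by omega] at h1
    simp only [one_ne_zero, iff_false, not_not] at h1
    simp [h1]
  · rw [hs] at h1
    simp only [if_true, add_zero] at h1
    rw [show (6 * i) % 2 = 0 by omega] at h1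
    simp only [iff_true] at h1
    simp [h1]

theorem exists_SL (c : Ctx C Q oc) (s : Stb C Q oc f) {d : ℕ} (hd : d < C) :
    ∃ k < 3, SL C Q oc f (3 * d + k) := by
  by_contra hcon
  push Not at hcon
  have hno : ∀ i, 3 * d ≤ i → i < 3 * d + 3 → ¬ SL C Q oc f i := by
    intro i h1 h2
    have := hcon (i - 3 * d) (by omega)
    rwa [show 3 * d + (i - 3 * d) = i by omega] at this
  have step : ∀ r < 9, ∃ e', nxt C Q (6 * Q + 9 * d + r) = e' ∧
      e' = 6 * Q + 9 * d + (r + 1) % 9 ∧ (S C Q f e' ↔ ¬ S C Q f (6 * Q + 9 * d + r)) := by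
    intro r hr
    have he : 6 * Q + 9 * d + r < 6 * Q + 9 * C := by omega
    have hn := nxt_facts c.pos c.sq he
    have hp := prv_facts c.pos c.sq he
    have hpn := nxt_facts c.pos c.sq hp.1
    rw [hp.2.2.1] at hpn
    have h6 := hp.2.2.2.2 (by omega)
    obtain ⟨h7, h8, h9⟩ := hpn.2.2.2.2 h6
    obtain ⟨h10, h11, h12⟩ := hn.2.2.2.2 (by omega)
    have hr9 : (6 * Q + 9 * d + r - 6 * Q) % 9 = r := by omega
    have hd9 : (6 * Q + 9 * d + r - 6 * Q) / 9 = d := by omega
    refine ⟨_, rfl, by omega, ?_⟩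
    constructor
    · intro h1 h2
      exact S_disj c s he h2 h1
    · intro h1
      refine S_max c s he h1 (fun i hi hs hc => ?_) (fun i hi hs hc => ?_)
      · exact hno i (by omega) (by omega) hs
      · exact hno i (by omega) (by omega) hs
  have q : ∀ r < 9, (S C Q f (6 * Q + 9 * d + (r + 1) % 9) ↔ ¬ S C Q f (6 * Q + 9 * d + r)) := by
    intro r hr
    obtain ⟨e', h1, h2, h3⟩ := step r hr
    rw [← h2]; exact h3
  have q0 := q 0 (by omega)
  have q1 := q 1 (by omega)
  have q2 := q 2 (by omega)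
  have q3 := q 3 (by omega)
  have q4 := q 4 (by omega)
  have q5 := q 5 (by omega)
  have q6 := q 6 (by omega)
  have q7 := q 7 (by omega)
  have q8 := q 8 (by omega)
  simp only [Nat.reduceAdd, Nat.reduceMod, add_zero] at q0 q1 q2 q3 q4 q5 q6 q7 q8
  tauto

/-- soundness -/
theorem sound (c : Ctx C Q oc) (s : Stb C Q oc f) :
    ∃ τ : ℕ → Bool, ∀ d < C, ∃ k < 3, τ (oc (3 * d + k)).2 = (oc (3 * d + k)).1 := by
  classical
  refine ⟨fun x => decide (¬ S C Q f (6 * (x * (3 * C)))), fun d hd => ?_⟩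
  obtain ⟨k, hk, h⟩ := exists_SL c s hd
  refine ⟨k, hk, ?_⟩
  have := S_lit c s (i := 3 * d + k) (by omega) h
  beta_reduce
  cases hs : (oc (3 * d + k)).1
  · rw [hs] at this
    rw [decide_eq_false_iff_not]
    intro h1
    exact absurd (this.2 h1) (by decide)
  · rw [decide_eq_true_eq]
    exact this.1 hs

end Pool.Agent.NPC.TG
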